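import Pool.Agent.H88.WS.Ib
import Pool.Agent.H88.A4.Iface2

/-!
# AQ (MP_b39724), chapter (W2#): weak Malle with a power of the logarithm over number fields which do not contain the cube roots of
unity. Definitions and statements of the chapters (complete)

`k` a number field, `M = k(ω)`, `τ` the involution of `M / k`, `τ ω = ω ^ 2`. `d_M = [M : ℚ] = 2 [k : ℚ]`. Notation of `H88/WS` over `M`, blocks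
with `c = τ b` (`bk τ b`). `E2`, `dl2`: `E`, `D2 ^ 2 - 4 D1 D3`; `ek τ b : 𝓞 k` is `E2 τ b` as an element of `𝓞 k`. `Ov l w`: `w` is a prime over `l`.
`F2 τ m h b`: the number of classes at the finite places of `k`: one class if a prime over `l` divides `h`, or if `-D1` is not a square
modulo one of the primes over `l`.
-/

open scoped NumberField
open H88.A4 Pool.Agent.H67.WA H88.WS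

noncomputable section

namespace H88.AQ

section defs

variable {k M : Type} [Field k] [NumberField k] [Field M] [NumberField M] [Algebra k M]

/-- the conjugate triple -/
def cj (τ : M ≃ₐ[k] M) (b : T3 M) : T3 M := (tO τ b.1, tO τ b.2.1, tO τ b.2.2)

/-- `E` for `c = τ b` -/
def E2 (τ : M ≃ₐ[k] M) (b : T3 M) : 𝓞 M := Ec (cj τ b) b

/-- `D2 ^ 2 - 4 D1 D3` for `c = τ b` -/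
def dl2 (τ : M ≃ₐ[k] M) (b : T3 M) : 𝓞 M := dl (cj τ b) b

/-- the block of `b` and `τ b` -/
def bk (τ : M ≃ₐ[k] M) (b : T3 M) : Blk (𝓞 M) :=
  ⟨b.1, b.2.1, b.2.2, tO τ b.1, tO τ b.2.1, tO τ b.2.2⟩

open Classical in
/-- `E2 τ b` as an element of `𝓞 k` -/
def ek (τ : M ≃ₐ[k] M) (b : T3 M) : 𝓞 k :=
  if h : ∃ e : 𝓞 k, algebraMap (𝓞 k) (𝓞 M) e = E2 τ b then h.choose else 0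

/-- `τ` as a ring homomorphism of `𝓞 M` -/
def tR (τ : M ≃ₐ[k] M) : 𝓞 M →+* 𝓞 M where
  toFun := tO τ
  map_one' := NumberField.RingOfIntegers.ext (map_one τ)
  map_zero' := NumberField.RingOfIntegers.ext (map_zero τ)
  map_add' x y := NumberField.RingOfIntegers.ext (map_add τ (x : M) (y : M))
  map_mul' x y := NumberField.RingOfIntegers.ext (map_mul τ (x : M) (y : M))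

/-- the conjugate ideal -/
def cI (τ : M ≃ₐ[k] M) (h : Ideal (𝓞 M)) : Ideal (𝓞 M) := h.comap (tR τ)

/-- `w` is a prime of `M` over `l` -/
def Ov (l : Ideal (𝓞 k)) (w : Ideal (𝓞 M)) : Prop :=
  w.IsPrime ∧ w.comap (algebraMap (𝓞 k) (𝓞 M)) = l

open Classical in
/-- local number of classes at the prime `l` of `k`, `D = D1` -/
def lf2 (m : ℕ) (D : 𝓞 M) (h : Ideal (𝓞 M)) (l : Ideal (𝓞 k)) (n : ℕ) : ℕ :=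
  if ∃ w : Ideal (𝓞 M), Ov l w ∧ h ≤ w then 1 else
    if (m : 𝓞 k) ∈ l then (n + 1) ^ 96 else
      if ∃ w : Ideal (𝓞 M), Ov l w ∧ Inr m D w then 1 else n + 1

/-- number of classes -/
def F2 (τ : M ≃ₐ[k] M) (m : ℕ) (h : Ideal (𝓞 M)) (b : T3 M) : ℕ :=
  ∏ l ∈ pf (Ideal.span {ek τ b}), lf2 m (dt b) h l (od l (Ideal.span {ek τ b}))

/-- the conditions on `(u, β)` in the main case -/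
def Blo2 (τ : M ≃ₐ[k] M) (m : ℕ) (C : ℝ) (A : ℕ) (s ρ1 ρ2 : ℝ) (x : 𝓞 M × Blk (𝓞 M)) : Prop :=
  Adm m C s s x.1 (tO τ x.1) ∧ Main2 τ C s ρ1 ρ2 x.2 ∧ x.2.All (Bd (Hp C A s)) ∧
    Rep2 τ (Hp C A s) x.2 x.1

/-- the hypotheses on `τ` -/
def Omk (τ : M ≃ₐ[k] M) (ω : M) : Prop := Invo k M τ ∧ IsPrimitiveRoot ω 3 ∧ τ ω = ω ^ 2

end defs

variable (k M : Type) [Field k] [NumberField k] [Field M] [NumberField M] [Algebra k M]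

/-- LOC: classes at the finite places -/
def Loc3Stmt : Prop :=
  ∀ (τ : M ≃ₐ[k] M) (ω : M), Omk τ ω → ∀ m0 : ℕ, m0 ≠ 0 → ∃ m m2 : ℕ, m ≠ 0 ∧ m2 ≠ 0 ∧ 6 ∣ m ∧
    ∀ b : T3 M, dt b ≠ 0 → E2 τ b ≠ 0 →
      ∃ g : Ideal (𝓞 M), Squarefree g ∧ IsCoprime g (cI τ g) ∧ T3.All (fun x => x ∈ g) b ∧
        ∃ cl : Row (𝓞 M) → ℕ, (∀ π, cl π < F2 τ m g b) ∧
          ∀ (C s : ℝ) (u u' r r' ρ ρ' : 𝓞 M) (π π' : Row (𝓞 M)), π.Cj τ → π'.Cj τ →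
            Adm m0 C s s u (tO τ u) → Sol (bk τ b) π r r' u (tO τ u) →
            Adm m0 C s s u' (tO τ u') → Sol (bk τ b) π' ρ ρ' u' (tO τ u') →
            cl π = cl π' → ∀ x ∈ g * cI τ g, (bk τ b).E ∣ (m2 : 𝓞 M) * x * (bk τ b).br π π'

/-- COM: completions with the number of classes and of boxes -/
def Com3Stmt : Prop :=
  ∀ (τ : M ≃ₐ[k] M) (ω : M), Omk τ ω → ∀ m0 : ℕ, m0 ≠ 0 → ∃ m : ℕ, m ≠ 0 ∧ 6 ∣ m ∧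
    ∀ C : ℝ, 1 ≤ C → ∃ C' : ℝ, 0 < C' ∧
    ∀ s H : ℝ, 0 < s → s ≤ H → 1 ≤ H →
    ∀ b : T3 M, dt b ≠ 0 → E2 τ b ≠ 0 → (bk τ b).All (Bd H) →
      ∃ g : Ideal (𝓞 M), Squarefree g ∧ IsCoprime g (cI τ g) ∧ T3.All (fun x => x ∈ g) b ∧
        ∀ Λ : (M →+* ℂ) → ℝ, (∀ φ, 1 ≤ Λ φ ∧ (1 + Real.log H ≤ Λ φ ∨ Nd s s (Λ φ) (bk τ b) φ)) →
        ∀ S : Finset (𝓞 M), (∀ u ∈ S, Adm m0 C s s u (tO τ u) ∧ Rep2 τ H (bk τ b) u) →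
          (S.card : ℝ) ≤ C' * F2 τ m g b * (∏ φ, Λ φ) *
            (1 + ni g * ∏ φ : M →+* ℂ, Dt s s (bk τ b) φ ^ (-(3 / 4) : ℝ))

/-- AVG (helper12): average of the number of classes over `b` in a cube of `(𝓞 M) ^ 3` -/
def Avg3Stmt : Prop :=
  ∀ (τ : M ≃ₐ[k] M) (ω : M), Omk τ ω → ∀ m : ℕ, m ≠ 0 → 6 ∣ m → ∀ (A : ℕ) (δ : ℝ), 0 < δ →
    ∃ C : ℝ, 0 < C ∧ ∀ X y : ℝ, 3 ≤ X → X ^ δ ≤ y → y ≤ X ^ A →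
    ∀ h : Ideal (𝓞 M), h ≠ ⊥ → Squarefree h → IsCoprime h (cI τ h) →
    ni h ≤ y ^ ((Module.finrank ℚ M : ℝ) / 40) →
    ∀ b0 : T3 M, T3.All (Bd (X ^ A)) b0 → ∀ S : Finset (T3 M),
      (∀ b ∈ S, T3.All (Bd y) (b - b0) ∧ T3.All (fun x => x ∈ h) b ∧ dt b ≠ 0 ∧ E2 τ b ≠ 0) →
      ∑ b ∈ S, (F2 τ m h b : ℝ) ≤
        C * y ^ (3 * Module.finrank ℚ M) * ni h ^ (-(5 / 2) : ℝ) *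
          (Real.log (Real.log X) + 3) ^ C * Real.log X ^ (3 / 4 : ℝ)

/-- EXB: `E` or `D2 ^ 2 - 4 D1 D3` small at one embedding -/
def Exb3Stmt : Prop :=
  ∀ (τ : M ≃ₐ[k] M) (ω : M), Omk τ ω → ∀ C : ℝ, 1 ≤ C → ∃ C' : ℝ, 0 < C' ∧
    ∀ s ρ1 ρ2 μ : ℝ, 1 ≤ s → 0 < ρ1 → ρ1 ≤ ρ2 → 1 ≤ s * ρ1 ^ 2 → 0 < μ → μ ≤ 1 → 1 ≤ μ * s →
    ∀ (φ : M →+* ℂ) (S : Finset (T3 M)),
      (∀ b ∈ S, Bx C s ρ1 ρ2 b ∧ (sz φ (E2 τ b) ≤ μ ^ 2 * s ^ 4 ∨ sz φ (dl2 τ b) ≤ μ ^ 2 * s ^ 4)) →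
      (S.card : ℝ) ≤ C' * s ^ (3 * Module.finrank ℚ M) * (ρ1 * ρ2) ^ (3 * Module.finrank ℚ M) *
        (μ ^ (1 / 2 : ℝ) / ρ1 ^ 2)

/-- CNT: the number of `u` over a block -/
def Cnt3Stmt : Prop :=
  ∀ (τ : M ≃ₐ[k] M) (ω : M), Omk τ ω → ∀ m0 : ℕ, m0 ≠ 0 → ∃ m : ℕ, m ≠ 0 ∧ 6 ∣ m ∧
    ∀ C : ℝ, 1 ≤ C → ∀ A : ℕ, ∃ C' : ℝ, 0 < C' ∧
    ∀ s ρ1 ρ2 : ℝ, 1 ≤ C * s → Rho C ρ1 ρ2 → ∀ β : Blk (𝓞 M), Main2 τ C s ρ1 ρ2 β →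
    β.All (Bd (Hp C A s)) →
      ∃ h : Ideal (𝓞 M), h ≠ ⊥ ∧ Squarefree h ∧ IsCoprime h (cI τ h) ∧
        T3.All (fun x => x ∈ h) (tb β) ∧
        ∀ S : Finset (𝓞 M), (∀ u ∈ S, Adm m0 C s s u (tO τ u) ∧ Rep2 τ (Hp C A s) β u) →
          (S.card : ℝ) ≤ C' * F2 τ m h (tb β) * Real.log (2 + s) ^ Module.finrank ℚ M *
            (ni h * Wt (3 / 4) s (tb β)) ∧
          ∀ μ : ℝ, 0 < μ → μ ≤ 1 →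
            (∀ φ : M →+* ℂ, μ ^ 2 * s ^ 4 ≤ sz φ (E2 τ (tb β)) ∧
              μ ^ 2 * s ^ 4 ≤ sz φ (dl2 τ (tb β))) →
            (S.card : ℝ) ≤ C' * F2 τ m h (tb β) * (1 + Real.log (1 / μ)) ^ Module.finrank ℚ M *
              (2 + ρ2) ^ ((Module.finrank ℚ M : ℝ) / 20) * (ni h * Wt (4 / 5) s (tb β))

/-- LOS: the lossy bound -/
def Los3Stmt : Prop :=
  ∀ τ : M ≃ₐ[k] M, Invo k M τ → ∀ m0 : ℕ, m0 ≠ 0 → ∀ C : ℝ, 1 ≤ C → ∀ A : ℕ, ∀ ε : ℝ, 0 < ε →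
    ∃ C' : ℝ, 0 < C' ∧ ∀ s ρ1 ρ2 : ℝ, 1 ≤ C * s → Rho C ρ1 ρ2 →
    ∀ (S : Finset (𝓞 M × Blk (𝓞 M))) (T : Finset (T3 M)),
      (∀ x ∈ S, Blo2 τ m0 C A s ρ1 ρ2 x ∧ tb x.2 ∈ T) →
      (S.card : ℝ) ≤ C' * s ^ ε * ∑ b ∈ T, ni (cn b) * Wt (3 / 4) s b

/-- GEN: the lossy bound for all shapes -/
def Gen3Stmt : Prop :=
  ∀ τ : M ≃ₐ[k] M, Invo k M τ → ∀ m0 : ℕ, m0 ≠ 0 → ∀ C : ℝ, 1 ≤ C → ∀ A : ℕ, ∀ ε : ℝ, 0 < ε →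
    ∃ C' : ℝ, 0 < C' ∧ ∀ s ρ1 ρ2 : ℝ, 1 ≤ C * s → Rho C ρ1 ρ2 →
    ∀ S : Finset (𝓞 M × Blk (𝓞 M)), (∀ x ∈ S, Blo2 τ m0 C A s ρ1 ρ2 x) →
      (S.card : ℝ) ≤ C' * s ^ ε * s ^ (3 * Module.finrank ℚ M) *
        ρ1 ^ (3 / 4 * (Module.finrank ℚ M : ℝ))

/-- DG: `b` degenerate, fat shape -/
def Dg3Stmt : Prop :=
  ∀ τ : M ≃ₐ[k] M, Invo k M τ → ∀ m0 : ℕ, m0 ≠ 0 → ∀ C : ℝ, 1 ≤ C → ∀ A : ℕ,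
    ∃ C' κ : ℝ, 0 < C' ∧ 0 < κ ∧ ∀ s ρ1 ρ2 : ℝ, 1 ≤ s → Rho C ρ1 ρ2 → s ^ (-(1 / 200) : ℝ) ≤ ρ1 →
    ∀ S : Finset (𝓞 M × Blk (𝓞 M)),
      (∀ x ∈ S, Blo2 τ m0 C A s ρ1 ρ2 x ∧ ¬ Ndg s (tb x.2)) →
      (S.card : ℝ) ≤ C' * s ^ (3 * Module.finrank ℚ M) * s ^ (-κ)

/-- BF1: sum over `b` -/
def Bf3Stmt : Prop :=
  ∀ (τ : M ≃ₐ[k] M) (ω : M), Omk τ ω → ∀ m : ℕ, m ≠ 0 → 6 ∣ m → ∀ C : ℝ, 1 ≤ C → ∀ ε : ℝ, 0 < ε →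
    ∃ C' s1 : ℝ, 0 < C' ∧ 3 ≤ s1 ∧
    ∀ s ρ1 ρ2 : ℝ, s1 ≤ s → Rho C ρ1 ρ2 → s ^ (-(1 / 200) : ℝ) ≤ ρ1 →
    ∀ h : Ideal (𝓞 M), h ≠ ⊥ → Squarefree h → IsCoprime h (cI τ h) →
    ni h ≤ s ^ ((Module.finrank ℚ M : ℝ) / 50) →
    ∀ S : Finset (T3 M), (∀ b ∈ S, Bx C s ρ1 ρ2 b ∧ T3.All (fun x => x ∈ h) b ∧
      (∀ φ : M →+* ℂ, s ^ (2 - 1 / 50 : ℝ) ≤ sz φ (dt b)) ∧ E2 τ b ≠ 0) →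
      ∑ b ∈ S, (F2 τ m h b : ℝ) * Wt (4 / 5) s b ≤
        C' * s ^ (3 * Module.finrank ℚ M) * (ρ1 * ρ2) ^ (7 / 5 * (Module.finrank ℚ M : ℝ)) *
          ni h ^ (-(5 / 2) : ℝ) * Real.log (2 + s) ^ (3 / 4 + ε)

/-- BF2: sum over the exceptional `b` -/
def Bf4Stmt : Prop :=
  ∀ (τ : M ≃ₐ[k] M) (ω : M), Omk τ ω → ∀ m : ℕ, m ≠ 0 → 6 ∣ m → ∀ C : ℝ, 1 ≤ C → ∀ ε : ℝ, 0 < ε →
    ∀ B : ℕ, ∃ C' s1 : ℝ, 0 < C' ∧ 3 ≤ s1 ∧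
    ∀ s ρ1 ρ2 μ : ℝ, s1 ≤ s → Rho C ρ1 ρ2 → s ^ (-(1 / 200) : ℝ) ≤ ρ1 →
    (Real.log (2 + s) ^ B)⁻¹ ≤ μ → μ ≤ 1 →
    ∀ h : Ideal (𝓞 M), h ≠ ⊥ → Squarefree h → IsCoprime h (cI τ h) →
    ni h ≤ s ^ ((Module.finrank ℚ M : ℝ) / 50) →
    ∀ S : Finset (T3 M), (∀ b ∈ S, Bx C s ρ1 ρ2 b ∧ T3.All (fun x => x ∈ h) b ∧
      (∀ φ : M →+* ℂ, s ^ (2 - 1 / 50 : ℝ) ≤ sz φ (dt b)) ∧ E2 τ b ≠ 0 ∧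
      ∃ φ : M →+* ℂ, sz φ (E2 τ b) < μ ^ 2 * s ^ 4 ∨ sz φ (dl2 τ b) < μ ^ 2 * s ^ 4) →
      ∑ b ∈ S, (F2 τ m h b : ℝ) * Wt (3 / 4) s b ≤
        C' * s ^ (3 * Module.finrank ℚ M) * (ρ1 * ρ2) ^ (3 / 2 * (Module.finrank ℚ M : ℝ)) *
          (μ ^ (1 / 12 : ℝ) * ρ1 ^ (-(1 / 3) : ℝ)) *
          ni h ^ (-(5 / 2) : ℝ) * Real.log (2 + s) ^ (3 / 4 + ε)

/-- BS: nondegenerate `b`, fat shape -/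
def Bs3Stmt : Prop :=
  ∀ (τ : M ≃ₐ[k] M) (ω : M), Omk τ ω → ∀ m0 : ℕ, m0 ≠ 0 → ∀ C : ℝ, 1 ≤ C → ∀ A : ℕ,
    ∃ C' s1 : ℝ, 0 < C' ∧ 3 ≤ s1 ∧
    ∀ s ρ1 ρ2 : ℝ, s1 ≤ s → Rho C ρ1 ρ2 → s ^ (-(1 / 200) : ℝ) ≤ ρ1 →
    ∀ S : Finset (𝓞 M × Blk (𝓞 M)), (∀ x ∈ S, Blo2 τ m0 C A s ρ1 ρ2 x ∧ Ndg s (tb x.2)) →
      (S.card : ℝ) ≤ C' * s ^ (3 * Module.finrank ℚ M) * ρ1 ^ (1 / 4 : ℝ) *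
        Real.log (2 + s) ^ (7 / 8 : ℝ)

/-- MAIN: the main case for one shape -/
def Main3Stmt : Prop :=
  ∀ (τ : M ≃ₐ[k] M) (ω : M), Omk τ ω → ∀ m0 : ℕ, m0 ≠ 0 → ∀ C : ℝ, 1 ≤ C → ∀ A : ℕ,
    ∃ C' κ : ℝ, 0 < C' ∧ 0 < κ ∧ ∀ s ρ1 ρ2 : ℝ, 1 ≤ C * s → Rho C ρ1 ρ2 →
    ∀ S : Finset (𝓞 M × Blk (𝓞 M)), (∀ x ∈ S, Blo2 τ m0 C A s ρ1 ρ2 x) →
      (S.card : ℝ) ≤ C' * s ^ (3 * Module.finrank ℚ M) * ρ1 ^ κ * Real.log (2 + s) ^ (7 / 8 : ℝ)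

/-- RHO: the main case, all shapes -/
def All3Stmt : Prop :=
  ∀ (τ : M ≃ₐ[k] M) (ω : M), Omk τ ω → ∀ m0 : ℕ, m0 ≠ 0 → ∀ C : ℝ, 1 ≤ C → ∀ A : ℕ,
    ∃ C' : ℝ, 0 < C' ∧ ∀ s : ℝ, 1 ≤ C * s → ∀ S : Finset (𝓞 M × Blk (𝓞 M)),
      (∀ x ∈ S, Adm m0 C s s x.1 (tO τ x.1) ∧ (∃ ρ1 ρ2 : ℝ, Rho C ρ1 ρ2 ∧ Main2 τ C s ρ1 ρ2 x.2) ∧
        x.2.All (Bd (Hp C A s)) ∧ Rep2 τ (Hp C A s) x.2 x.1) →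
      (S.card : ℝ) ≤ C' * s ^ (3 * Module.finrank ℚ M) * Real.log (2 + s) ^ (7 / 8 : ℝ)

/-- EZ: the case `E = 0`, with a saving -/
def EZ3Stmt : Prop :=
  ∀ τ : M ≃ₐ[k] M, Invo k M τ → ∀ m : ℕ, m ≠ 0 → ∀ C : ℝ, 1 ≤ C → ∀ ε : ℝ, 0 < ε →
    ∃ C' : ℝ, 0 < C' ∧ ∀ s : ℝ, 1 ≤ C * s → ∀ S : Finset (𝓞 M × 𝓞 M × 𝓞 M),
      (∀ x ∈ S, Adm m C s s x.1 (tO τ x.1) ∧ PQ2 τ m C s x.1 x.2.1 x.2.2) →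
      (S.card : ℝ) ≤ C' * s ^ (5 / 2 * (Module.finrank ℚ M : ℝ) + ε)

end H88.AQ
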