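import Pool.Agent.H88.AQ.Tau
import Pool.Agent.H88.WS.Bf2

/-!
# [H88 AQ BFB] `Bf4Stmt` from `Avg3Stmt`, `SwStmt M`, `Exb3Stmt` (AQ, W2#, MP_b39724), 400-700 lines (a copy). File Pool/Agent/H88/AQ/Bfb.lean

Copy `bf2_of` (H88/WS/Bf2.lean, with its private lemmas), `K := M`, `d = [M : ℚ]`, `F b = F2 τ m h b`, no `c`; for (h1) (the average over one cube, `Avg3Stmt`) see the header of H88/AQ/Bfa.lean. DIFFERENCES. (1) The functions `E2 τ`, `dl2 τ` are of degree 4 in `(b, τ b)`: for `b'` in the cube of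
`b` (`|b'_i - b_i|_φ ≤ y = s^(9/10)`, the same for `tO τ`: `bd_tO`), with `B = C^2 s^(1 + 1/200) + y ≥` all entries: `|E2 b' - E2 b|_φ ≤ 200 B^3 y ≤ C3 s^(3 + 3/200 + 9/10) = C3 s^(3.915) ≤ 3 μ^2 s^4` for `s ≥ s1` (`μ ≥ L^(-B)`), the same for `dl2`
(`E2_eq`, `dl2_eq`: `dt`, `mx` are bilinear: `|dt b' - dt b| ≤ 4 B y`, `|dt| ≤ 2 B^2`, `|mx| ≤ 4 B^2`, `|mx b' - mx b| ≤ 8 B y`). So the points `b'` of the cubes satisfy `sz φ (E2 τ b') ≤ (2 μ)^2 s^4` or `sz φ (dl2 τ b') ≤ (2 μ)^2 s^4`.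
(2) `Exb3Stmt` (constant `2 C`, `2 μ`; `1 ≤ s ρ1^2`, `1 ≤ 2 μ s`): `#S'_φ ≤ C4 s^(3d) (ρ1 ρ2)^(3d) (2 μ)^(1/2)/ρ1^2`; Hoelder with `6/5`, `6` as there: `∑_{S'_φ} Wl (3/4) ≤ C6 s^(3d) (ρ1 ρ2)^(3d/2) μ^(1/12) ρ1^(-1/3)`. If `2 μ > 1`: `SwStmt` with `θ = 3/4` alone, `μ^(1/12) ≥ (1/2)^(1/12)`,
`ρ1^(-1/3) ≥ C^(-1/3)`. Sum over the `d` embeddings.
-/

open scoped NumberField
open H88.A4 Pool.Agent.H67.WA H88.WS

noncomputable section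

namespace H88.AQ

private theorem ev_log (k : ℕ) {a c : ℝ} (ha : 0 < a) (hc : 0 < c) :
    ∀ᶠ s : ℝ in Filter.atTop, Real.log (2 + s) ^ k ≤ c * s ^ a := by
  have h1 := (isLittleO_log_rpow_rpow_atTop (k : ℝ) ha).bound (show 0 < c / 2 ^ k by positivity)
  filter_upwards [h1, Filter.eventually_ge_atTop 2] with s hs h2
  have h3 : Real.log (2 + s) ≤ 2 * Real.log s := by
    have h : Real.log (2 + s) ≤ Real.log (s ^ 2) := Real.log_le_log (by linarith) (by nlinarith)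
    rw [Real.log_pow] at h
    exact_mod_cast h
  have h4 : 0 ≤ Real.log s := Real.log_nonneg (by linarith)
  have h5 : 0 ≤ Real.log (2 + s) := Real.log_nonneg (by linarith)
  have h6 : 0 ≤ s ^ a := Real.rpow_nonneg (by linarith) _
  rw [Real.norm_of_nonneg (Real.rpow_nonneg h4 _), Real.norm_of_nonneg h6,
    Real.rpow_natCast] at hs
  calc Real.log (2 + s) ^ k ≤ (2 * Real.log s) ^ k := pow_le_pow_left₀ h5 h3 k
    _ = 2 ^ k * Real.log s ^ k := mul_pow _ _ _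
    _ ≤ 2 ^ k * (c / 2 ^ k * s ^ a) := mul_le_mul_of_nonneg_left hs (by positivity)
    _ = c * s ^ a := by field_simp

private theorem bf4_ev (C C0 C1 ε : ℝ) (B : ℕ) (hC : 1 ≤ C) (hC1 : 0 < C1)
    (hε : 0 < ε) : ∃ s1 : ℝ, 3 ≤ s1 ∧ ∀ s : ℝ, s1 ≤ s →
      2 * C0 ≤ s ^ (9 / 10 : ℝ) ∧ (2 + s) ^ (1 / 2 : ℝ) ≤ s ^ (9 / 10 : ℝ) ∧
      C ^ 2 * s ^ (1 + 1 / 200 : ℝ) ≤ (2 + s) ^ 2 ∧
      6 * (C ^ 2 * s ^ (1 + 1 / 200 : ℝ)) * s ^ (9 / 10 : ℝ) ≤ s ^ (2 - 1 / 50 : ℝ) ∧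
      500 * (C ^ 2 * s ^ (1 + 1 / 200 : ℝ)) ^ 3 * s ^ (9 / 10 : ℝ) *
        Real.log (2 + s) ^ (2 * B) ≤ 3 * s ^ 4 ∧
      Real.log (2 + s) ^ B ≤ s ∧
      (Real.log (Real.log (2 + s)) + 3) ^ C1 ≤ Real.log (2 + s) ^ ε := by
  have hC2 : 0 < C ^ 2 := by positivity
  have t1 := (tendsto_rpow_atTop (show (0 : ℝ) < 9 / 10 by norm_num)).eventually_ge_atTop
    (2 * C0)
  have t2 := (tendsto_rpow_atTop (show (0 : ℝ) < 4 / 5 by norm_num)).eventually_ge_atTop 2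
  have t3 := (tendsto_rpow_atTop (show (0 : ℝ) < 199 / 200 by norm_num)).eventually_ge_atTop
    (C ^ 2)
  have t4 := (tendsto_rpow_atTop (show (0 : ℝ) < 3 / 40 by norm_num)).eventually_ge_atTop
    (6 * C ^ 2)
  have t5 := ev_log (2 * B) (show (0 : ℝ) < 17 / 200 by norm_num)
    (show (0 : ℝ) < 3 / (500 * C ^ 6) by positivity)
  have t6 := ev_log B (show (0 : ℝ) < 1 by norm_num) (show (0 : ℝ) < 1 by norm_num)
  have hL : Filter.Tendsto (fun s : ℝ => Real.log (2 + s)) Filter.atTop Filter.atTop :=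
    Real.tendsto_log_atTop.comp (Filter.tendsto_atTop_add_const_left _ 2 Filter.tendsto_id)
  have hεC : 0 < ε / C1 := by positivity
  have t7 : ∀ᶠ x : ℝ in Filter.atTop, (Real.log x + 3) ^ C1 ≤ x ^ ε := by
    have a1 := (isLittleO_log_rpow_atTop hεC).bound (show (0 : ℝ) < 1 / 2 by norm_num)
    have a2 := (tendsto_rpow_atTop hεC).eventually_ge_atTop 6
    filter_upwards [a1, a2, Filter.eventually_ge_atTop 1] with x h1 h2 h3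
    have h4 : 0 ≤ Real.log x := Real.log_nonneg h3
    have h5 : 0 ≤ x ^ (ε / C1) := by linarith
    rw [Real.norm_of_nonneg h4, Real.norm_of_nonneg h5] at h1
    calc (Real.log x + 3) ^ C1 ≤ (x ^ (ε / C1)) ^ C1 :=
          Real.rpow_le_rpow (by linarith) (by linarith) hC1.le
      _ = x ^ ε := by
          rw [← Real.rpow_mul (by linarith), div_mul_cancel₀ _ hC1.ne']
  have t8 := hL.eventually t7
  have hall := (t1.and (t2.and (t3.and (t4.and (t5.and (t6.and t8)))))).and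
    (Filter.eventually_ge_atTop (3 : ℝ))
  obtain ⟨s1, hs1⟩ := Filter.eventually_atTop.1 hall
  refine ⟨max s1 3, le_max_right _ _, fun s hs => ?_⟩
  obtain ⟨⟨k1, k2, k3, k4, k5, k6, k7⟩, k8⟩ := hs1 s ((le_max_left _ _).trans hs)
  have hs0 : 0 < s := by linarith
  refine ⟨k1, ?_, ?_, ?_, ?_, ?_, k7⟩
  · have g1 : 2 + s ≤ s ^ (9 / 5 : ℝ) := by
      have e : s ^ (9 / 5 : ℝ) = s * s ^ (4 / 5 : ℝ) := by
        rw [← Real.rpow_one_add' hs0.le (by norm_num)]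
        norm_num
      rw [e]
      nlinarith
    calc (2 + s) ^ (1 / 2 : ℝ) ≤ (s ^ (9 / 5 : ℝ)) ^ (1 / 2 : ℝ) :=
          Real.rpow_le_rpow (by linarith) g1 (by norm_num)
      _ = s ^ (9 / 10 : ℝ) := by
          rw [← Real.rpow_mul hs0.le]
          norm_num
  · have e : s ^ (199 / 200 : ℝ) * s ^ (1 + 1 / 200 : ℝ) = s ^ 2 := by
      rw [← Real.rpow_add hs0, ← Real.rpow_natCast]
      norm_num
    have h0 : 0 ≤ s ^ (1 + 1 / 200 : ℝ) := Real.rpow_nonneg hs0.le _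
    nlinarith [mul_le_mul_of_nonneg_right k3 h0]
  · have e : s ^ (3 / 40 : ℝ) * s ^ (1 + 1 / 200 : ℝ) * s ^ (9 / 10 : ℝ) =
        s ^ (2 - 1 / 50 : ℝ) := by
      rw [← Real.rpow_add hs0, ← Real.rpow_add hs0]
      norm_num
    rw [← e]
    have h0 : 0 ≤ s ^ (1 + 1 / 200 : ℝ) := Real.rpow_nonneg hs0.le _
    have h00 : 0 ≤ s ^ (9 / 10 : ℝ) := Real.rpow_nonneg hs0.le _
    calc 6 * (C ^ 2 * s ^ (1 + 1 / 200 : ℝ)) * s ^ (9 / 10 : ℝ) =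
          6 * C ^ 2 * s ^ (1 + 1 / 200 : ℝ) * s ^ (9 / 10 : ℝ) := by ring
      _ ≤ _ := by gcongr
  · have e : s ^ (17 / 200 : ℝ) * (s ^ (1 + 1 / 200 : ℝ)) ^ 3 * s ^ (9 / 10 : ℝ) = s ^ 4 := by
      rw [← Real.rpow_natCast (s ^ (1 + 1 / 200 : ℝ)) 3, ← Real.rpow_mul hs0.le,
        ← Real.rpow_add hs0, ← Real.rpow_add hs0, ← Real.rpow_natCast]
      norm_num
    have h0 : 0 ≤ s ^ (1 + 1 / 200 : ℝ) := Real.rpow_nonneg hs0.le _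
    have h00 : 0 ≤ s ^ (9 / 10 : ℝ) := Real.rpow_nonneg hs0.le _
    calc 500 * (C ^ 2 * s ^ (1 + 1 / 200 : ℝ)) ^ 3 * s ^ (9 / 10 : ℝ) *
          Real.log (2 + s) ^ (2 * B) =
          (500 * C ^ 6 * (s ^ (1 + 1 / 200 : ℝ)) ^ 3 * s ^ (9 / 10 : ℝ)) *
            Real.log (2 + s) ^ (2 * B) := by ring
      _ ≤ (500 * C ^ 6 * (s ^ (1 + 1 / 200 : ℝ)) ^ 3 * s ^ (9 / 10 : ℝ)) *
          (3 / (500 * C ^ 6) * s ^ (17 / 200 : ℝ)) :=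
          mul_le_mul_of_nonneg_left k5 (by positivity)
      _ = 3 * (s ^ (17 / 200 : ℝ) * (s ^ (1 + 1 / 200 : ℝ)) ^ 3 * s ^ (9 / 10 : ℝ)) := by
          field_simp
      _ = _ := by rw [e]
  · rw [one_mul, Real.rpow_one] at k6
    exact k6

/-! ### the perturbation of the quadratic forms -/

private theorem cx_dt {b1 b2 b3 d1 d2 d3 : ℂ} {M y : ℝ} (hM1 : ‖b1‖ ≤ M) (hM2 : ‖b2‖ ≤ M)
    (hM3 : ‖b3‖ ≤ M) (hy1 : ‖d1‖ ≤ y) (hy2 : ‖d2‖ ≤ y) (hy3 : ‖d3‖ ≤ y) (hyM : y ≤ M) :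
    ‖((b1 + d1) * (b3 + d3) - (b2 + d2) ^ 2) - (b1 * b3 - b2 ^ 2)‖ ≤ 6 * M * y := by
  have hy : 0 ≤ y := (norm_nonneg _).trans hy1
  have hM : 0 ≤ M := hy.trans hyM
  have e : ((b1 + d1) * (b3 + d3) - (b2 + d2) ^ 2) - (b1 * b3 - b2 ^ 2) =
      d1 * b3 + b1 * d3 + d1 * d3 - (b2 * d2 + b2 * d2 + d2 * d2) := by ring
  rw [e]
  have a1 : ‖d1 * b3‖ ≤ y * M := by
    rw [norm_mul]; exact mul_le_mul hy1 hM3 (norm_nonneg _) hy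
  have a2 : ‖b1 * d3‖ ≤ M * y := by
    rw [norm_mul]; exact mul_le_mul hM1 hy3 (norm_nonneg _) hM
  have a3 : ‖d1 * d3‖ ≤ y * y := by
    rw [norm_mul]; exact mul_le_mul hy1 hy3 (norm_nonneg _) hy
  have a4 : ‖b2 * d2‖ ≤ M * y := by
    rw [norm_mul]; exact mul_le_mul hM2 hy2 (norm_nonneg _) hM
  have a5 : ‖d2 * d2‖ ≤ y * y := by
    rw [norm_mul]; exact mul_le_mul hy2 hy2 (norm_nonneg _) hy
  have b1' := norm_sub_le (d1 * b3 + b1 * d3 + d1 * d3) (b2 * d2 + b2 * d2 + d2 * d2)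
  have b2' := norm_add_le (d1 * b3 + b1 * d3) (d1 * d3)
  have b3' := norm_add_le (d1 * b3) (b1 * d3)
  have b4' := norm_add_le (b2 * d2 + b2 * d2) (d2 * d2)
  have b5' := norm_add_le (b2 * d2) (b2 * d2)
  nlinarith

private theorem cx_mx {b1 b2 b3 c1 c2 c3 : ℂ} {M σ : ℝ} (hM1 : ‖b1‖ ≤ M) (hM2 : ‖b2‖ ≤ M)
    (hM3 : ‖b3‖ ≤ M) (hy1 : ‖c1‖ ≤ σ) (hy2 : ‖c2‖ ≤ σ) (hy3 : ‖c3‖ ≤ σ) :
    ‖b1 * c3 + b3 * c1 - 2 * b2 * c2‖ ≤ 4 * M * σ := by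
  have hy : 0 ≤ σ := (norm_nonneg _).trans hy1
  have hM : 0 ≤ M := (norm_nonneg _).trans hM1
  have a1 : ‖b1 * c3‖ ≤ M * σ := by
    rw [norm_mul]; exact mul_le_mul hM1 hy3 (norm_nonneg _) hM
  have a2 : ‖b3 * c1‖ ≤ M * σ := by
    rw [norm_mul]; exact mul_le_mul hM3 hy1 (norm_nonneg _) hM
  have a3 : ‖2 * b2 * c2‖ ≤ 2 * (M * σ) := by
    rw [mul_assoc, norm_mul, norm_mul, Complex.norm_two]
    have := mul_le_mul hM2 hy2 (norm_nonneg _) hM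
    linarith
  have b1' := norm_sub_le (b1 * c3 + b3 * c1) (2 * b2 * c2)
  have b2' := norm_add_le (b1 * c3) (b3 * c1)
  linarith

private theorem cx_all {b1 b2 b3 d1 d2 d3 c1 c2 c3 : ℂ} {M y σ : ℝ} (hM1 : ‖b1‖ ≤ M)
    (hM2 : ‖b2‖ ≤ M) (hM3 : ‖b3‖ ≤ M) (hy1 : ‖d1‖ ≤ y) (hy2 : ‖d2‖ ≤ y) (hy3 : ‖d3‖ ≤ y)
    (hyM : y ≤ M) (hc1 : ‖c1‖ ≤ σ) (hc2 : ‖c2‖ ≤ σ) (hc3 : ‖c3‖ ≤ σ) (k : ℝ) (hk0 : 0 ≤ k)
    (hk : k ≤ 4) (z : ℂ) (hz : ‖z‖ = k) :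
    ‖(z * (((b1 + d1) * (b3 + d3) - (b2 + d2) ^ 2) * (c1 * c3 - c2 ^ 2)) -
        ((b1 + d1) * c3 + (b3 + d3) * c1 - 2 * (b2 + d2) * c2) ^ 2) -
      (z * ((b1 * b3 - b2 ^ 2) * (c1 * c3 - c2 ^ 2)) - (b1 * c3 + b3 * c1 - 2 * b2 * c2) ^ 2)‖
      ≤ 100 * M * y * σ ^ 2 := by
  have hy : 0 ≤ y := (norm_nonneg _).trans hy1
  have hM : 0 ≤ M := hy.trans hyM
  have hσ : 0 ≤ σ := (norm_nonneg _).trans hc1
  have h1 := cx_dt hM1 hM2 hM3 hy1 hy2 hy3 hyM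
  have h2 := cx_mx hM1 hM2 hM3 hc1 hc2 hc3
  have h3 := cx_mx hy1 hy2 hy3 hc1 hc2 hc3
  have h4 : ‖c1 * c3 - c2 ^ 2‖ ≤ 2 * σ ^ 2 := by
    have a1 : ‖c1 * c3‖ ≤ σ * σ := by
      rw [norm_mul]; exact mul_le_mul hc1 hc3 (norm_nonneg _) hσ
    have a2 : ‖c2 ^ 2‖ ≤ σ ^ 2 := by
      rw [norm_pow]; exact pow_le_pow_left₀ (norm_nonneg _) hc2 2
    have := norm_sub_le (c1 * c3) (c2 ^ 2)
    nlinarith
  have e : (z * (((b1 + d1) * (b3 + d3) - (b2 + d2) ^ 2) * (c1 * c3 - c2 ^ 2)) -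
        ((b1 + d1) * c3 + (b3 + d3) * c1 - 2 * (b2 + d2) * c2) ^ 2) -
      (z * ((b1 * b3 - b2 ^ 2) * (c1 * c3 - c2 ^ 2)) - (b1 * c3 + b3 * c1 - 2 * b2 * c2) ^ 2) =
      z * ((((b1 + d1) * (b3 + d3) - (b2 + d2) ^ 2) - (b1 * b3 - b2 ^ 2)) *
        (c1 * c3 - c2 ^ 2)) -
      (d1 * c3 + d3 * c1 - 2 * d2 * c2) * ((b1 * c3 + b3 * c1 - 2 * b2 * c2) +
        (b1 * c3 + b3 * c1 - 2 * b2 * c2) + (d1 * c3 + d3 * c1 - 2 * d2 * c2)) := by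
    ring
  rw [e]
  have g1 : ‖z * ((((b1 + d1) * (b3 + d3) - (b2 + d2) ^ 2) - (b1 * b3 - b2 ^ 2)) *
      (c1 * c3 - c2 ^ 2))‖ ≤ 4 * ((6 * M * y) * (2 * σ ^ 2)) := by
    rw [norm_mul, norm_mul, hz]
    have := mul_le_mul h1 h4 (norm_nonneg _) (by positivity)
    exact mul_le_mul hk this (by positivity) (by norm_num)
  have g2 : ‖(b1 * c3 + b3 * c1 - 2 * b2 * c2) +
        (b1 * c3 + b3 * c1 - 2 * b2 * c2) + (d1 * c3 + d3 * c1 - 2 * d2 * c2)‖ ≤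
        12 * M * σ := by
    have a1 := norm_add_le ((b1 * c3 + b3 * c1 - 2 * b2 * c2) +
        (b1 * c3 + b3 * c1 - 2 * b2 * c2)) (d1 * c3 + d3 * c1 - 2 * d2 * c2)
    have a2 := norm_add_le (b1 * c3 + b3 * c1 - 2 * b2 * c2) (b1 * c3 + b3 * c1 - 2 * b2 * c2)
    have a3 : 4 * y * σ ≤ 4 * M * σ := by gcongr
    linarith
  have g3 : ‖(d1 * c3 + d3 * c1 - 2 * d2 * c2) * ((b1 * c3 + b3 * c1 - 2 * b2 * c2) +
        (b1 * c3 + b3 * c1 - 2 * b2 * c2) + (d1 * c3 + d3 * c1 - 2 * d2 * c2))‖ ≤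
        (4 * y * σ) * (12 * M * σ) := by
    rw [norm_mul]
    exact mul_le_mul h3 g2 (norm_nonneg _) (by positivity)
  have g4 := norm_sub_le (z * ((((b1 + d1) * (b3 + d3) - (b2 + d2) ^ 2) - (b1 * b3 - b2 ^ 2)) *
      (c1 * c3 - c2 ^ 2))) ((d1 * c3 + d3 * c1 - 2 * d2 * c2) *
        ((b1 * c3 + b3 * c1 - 2 * b2 * c2) +
        (b1 * c3 + b3 * c1 - 2 * b2 * c2) + (d1 * c3 + d3 * c1 - 2 * d2 * c2)))
  have g5 : 0 ≤ M * y * σ ^ 2 := by positivity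
  nlinarith

private theorem cx_two {b1 b2 b3 d1 d2 d3 c1 c2 c3 e1 e2 e3 : ℂ} {R y : ℝ} (hb1 : ‖b1‖ ≤ R)
    (hb2 : ‖b2‖ ≤ R) (hb3 : ‖b3‖ ≤ R) (hd1 : ‖d1‖ ≤ y) (hd2 : ‖d2‖ ≤ y) (hd3 : ‖d3‖ ≤ y)
    (hyR : y ≤ R) (hc1 : ‖c1‖ ≤ R) (hc2 : ‖c2‖ ≤ R) (hc3 : ‖c3‖ ≤ R) (he1 : ‖e1‖ ≤ y)
    (he2 : ‖e2‖ ≤ y) (he3 : ‖e3‖ ≤ y) (k : ℝ) (hk0 : 0 ≤ k)
    (hk : k ≤ 4) (z : ℂ) (hz : ‖z‖ = k) :
    ‖(z * (((b1 + d1) * (b3 + d3) - (b2 + d2) ^ 2) * ((c1 + e1) * (c3 + e3) - (c2 + e2) ^ 2)) -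
        ((b1 + d1) * (c3 + e3) + (b3 + d3) * (c1 + e1) - 2 * (b2 + d2) * (c2 + e2)) ^ 2) -
      (z * ((b1 * b3 - b2 ^ 2) * (c1 * c3 - c2 ^ 2)) - (b1 * c3 + b3 * c1 - 2 * b2 * c2) ^ 2)‖
      ≤ 500 * R ^ 3 * y := by
  have hy : 0 ≤ y := (norm_nonneg _).trans hd1
  have hR : 0 ≤ R := hy.trans hyR
  have g1 : ‖c1 + e1‖ ≤ 2 * R := (norm_add_le _ _).trans (by linarith)
  have g2 : ‖c2 + e2‖ ≤ 2 * R := (norm_add_le _ _).trans (by linarith)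
  have g3 : ‖c3 + e3‖ ≤ 2 * R := (norm_add_le _ _).trans (by linarith)
  have h1 := cx_all hb1 hb2 hb3 hd1 hd2 hd3 hyR g1 g2 g3 k hk0 hk z hz
  have h2 := cx_all hc1 hc2 hc3 he1 he2 he3 hyR hb1 hb2 hb3 k hk0 hk z hz
  have e : (z * (((b1 + d1) * (b3 + d3) - (b2 + d2) ^ 2) *
        ((c1 + e1) * (c3 + e3) - (c2 + e2) ^ 2)) -
        ((b1 + d1) * (c3 + e3) + (b3 + d3) * (c1 + e1) - 2 * (b2 + d2) * (c2 + e2)) ^ 2) -
      (z * ((b1 * b3 - b2 ^ 2) * (c1 * c3 - c2 ^ 2)) - (b1 * c3 + b3 * c1 - 2 * b2 * c2) ^ 2) =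
      ((z * (((b1 + d1) * (b3 + d3) - (b2 + d2) ^ 2) *
        ((c1 + e1) * (c3 + e3) - (c2 + e2) ^ 2)) -
        ((b1 + d1) * (c3 + e3) + (b3 + d3) * (c1 + e1) - 2 * (b2 + d2) * (c2 + e2)) ^ 2) -
      (z * ((b1 * b3 - b2 ^ 2) * ((c1 + e1) * (c3 + e3) - (c2 + e2) ^ 2)) -
        (b1 * (c3 + e3) + b3 * (c1 + e1) - 2 * b2 * (c2 + e2)) ^ 2)) +
      ((z * (((c1 + e1) * (c3 + e3) - (c2 + e2) ^ 2) * (b1 * b3 - b2 ^ 2)) -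
        ((c1 + e1) * b3 + (c3 + e3) * b1 - 2 * (c2 + e2) * b2) ^ 2) -
      (z * ((c1 * c3 - c2 ^ 2) * (b1 * b3 - b2 ^ 2)) -
        (c1 * b3 + c3 * b1 - 2 * c2 * b2) ^ 2)) := by
    ring
  rw [e]
  refine (norm_add_le _ _).trans ((add_le_add h1 h2).trans (le_of_eq ?_))
  ring

section gen

variable {k M : Type} [Field k] [NumberField k] [Field M] [NumberField M] [Algebra k M]

private theorem geo (τ : M ≃ₐ[k] M) (φ : M →+* ℂ) (b b' : T3 M) {R y : ℝ} (hyR : y ≤ R)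
    (hb : T3.All (Bd R) b) (hd : T3.All (Bd y) (b' - b)) :
    sz φ (dt b') ≤ sz φ (dt b) + 6 * R * y ∧
      sz φ (E2 τ b') ≤ sz φ (E2 τ b) + 500 * R ^ 3 * y ∧
      sz φ (dl2 τ b') ≤ sz φ (dl2 τ b) + 500 * R ^ 3 * y := by
  obtain ⟨f, hf⟩ : ∃ f : 𝓞 M →+* ℂ, ∀ x, sz φ x = ‖f x‖ :=
    ⟨φ.comp (algebraMap (𝓞 M) M), fun x => rfl⟩
  obtain ⟨b1, b2, b3⟩ := b
  obtain ⟨x1, x2, x3⟩ := b'
  obtain ⟨hb1', hb2', hb3'⟩ := hb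
  obtain ⟨hd1', hd2', hd3'⟩ := hd
  have hb1 : ‖f b1‖ ≤ R := by rw [← hf]; exact hb1' φ
  have hb2 : ‖f b2‖ ≤ R := by rw [← hf]; exact hb2' φ
  have hb3 : ‖f b3‖ ≤ R := by rw [← hf]; exact hb3' φ
  have hd1 : ‖f (x1 - b1)‖ ≤ y := by rw [← hf]; exact hd1' φ
  have hd2 : ‖f (x2 - b2)‖ ≤ y := by rw [← hf]; exact hd2' φ
  have hd3 : ‖f (x3 - b3)‖ ≤ y := by rw [← hf]; exact hd3' φ
  have hc1 : ‖f (tO τ b1)‖ ≤ R := by rw [← hf]; exact bd_tO τ hb1' φ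
  have hc2 : ‖f (tO τ b2)‖ ≤ R := by rw [← hf]; exact bd_tO τ hb2' φ
  have hc3 : ‖f (tO τ b3)‖ ≤ R := by rw [← hf]; exact bd_tO τ hb3' φ
  have he1 : ‖f (tO τ (x1 - b1))‖ ≤ y := by rw [← hf]; exact bd_tO τ hd1' φ
  have he2 : ‖f (tO τ (x2 - b2))‖ ≤ y := by rw [← hf]; exact bd_tO τ hd2' φ
  have he3 : ‖f (tO τ (x3 - b3))‖ ≤ y := by rw [← hf]; exact bd_tO τ hd3' φ
  have e1 : f x1 = f b1 + f (x1 - b1) := by rw [map_sub]; ring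
  have e2 : f x2 = f b2 + f (x2 - b2) := by rw [map_sub]; ring
  have e3 : f x3 = f b3 + f (x3 - b3) := by rw [map_sub]; ring
  have u1 : f (tO τ x1) = f (tO τ b1) + f (tO τ (x1 - b1)) := by
    rw [Pool.Agent.H12.WM.tO_sub, map_sub]; ring
  have u2 : f (tO τ x2) = f (tO τ b2) + f (tO τ (x2 - b2)) := by
    rw [Pool.Agent.H12.WM.tO_sub, map_sub]; ring
  have u3 : f (tO τ x3) = f (tO τ b3) + f (tO τ (x3 - b3)) := by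
    rw [Pool.Agent.H12.WM.tO_sub, map_sub]; ring
  have tri : ∀ z w : ℂ, ‖z‖ ≤ ‖w‖ + ‖z - w‖ := fun z w => by
    have := norm_add_le w (z - w)
    rwa [add_sub_cancel] at this
  refine ⟨?_, ?_, ?_⟩
  · rw [hf, hf]
    have h := cx_dt hb1 hb2 hb3 hd1 hd2 hd3 hyR
    rw [← e1, ← e2, ← e3] at h
    have h' := tri (f x1 * f x3 - f x2 ^ 2) (f b1 * f b3 - f b2 ^ 2)
    have g1 : f (dt (x1, x2, x3)) = f x1 * f x3 - f x2 ^ 2 := by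
      unfold dt
      rw [map_sub, map_mul, map_pow]
    have g2 : f (dt (b1, b2, b3)) = f b1 * f b3 - f b2 ^ 2 := by
      unfold dt
      rw [map_sub, map_mul, map_pow]
    rw [g1, g2]
    linarith
  · rw [hf, hf]
    have h := cx_two hb1 hb2 hb3 hd1 hd2 hd3 hyR hc1 hc2 hc3 he1 he2 he3 1 (by norm_num)
      (by norm_num) 1 (by simp)
    rw [← e1, ← e2, ← e3, ← u1, ← u2, ← u3] at h
    have g : ∀ y1 y2 y3 : 𝓞 M, f (E2 τ (y1, y2, y3)) =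
        1 * ((f y1 * f y3 - f y2 ^ 2) * (f (tO τ y1) * f (tO τ y3) - f (tO τ y2) ^ 2)) -
          (f y1 * f (tO τ y3) + f y3 * f (tO τ y1) - 2 * f y2 * f (tO τ y2)) ^ 2 := by
      intro y1 y2 y3
      unfold E2 Ec mx dt cj
      simp only [map_sub, map_mul, map_pow, map_add, map_ofNat]
      ring
    rw [g, g]
    exact (tri _ _).trans (add_le_add le_rfl h)
  · rw [hf, hf]
    have h := cx_two hb1 hb2 hb3 hd1 hd2 hd3 hyR hc1 hc2 hc3 he1 he2 he3 4 (by norm_num)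
      (by norm_num) 4 (by simp)
    rw [← e1, ← e2, ← e3, ← u1, ← u2, ← u3] at h
    have g : ∀ y1 y2 y3 : 𝓞 M, f (dl2 τ (y1, y2, y3)) =
        -(4 * ((f y1 * f y3 - f y2 ^ 2) * (f (tO τ y1) * f (tO τ y3) - f (tO τ y2) ^ 2)) -
          (f y1 * f (tO τ y3) + f y3 * f (tO τ y1) - 2 * f y2 * f (tO τ y2)) ^ 2) := by
      intro y1 y2 y3
      unfold dl2 dl mx dt cj
      simp only [map_sub, map_mul, map_pow, map_add, map_ofNat]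
      ring
    rw [g, g, norm_neg, norm_neg]
    exact (tri _ _).trans (add_le_add le_rfl h)

end gen

section wts

variable {K : Type} [Field K] [NumberField K]

/-! ### the weights -/

private theorem wl_pos (θ s : ℝ) {lam : ℝ} (hl : 0 < lam) (b : T3 K) : 0 < Wl θ s lam b := by
  unfold Wl
  exact Finset.prod_pos fun φ _ => Real.rpow_pos_of_pos (lt_max_of_lt_right hl) _

private theorem wt_le {s lam θ : ℝ} (hs : 0 < s) (hθ : 0 ≤ θ) (hl : 0 < lam) (b b' : T3 K)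
    (h : ∀ φ : K →+* ℂ, lam * s ^ 2 ≤ sz φ (dt b) ∧ sz φ (dt b') ≤ 2 * sz φ (dt b)) :
    Wt θ s b ≤ (2 ^ θ) ^ Module.finrank ℚ K * Wl θ s lam b' := by
  unfold Wt Wl
  have hcard : ∏ _φ : K →+* ℂ, (2 : ℝ) ^ θ = (2 ^ θ) ^ Module.finrank ℚ K := by
    rw [Finset.prod_const, Finset.card_univ, NumberField.Embeddings.card]
  rw [← hcard, ← Finset.prod_mul_distrib]
  refine Finset.prod_le_prod (fun φ _ => Real.rpow_nonneg (by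
    have := sz_nonneg φ (dt b); positivity) _) fun φ _ => ?_
  obtain ⟨h1, h2⟩ := h φ
  have hs2 : 0 < s ^ 2 := by positivity
  have hpos : 0 < sz φ (dt b) / s ^ 2 := by
    rw [lt_div_iff₀ hs2, zero_mul]
    exact lt_of_lt_of_le (by positivity) h1
  have hmax : max (sz φ (dt b') / s ^ 2) lam ≤ 2 * (sz φ (dt b) / s ^ 2) := by
    refine max_le ?_ ?_
    · rw [← mul_div_assoc]
      gcongr
    · have h3 : lam ≤ sz φ (dt b) / s ^ 2 := by rwa [le_div_iff₀ hs2]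
      linarith
  have h4 : (2 * (sz φ (dt b) / s ^ 2)) ^ (-θ) ≤ (max (sz φ (dt b') / s ^ 2) lam) ^ (-θ) :=
    Real.rpow_le_rpow_of_nonpos (lt_max_of_lt_right hl) hmax (by linarith)
  rw [Real.mul_rpow (by norm_num) hpos.le] at h4
  calc (sz φ (dt b) / s ^ 2) ^ (-θ) = 2 ^ θ * (2 ^ (-θ) * (sz φ (dt b) / s ^ 2) ^ (-θ)) := by
        rw [← mul_assoc, ← Real.rpow_add (by norm_num), add_neg_cancel, Real.rpow_zero, one_mul]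
    _ ≤ _ := mul_le_mul_of_nonneg_left h4 (by positivity)

private theorem wl_holder (s : ℝ) {lam : ℝ} (hl : 0 < lam) (T : Finset (T3 K)) :
    ∑ b ∈ T, Wl (3 / 4) s lam b ≤
      (∑ b ∈ T, Wl (9 / 10) s lam b) ^ (5 / 6 : ℝ) * (T.card : ℝ) ^ (1 / 6 : ℝ) := by
  have hpq : (6 / 5 : ℝ).HolderConjugate 6 := by
    rw [Real.holderConjugate_iff]
    norm_num
  have h := Real.inner_le_Lp_mul_Lq T (fun b => Wl (3 / 4) s lam b) (fun _ => 1) hpq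
  have e : ∀ b ∈ T, |Wl (3 / 4) s lam b| ^ (6 / 5 : ℝ) = Wl (9 / 10) s lam b := by
    intro b _
    rw [abs_of_pos (wl_pos _ _ hl b)]
    unfold Wl
    rw [← Real.finsetProd_rpow]
    · refine Finset.prod_congr rfl fun φ _ => ?_
      rw [← Real.rpow_mul (le_max_of_le_right hl.le)]
      norm_num
    · intro φ _
      exact Real.rpow_nonneg (le_max_of_le_right hl.le) _
  rw [Finset.sum_congr rfl e] at h
  simp only [mul_one, abs_one, Real.one_rpow, Finset.sum_const, nsmul_eq_mul, mul_one] at h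
  norm_num at h ⊢
  exact h

end wts

private theorem bf4_sum (k M : Type) [Field k] [NumberField k] [Field M] [NumberField M]
    [Algebra k M] (h2 : SwStmt M) (h3 : Exb3Stmt k M) (τ : M ≃ₐ[k] M) (ω : M) (hO : Omk τ ω)
    (C : ℝ) (hC : 1 ≤ C) :
    ∃ C6 : ℝ, 0 < C6 ∧ ∀ s ρ1 ρ2 μ : ℝ, 3 ≤ s → Rho C ρ1 ρ2 → s ^ (-(1 / 200) : ℝ) ≤ ρ1 →
    0 < μ → μ ≤ 1 → 1 ≤ 2 * μ * s → ∀ S' : Finset (T3 M),
    (∀ b ∈ S', Bx (2 * C) s ρ1 ρ2 b ∧ ∃ φ : M →+* ℂ,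
      sz φ (E2 τ b) ≤ (2 * μ) ^ 2 * s ^ 4 ∨
      sz φ (dl2 τ b) ≤ (2 * μ) ^ 2 * s ^ 4) →
    ∑ b ∈ S', Wl (3 / 4) s (s ^ (-(1 / 50) : ℝ)) b ≤ C6 * s ^ (3 * Module.finrank ℚ M) *
      (ρ1 * ρ2) ^ (3 / 2 * (Module.finrank ℚ M : ℝ)) * (μ ^ (1 / 12 : ℝ) * ρ1 ^ (-(1 / 3) : ℝ)) := by
  classical
  obtain ⟨C4, hC4, hExb⟩ := h3 τ ω hO (2 * C) (by linarith)
  obtain ⟨C5, hC5, hSw9⟩ := h2 (9 / 10) (by norm_num) (by norm_num) (2 * C) (by linarith)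
  obtain ⟨C7, hC7, hSw3⟩ := h2 (3 / 4) (by norm_num) (by norm_num) (2 * C) (by linarith)
  obtain ⟨d, hd⟩ : ∃ d : ℕ, d = Module.finrank ℚ M := ⟨_, rfl⟩
  rw [← hd] at hExb hSw9 hSw3 ⊢
  refine ⟨Fintype.card (M →+* ℂ) * (C5 ^ (5 / 6 : ℝ) * (2 * C4) ^ (1 / 6 : ℝ)) + C7 * (2 * C),
    by positivity, ?_⟩
  intro s ρ1 ρ2 μ hs hρ hρs hμ0 hμ1 hμs S' hS'
  obtain ⟨hρ1, hρ12, hρC, hρρ⟩ := hρ
  have hs0 : 0 < s := by linarith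
  have hs1 : 1 ≤ s := by linarith
  have hρ2 : 0 < ρ2 := by linarith
  have hlam : 0 < s ^ (-(1 / 50) : ℝ) := Real.rpow_pos_of_pos hs0 _
  have hlam1 : s ^ (-(1 / 50) : ℝ) ≤ 1 :=
    Real.rpow_le_one_of_one_le_of_nonpos hs1 (by norm_num)
  have hρs' : s ^ (-(1 / 100) : ℝ) ≤ ρ1 :=
    (Real.rpow_le_rpow_of_exponent_le hs1 (by norm_num)).trans hρs
  have hρ2s : ρ2 ≤ 2 * C * s ^ (1 / 100 : ℝ) := by
    by_contra hcon
    push Not at hcon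
    have a1 : 1 ≤ s ^ (1 / 100 : ℝ) := Real.one_le_rpow hs1 (by norm_num)
    have a2 : s ^ (-(1 / 200) : ℝ) * s ^ (1 / 100 : ℝ) = s ^ (1 / 200 : ℝ) := by
      rw [← Real.rpow_add hs0]
      norm_num
    have a3 : 1 ≤ s ^ (1 / 200 : ℝ) := Real.one_le_rpow hs1 (by norm_num)
    have a4 : (2 * C * s ^ (1 / 100 : ℝ)) ^ 2 < ρ2 ^ 2 :=
      pow_lt_pow_left₀ hcon (by positivity) two_ne_zero
    have a5 : s ^ (-(1 / 200) : ℝ) * (2 * C * s ^ (1 / 100 : ℝ)) ^ 2 < ρ1 * ρ2 ^ 2 :=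
      mul_lt_mul' hρs a4 (by positivity) hρ1
    have a6 : s ^ (-(1 / 200) : ℝ) * (2 * C * s ^ (1 / 100 : ℝ)) ^ 2 =
        4 * C ^ 2 * (s ^ (-(1 / 200) : ℝ) * s ^ (1 / 100 : ℝ)) * s ^ (1 / 100 : ℝ) := by ring
    rw [a6, a2] at a5
    have a7 : 4 * C ^ 2 * 1 * 1 ≤ 4 * C ^ 2 * s ^ (1 / 200 : ℝ) * s ^ (1 / 100 : ℝ) := by
      gcongr
    nlinarith
  have hρsq : 1 ≤ s * ρ1 ^ 2 := by
    have a1 : (s ^ (-(1 / 200) : ℝ)) ^ 2 ≤ ρ1 ^ 2 :=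
      pow_le_pow_left₀ (Real.rpow_nonneg hs0.le _) hρs 2
    have a2 : s * (s ^ (-(1 / 200) : ℝ)) ^ 2 = s ^ (99 / 100 : ℝ) := by
      rw [← Real.rpow_natCast, ← Real.rpow_mul hs0.le, ← Real.rpow_one_add' hs0.le (by norm_num)]
      norm_num
    have a3 : 1 ≤ s ^ (99 / 100 : ℝ) := Real.one_le_rpow hs1 (by norm_num)
    calc (1 : ℝ) ≤ s ^ (99 / 100 : ℝ) := a3
      _ = s * (s ^ (-(1 / 200) : ℝ)) ^ 2 := a2.symm
      _ ≤ s * ρ1 ^ 2 := mul_le_mul_of_nonneg_left a1 hs0.le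
  have htop : ∀ b : T3 M, T3.All (fun x => x ∈ (⊤ : Ideal (𝓞 M))) b :=
    fun b => ⟨trivial, trivial, trivial⟩
  have hni : ni (⊤ : Ideal (𝓞 M)) ≤ s ^ ((d : ℝ) / 50) := by
    rw [ni_top]
    exact Real.one_le_rpow hs1 (by positivity)
  have hR : 0 < ρ1 * ρ2 := by positivity
  have hP : 0 < s ^ (3 * d) := by positivity
  obtain ⟨G, hG⟩ : ∃ G : ℝ, G = s ^ (3 * d) * (ρ1 * ρ2) ^ (3 / 2 * (d : ℝ)) *
    (μ ^ (1 / 12 : ℝ) * ρ1 ^ (-(1 / 3) : ℝ)) := ⟨_, rfl⟩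
  have hG0 : 0 < G := by rw [hG]; positivity
  have hgoal : ∀ x k : ℝ, x ≤ k * G → k ≤ Fintype.card (M →+* ℂ) *
      (C5 ^ (5 / 6 : ℝ) * (2 * C4) ^ (1 / 6 : ℝ)) + C7 * (2 * C) →
      x ≤ (Fintype.card (M →+* ℂ) * (C5 ^ (5 / 6 : ℝ) * (2 * C4) ^ (1 / 6 : ℝ)) + C7 * (2 * C)) *
        s ^ (3 * d) * (ρ1 * ρ2) ^ (3 / 2 * (d : ℝ)) *
        (μ ^ (1 / 12 : ℝ) * ρ1 ^ (-(1 / 3) : ℝ)) := by
    intro x k hx hk
    have h1 : x ≤ (Fintype.card (M →+* ℂ) * (C5 ^ (5 / 6 : ℝ) * (2 * C4) ^ (1 / 6 : ℝ)) +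
        C7 * (2 * C)) * G := hx.trans (mul_le_mul_of_nonneg_right hk hG0.le)
    rw [hG] at h1
    calc x ≤ _ := h1
      _ = _ := by ring
  rcases le_or_gt (2 * μ) 1 with hμ2 | hμ2
  · -- Hölder
    have key : ∀ φ : M →+* ℂ, ∑ b ∈ S'.filter (fun b =>
        sz φ (E2 τ b) ≤ (2 * μ) ^ 2 * s ^ 4 ∨
        sz φ (dl2 τ b) ≤ (2 * μ) ^ 2 * s ^ 4), Wl (3 / 4) s (s ^ (-(1 / 50) : ℝ)) b ≤
        C5 ^ (5 / 6 : ℝ) * (2 * C4) ^ (1 / 6 : ℝ) * G := by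
      intro φ
      have k1 := hExb s ρ1 ρ2 (2 * μ) hs1 hρ1 hρ12 hρsq (by linarith) hμ2 hμs φ
        (S'.filter (fun b => sz φ (E2 τ b) ≤ (2 * μ) ^ 2 * s ^ 4 ∨
        sz φ (dl2 τ b) ≤ (2 * μ) ^ 2 * s ^ 4)) (fun b hb =>
          ⟨(hS' b (Finset.mem_filter.1 hb).1).1, (Finset.mem_filter.1 hb).2⟩)
      have k2 := hSw9 s ρ1 ρ2 (s ^ (-(1 / 50) : ℝ)) hs1 hρs' hρ12 hρ2s le_rfl hlam1 ⊤
        (by simp) hni
        (S'.filter (fun b => sz φ (E2 τ b) ≤ (2 * μ) ^ 2 * s ^ 4 ∨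
        sz φ (dl2 τ b) ≤ (2 * μ) ^ 2 * s ^ 4)) (fun b hb =>
          ⟨(hS' b (Finset.mem_filter.1 hb).1).1, htop b⟩)
      rw [ni_top, inv_one, one_pow, mul_one] at k2
      refine (wl_holder s hlam _).trans ?_
      have k3 : (∑ b ∈ S'.filter (fun b => sz φ (E2 τ b) ≤ (2 * μ) ^ 2 * s ^ 4 ∨
        sz φ (dl2 τ b) ≤ (2 * μ) ^ 2 * s ^ 4), Wl (9 / 10) s (s ^ (-(1 / 50) : ℝ)) b) ^
          (5 / 6 : ℝ) ≤ C5 ^ (5 / 6 : ℝ) * (s ^ (3 * d)) ^ (5 / 6 : ℝ) *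
            (ρ1 * ρ2) ^ (d : ℝ) := by
        refine (Real.rpow_le_rpow (Finset.sum_nonneg fun b _ => (wl_pos _ _ hlam b).le) k2
          (by norm_num)).trans (le_of_eq ?_)
        rw [Real.mul_rpow (by positivity) (by positivity), Real.mul_rpow hC5.le hP.le,
          ← Real.rpow_mul hR.le]
        congr 2
        ring
      have k4 : (((S'.filter (fun b => sz φ (E2 τ b) ≤ (2 * μ) ^ 2 * s ^ 4 ∨
        sz φ (dl2 τ b) ≤ (2 * μ) ^ 2 * s ^ 4)).card : ℝ)) ^ (1 / 6 : ℝ) ≤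
          (2 * C4) ^ (1 / 6 : ℝ) * (s ^ (3 * d)) ^ (1 / 6 : ℝ) * (ρ1 * ρ2) ^ ((d : ℝ) / 2) *
            (μ ^ (1 / 12 : ℝ) * ρ1 ^ (-(1 / 3) : ℝ)) := by
        have r0 : (2 * μ) ^ (1 / 2 : ℝ) ≤ 2 * μ ^ (1 / 2 : ℝ) := by
          rw [Real.mul_rpow (by norm_num) hμ0.le]
          refine mul_le_mul_of_nonneg_right ?_ (Real.rpow_nonneg hμ0.le _)
          have := Real.rpow_le_rpow_of_exponent_le (show (1 : ℝ) ≤ 2 by norm_num)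
            (show (1 / 2 : ℝ) ≤ 1 by norm_num)
          rwa [Real.rpow_one] at this
        have r1 : C4 * s ^ (3 * d) * (ρ1 * ρ2) ^ (3 * d) * ((2 * μ) ^ (1 / 2 : ℝ) / ρ1 ^ 2) ≤
            (2 * C4) * s ^ (3 * d) * (ρ1 * ρ2) ^ (3 * d) * (μ ^ (1 / 2 : ℝ) * (ρ1 ^ 2)⁻¹) := by
          rw [div_eq_mul_inv]
          calc C4 * s ^ (3 * d) * (ρ1 * ρ2) ^ (3 * d) * ((2 * μ) ^ (1 / 2 : ℝ) * (ρ1 ^ 2)⁻¹)
              ≤ C4 * s ^ (3 * d) * (ρ1 * ρ2) ^ (3 * d) *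
                (2 * μ ^ (1 / 2 : ℝ) * (ρ1 ^ 2)⁻¹) := by gcongr
            _ = _ := by ring
        refine (Real.rpow_le_rpow (Nat.cast_nonneg _) (k1.trans r1)
          (by norm_num)).trans (le_of_eq ?_)
        have r6 : (μ ^ (1 / 2 : ℝ)) ^ (1 / 6 : ℝ) = μ ^ (1 / 12 : ℝ) := by
          rw [← Real.rpow_mul hμ0.le]
          norm_num
        rw [Real.mul_rpow (by positivity) (by positivity),
          Real.mul_rpow (by positivity) (by positivity),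
          Real.mul_rpow (by positivity) (by positivity),
          Real.mul_rpow (Real.rpow_nonneg hμ0.le _) (by positivity), r6]
        have r2 : ((ρ1 * ρ2) ^ (3 * d)) ^ (1 / 6 : ℝ) = (ρ1 * ρ2) ^ ((d : ℝ) / 2) := by
          rw [← Real.rpow_natCast, ← Real.rpow_mul hR.le]
          congr 1
          push_cast
          ring
        have r3 : ((ρ1 ^ 2)⁻¹) ^ (1 / 6 : ℝ) = ρ1 ^ (-(1 / 3) : ℝ) := by
          rw [← Real.rpow_natCast, ← Real.rpow_neg hρ1.le, ← Real.rpow_mul hρ1.le]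
          congr 1
          norm_num
        rw [r2, r3]
      have k5 := mul_le_mul k3 k4 (Real.rpow_nonneg (Nat.cast_nonneg _) _) (by positivity)
      refine k5.trans (le_of_eq ?_)
      have r4 : (s ^ (3 * d)) ^ (5 / 6 : ℝ) * (s ^ (3 * d)) ^ (1 / 6 : ℝ) = s ^ (3 * d) := by
        rw [← Real.rpow_add hP]
        norm_num
      have r5 : (ρ1 * ρ2) ^ (d : ℝ) * (ρ1 * ρ2) ^ ((d : ℝ) / 2) =
          (ρ1 * ρ2) ^ (3 / 2 * (d : ℝ)) := by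
        rw [← Real.rpow_add hR]
        congr 1
        ring
      rw [hG]
      calc _ = C5 ^ (5 / 6 : ℝ) * (2 * C4) ^ (1 / 6 : ℝ) *
            (((s ^ (3 * d)) ^ (5 / 6 : ℝ) * (s ^ (3 * d)) ^ (1 / 6 : ℝ)) *
            ((ρ1 * ρ2) ^ (d : ℝ) * (ρ1 * ρ2) ^ ((d : ℝ) / 2)) *
            (μ ^ (1 / 12 : ℝ) * ρ1 ^ (-(1 / 3) : ℝ))) := by ring
        _ = _ := by rw [r4, r5]
    refine hgoal _ (Fintype.card (M →+* ℂ) * (C5 ^ (5 / 6 : ℝ) * (2 * C4) ^ (1 / 6 : ℝ))) ?_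
      (by
        have : 0 ≤ C7 * (2 * C) := by positivity
        linarith)
    have hsum : ∑ b ∈ S', Wl (3 / 4) s (s ^ (-(1 / 50) : ℝ)) b ≤
        ∑ φ : M →+* ℂ, ∑ b ∈ S'.filter (fun b =>
        sz φ (E2 τ b) ≤ (2 * μ) ^ 2 * s ^ 4 ∨
        sz φ (dl2 τ b) ≤ (2 * μ) ^ 2 * s ^ 4),
          Wl (3 / 4) s (s ^ (-(1 / 50) : ℝ)) b := by
      have hsw : ∑ φ : M →+* ℂ, ∑ b ∈ S'.filter (fun b =>
        sz φ (E2 τ b) ≤ (2 * μ) ^ 2 * s ^ 4 ∨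
        sz φ (dl2 τ b) ≤ (2 * μ) ^ 2 * s ^ 4),
          Wl (3 / 4) s (s ^ (-(1 / 50) : ℝ)) b = ∑ b ∈ S', ∑ φ : M →+* ℂ,
          if (sz φ (E2 τ b) ≤ (2 * μ) ^ 2 * s ^ 4 ∨
            sz φ (dl2 τ b) ≤ (2 * μ) ^ 2 * s ^ 4) then
            Wl (3 / 4) s (s ^ (-(1 / 50) : ℝ)) b else 0 := by
        rw [Finset.sum_comm]
        exact Finset.sum_congr rfl fun φ _ => Finset.sum_filter _ _
      rw [hsw]
      refine Finset.sum_le_sum fun b hb => ?_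
      obtain ⟨-, φ, hφ⟩ := hS' b hb
      have h0 : ∀ ψ ∈ (Finset.univ : Finset (M →+* ℂ)), 0 ≤
          if (sz ψ (E2 τ b) ≤ (2 * μ) ^ 2 * s ^ 4 ∨
            sz ψ (dl2 τ b) ≤ (2 * μ) ^ 2 * s ^ 4) then
            Wl (3 / 4) s (s ^ (-(1 / 50) : ℝ)) b else 0 := by
        intro ψ _
        split_ifs
        · exact (wl_pos _ _ hlam b).le
        · exact le_rfl
      have h1 := Finset.single_le_sum h0 (Finset.mem_univ φ)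
      rw [if_pos hφ] at h1
      exact h1
    refine hsum.trans ((Finset.sum_le_sum fun φ _ => key φ).trans (le_of_eq ?_))
    rw [Finset.sum_const, Finset.card_univ, nsmul_eq_mul]
    ring
  · have k2 := hSw3 s ρ1 ρ2 (s ^ (-(1 / 50) : ℝ)) hs1 hρs' hρ12 hρ2s le_rfl hlam1 ⊤
        (by simp) hni S' (fun b hb => ⟨(hS' b hb).1, htop b⟩)
    rw [ni_top, inv_one, one_pow, mul_one] at k2
    refine hgoal _ (C7 * (2 * C)) ?_ (by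
      have : 0 ≤ Fintype.card (M →+* ℂ) * (C5 ^ (5 / 6 : ℝ) * (2 * C4) ^ (1 / 6 : ℝ)) := by
        positivity
      linarith)
    have g1 : 1 ≤ 2 * C * (μ ^ (1 / 12 : ℝ) * ρ1 ^ (-(1 / 3) : ℝ)) := by
      have a1 : μ ≤ μ ^ (1 / 12 : ℝ) := by
        have := Real.rpow_le_rpow_of_exponent_ge hμ0 hμ1 (show (1 / 12 : ℝ) ≤ 1 by norm_num)
        rwa [Real.rpow_one] at this
      have a2 : C⁻¹ ≤ ρ1 ^ (-(1 / 3) : ℝ) := by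
        have b1 : C ^ (-(1 / 3) : ℝ) ≤ ρ1 ^ (-(1 / 3) : ℝ) :=
          Real.rpow_le_rpow_of_nonpos hρ1 hρC (by norm_num)
        have b2 : C ^ (-1 : ℝ) ≤ C ^ (-(1 / 3) : ℝ) :=
          Real.rpow_le_rpow_of_exponent_le hC (by norm_num)
        rw [Real.rpow_neg_one] at b2
        exact b2.trans b1
      have hC0 : 0 < C := by linarith
      have a3 : (1 / 2) * C⁻¹ ≤ μ ^ (1 / 12 : ℝ) * ρ1 ^ (-(1 / 3) : ℝ) :=
        mul_le_mul (by linarith) a2 (by positivity) (by positivity)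
      calc (1 : ℝ) = 2 * C * ((1 / 2) * C⁻¹) := by field_simp
        _ ≤ _ := mul_le_mul_of_nonneg_left a3 (by positivity)
    refine k2.trans ?_
    have e1 : (ρ1 * ρ2) ^ ((3 - 2 * (3 / 4)) * (d : ℝ)) = (ρ1 * ρ2) ^ (3 / 2 * (d : ℝ)) := by
      congr 1
      ring
    rw [e1, hG]
    calc C7 * s ^ (3 * d) * (ρ1 * ρ2) ^ (3 / 2 * (d : ℝ)) =
          C7 * s ^ (3 * d) * (ρ1 * ρ2) ^ (3 / 2 * (d : ℝ)) * 1 := (mul_one _).symm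
      _ ≤ C7 * s ^ (3 * d) * (ρ1 * ρ2) ^ (3 / 2 * (d : ℝ)) *
          (2 * C * (μ ^ (1 / 12 : ℝ) * ρ1 ^ (-(1 / 3) : ℝ))) :=
          mul_le_mul_of_nonneg_left g1 (by positivity)
      _ = _ := by ring

theorem bf4 (k M : Type) [Field k] [NumberField k] [Field M] [NumberField M] [Algebra k M]
    (hA : Avg3Stmt k M) (hS : SwStmt M) (hE : Exb3Stmt k M) : Bf4Stmt k M := by
  classical
  intro τ ω hO m hm h6 C hC ε hε B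
  obtain ⟨C0, hC0, hdist⟩ := grd_dist M
  obtain ⟨C1, hC1, hAvg⟩ := hA τ ω hO m hm h6 2 (1 / 2) (by norm_num)
  obtain ⟨C6, hC6, hsum6⟩ := bf4_sum k M hS hE τ ω hO C hC
  obtain ⟨s1, hs1, hev⟩ := bf4_ev C C0 C1 ε B hC hC1 hε
  obtain ⟨d, hd⟩ : ∃ d : ℕ, d = Module.finrank ℚ M := ⟨_, rfl⟩
  rw [← hd] at hAvg hsum6 ⊢
  refine ⟨(2 ^ (3 / 4 : ℝ)) ^ d * C1 * (2 * C0) ^ (3 * d) * C6, s1, by positivity, hs1, ?_⟩
  intro s ρ1 ρ2 μ hs hρ hρs hμL hμ1 h hh hsq hcop hnih S hS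
  obtain ⟨k1, k2, k3, k4, k5, k6, k7⟩ := hev s hs
  have hs3 : 3 ≤ s := hs1.trans hs
  have hs0 : 0 < s := by linarith
  have hs1' : 1 ≤ s := by linarith
  have hL1 : 1 ≤ Real.log (2 + s) := by
    rw [Real.le_log_iff_exp_le (by linarith)]
    linarith [Real.exp_one_lt_d9]
  have hL0 : 0 < Real.log (2 + s) := by linarith
  have hμ0 : 0 < μ := lt_of_lt_of_le (by positivity) hμL
  obtain ⟨hρ1, hρ12, hρC, hρρ⟩ := hρ
  have hρ2 : 0 < ρ2 := by linarith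
  have hC00 : 0 < C := by linarith
  have hC0' : 0 < C0 := by linarith
  -- the numbers R and y
  obtain ⟨R, hM⟩ : ∃ R : ℝ, R = C ^ 2 * s ^ (1 + 1 / 200 : ℝ) := ⟨_, rfl⟩
  obtain ⟨y, hy⟩ : ∃ y : ℝ, y = s ^ (9 / 10 : ℝ) := ⟨_, rfl⟩
  rw [← hM] at k3 k4 k5
  rw [← hy] at k1 k2 k4 k5
  have hy0 : 0 < y := by rw [hy]; exact Real.rpow_pos_of_pos hs0 _
  have hys : y ≤ s := by
    rw [hy]
    have := Real.rpow_le_rpow_of_exponent_le hs1' (show (9 / 10 : ℝ) ≤ 1 by norm_num)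
    rwa [Real.rpow_one] at this
  have hsM : s ≤ R := by
    rw [hM]
    have a1 := Real.rpow_le_rpow_of_exponent_le hs1' (show (1 : ℝ) ≤ 1 + 1 / 200 by norm_num)
    rw [Real.rpow_one] at a1
    have a2 : (1 : ℝ) ≤ C ^ 2 := one_le_pow₀ hC
    nlinarith
  have hyM : y ≤ R := hys.trans hsM
  have hMX : R ≤ (2 + s) ^ 2 := k3
  have hρ22 : ρ2 ^ 2 ≤ C * s ^ (1 / 200 : ℝ) := by
    have a1 : s ^ (-(1 / 200) : ℝ) * ρ2 ^ 2 ≤ C :=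
      (mul_le_mul_of_nonneg_right hρs (by positivity)).trans hρρ
    have a2 : s ^ (1 / 200 : ℝ) * s ^ (-(1 / 200) : ℝ) = 1 := by
      rw [← Real.rpow_add hs0]
      norm_num
    have a3 : 0 < s ^ (1 / 200 : ℝ) := Real.rpow_pos_of_pos hs0 _
    calc ρ2 ^ 2 = s ^ (1 / 200 : ℝ) * s ^ (-(1 / 200) : ℝ) * ρ2 ^ 2 := by rw [a2, one_mul]
      _ = s ^ (1 / 200 : ℝ) * (s ^ (-(1 / 200) : ℝ) * ρ2 ^ 2) := by ring
      _ ≤ s ^ (1 / 200 : ℝ) * C := mul_le_mul_of_nonneg_left a1 a3.le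
      _ = _ := mul_comm _ _
  have hCM : C * s * ρ2 ^ 2 ≤ R := by
    calc C * s * ρ2 ^ 2 ≤ C * s * (C * s ^ (1 / 200 : ℝ)) :=
          mul_le_mul_of_nonneg_left hρ22 (by positivity)
      _ = C ^ 2 * (s * s ^ (1 / 200 : ℝ)) := by ring
      _ = R := by rw [hM, ← Real.rpow_one_add' hs0.le (by norm_num)]
  have hρ11 : ρ1 ^ 2 ≤ ρ2 ^ 2 := pow_le_pow_left₀ hρ1.le hρ12 2
  have hρ1122 : ρ1 * ρ2 ≤ ρ2 ^ 2 := by nlinarith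
  have hρ1112 : ρ1 ^ 2 ≤ ρ1 * ρ2 := by nlinarith
  have hbM : ∀ b : T3 M, Bx C s ρ1 ρ2 b → T3.All (Bd R) b := by
    intro b hb
    refine ⟨fun φ => (hb.1 φ).trans (le_trans ?_ hCM), fun φ => (hb.2.1 φ).trans
      (le_trans ?_ hCM), fun φ => (hb.2.2 φ).trans hCM⟩
    · exact mul_le_mul_of_nonneg_left hρ11 (by positivity)
    · exact mul_le_mul_of_nonneg_left hρ1122 (by positivity)
  have hall : ∀ {A A' : ℝ}, A ≤ A' → ∀ b : T3 M, T3.All (Bd A) b → T3.All (Bd A') b :=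
    fun hAA b hb => ⟨fun φ => (hb.1 φ).trans hAA, fun φ => (hb.2.1 φ).trans hAA,
      fun φ => (hb.2.2 φ).trans hAA⟩
  -- the number n
  obtain ⟨n, hn⟩ : ∃ n : ℕ, n = ⌊y / C0⌋₊ := ⟨_, rfl⟩
  have hyC : 2 ≤ y / C0 := by
    rw [le_div_iff₀ hC0']
    exact k1
  have hnle : (n : ℝ) ≤ y / C0 := by
    rw [hn]
    exact Nat.floor_le (by positivity)
  have hnge : y / C0 < n + 1 := by
    rw [hn]
    exact Nat.lt_floor_add_one _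
  have hn1 : (1 : ℝ) ≤ n := by
    have : (1 : ℝ) < n + 1 - 0 := by linarith
    have h1n : 0 < n := by
      rcases Nat.eq_zero_or_pos n with h0 | h0
      · rw [h0] at hnge
        norm_num at hnge
        linarith
      · exact h0
    exact_mod_cast h1n
  have hn0 : 0 < n := by exact_mod_cast (lt_of_lt_of_le one_pos hn1)
  have hyn : y ≤ 2 * C0 * n := by
    have : y / C0 ≤ 2 * n := by linarith
    rw [div_le_iff₀ hC0'] at this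
    linarith
  have hC0n : C0 * n ≤ y := by
    rw [le_div_iff₀ hC0'] at hnle
    linarith
  have hdist' : ∀ b b' : T3 M, ix n b = ix n b' → T3.All (Bd y) (b - b') :=
    fun b b' hbb => hall hC0n _ (hdist n hn0 b b' hbb)
  -- the average
  obtain ⟨Φ, hΦ⟩ : ∃ Φ : ℝ, Φ = C1 * y ^ (3 * d) * ni h ^ (-(5 / 2) : ℝ) *
      (Real.log (Real.log (2 + s)) + 3) ^ C1 * Real.log (2 + s) ^ (3 / 4 : ℝ) := ⟨_, rfl⟩
  have hXy : (2 + s) ^ (1 / 2 : ℝ) ≤ y := k2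
  have hyX : y ≤ (2 + s) ^ 2 := hyM.trans hMX
  have hnih' : ni h ≤ y ^ ((d : ℝ) / 40) := by
    refine hnih.trans ?_
    rw [hy, ← Real.rpow_mul hs0.le]
    refine Real.rpow_le_rpow_of_exponent_le hs1' ?_
    have hd0 : (0 : ℝ) ≤ d := Nat.cast_nonneg _
    linarith
  have hF1 : ∀ b0 ∈ S, ∑ b ∈ S.filter (fun b => ix n b = ix n b0),
      (F2 τ m h b : ℝ) ≤ Φ := by
    intro b0 hb0
    rw [hΦ]
    refine hAvg (2 + s) y (by linarith) hXy hyX h hh hsq hcop hnih' b0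
      (hall hMX _ (hbM b0 (hS b0 hb0).1)) _ ?_
    intro b hb
    obtain ⟨hb1, hb2⟩ := Finset.mem_filter.1 hb
    obtain ⟨-, g2, g3, g4, φ, -⟩ := hS b hb1
    refine ⟨hdist' b b0 hb2, g2, ?_, g4⟩
    intro h0
    have h1 := g3 φ
    have h2 : sz φ (dt b) = 0 := by
      rw [h0]
      unfold sz
      simp
    rw [h2] at h1
    have h3 : 0 < s ^ (2 - 1 / 50 : ℝ) := Real.rpow_pos_of_pos hs0 _
    linarith
  -- comparison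
  obtain ⟨lam, hlam⟩ : ∃ lam : ℝ, lam = s ^ (-(1 / 50) : ℝ) := ⟨_, rfl⟩
  have hlam0 : 0 < lam := by rw [hlam]; exact Real.rpow_pos_of_pos hs0 _
  have hlams : lam * s ^ 2 = s ^ (2 - 1 / 50 : ℝ) := by
    rw [hlam, ← Real.rpow_natCast, ← Real.rpow_add hs0]
    norm_num
  have hgeo : ∀ b ∈ S, ∀ b', ix n b' = ix n b → ∀ φ : M →+* ℂ,
      sz φ (dt b') ≤ sz φ (dt b) + 6 * R * y ∧
      sz φ (E2 τ b') ≤ sz φ (E2 τ b) + 500 * R ^ 3 * y ∧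
      sz φ (dl2 τ b') ≤ sz φ (dl2 τ b) + 500 * R ^ 3 * y := by
    intro b hb b' hbb φ
    exact geo τ φ b b' hyM (hbM b (hS b hb).1) (hdist' b' b hbb)
  have hF2 : ∀ b ∈ S, ∀ b', ix n b' = ix n b →
      Wt (3 / 4) s b ≤ (2 ^ (3 / 4 : ℝ)) ^ d * Wl (3 / 4) s lam b' := by
    intro b hb b' hbb
    rw [hd]
    refine wt_le hs0 (by norm_num) hlam0 b b' fun φ => ?_
    have g1 := (hgeo b hb b' hbb φ).1
    have g2 := (hS b hb).2.2.1 φ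
    rw [hlams]
    refine ⟨g2, ?_⟩
    linarith
  have hWt0 : ∀ b ∈ S, 0 ≤ Wt (3 / 4) s b := by
    intro b _
    unfold Wt
    exact Finset.prod_nonneg fun φ _ => Real.rpow_nonneg (by
      have := sz_nonneg φ (dt b); positivity) _
  obtain ⟨S', hS'1, hS'2⟩ := grd_sum n hn0 S (fun b => (F2 τ m h b : ℝ))
    (fun b => Wt (3 / 4) s b) (fun b => Wl (3 / 4) s lam b) Φ ((2 ^ (3 / 4 : ℝ)) ^ d)
    (fun b _ => Nat.cast_nonneg _) hWt0 hF1 hF2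
  rw [← hd] at hS'2
  have hsy : y ≤ s * ρ1 ^ 2 := by
    have a1 : (s ^ (-(1 / 200) : ℝ)) ^ 2 ≤ ρ1 ^ 2 :=
      pow_le_pow_left₀ (Real.rpow_nonneg hs0.le _) hρs 2
    have a2 : s * (s ^ (-(1 / 200) : ℝ)) ^ 2 = s ^ (99 / 100 : ℝ) := by
      rw [← Real.rpow_natCast, ← Real.rpow_mul hs0.le, ← Real.rpow_one_add' hs0.le (by norm_num)]
      norm_num
    have a3 : y ≤ s ^ (99 / 100 : ℝ) := by
      rw [hy]
      exact Real.rpow_le_rpow_of_exponent_le hs1' (by norm_num)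
    calc y ≤ s ^ (99 / 100 : ℝ) := a3
      _ = s * (s ^ (-(1 / 200) : ℝ)) ^ 2 := a2.symm
      _ ≤ s * ρ1 ^ 2 := mul_le_mul_of_nonneg_left a1 hs0.le
  have hμs : 1 ≤ 2 * μ * s := by
    have a1 : (Real.log (2 + s) ^ B)⁻¹ * s ≤ μ * s := mul_le_mul_of_nonneg_right hμL hs0.le
    have a2 : 1 ≤ (Real.log (2 + s) ^ B)⁻¹ * s := by
      rw [inv_mul_eq_div, le_div_iff₀ (by positivity), one_mul]
      exact k6
    nlinarith [mul_pos hμ0 hs0]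
  have hμ2 : 500 * R ^ 3 * y ≤ 3 * μ ^ 2 * s ^ 4 := by
    have a1 : (Real.log (2 + s) ^ B)⁻¹ ^ 2 ≤ μ ^ 2 := pow_le_pow_left₀ (by positivity) hμL 2
    have a2 : (Real.log (2 + s) ^ B)⁻¹ ^ 2 = (Real.log (2 + s) ^ (2 * B))⁻¹ := by
      rw [inv_pow, ← pow_mul, mul_comm B 2]
    rw [a2] at a1
    have a3 : 500 * R ^ 3 * y ≤ 3 * s ^ 4 * (Real.log (2 + s) ^ (2 * B))⁻¹ := by
      rw [← div_eq_mul_inv, le_div_iff₀ (by positivity)]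
      exact k5
    calc 500 * R ^ 3 * y ≤ 3 * s ^ 4 * (Real.log (2 + s) ^ (2 * B))⁻¹ := a3
      _ ≤ 3 * s ^ 4 * μ ^ 2 := mul_le_mul_of_nonneg_left a1 (by positivity)
      _ = _ := by ring
  have hS'3 : ∀ b' ∈ S', Bx (2 * C) s ρ1 ρ2 b' ∧ ∃ φ : M →+* ℂ,
      sz φ (E2 τ b') ≤ (2 * μ) ^ 2 * s ^ 4 ∨
      sz φ (dl2 τ b') ≤ (2 * μ) ^ 2 * s ^ 4 := by
    intro b' hb'
    obtain ⟨b, hb, hbb⟩ := hS'1 b' hb'
    obtain ⟨⟨gb1, gb2, gb3⟩, -, -, -, φ, hφ⟩ := hS b hb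
    have g2 := hdist' b' b hbb
    have hadd : ∀ (x x' : 𝓞 M) (R r : ℝ), Bd (C * s * R) x → Bd y (x' - x) → r ≤ R →
        ρ1 ^ 2 ≤ r → Bd (2 * C * s * R) x' := by
      intro x x' R r hx hxx hrR hr ψ
      have q1 := hx ψ
      have q2 := hxx ψ
      have q3 : ψ (x' : M) = ψ (x : M) + ψ ((x' - x : 𝓞 M) : M) := by
        rw [← map_add]
        congr 1
        push_cast
        ring
      rw [q3]
      refine (norm_add_le _ _).trans ?_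
      have q4 : y ≤ s * R := hsy.trans (mul_le_mul_of_nonneg_left (hr.trans hrR) hs0.le)
      have q5 : 0 ≤ s * R := hy0.le.trans q4
      nlinarith
    refine ⟨⟨hadd b.1 b'.1 _ _ gb1 g2.1 le_rfl le_rfl,
      hadd b.2.1 b'.2.1 _ _ gb2 g2.2.1 le_rfl hρ1112,
      hadd b.2.2 b'.2.2 _ _ gb3 g2.2.2 le_rfl hρ11⟩, φ, ?_⟩
    obtain ⟨-, w2, w3⟩ := hgeo b hb b' hbb φ
    rcases hφ with hφ | hφ
    · left
      nlinarith
    · right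
      nlinarith
  have hfin := hsum6 s ρ1 ρ2 μ hs3 ⟨hρ1, hρ12, hρC, hρρ⟩ hρs hμ0 hμ1 hμs S' hS'3
  rw [← hlam] at hfin
  have hni0 : 0 ≤ ni h := ni_nonneg h
  have hnic0 : 0 ≤ ni h ^ (-(5 / 2) : ℝ) := Real.rpow_nonneg (ni_nonneg _) _
  have hyn3 : y ^ (3 * d) * ((n : ℝ) ^ (3 * d))⁻¹ ≤ (2 * C0) ^ (3 * d) := by
    rw [← div_eq_mul_inv, div_le_iff₀ (by positivity), ← mul_pow]
    exact pow_le_pow_left₀ hy0.le hyn _
  have hL34 : 0 ≤ Real.log (2 + s) ^ (3 / 4 : ℝ) := Real.rpow_nonneg hL0.le _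
  have hLe : 0 ≤ Real.log (2 + s) ^ ε := Real.rpow_nonneg hL0.le _
  have hΦ1 : Φ * ((n : ℝ) ^ (3 * d))⁻¹ ≤ C1 * (2 * C0) ^ (3 * d) * ni h ^ (-(5 / 2) : ℝ) *
      Real.log (2 + s) ^ ε * Real.log (2 + s) ^ (3 / 4 : ℝ) := by
    rw [hΦ]
    have hlog0 : 0 ≤ (Real.log (Real.log (2 + s)) + 3) ^ C1 :=
      Real.rpow_nonneg (by linarith [Real.log_nonneg hL1]) _
    calc C1 * y ^ (3 * d) * ni h ^ (-(5 / 2) : ℝ) *
          (Real.log (Real.log (2 + s)) + 3) ^ C1 * Real.log (2 + s) ^ (3 / 4 : ℝ) *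
            ((n : ℝ) ^ (3 * d))⁻¹ =
          C1 * (y ^ (3 * d) * ((n : ℝ) ^ (3 * d))⁻¹) * ni h ^ (-(5 / 2) : ℝ) *
          (Real.log (Real.log (2 + s)) + 3) ^ C1 * Real.log (2 + s) ^ (3 / 4 : ℝ) := by ring
      _ ≤ _ := by gcongr
  have hΦ0 : 0 ≤ C1 * (2 * C0) ^ (3 * d) * ni h ^ (-(5 / 2) : ℝ) *
      Real.log (2 + s) ^ ε * Real.log (2 + s) ^ (3 / 4 : ℝ) := by positivity
  have hW0 : 0 ≤ ∑ b' ∈ S', Wl (3 / 4) s lam b' :=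
    Finset.sum_nonneg fun b _ => (wl_pos _ _ hlam0 b).le
  refine hS'2.trans ?_
  calc (2 ^ (3 / 4 : ℝ)) ^ d * Φ * ((n : ℝ) ^ (3 * d))⁻¹ * ∑ b' ∈ S', Wl (3 / 4) s lam b' =
        (2 ^ (3 / 4 : ℝ)) ^ d * ((Φ * ((n : ℝ) ^ (3 * d))⁻¹) *
          ∑ b' ∈ S', Wl (3 / 4) s lam b') := by ring
    _ ≤ (2 ^ (3 / 4 : ℝ)) ^ d * ((C1 * (2 * C0) ^ (3 * d) * ni h ^ (-(5 / 2) : ℝ) *
      Real.log (2 + s) ^ ε * Real.log (2 + s) ^ (3 / 4 : ℝ)) *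
        (C6 * s ^ (3 * d) * (ρ1 * ρ2) ^ (3 / 2 * (d : ℝ)) *
          (μ ^ (1 / 12 : ℝ) * ρ1 ^ (-(1 / 3) : ℝ)))) := by
        refine mul_le_mul_of_nonneg_left ?_ (by positivity)
        exact mul_le_mul hΦ1 hfin hW0 hΦ0
    _ = _ := by
        rw [Real.rpow_add hL0]
        ring

end H88.AQ
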