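import Pool.Agent.H88.AQ.Tau
import Pool.Agent.H77.CO.Fib
import Pool.Agent.H86.WB.Sw

/-!
# [H88 AQ EXB] `Exb3Stmt`: `E` or `D2^2 - 4 D1 D3` small at one embedding (AQ, W2#, MP_b39724), 200-300 lines. File Pool/Agent/H88/AQ/Exb.lean

Compare H86/WB/Exb.lean (its private lemmas `quad`, `disc`, `line`, `vol_ite` are the model). PROOF. `d = [k : ℚ]`, `[M : ℚ] = 2 d`. Let `θ0 : 𝓞 M` be `ω - ω^2` (`ω` as an integer of `M`): `θ0^2 = -3`, `tO τ θ0 = -θ0`. DIRECTION `v = (1, 0, θ0)`. For `x : 𝓞 k` (write `x` for its image in `𝓞 M`, fixed by `τ`: `tO_alg`)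
`b + x v = (b1 + x, b2, b3 + x θ0)`, and `E2 τ (b + x v)` is a polynomial in `x` of degree 4 over `𝓞 M` with leading coefficient `3`, `dl2 τ (b + x v)` the same with `-12` (`E2_eq`, `dl2_eq`: `dt (b + x v) = θ0 x^2 + (b1 θ0 + b3) x + dt b`, `mx (b + x v) (cj (b + x v))` is
`b1 c3 + b3 c1 - 2 b2 c2 + x (c3 + c1 θ0 + b3 - b1 θ0)` (the coefficient of `x^2` is `-θ0 + θ0 = 0`), `c_i = tO τ b_i`; `(-θ0) θ0 = 3`. Write `E2 τ (b + x v) = 3 x^4 + e3 x^3 + e2 x^2 + e1 x + e0` with explicit `e_i`: `ring`.)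
(1) QUARTIC. Let `f(x) = a x^4 + ..` be a complex polynomial of degree 4, `‖a‖ ≥ 1`: there are `r1, .., r4 : ℂ` with `f(x) = a ∏ (x - r_i)` (`IsAlgClosed`, `Polynomial.splits`, `eq_prod_roots_of_splits_id`, or twice the quadratic trick), so `‖f(x)‖ ≤ η^4` gives `‖x - r_i‖ ≤ η` for some `i`.
(2) ONE LINE. Fix `b0`. The number of `x : 𝓞 k` with `b0 + x v` in the box and `sz φ (E2 τ (b0 + x v)) ≤ μ^2 s^4` is at most `C1 (μ^(1/2) s) (s ρ1^2)^(d - 1)`: the differences `y` of two such `x` satisfy `|y|_ψ ≤ 2 C s ρ1^2` for all `ψ : k → ℂ` (first entry; `|y|_φ = |y|_(φ restricted to k)`, every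
`ψ` is a restriction: `NumberField.ComplexEmbedding.lift`), and for `ψ0 = φ.comp (algebraMap k M)` (and its complex conjugate) the values `ψ0(x)` lie in 4 discs of radius `μ^(1/2) s`: in each disc (4 classes) use `box_card k` with `ν = 1`, `R ψ = 2 C s ρ1^2` for `ψ` different from `ψ0`, `conj ψ0` and
`R ψ = 2 μ^(1/2) s` for these (if this is smaller; see `disc` in H86/WB/Exb.lean): `1 + ∏ R ψ ≤ C2 (μ^(1/2) s) (s ρ1^2)^(d-1)`, since `μ^(1/2) s ≥ 1` (`μ s ≥ 1`, `μ ≤ 1`, `s ≥ 1`), `s ρ1^2 ≥ 1`, and if `ψ0` is not real and `μ^(1/2) s ≤ s ρ1^2` the second factor `μ^(1/2) s` is `≤ s ρ1^2`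
(if `μ^(1/2) ≥ ρ1^2` use the box `2 C s ρ1^2` for all `ψ`: `(s ρ1^2)^d ≤ (μ^(1/2) s) (s ρ1^2)^(d-1)`).
(3) THE LINES. `b` and `b'` of `S` are on one line (`b' = b + x v`, `x ∈ 𝓞 k`) if and only if they have the same invariants: `i1 = (b1 - tO τ b1) θ0`, `i2 = b2`, `i3 = 2 b3 - θ0 (b1 + tO τ b1)`. (If the invariants agree: `b1' - b1 =: x` is fixed by `τ`, so it comes from `𝓞 k` (`Pool.Agent.H12.WM.fixed_int`), `b2' = b2`,
`2 (b3' - b3) = θ0 2 x`.) `i1` is fixed by `τ`, so it is the image of an element of `𝓞 k` of size `≤ 2 C s ρ1^2 √3`; `i2` has size `C s ρ1 ρ2`, `i3` size `≤ 2 C s ρ2^2 + 2 √3 C s ρ1^2 ≤ 6 C s ρ2^2`. Number of values (`box_card` over `k`, `M`, `M`; each is `≤ C (1 + ∏)`; all sizes are `≥ 1`):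
`≤ C3 (s ρ1^2)^d (s ρ1 ρ2)^(2 d) (s ρ2^2)^(2 d)`. Total: (number of lines) × (2) `≤ C4 (s ρ1^2)^d (s ρ1 ρ2)^(2 d) (s ρ2^2)^(2 d) (μ^(1/2) s) (s ρ1^2)^(d-1)` = `C4 s^(6 d) (ρ1 ρ2)^(6 d) μ^(1/2) / ρ1^2`. The two conditions (`E2`, `dl2`) separately: split `S` (`Finset.filter`).
-/

open scoped NumberField
open H88.A4 Pool.Agent.H67.WA H88.WS

noncomputable section

namespace H88.AQ

open H86.WB (card_fib)

section disc

variable (K : Type) [Field K] [NumberField K]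

variable {K} in
private theorem vol_ite (φ : K →+* ℂ) [DecidableEq (K →+* ℂ)] {r R : ℝ} (hR : 0 < R) :
    vol (fun ψ => if ψ = φ then 2 * r else 2 * R) =
      2 ^ Module.finrank ℚ K * (r / R * R ^ Module.finrank ℚ K) := by
  have e1 : (2 * R) ^ Module.finrank ℚ K = 2 * R * ∏ ψ ∈ Finset.univ.erase φ, (2 * R) := by
    rw [Finset.mul_prod_erase (s := (Finset.univ : Finset (K →+* ℂ))) (a := φ)
      (fun ψ => 2 * R) (Finset.mem_univ φ)]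
    exact (vol_const (K := K) (2 * R)).symm
  have e2 : vol (fun ψ => if ψ = φ then 2 * r else 2 * R) =
      2 * r * ∏ ψ ∈ Finset.univ.erase φ, (2 * R) := by
    rw [vol, ← Finset.mul_prod_erase _ _ (Finset.mem_univ φ), if_pos rfl]
    congr 1
    refine Finset.prod_congr rfl fun ψ hψ => ?_
    rw [if_neg (Finset.ne_of_mem_erase hψ)]
  rw [e2]
  have e3 : 2 ^ Module.finrank ℚ K * (r / R * R ^ Module.finrank ℚ K) =
      r / R * (2 * R) ^ Module.finrank ℚ K := by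
    rw [mul_pow]
    ring
  rw [e3, e1]
  field_simp

/-- one disc -/
private theorem disc : ∃ C : ℝ, 1 ≤ C ∧ ∀ (φ : K →+* ℂ) (R r : ℝ), 1 ≤ R → 1 ≤ r →
    ∀ S : Finset (𝓞 K), (∀ x ∈ S, ∀ ψ, sz ψ x ≤ R) → (∀ x ∈ S, ∀ y ∈ S, sz φ (x - y) ≤ 2 * r) →
    (S.card : ℝ) ≤ C * (r / R * R ^ Module.finrank ℚ K) := by
  classical
  obtain ⟨C1, hC1, h1⟩ := f1d K
  obtain ⟨d, hd⟩ : ∃ d, d = Module.finrank ℚ K := ⟨_, rfl⟩
  have hd0 : d ≠ 0 := hd ▸ Module.finrank_pos.ne'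
  have h2d : (1 : ℝ) ≤ 2 ^ d := one_le_pow₀ (by norm_num)
  refine ⟨C1 * (1 + 2 ^ d), by nlinarith, ?_⟩
  intro φ R r hR hr S hS hS2
  have hR0 : 0 < R := by linarith
  have h2 := h1 ⊤ top_ne_bot (fun ψ => if ψ = φ then 2 * r else 2 * R)
    (fun ψ => by
      show 0 ≤ if ψ = φ then 2 * r else 2 * R
      split_ifs <;> positivity) S
    (fun x hx y hy => ⟨Submodule.mem_top, fun ψ => by
      show sz ψ (x - y) ≤ if ψ = φ then 2 * r else 2 * R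
      split_ifs with h
      · rw [h]
        exact hS2 x hx y hy
      · have := sz_sub ψ x y
        have := hS x hx ψ
        have := hS y hy ψ
        linarith⟩)
  rw [ni_top, div_one, vol_ite φ hR0, ← hd] at h2
  refine h2.trans ?_
  rw [← hd]
  have h3 : 1 ≤ r / R * R ^ d := by
    have h4 : R ≤ R ^ d := le_self_pow₀ hR hd0
    calc 1 ≤ r := hr
      _ = r / R * R := by field_simp
      _ ≤ r / R * R ^ d := mul_le_mul_of_nonneg_left h4 (by positivity)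
  calc C1 * (1 + 2 ^ d * (r / R * R ^ d)) ≤ C1 * (r / R * R ^ d + 2 ^ d * (r / R * R ^ d)) := by
        refine mul_le_mul_of_nonneg_left ?_ (by linarith)
        linarith
    _ = _ := by ring

/-- four discs -/
private theorem quart {a e3 e2 e1 e0 : ℂ} (ha : 1 ≤ ‖a‖) : ∃ r : Finset ℂ, r.card ≤ 4 ∧
    ∀ (x : ℂ) (η : ℝ), 0 ≤ η → ‖a * x ^ 4 + e3 * x ^ 3 + e2 * x ^ 2 + e1 * x + e0‖ ≤ η ^ 4 →
      ∃ z ∈ r, ‖x - z‖ ≤ η := by
  classical
  have ha0 : a ≠ 0 := by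
    rintro rfl
    rw [norm_zero] at ha
    linarith
  obtain ⟨P, hP⟩ : ∃ P : Polynomial ℂ, P = Polynomial.C a * Polynomial.X ^ 4 +
      Polynomial.C e3 * Polynomial.X ^ 3 + Polynomial.C e2 * Polynomial.X ^ 2 +
      Polynomial.C e1 * Polynomial.X + Polynomial.C e0 := ⟨_, rfl⟩
  have hdeg : P.natDegree = 4 := by
    rw [hP]
    compute_degree!
  have hlc : P.leadingCoeff = a := by
    rw [Polynomial.leadingCoeff, hdeg, hP]
    simp
  have hsp := IsAlgClosed.splits P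
  have hcard : P.roots.card = 4 := by
    rw [← hsp.natDegree_eq_card_roots, hdeg]
  have hev : ∀ x : ℂ, a * x ^ 4 + e3 * x ^ 3 + e2 * x ^ 2 + e1 * x + e0 =
      a * (P.roots.map fun z => x - z).prod := by
    intro x
    have h1 : P.eval x = a * x ^ 4 + e3 * x ^ 3 + e2 * x ^ 2 + e1 * x + e0 := by
      rw [hP]
      simp
    have h2 : P.eval x = (Polynomial.C P.leadingCoeff *
        (P.roots.map fun z => Polynomial.X - Polynomial.C z).prod).eval x := by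
      rw [← hsp.eq_prod_roots]
    rw [← h1, h2, hlc, Polynomial.eval_mul, Polynomial.eval_C, Polynomial.eval_multiset_prod,
      Multiset.map_map]
    congr 2
    refine Multiset.map_congr rfl fun z _ => ?_
    simp
  refine ⟨P.roots.toFinset, (Multiset.toFinset_card_le _).trans hcard.le, ?_⟩
  intro x η hη hx
  by_contra hcon
  push Not at hcon
  have key : ∀ m : Multiset ℂ, (∀ z ∈ m, η < ‖x - z‖) →
      0 < ‖(m.map fun z => x - z).prod‖ ∧ η ^ m.card ≤ ‖(m.map fun z => x - z).prod‖ ∧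
      (0 < m.card → η ^ m.card < ‖(m.map fun z => x - z).prod‖) := by
    intro m
    induction m using Multiset.induction_on with
    | empty =>
      intro _
      simp
    | cons z m ih =>
      intro h
      obtain ⟨i1, i2, _⟩ := ih fun w hw => h w (Multiset.mem_cons_of_mem hw)
      have hz : η < ‖x - z‖ := h z (Multiset.mem_cons_self _ _)
      have hz0 : 0 < ‖x - z‖ := lt_of_le_of_lt hη hz
      rw [Multiset.map_cons, Multiset.prod_cons, Multiset.card_cons, norm_mul, pow_succ]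
      have h3 : η ^ m.card * η < ‖x - z‖ * ‖(m.map fun z => x - z).prod‖ := by
        calc η ^ m.card * η ≤ ‖(m.map fun z => x - z).prod‖ * η :=
              mul_le_mul_of_nonneg_right i2 hη
          _ < ‖(m.map fun z => x - z).prod‖ * ‖x - z‖ := mul_lt_mul_of_pos_left hz i1
          _ = _ := mul_comm _ _
      exact ⟨mul_pos hz0 i1, h3.le, fun _ => h3⟩
  obtain ⟨k1, _, k3⟩ := key P.roots fun z hz => hcon z (Multiset.mem_toFinset.2 hz)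
  rw [hcard] at k3
  have k4 := k3 (by norm_num)
  rw [hev, norm_mul] at hx
  have k5 : ‖(P.roots.map fun z => x - z).prod‖ ≤ ‖a‖ * ‖(P.roots.map fun z => x - z).prod‖ :=
    le_mul_of_one_le_left k1.le ha
  linarith

/-- a polynomial of degree 4 which is small at `ψ` -/
private theorem line4 : ∃ C : ℝ, 1 ≤ C ∧ ∀ (ψ : K →+* ℂ) (a e3 e2 e1 e0 : ℂ), 1 ≤ ‖a‖ →
    ∀ R η : ℝ, 1 ≤ R → 1 ≤ η → ∀ S : Finset (𝓞 K), (∀ x ∈ S, (∀ ψ', sz ψ' x ≤ R) ∧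
      ‖a * ψ (x : K) ^ 4 + e3 * ψ (x : K) ^ 3 + e2 * ψ (x : K) ^ 2 + e1 * ψ (x : K) + e0‖ ≤
        η ^ 4) →
    (S.card : ℝ) ≤ C * (η / R * R ^ Module.finrank ℚ K) := by
  classical
  obtain ⟨C1, hC1, h1⟩ := disc K
  refine ⟨4 * C1, by linarith, ?_⟩
  intro ψ a e3 e2 e1 e0 ha R η hR hη S hS
  obtain ⟨r, hr, hr2⟩ := quart (e3 := e3) (e2 := e2) (e1 := e1) (e0 := e0) ha
  have hη0 : 0 ≤ η := by linarith
  have h2 : ∀ x : 𝓞 K, ∃ z : ℂ, x ∈ S → z ∈ r ∧ ‖ψ (x : K) - z‖ ≤ η := by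
    intro x
    by_cases hx : x ∈ S
    · obtain ⟨z, hz, hz2⟩ := hr2 (ψ (x : K)) η hη0 (hS x hx).2
      exact ⟨z, fun _ => ⟨hz, hz2⟩⟩
    · exact ⟨0, fun h => absurd h hx⟩
  choose f hf using h2
  have hR0 : 0 < R := by linarith
  have h3 := card_fib S f (M := C1 * (η / R * R ^ Module.finrank ℚ K)) (N := 4)
    (by positivity) (by
      have h4 : (S.image f).card ≤ r.card := Finset.card_le_card (by
        intro z hz
        obtain ⟨x, hx, rfl⟩ := Finset.mem_image.1 hz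
        exact (hf x hx).1)
      exact_mod_cast h4.trans hr) (by
      intro z _
      refine h1 ψ R η hR hη _ (fun x hx => (hS x (Finset.mem_filter.1 hx).1).1) ?_
      intro x hx y hy
      obtain ⟨hx1, hx2⟩ := Finset.mem_filter.1 hx
      obtain ⟨hy1, hy2⟩ := Finset.mem_filter.1 hy
      have g1 := (hf x hx1).2
      have g2 := (hf y hy1).2
      rw [hx2] at g1
      rw [hy2] at g2
      have g3 : sz ψ (x - y) = ‖(ψ (x : K) - z) - (ψ (y : K) - z)‖ := by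
        unfold sz
        congr 1
        simp [map_sub]
      rw [g3]
      have g4 := norm_sub_le (ψ (x : K) - z) (ψ (y : K) - z)
      linarith)
  refine h3.trans (le_of_eq ?_)
  ring

/-- all integers in a box -/
private theorem box : ∃ C : ℝ, 1 ≤ C ∧ ∀ W : ℝ, 1 ≤ W → ∀ P : Finset (𝓞 K),
    (∀ z ∈ P, ∀ ψ, sz ψ z ≤ W) → (P.card : ℝ) ≤ C * W ^ Module.finrank ℚ K := by
  obtain ⟨C2, hC2, h2⟩ := f1 K
  refine ⟨2 * C2, by linarith, ?_⟩
  intro W hW P hP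
  have h3 := h2 ⊤ top_ne_bot (fun _ => W) (fun _ => by linarith) P
    (fun z hz => ⟨Submodule.mem_top, hP z hz⟩)
  rw [ni_top, div_one, vol_const] at h3
  have h4 : 1 ≤ W ^ Module.finrank ℚ K := one_le_pow₀ hW
  nlinarith

end disc

section

variable {k M : Type} [Field k] [NumberField k] [Field M] [NumberField M] [Algebra k M]

open Pool.Agent.H12.WM (tO_mul tO_add tO_sub tO_neg tO_pow tO_tO fixed_int)

private theorem exists_th {τ : M ≃ₐ[k] M} {ω : M} (h : Omk τ ω) :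
    ∃ θ : 𝓞 M, θ ^ 2 = -3 ∧ tO τ θ = -θ := by
  obtain ⟨_, h2, h3⟩ := h
  have hint : IsIntegral ℤ ω := h2.isIntegral (by norm_num)
  have h4 : ω ^ 3 = 1 := h2.pow_eq_one
  have h5 : 1 + ω + ω ^ 2 = 0 := by
    have h6 : (ω - 1) * (1 + ω + ω ^ 2) = 0 := by linear_combination h4
    rcases mul_eq_zero.1 h6 with h7 | h7
    · exact absurd (sub_eq_zero.1 h7) (h2.ne_one (by norm_num))
    · exact h7
  obtain ⟨w, hw⟩ : ∃ w : 𝓞 M, (w : M) = ω := ⟨⟨ω, hint⟩, rfl⟩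
  have e1 : 1 + w + w ^ 2 = 0 := by
    apply NumberField.RingOfIntegers.coe_injective
    simpa [map_add, map_pow, hw] using h5
  have e2 : tO τ w = w ^ 2 := by
    apply NumberField.RingOfIntegers.coe_injective
    show τ (w : M) = ((w ^ 2 : 𝓞 M) : M)
    have h7 : ((w ^ 2 : 𝓞 M) : M) = (w : M) ^ 2 := map_pow (algebraMap (𝓞 M) M) w 2
    rw [h7, hw, h3]
  refine ⟨w - w ^ 2, ?_, ?_⟩
  · linear_combination (w ^ 2 - 3 * w + 3) * e1
  · rw [tO_sub, tO_pow, e2]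
    linear_combination (w - w ^ 2) * e1

private theorem sz_th {θ : 𝓞 M} (h : θ ^ 2 = -3) (φ : M →+* ℂ) : sz φ θ ≤ 2 := by
  have h3 : sz φ (3 : 𝓞 M) = 3 := by
    have h5 : ((3 : 𝓞 M) : M) = 3 := by simpa using map_ofNat (algebraMap (𝓞 M) M) 3
    unfold sz
    rw [h5, map_ofNat]
    simp
  have h1 : sz φ θ ^ 2 = 3 := by
    rw [← sz_pow, h, sz_neg, h3]
  nlinarith [sz_nonneg φ θ]

private theorem line_E2 {τ : M ≃ₐ[k] M} {θ : 𝓞 M} (h1 : θ ^ 2 = -3) (h2 : tO τ θ = -θ) (b : T3 M) :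
    ∃ e3 e2 e1 e0 : 𝓞 M, ∀ x : 𝓞 M, tO τ x = x → E2 τ (b.1 + x, b.2.1, b.2.2 + x * θ) =
      3 * x ^ 4 + e3 * x ^ 3 + e2 * x ^ 2 + e1 * x + e0 := by
  obtain ⟨c, hc⟩ : ∃ c : T3 M, c = cj τ b := ⟨_, rfl⟩
  have c1 : tO τ b.1 = c.1 := by rw [hc]; rfl
  have c2 : tO τ b.2.1 = c.2.1 := by rw [hc]; rfl
  have c3 : tO τ b.2.2 = c.2.2 := by rw [hc]; rfl
  refine ⟨θ * (c.2.2 - c.1 * θ - (b.1 * θ + b.2.2)),
    -θ * dt b + (b.1 * θ + b.2.2) * (c.2.2 - c.1 * θ) + θ * dt c -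
      (c.2.2 + b.2.2 + (c.1 - b.1) * θ) ^ 2,
    dt b * (c.2.2 - c.1 * θ) + (b.1 * θ + b.2.2) * dt c -
      2 * mx b c * (c.2.2 + b.2.2 + (c.1 - b.1) * θ), dt b * dt c - mx b c ^ 2, ?_⟩
  intro x hx
  rw [E2_eq, ← dt_cj]
  simp only [cj, dt, mx, tO_add, tO_mul, hx, h2, c1, c2, c3]
  linear_combination (-x ^ 4) * h1

private theorem line_dl2 {τ : M ≃ₐ[k] M} {θ : 𝓞 M} (h1 : θ ^ 2 = -3) (h2 : tO τ θ = -θ) (b : T3 M) :
    ∃ e3 e2 e1 e0 : 𝓞 M, ∀ x : 𝓞 M, tO τ x = x → dl2 τ (b.1 + x, b.2.1, b.2.2 + x * θ) =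
      -12 * x ^ 4 + e3 * x ^ 3 + e2 * x ^ 2 + e1 * x + e0 := by
  obtain ⟨c, hc⟩ : ∃ c : T3 M, c = cj τ b := ⟨_, rfl⟩
  have c1 : tO τ b.1 = c.1 := by rw [hc]; rfl
  have c2 : tO τ b.2.1 = c.2.1 := by rw [hc]; rfl
  have c3 : tO τ b.2.2 = c.2.2 := by rw [hc]; rfl
  refine ⟨-4 * (θ * (c.2.2 - c.1 * θ - (b.1 * θ + b.2.2))),
    (c.2.2 + b.2.2 + (c.1 - b.1) * θ) ^ 2 -
      4 * (-θ * dt b + (b.1 * θ + b.2.2) * (c.2.2 - c.1 * θ) + θ * dt c),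
    2 * mx b c * (c.2.2 + b.2.2 + (c.1 - b.1) * θ) -
      4 * (dt b * (c.2.2 - c.1 * θ) + (b.1 * θ + b.2.2) * dt c), mx b c ^ 2 - 4 * (dt b * dt c), ?_⟩
  intro x hx
  rw [dl2_eq, ← dt_cj]
  simp only [cj, dt, mx, tO_add, tO_mul, hx, h2, c1, c2, c3]
  linear_combination (4 * x ^ 4) * h1

/-- one form -/
private theorem form {τ : M ≃ₐ[k] M} (hτ : Invo k M τ) {θ : 𝓞 M} (h1 : θ ^ 2 = -3)
    (h2 : tO τ θ = -θ) {C : ℝ} (hC : 1 ≤ C) : ∃ C' : ℝ, 1 ≤ C' ∧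
    ∀ (φ : M →+* ℂ) (Q : T3 M → 𝓞 M) (a : 𝓞 M), 1 ≤ sz φ a →
    (∀ b : T3 M, ∃ e3 e2 e1 e0 : 𝓞 M, ∀ x : 𝓞 M, tO τ x = x →
      Q (b.1 + x, b.2.1, b.2.2 + x * θ) = a * x ^ 4 + e3 * x ^ 3 + e2 * x ^ 2 + e1 * x + e0) →
    ∀ s ρ1 ρ2 w : ℝ, 1 ≤ s → 0 < ρ1 → ρ1 ≤ ρ2 → 1 ≤ s * ρ1 ^ 2 → 0 < w → 1 ≤ w * s →
    ∀ S : Finset (T3 M), (∀ b ∈ S, Bx C s ρ1 ρ2 b ∧ sz φ (Q b) ≤ (w * s) ^ 4) →
    (S.card : ℝ) ≤ C' * (s ^ (3 * Module.finrank ℚ M) *
      (ρ1 * ρ2) ^ (3 * Module.finrank ℚ M) * (w / ρ1 ^ 2)) := by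
  classical
  obtain ⟨Cl, hCl, hl⟩ := line4 k
  obtain ⟨Ck, hCk, hk⟩ := box k
  obtain ⟨Cm, hCm, hm⟩ := box M
  obtain ⟨d, hd⟩ : ∃ d, d = Module.finrank ℚ k := ⟨_, rfl⟩
  obtain ⟨n, hn⟩ : ∃ n, n = Module.finrank ℚ M := ⟨_, rfl⟩
  have hnd : n = 2 * d := by
    rw [hn, hd, ← Module.finrank_mul_finrank ℚ k M, hτ.deg, mul_comm]
  rw [← hd] at hl hk
  rw [← hn] at hm ⊢
  have hC0 : 0 < C := by linarith
  obtain ⟨K, hK⟩ : ∃ K : ℝ, K = (Ck * Cm * Cm * Cl) * ((8 * C ^ 2) ^ d * (6 * C ^ 2) ^ n) :=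
    ⟨_, rfl⟩
  have hK1 : 1 ≤ K := by
    have g1 : (1 : ℝ) ≤ C ^ 2 := one_le_pow₀ hC
    have g2 : (1 : ℝ) ≤ (8 * C ^ 2) ^ d := one_le_pow₀ (by linarith)
    have g3 : (1 : ℝ) ≤ (6 * C ^ 2) ^ n := one_le_pow₀ (by linarith)
    rw [hK]
    exact one_le_mul_of_one_le_of_one_le
      (one_le_mul_of_one_le_of_one_le (one_le_mul_of_one_le_of_one_le
        (one_le_mul_of_one_le_of_one_le hCk hCm) hCm) hCl)
      (one_le_mul_of_one_le_of_one_le g2 g3)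
  refine ⟨K, hK1, ?_⟩
  intro φ Q a ha hQ s ρ1 ρ2 w hs hρ1 hρ12 hsρ hw hws S hS
  have hs0 : 0 < s := by linarith
  have hρ2 : 0 < ρ2 := by linarith
  have hq1 : ρ1 ^ 2 ≤ ρ1 * ρ2 := by
    rw [pow_two]
    exact mul_le_mul_of_nonneg_left hρ12 hρ1.le
  have hq2 : ρ1 * ρ2 ≤ ρ2 ^ 2 := by
    rw [pow_two]
    exact mul_le_mul_of_nonneg_right hρ12 hρ2.le
  have hA : s * ρ1 ^ 2 ≤ C * s * ρ1 ^ 2 := by
    rw [mul_assoc]
    exact le_mul_of_one_le_left (by positivity) hC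
  have hB : C * s * ρ1 ^ 2 ≤ C * s * (ρ1 * ρ2) := mul_le_mul_of_nonneg_left hq1 (by positivity)
  have hD : C * s * (ρ1 * ρ2) ≤ C * s * ρ2 ^ 2 := mul_le_mul_of_nonneg_left hq2 (by positivity)
  have hA1 : 1 ≤ C * s * ρ1 ^ 2 := hsρ.trans hA
  have hB1 : 1 ≤ C * s * (ρ1 * ρ2) := hA1.trans hB
  have hD1 : 1 ≤ C * s * ρ2 ^ 2 := hB1.trans hD
  -- the invariants of the lines
  have hfix : ∀ b : T3 M, tO τ ((b.1 - tO τ b.1) * θ) = (b.1 - tO τ b.1) * θ := by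
    intro b
    rw [tO_mul, tO_sub, tO_tO hτ, h2]
    ring
  choose y1 hy1 using fun b : T3 M => fixed_int hτ (hfix b)
  obtain ⟨y3, hy3⟩ : ∃ y3 : T3 M → 𝓞 M, y3 = fun b => 2 * b.2.2 - θ * (b.1 + tO τ b.1) := ⟨_, rfl⟩
  obtain ⟨F, hF⟩ : ∃ F : T3 M → 𝓞 k × 𝓞 M × 𝓞 M, F = fun b => (y1 b, b.2.1, y3 b) := ⟨_, rfl⟩
  have hszk : ∀ (ψ : k →+* ℂ) (x : 𝓞 k) (φ' : M →+* ℂ), φ'.comp (algebraMap k M) = ψ →
      sz ψ x = sz φ' (algebraMap (𝓞 k) (𝓞 M) x) := by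
    rintro ψ x φ' rfl
    rfl
  have hup : ∀ ψ : k →+* ℂ, ∃ φ' : M →+* ℂ, φ'.comp (algebraMap k M) = ψ := by
    intro ψ
    refine ⟨NumberField.ComplexEmbedding.lift M ψ, ?_⟩
    ext x
    exact NumberField.ComplexEmbedding.lift_algebraMap_apply M ψ x
  have hb1 : ∀ b ∈ S, ∀ φ' : M →+* ℂ, sz φ' b.1 ≤ C * s * ρ1 ^ 2 := fun b hb => (hS b hb).1.1
  have hc1 : ∀ b ∈ S, ∀ φ' : M →+* ℂ, sz φ' (tO τ b.1) ≤ C * s * ρ1 ^ 2 :=
    fun b hb => bd_tO τ (hS b hb).1.1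
  have hθ : ∀ φ' : M →+* ℂ, sz φ' θ ≤ 2 := sz_th h1
  have n1 : ((S.image F).card : ℝ) ≤ (Ck * (4 * (C * s * ρ1 ^ 2)) ^ d) *
      ((Cm * (C * s * (ρ1 * ρ2)) ^ n) * (Cm * (6 * (C * s * ρ2 ^ 2)) ^ n)) := by
    have g1 : (S.image F).card ≤ (S.image y1).card * ((S.image fun b => b.2.1).card *
        (S.image y3).card) := by
      rw [← Finset.card_product, ← Finset.card_product]
      refine Finset.card_le_card ?_
      intro z hz
      obtain ⟨b, hb, rfl⟩ := Finset.mem_image.1 hz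
      rw [hF]
      exact Finset.mem_product.2 ⟨Finset.mem_image_of_mem _ hb,
        Finset.mem_product.2 ⟨Finset.mem_image_of_mem _ hb, Finset.mem_image_of_mem _ hb⟩⟩
    have g2 : ((S.image y1).card : ℝ) ≤ Ck * (4 * (C * s * ρ1 ^ 2)) ^ d := by
      refine hk _ (by linarith) _ fun z hz ψ => ?_
      obtain ⟨b, hb, rfl⟩ := Finset.mem_image.1 hz
      obtain ⟨φ', hφ'⟩ := hup ψ
      rw [hszk ψ _ φ' hφ', hy1, sz_mul]
      have g3 := sz_sub φ' b.1 (tO τ b.1)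
      have g4 := hb1 b hb φ'
      have g5 := hc1 b hb φ'
      calc sz φ' (b.1 - tO τ b.1) * sz φ' θ ≤ (2 * (C * s * ρ1 ^ 2)) * 2 :=
            mul_le_mul (by linarith) (hθ φ') (sz_nonneg _ _) (by linarith)
        _ = _ := by ring
    have g3 : ((S.image fun b => b.2.1).card : ℝ) ≤ Cm * (C * s * (ρ1 * ρ2)) ^ n := by
      refine hm _ hB1 _ fun z hz ψ => ?_
      obtain ⟨b, hb, rfl⟩ := Finset.mem_image.1 hz
      exact (hS b hb).1.2.1 ψ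
    have g4 : ((S.image y3).card : ℝ) ≤ Cm * (6 * (C * s * ρ2 ^ 2)) ^ n := by
      refine hm _ (by linarith) _ fun z hz φ' => ?_
      obtain ⟨b, hb, rfl⟩ := Finset.mem_image.1 hz
      rw [hy3]
      show sz φ' (2 * b.2.2 - θ * (b.1 + tO τ b.1)) ≤ _
      have g5 := sz_sub φ' (2 * b.2.2) (θ * (b.1 + tO τ b.1))
      have g6 : sz φ' (2 * b.2.2) ≤ 2 * (C * s * ρ2 ^ 2) := by
        rw [sz_mul, sz_two]
        exact mul_le_mul_of_nonneg_left ((hS b hb).1.2.2 φ') (by norm_num)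
      have g7 : sz φ' (θ * (b.1 + tO τ b.1)) ≤ 2 * (2 * (C * s * ρ1 ^ 2)) := by
        rw [sz_mul]
        refine mul_le_mul (hθ φ') ?_ (sz_nonneg _ _) (by norm_num)
        have g8 := sz_add φ' b.1 (tO τ b.1)
        have g9 := hb1 b hb φ'
        have g10 := hc1 b hb φ'
        linarith
      linarith
    have g5 : (((S.image F).card : ℕ) : ℝ) ≤ ((S.image y1).card : ℝ) *
        (((S.image fun b => b.2.1).card : ℝ) * ((S.image y3).card : ℝ)) := by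
      exact_mod_cast g1
    refine g5.trans ?_
    gcongr
  have hR1 : 1 ≤ 2 * (C * s * ρ1 ^ 2) := by linarith
  have n2 : ∀ z ∈ S.image F, ((S.filter fun b => F b = z).card : ℝ) ≤
      Cl * (w * s / (2 * (C * s * ρ1 ^ 2)) * (2 * (C * s * ρ1 ^ 2)) ^ d) := by
    intro z hz
    obtain ⟨b0, hb0, rfl⟩ := Finset.mem_image.1 hz
    have hline : ∀ b : T3 M, ∃ x : 𝓞 k, b ∈ S ∧ F b = F b0 →
        b = (b0.1 + algebraMap (𝓞 k) (𝓞 M) x, b0.2.1, b0.2.2 + algebraMap (𝓞 k) (𝓞 M) x * θ) := by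
      intro b
      by_cases hb : b ∈ S ∧ F b = F b0
      · obtain ⟨hbS, hbF⟩ := hb
        rw [hF] at hbF
        simp only [Prod.mk.injEq] at hbF
        obtain ⟨f1, f2, f3⟩ := hbF
        have f4 : (b.1 - tO τ b.1) * θ = (b0.1 - tO τ b0.1) * θ := by
          rw [← hy1, ← hy1, f1]
        have hθ0 : θ ≠ 0 := by
          rintro rfl
          have : (3 : 𝓞 M) = 0 := by linear_combination h1
          exact absurd this (by norm_num)
        have f5 : b.1 - tO τ b.1 = b0.1 - tO τ b0.1 := mul_right_cancel₀ hθ0 f4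
        have f6 : tO τ (b.1 - b0.1) = b.1 - b0.1 := by
          rw [tO_sub]
          linear_combination -f5
        obtain ⟨x, hx⟩ := fixed_int hτ f6
        refine ⟨x, fun _ => ?_⟩
        rw [hx]
        rw [hy3] at f3
        have f7 : 2 * (b.2.2 - (b0.2.2 + (b.1 - b0.1) * θ)) = 0 := by
          linear_combination f3 - θ * f5
        have f8 : b.2.2 = b0.2.2 + (b.1 - b0.1) * θ := by
          rcases mul_eq_zero.1 f7 with f9 | f9
          · exact absurd f9 (by norm_num)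
          · exact sub_eq_zero.1 f9
        refine Prod.ext ?_ (Prod.ext f2 f8)
        show b.1 = b0.1 + (b.1 - b0.1)
        ring
      · exact ⟨0, fun h => absurd h hb⟩
    choose x hx using hline
    have hmem : ∀ b ∈ S.filter (fun b => F b = F b0), b ∈ S ∧ b = (b0.1 +
        algebraMap (𝓞 k) (𝓞 M) (x b), b0.2.1, b0.2.2 + algebraMap (𝓞 k) (𝓞 M) (x b) * θ) :=
      fun b hb => ⟨(Finset.mem_filter.1 hb).1, hx b (Finset.mem_filter.1 hb)⟩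
    have hinj : Set.InjOn x (S.filter fun b => F b = F b0) := by
      intro b hb b' hb' hxx
      rw [(hmem b hb).2, (hmem b' hb').2, hxx]
    rw [← Finset.card_image_of_injOn hinj]
    obtain ⟨e3, e2, e1, e0, he⟩ := hQ b0
    refine hl (φ.comp (algebraMap k M)) (φ (a : M)) (φ (e3 : M)) (φ (e2 : M)) (φ (e1 : M))
      (φ (e0 : M)) ha (2 * (C * s * ρ1 ^ 2)) (w * s) hR1 hws _ ?_
    intro t ht
    obtain ⟨b, hb, rfl⟩ := Finset.mem_image.1 ht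
    obtain ⟨hbS, hbx⟩ := hmem b hb
    constructor
    · intro ψ
      obtain ⟨φ', hφ'⟩ := hup ψ
      rw [hszk ψ _ φ' hφ']
      have g1 : algebraMap (𝓞 k) (𝓞 M) (x b) = b.1 - b0.1 := by
        have g2 : b.1 = b0.1 + algebraMap (𝓞 k) (𝓞 M) (x b) := congrArg Prod.fst hbx
        rw [g2]
        ring
      rw [g1]
      have g3 := sz_sub φ' b.1 b0.1
      have g4 := hb1 b hbS φ'
      have g5 := hb1 b0 hb0 φ'
      linarith
    · have g1 := (hS b hbS).2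
      rw [hbx, he _ (tO_alg (x b))] at g1
      have g2 : φ ((algebraMap (𝓞 k) (𝓞 M) (x b) : 𝓞 M) : M) =
          (φ.comp (algebraMap k M)) ((x b : 𝓞 k) : k) := rfl
      unfold sz at g1
      simp only [map_add, map_mul, map_pow, g2] at g1
      exact g1
  have n3 := card_fib S F (by positivity) n1 n2
  refine n3.trans ?_
  have hX : 0 < s * ρ1 ^ 2 := by positivity
  have n4 : w * s / (2 * (C * s * ρ1 ^ 2)) ≤ w / ρ1 ^ 2 := by
    rw [div_le_div_iff₀ (by positivity) (by positivity)]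
    have : w * s * ρ1 ^ 2 ≤ C * (w * s * ρ1 ^ 2) := le_mul_of_one_le_left (by positivity) hC
    nlinarith [mul_pos (mul_pos hw hs0) (pow_pos hρ1 2)]
  have n5 : (Ck * (4 * (C * s * ρ1 ^ 2)) ^ d) * ((Cm * (C * s * (ρ1 * ρ2)) ^ n) *
      (Cm * (6 * (C * s * ρ2 ^ 2)) ^ n)) * (Cl * (w * s / (2 * (C * s * ρ1 ^ 2)) *
      (2 * (C * s * ρ1 ^ 2)) ^ d)) = K * (s ^ (3 * n) * (ρ1 * ρ2) ^ (3 * n) *
        (w * s / (2 * (C * s * ρ1 ^ 2)))) := by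
    have e1 : (4 * (C * s * ρ1 ^ 2)) ^ d * (2 * (C * s * ρ1 ^ 2)) ^ d =
        (8 * C ^ 2) ^ d * (s * ρ1 ^ 2) ^ n := by
      rw [hnd, pow_mul (s * ρ1 ^ 2) 2 d, ← mul_pow, ← mul_pow]
      congr 1
      ring
    have e2 : (C * s * (ρ1 * ρ2)) ^ n * (6 * (C * s * ρ2 ^ 2)) ^ n =
        (6 * C ^ 2) ^ n * (s ^ 2 * (ρ1 * ρ2 ^ 3)) ^ n := by
      rw [← mul_pow, ← mul_pow]
      congr 1
      ring
    have e3 : s ^ (3 * n) * (ρ1 * ρ2) ^ (3 * n) = (s * ρ1 ^ 2) ^ n * (s ^ 2 * (ρ1 * ρ2 ^ 3)) ^ n := by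
      rw [pow_mul, pow_mul, ← mul_pow, ← mul_pow]
      congr 1
      ring
    rw [hK, e3]
    calc _ = (Ck * Cm * Cm * Cl) * (((4 * (C * s * ρ1 ^ 2)) ^ d * (2 * (C * s * ρ1 ^ 2)) ^ d) *
          ((C * s * (ρ1 * ρ2)) ^ n * (6 * (C * s * ρ2 ^ 2)) ^ n)) *
          (w * s / (2 * (C * s * ρ1 ^ 2))) := by ring
      _ = _ := by
        rw [e1, e2]
        ring
  rw [n5]
  exact mul_le_mul_of_nonneg_left (mul_le_mul_of_nonneg_left n4 (by positivity)) (by linarith)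

end

theorem exb3 (k M : Type) [Field k] [NumberField k] [Field M] [NumberField M] [Algebra k M] :
    Exb3Stmt k M := by
  classical
  intro τ ω hω C hC
  obtain ⟨θ, h1, h2⟩ := exists_th hω
  obtain ⟨K, hK, hf⟩ := form hω.1 h1 h2 hC
  refine ⟨2 * K, by linarith, ?_⟩
  intro s ρ1 ρ2 μ hs hρ1 hρ12 hsρ hμ _ hμs φ S hS
  obtain ⟨w, hw⟩ : ∃ w : ℝ, w = μ ^ (1 / 2 : ℝ) := ⟨_, rfl⟩
  have hw0 : 0 < w := hw ▸ Real.rpow_pos_of_pos hμ _
  have hw2 : w ^ 2 = μ := by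
    rw [hw, ← Real.rpow_natCast, ← Real.rpow_mul hμ.le]
    norm_num
  have hs0 : 0 < s := by linarith
  have hws : 1 ≤ w * s := by
    have g1 : 1 ≤ (w * s) ^ 2 := by
      rw [mul_pow, hw2]
      nlinarith
    by_contra hcon
    push Not at hcon
    have g2 : 0 < w * s := by positivity
    nlinarith
  have hw4 : μ ^ 2 * s ^ 4 = (w * s) ^ 4 := by
    rw [← hw2]
    ring
  have n3 : sz φ (3 : 𝓞 M) = 3 := by
    have h5 : ((3 : 𝓞 M) : M) = 3 := by simpa using map_ofNat (algebraMap (𝓞 M) M) 3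
    unfold sz
    rw [h5, map_ofNat]
    simp
  have n12 : sz φ (-12 : 𝓞 M) = 12 := by
    have h5 : ((12 : 𝓞 M) : M) = 12 := by simpa using map_ofNat (algebraMap (𝓞 M) M) 12
    rw [sz_neg]
    unfold sz
    rw [h5, map_ofNat]
    simp
  rw [← hw]
  rw [hw4] at hS
  rw [← Finset.card_filter_add_card_filter_not (fun b : T3 M => sz φ (E2 τ b) ≤ (w * s) ^ 4)]
  push_cast
  have g1 := hf φ (E2 τ) 3 (by rw [n3]; norm_num) (line_E2 h1 h2) s ρ1 ρ2 w hs hρ1 hρ12 hsρ hw0 hws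
    (S.filter fun b : T3 M => sz φ (E2 τ b) ≤ (w * s) ^ 4) (fun b hb => by
      obtain ⟨hb1, hb2⟩ := Finset.mem_filter.1 hb
      exact ⟨(hS b hb1).1, hb2⟩)
  have g2 := hf φ (dl2 τ) (-12) (by rw [n12]; norm_num) (line_dl2 h1 h2) s ρ1 ρ2 w hs hρ1 hρ12 hsρ
    hw0 hws (S.filter fun b : T3 M => ¬ sz φ (E2 τ b) ≤ (w * s) ^ 4) (fun b hb => by
      obtain ⟨hb1, hb2⟩ := Finset.mem_filter.1 hb
      exact ⟨(hS b hb1).1, (hS b hb1).2.resolve_left hb2⟩)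
  calc _ ≤ K * (s ^ (3 * Module.finrank ℚ M) *
      (ρ1 * ρ2) ^ (3 * Module.finrank ℚ M) * (w / ρ1 ^ 2)) + K * (s ^ (3 * Module.finrank ℚ M) *
      (ρ1 * ρ2) ^ (3 * Module.finrank ℚ M) * (w / ρ1 ^ 2)) := add_le_add g1 g2
    _ = _ := by ring

end H88.AQ
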