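import Pool.Agent.H88.AQ.Tau
import Pool.Agent.H12.WM.U2
import Pool.Agent.H77.CO.Fib

/-!
# [H88 AQ EZU] number of `u` for given `(p, n)`, conjugate case, sizes per embedding (AQ, W2#, MP_b39724), 120-220 lines. File Pool/Agent/H88/AQ/Ezu.lean

`mn2 τ s p φ = min (s^3/|p|_φ^3) (s^3/|τ p|_φ^3)`. Copy `u_card2` (H12/WM/U2.lean), steps (a)-(c) unchanged: two solutions `u, u'` give `w = u - u'`, `z = w / p^3`, `y = m^5 δ' z ∈ 𝓞 M` fixed by `τ`, `y = algebraMap x`, `x : 𝓞 k`; the map is injective and differences are nonzero elements of `𝓞 k`. NEW SIZE ESTIMATE (d): for every embedding `φ` of `M` above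
`ψ : k → ℂ`: `|x|_ψ = |y|_φ = m^5 |δ'|_φ |w|_φ/|p|_φ^3 ≤ m^5 A 2 C s^3/|p|_φ^3` (`A` a bound of `δ'`), and the same with `φ ∘ τ` (`|y|_(φ ∘ τ) = |τ y|_φ = |y|_φ`; `|p|_(φ ∘ τ) = |τ p|_φ`), so `|x|_ψ ≤ C2 mn2 τ s p φ` for each `φ` above `ψ`. Choose `φ = e ψ` by `ab_min (k := k) hτ.deg` (H77/CO/Fib.lean)
for `c φ = mn2 τ s p φ > 0`: `(∏_ψ mn2 (e ψ))^2 ≤ ∏_φ mn2 φ`, so `∏_ψ mn2 (e ψ) ≤ √(∏_φ mn2 φ) = ∏_φ (mn2 φ)^(1/2)`. (e) `box_card k`, `ν = 1`, `R ψ = 2 C2 mn2 τ s p (e ψ)`: `S.card ≤ C3 (1 + ∏_φ (mn2 φ)^(1/2))`, and `1 ≤ C^(3 d/2) ∏_φ (mn2 φ)^(1/2)` since `|p|_φ, |τ p|_φ ≤ C s` gives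
`mn2 ≥ C^(-3)`. Result: `S.card ≤ C' ∏_φ (mn2 τ s p φ)^(1/2)`.
-/

open scoped NumberField
open H88.A4 Pool.Agent.H67.WA H88.WS

noncomputable section

namespace H88.AQ

/-- `min (s ^ 3 / |p|_φ ^ 3) (s ^ 3 / |τ p|_φ ^ 3)` -/
def mn2 {k M : Type} [Field k] [NumberField k] [Field M] [NumberField M] [Algebra k M]
    (τ : M ≃ₐ[k] M) (s : ℝ) (p : 𝓞 M) (φ : M →+* ℂ) : ℝ :=
  min (s ^ 3 / sz φ p ^ 3) (s ^ 3 / sz φ (tO τ p) ^ 3)

open Pool.Agent.H12.WM (tO_mul tO_add tO_sub tO_neg tO_pow tO_tO tO_ne tO_inj fixed_int exists_delta tO_one) in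
theorem u_card3 (k M : Type) [Field k] [NumberField k] [Field M] [NumberField M] [Algebra k M]
    (τ : M ≃ₐ[k] M) (hτ : Invo k M τ) (m : ℕ) (hm : m ≠ 0) (C : ℝ) (hC : 1 ≤ C) :
    ∃ C' : ℝ, 0 < C' ∧ ∀ s : ℝ, 1 ≤ C * s → ∀ p q n : 𝓞 M, p ≠ 0 → (q = tO τ p ∨ q = -tO τ p) →
      Bd (C * s) p → (m : 𝓞 M) ∈ Ideal.span {p, q} → ∀ S : Finset (𝓞 M),
      (∀ u ∈ S, Bd (C * s ^ 3) u ∧ tO τ u * p ^ 3 + u * q ^ 3 = n) →
      (S.card : ℝ) ≤ C' * ∏ φ : M →+* ℂ, mn2 τ s p φ ^ (1 / 2 : ℝ) := by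
  classical
  obtain ⟨C1, hC1, hbox⟩ := box_card k
  obtain ⟨δ, hδ0, hδ⟩ := exists_delta hτ
  obtain ⟨D, hD1, hDδ⟩ : ∃ D : ℝ, 1 ≤ D ∧ ∀ φ : M →+* ℂ, ‖φ (δ : M)‖ ≤ D := by
    refine ⟨1 + ∑ φ : M →+* ℂ, ‖φ (δ : M)‖, ?_, ?_⟩
    · have : 0 ≤ ∑ φ : M →+* ℂ, ‖φ (δ : M)‖ := Finset.sum_nonneg fun _ _ => norm_nonneg _
      linarith
    · intro φ
      have h1 : ‖φ (δ : M)‖ ≤ ∑ φ : M →+* ℂ, ‖φ (δ : M)‖ :=
        Finset.single_le_sum (f := fun φ : M →+* ℂ => ‖φ (δ : M)‖)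
          (fun _ _ => norm_nonneg _) (Finset.mem_univ φ)
      linarith
  obtain ⟨d, hd⟩ : ∃ d : ℕ, d = Module.finrank ℚ k := ⟨_, rfl⟩
  set K0 : ℝ := D * (m : ℝ) ^ 5 * (2 * C) with hK0
  have hm0 : (0 : ℝ) < m := by exact_mod_cast Nat.pos_of_ne_zero hm
  have hK0pos : 0 < K0 := by positivity
  refine ⟨C1 * ((C ^ 3) ^ Fintype.card (M →+* ℂ) + K0 ^ d), by positivity, ?_⟩
  intro s hs p q n hp hq hpB hmem S hS
  have hs0 : 0 < s := by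
    by_contra h
    push Not at h
    nlinarith
  have hszp : ∀ φ : M →+* ℂ, 0 < sz φ p := by
    intro φ
    show 0 < ‖φ (p : M)‖
    rw [norm_pos_iff, map_ne_zero]
    intro h
    exact hp (NumberField.RingOfIntegers.coe_injective h)
  have hszt : ∀ φ : M →+* ℂ, 0 < sz φ (tO τ p) := fun φ => hszp (φ.comp (τ : M →+* M))
  have hmn0 : ∀ φ : M →+* ℂ, 0 < mn2 τ s p φ := by
    intro φ
    have h1 := hszp φ
    have h2 := hszt φ
    exact lt_min (div_pos (pow_pos hs0 3) (pow_pos h1 3)) (div_pos (pow_pos hs0 3) (pow_pos h2 3))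
  rcases S.eq_empty_or_nonempty with hSe | ⟨u0, hu0⟩
  · subst hSe
    simp only [Finset.card_empty, Nat.cast_zero]
    exact mul_nonneg (by positivity) (Finset.prod_nonneg fun φ _ => Real.rpow_nonneg (hmn0 φ).le _)
  obtain ⟨x, y, hxy⟩ := Ideal.mem_span_pair.1 hmem
  obtain ⟨X, hX⟩ : ∃ X : 𝓞 M, X = x ^ 5 * p ^ 2 + 5 * x ^ 4 * y * p * q + 10 * x ^ 3 * y ^ 2 * q ^ 2 :=
    ⟨_, rfl⟩
  obtain ⟨Y, hY⟩ : ∃ Y : 𝓞 M, Y = 10 * x ^ 2 * y ^ 3 * p ^ 2 + 5 * x * y ^ 4 * p * q + y ^ 5 * q ^ 2 :=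
    ⟨_, rfl⟩
  have hM5 : (m : 𝓞 M) ^ 5 = X * p ^ 3 + Y * q ^ 3 := by
    rw [← hxy, hX, hY]
    ring
  have hm5ne : (m : 𝓞 M) ^ 5 ≠ 0 := pow_ne_zero 5 (Nat.cast_ne_zero.2 hm)
  have htm : tO τ ((m : 𝓞 M) ^ 5) = (m : 𝓞 M) ^ 5 := by
    rw [tO_pow]
    congr 1
    apply NumberField.RingOfIntegers.coe_injective
    change τ (algebraMap (𝓞 M) M (m : 𝓞 M)) = algebraMap (𝓞 M) M (m : 𝓞 M)
    rw [map_natCast, map_natCast]
  -- the sign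
  obtain ⟨e, he, hq3⟩ : ∃ e : 𝓞 M, (e = 1 ∨ e = -1) ∧ q ^ 3 = e * tO τ p ^ 3 := by
    rcases hq with h | h
    · exact ⟨1, Or.inl rfl, by rw [h]; ring⟩
    · exact ⟨-1, Or.inr rfl, by rw [h]; ring⟩
  obtain ⟨δ', hδ'0, hδ', hδ'D⟩ : ∃ δ' : 𝓞 M, δ' ≠ 0 ∧ tO τ δ' = -e * δ' ∧
      ∀ φ : M →+* ℂ, ‖φ (δ' : M)‖ ≤ D := by
    rcases he with h | h
    · exact ⟨δ, hδ0, by rw [h, hδ]; ring, hDδ⟩
    · refine ⟨1, one_ne_zero, by rw [h, tO_one]; ring, ?_⟩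
      intro φ
      have h1 : ((1 : 𝓞 M) : M) = 1 := map_one (algebraMap (𝓞 M) M)
      rw [h1, map_one, norm_one]
      exact hD1
  have hee : e * e = 1 := by
    rcases he with h | h <;> rw [h] <;> ring
  have htp : tO τ p ^ 3 ≠ 0 := pow_ne_zero 3 (tO_ne hp)
  have hp3 : p ^ 3 ≠ 0 := pow_ne_zero 3 hp
  -- the map
  have hZ : ∀ w : 𝓞 M, tO τ w * p ^ 3 + w * q ^ 3 = 0 →
      (m : 𝓞 M) ^ 5 * w = (X * w - Y * tO τ w) * p ^ 3 ∧
      tO τ (δ' * (X * w - Y * tO τ w)) = δ' * (X * w - Y * tO τ w) := by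
    intro w hw
    have h1 : (m : 𝓞 M) ^ 5 * w = (X * w - Y * tO τ w) * p ^ 3 := by
      rw [hM5]
      linear_combination Y * hw
    refine ⟨h1, ?_⟩
    have h2 : (m : 𝓞 M) ^ 5 * tO τ w = tO τ (X * w - Y * tO τ w) * tO τ p ^ 3 := by
      have := congrArg (tO τ) h1
      rw [tO_mul, tO_mul, htm, tO_pow] at this
      exact this
    have h3 : tO τ (X * w - Y * tO τ w) = -e * (X * w - Y * tO τ w) := by
      have h4 : tO τ (X * w - Y * tO τ w) * (tO τ p ^ 3 * p ^ 3)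
          = -e * (X * w - Y * tO τ w) * (tO τ p ^ 3 * p ^ 3) := by
        rw [hq3] at hw
        linear_combination (-p ^ 3) * h2 + (m : 𝓞 M) ^ 5 * hw - e * tO τ p ^ 3 * h1
      exact mul_right_cancel₀ (mul_ne_zero htp hp3) h4
    rw [tO_mul, hδ', h3]
    linear_combination (δ' * (X * w - Y * tO τ w)) * hee
  have hrel : ∀ u ∈ S, ∀ v ∈ S, tO τ (u - v) * p ^ 3 + (u - v) * q ^ 3 = 0 := by
    intro u hu v hv
    rw [tO_sub]
    linear_combination (hS u hu).2 - (hS v hv).2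
  have hex : ∀ u ∈ S, ∃ x : 𝓞 k, algebraMap (𝓞 k) (𝓞 M) x
      = δ' * (X * (u - u0) - Y * tO τ (u - u0)) := fun u hu =>
    fixed_int hτ (hZ _ (hrel u hu u0 hu0)).2
  choose! g hg using hex
  have hgd : ∀ u ∈ S, ∀ v ∈ S, algebraMap (𝓞 k) (𝓞 M) (g u - g v)
      = δ' * (X * (u - v) - Y * tO τ (u - v)) := by
    intro u hu v hv
    rw [map_sub, hg u hu, hg v hv, tO_sub, tO_sub, tO_sub]
    ring
  have hgne : ∀ u ∈ S, ∀ v ∈ S, u ≠ v → g u - g v ≠ 0 := by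
    intro u hu v hv huv h0
    have h1 := hgd u hu v hv
    rw [h0, map_zero] at h1
    have h2 := (hZ _ (hrel u hu v hv)).1
    rcases mul_eq_zero.1 h1.symm with h3 | h3
    · exact hδ'0 h3
    · rw [h3, zero_mul] at h2
      rcases mul_eq_zero.1 h2 with h4 | h4
      · exact hm5ne h4
      · exact huv (sub_eq_zero.1 h4)
  obtain ⟨em, hem, hemp⟩ := H77.CO.ab_min (k := k) hτ.deg (c := fun φ => mn2 τ s p φ) (fun φ => (hmn0 φ).le)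
  -- the size
  have hsize : ∀ u ∈ S, ∀ v ∈ S, ∀ ψ : k →+* ℂ,
      ‖ψ ((g u - g v : 𝓞 k) : k)‖ ≤ K0 * mn2 τ s p (em ψ) := by
    intro u hu v hv ψ
    set φ : M →+* ℂ := em ψ with hφ
    have hlift : ∀ z : k, φ (algebraMap k M z) = ψ z := fun z =>
      RingHom.congr_fun (hem ψ) z
    set w : 𝓞 M := u - v with hw
    set Z : 𝓞 M := X * w - Y * tO τ w with hZdef
    have hw1 := (hZ w (hrel u hu v hv)).1
    have hgM : algebraMap k M ((g u - g v : 𝓞 k) : k) = (δ' : M) * (Z : M) := by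
      have h1 := congrArg (algebraMap (𝓞 M) M) (hgd u hu v hv)
      rw [map_mul] at h1
      exact h1
    have hfix : τ ((δ' : M) * (Z : M)) = (δ' : M) * (Z : M) := by
      rw [← hgM]
      exact τ.commutes _
    have hw2 : (m : M) ^ 5 * (w : M) = (Z : M) * (p : M) ^ 3 := by
      have h3 := congrArg (algebraMap (𝓞 M) M) hw1
      rw [map_mul, map_mul, map_pow, map_pow, map_natCast] at h3
      exact h3
    have hwB : ∀ χ : M →+* ℂ, ‖χ (w : M)‖ ≤ 2 * C * s ^ 3 := by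
      intro χ
      have h1 : (w : M) = (u : M) - (v : M) := map_sub (algebraMap (𝓞 M) M) u v
      rw [h1, map_sub]
      calc ‖χ (u : M) - χ (v : M)‖ ≤ ‖χ (u : M)‖ + ‖χ (v : M)‖ := norm_sub_le _ _
        _ ≤ C * s ^ 3 + C * s ^ 3 := add_le_add ((hS u hu).1 χ) ((hS v hv).1 χ)
        _ = 2 * C * s ^ 3 := by ring
    -- for every embedding of `M`
    have hev : ∀ χ : M →+* ℂ, ‖χ ((δ' : M) * (Z : M))‖ * ‖χ (p : M)‖ ^ 3 ≤ K0 * s ^ 3 := by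
      intro χ
      have h1 : ‖χ (Z : M)‖ * ‖χ (p : M)‖ ^ 3 = (m : ℝ) ^ 5 * ‖χ (w : M)‖ := by
        have h2 := congrArg (fun z => ‖χ z‖) hw2
        simp only [map_mul, map_pow, map_natCast, norm_mul, norm_pow, Complex.norm_natCast] at h2
        exact h2.symm
      rw [map_mul, norm_mul, mul_assoc, h1, hK0]
      calc ‖χ (δ' : M)‖ * ((m : ℝ) ^ 5 * ‖χ (w : M)‖)
          ≤ D * ((m : ℝ) ^ 5 * (2 * C * s ^ 3)) := by
            gcongr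
            · exact hδ'D χ
            · exact hwB χ
        _ = D * (m : ℝ) ^ 5 * (2 * C) * s ^ 3 := by ring
    have h5 := hev φ
    have h6 := hev (φ.comp (τ : M →+* M))
    have h7 : (φ.comp (τ : M →+* M)) ((δ' : M) * (Z : M)) = φ ((δ' : M) * (Z : M)) := by
      rw [RingHom.comp_apply]
      congr 1
    have h8 : φ ((δ' : M) * (Z : M)) = ψ ((g u - g v : 𝓞 k) : k) := by
      rw [← hgM, hlift]
    rw [h7, h8] at h6
    rw [h8] at h5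
    have h9 : (φ.comp (τ : M →+* M)) (p : M) = φ (τ (p : M)) := rfl
    rw [h9] at h6
    unfold mn2
    rw [mul_min_of_nonneg _ _ hK0pos.le]
    refine le_min ?_ ?_
    · rw [← mul_div_assoc, le_div_iff₀ (pow_pos (hszp φ) 3)]
      exact h5
    · rw [← mul_div_assoc, le_div_iff₀ (pow_pos (hszt φ) 3)]
      exact h6
  -- the count
  have hinj : Set.InjOn (fun u => ((g u : 𝓞 k) : k)) S := by
    intro u hu v hv h
    by_contra huv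
    exact hgne u hu v hv huv (sub_eq_zero.2 (NumberField.RingOfIntegers.coe_injective h))
  have hcard : (S.image (fun u => ((g u : 𝓞 k) : k))).card = S.card :=
    Finset.card_image_of_injOn hinj
  have hcoe : ∀ u v : 𝓞 M, ((g u - g v : 𝓞 k) : k) = (g u : k) - (g v : k) := fun u v =>
    map_sub (algebraMap (𝓞 k) k) _ _
  have h := hbox 1 one_pos (fun ψ => K0 * mn2 τ s p (em ψ))
    (fun ψ => mul_pos hK0pos (hmn0 (em ψ)))
    (S.image (fun u => ((g u : 𝓞 k) : k))) (by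
      intro a ha b hb hab
      obtain ⟨u, hu, rfl⟩ := Finset.mem_image.1 ha
      obtain ⟨v, hv, rfl⟩ := Finset.mem_image.1 hb
      rw [← hcoe]
      exact one_le_nm k _ (hgne u hu v hv (fun h => hab (by rw [h])))) (by
      intro a ha b hb ψ
      obtain ⟨u, hu, rfl⟩ := Finset.mem_image.1 ha
      obtain ⟨v, hv, rfl⟩ := Finset.mem_image.1 hb
      rw [← hcoe]
      exact hsize u hu v hv ψ)
  rw [hcard, div_one, Finset.prod_mul_distrib, Finset.prod_const, Finset.card_univ,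
    NumberField.Embeddings.card k ℂ] at h
  rw [← hd] at h
  have hP1 : ∏ ψ : k →+* ℂ, mn2 τ s p (em ψ) ≤ ∏ φ : M →+* ℂ, mn2 τ s p φ ^ (1 / 2 : ℝ) := by
    rw [Real.finsetProd_rpow _ _ (fun φ _ => (hmn0 φ).le), ← Real.sqrt_eq_rpow]
    exact Real.le_sqrt_of_sq_le hemp
  have hP2 : 1 ≤ (C ^ 3) ^ Fintype.card (M →+* ℂ) * ∏ φ : M →+* ℂ, mn2 τ s p φ ^ (1 / 2 : ℝ) := by
    have h1 : ∏ _φ : M →+* ℂ, (1 : ℝ) ≤ ∏ φ : M →+* ℂ, (C ^ 3 * mn2 τ s p φ ^ (1 / 2 : ℝ)) := by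
      refine Finset.prod_le_prod (fun _ _ => zero_le_one) fun φ _ => ?_
      have hC3 : 1 ≤ C ^ 3 := one_le_pow₀ hC
      have hC30 : 0 < C ^ 3 := by positivity
      have h2 : (C ^ 3)⁻¹ ≤ mn2 τ s p φ := by
        have h3 : ∀ x : ℝ, 0 < x → x ≤ C * s → (C ^ 3)⁻¹ ≤ s ^ 3 / x ^ 3 := by
          intro x hx0 hx
          rw [le_div_iff₀ (by positivity), inv_mul_le_iff₀ hC30, ← mul_pow]
          exact pow_le_pow_left₀ hx0.le hx 3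
        exact le_min (h3 _ (hszp φ) (hpB φ)) (h3 _ (hszt φ) (bd_tO τ hpB φ))
      have h4 : (C ^ 3)⁻¹ ≤ mn2 τ s p φ ^ (1 / 2 : ℝ) := by
        have h5 : (C ^ 3)⁻¹ ≤ ((C ^ 3)⁻¹) ^ (1 / 2 : ℝ) := by
          have h6 := Real.rpow_le_rpow_of_exponent_ge (inv_pos.2 hC30) (inv_le_one_of_one_le₀ hC3)
            (show (1 / 2 : ℝ) ≤ 1 by norm_num)
          rwa [Real.rpow_one] at h6
        exact h5.trans (Real.rpow_le_rpow (inv_pos.2 hC30).le h2 (by norm_num))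
      have h7 := mul_le_mul_of_nonneg_left h4 hC30.le
      rwa [mul_inv_cancel₀ hC30.ne'] at h7
    rwa [Finset.prod_const_one, Finset.prod_mul_distrib, Finset.prod_const, Finset.card_univ] at h1
  refine h.trans ?_
  have h20 := mul_le_mul_of_nonneg_left hP1 (pow_pos hK0pos d).le
  calc C1 * (1 + K0 ^ d * ∏ ψ : k →+* ℂ, mn2 τ s p (em ψ))
      ≤ C1 * ((C ^ 3) ^ Fintype.card (M →+* ℂ) * (∏ φ : M →+* ℂ, mn2 τ s p φ ^ (1 / 2 : ℝ)) +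
          K0 ^ d * ∏ φ : M →+* ℂ, mn2 τ s p φ ^ (1 / 2 : ℝ)) :=
        mul_le_mul_of_nonneg_left (add_le_add hP2 h20) hC1.le
    _ = C1 * ((C ^ 3) ^ Fintype.card (M →+* ℂ) + K0 ^ d) * ∏ φ : M →+* ℂ, mn2 τ s p φ ^ (1 / 2 : ℝ) := by ring

end H88.AQ
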