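import Pool.Agent.H88.AQ.Ezn
import Pool.Agent.H88.AQ.Ezu
import Pool.Agent.H57.EZ.Fin
import Pool.Agent.H12.WM.Cnt2

/-!
# [H88 AQ EZF] `EZ3Stmt`: the case `E = 0` with a saving (AQ, W2#, MP_b39724), 130-200 lines. File Pool/Agent/H88/AQ/Ezf.lean

PROOF. Compare `eZero2` (H12/WM/Cnt2.lean) and `ez2` (H57/EZ/Main.lean). `d = [M : ℚ]`. `S : Finset (𝓞 M × (𝓞 M × 𝓞 M))`, `f (u, p, q) = τ(u) p^3 + u q^3`. Fix `(p, q)` in the image of `S`; `q = ± τ p`, so `sz φ q = sz φ (tO τ p)`. Let `W = W(p) = ∏_φ (2 C s^3 mx_φ^3)^(1/4)`, `mx_φ = max (sz φ p) (sz φ (tO τ p))`.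
(1) For `(u, p, q) ∈ S`, `n = f ≠ 0`: `|n|_φ ≤ C s^3 |p|_φ^3 + C s^3 |q|_φ^3 ≤ 2 C s^3 mx_φ^3`, so `1 ≤ nm n ≤ W^4` (`one_le_nm`), hence `1 ≤ W`. `n_card3` with `ε/2`: at most `C1 s^(ε/2) W` values `n`. (2) For given `(p, q, n)`: `u_card3`: at most `C2 ∏_φ mn2^(1/2)` values `u`,
`mn2 τ s p φ = s^3/mx_φ^3`. (3) `H57.EZ.card_two` (H57/EZ/Fin.lean) with `A (p, q) = C1 s^(ε/2) W(p)`, `g (p, q) = C2 ∏ mn2^(1/2)`: `S.card ≤ ∑_{(p, q)} A g`, and `W(p) ∏_φ mn2^(1/2) = ∏_φ (2 C)^(1/4) s^(3/4) mx_φ^(3/4) s^(3/2) mx_φ^(-3/2) = (2 C)^(d/4) s^(9 d/4) ∏_φ mx_φ^(-3/4)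
≤ (2 C)^(d/4) s^(9 d/4) nm(p)^(-3/4)` (`mx_φ ≥ sz φ p > 0`). (4) Every `p` occurs with at most two `q` (`q = ± τ p`): `∑_{(p, q)} nm(p)^(-3/4) ≤ 2 ∑_p nm(p)^(-3/4) ≤ 2 C3 (C s)^(d/4) (1 + log (C s))^k0` by `norm_sum M (3/4)` (H88/A4/Geo.lean; `Bd (C s) p`, `p ≠ 0`, `1 ≤ C s`); the logarithm is
`≤ C4 s^(ε/2)`-type (`Real.log_le_rpow_div`, base `C s ≥ 1`). Total `C' s^(9 d/4 + d/4 + ε) = C' s^(5 d/2 + ε)`.
-/

open scoped NumberField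
open H88.A4 Pool.Agent.H67.WA H88.WS Pool.Agent.H12.WM

noncomputable section

namespace H88.AQ

/-- one factor -/
private theorem ezf_loc {C s x z m : ℝ} (hC : 1 ≤ C) (hs : 0 < s) (hx : 0 < x) (hz : 0 < z)
    (hm0 : 0 ≤ m) (hm1 : m ≤ s ^ 3 / x ^ 3) (hm2 : m ≤ s ^ 3 / z ^ 3) :
    (2 * C * s ^ 3 * max x z ^ 3) ^ (1 / 4 : ℝ) * m ^ (1 / 2 : ℝ) ≤
      ((2 * C) ^ (1 / 4 : ℝ) * s ^ (9 / 4 : ℝ)) * x ^ (-(3 / 4) : ℝ) := by
  have hC0 : 0 < C := by linarith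
  obtain ⟨w, hw⟩ : ∃ w, w = max x z := ⟨_, rfl⟩
  have hxw : x ≤ w := by rw [hw]; exact le_max_left _ _
  have hw0 : 0 < w := lt_of_lt_of_le hx hxw
  have hmw : m ≤ s ^ 3 / w ^ 3 := by
    rcases max_choice x z with h | h
    · rw [hw, h]
      exact hm1
    · rw [hw, h]
      exact hm2
  rw [← hw]
  have e1 : m ^ (1 / 2 : ℝ) ≤ (s ^ 3 / w ^ 3) ^ (1 / 2 : ℝ) := Real.rpow_le_rpow hm0 hmw (by norm_num)
  have e2 : (2 * C * s ^ 3 * w ^ 3) ^ (1 / 4 : ℝ) = (2 * C) ^ (1 / 4 : ℝ) * s ^ (3 / 4 : ℝ) * w ^ (3 / 4 : ℝ) := by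
    rw [Real.mul_rpow (by positivity) (by positivity), Real.mul_rpow (by positivity) (by positivity),
      ← Real.rpow_natCast s 3, ← Real.rpow_natCast w 3, ← Real.rpow_mul hs.le, ← Real.rpow_mul hw0.le]
    norm_num
  have e3 : (s ^ 3 / w ^ 3) ^ (1 / 2 : ℝ) = s ^ (3 / 2 : ℝ) * w ^ (-(3 / 2) : ℝ) := by
    rw [Real.div_rpow (by positivity) (by positivity), ← Real.rpow_natCast s 3, ← Real.rpow_natCast w 3,
      ← Real.rpow_mul hs.le, ← Real.rpow_mul hw0.le, Real.rpow_neg hw0.le, div_eq_mul_inv]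
    norm_num
  have e4 : w ^ (-(3 / 4) : ℝ) ≤ x ^ (-(3 / 4) : ℝ) := Real.rpow_le_rpow_of_nonpos hx hxw (by norm_num)
  calc (2 * C * s ^ 3 * w ^ 3) ^ (1 / 4 : ℝ) * m ^ (1 / 2 : ℝ)
      ≤ ((2 * C) ^ (1 / 4 : ℝ) * s ^ (3 / 4 : ℝ) * w ^ (3 / 4 : ℝ)) * (s ^ (3 / 2 : ℝ) * w ^ (-(3 / 2) : ℝ)) := by
        rw [← e2, ← e3]
        exact mul_le_mul_of_nonneg_left e1 (by positivity)
    _ = (2 * C) ^ (1 / 4 : ℝ) * (s ^ (3 / 4 : ℝ) * s ^ (3 / 2 : ℝ)) * (w ^ (3 / 4 : ℝ) * w ^ (-(3 / 2) : ℝ)) := by ring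
    _ = ((2 * C) ^ (1 / 4 : ℝ) * s ^ (9 / 4 : ℝ)) * w ^ (-(3 / 4) : ℝ) := by
        rw [← Real.rpow_add hs, ← Real.rpow_add hw0]
        norm_num
    _ ≤ _ := mul_le_mul_of_nonneg_left e4 (by positivity)

/-- the sum over the pairs `(p, q)` -/
private theorem ezf_sum (M : Type) [Field M] [NumberField M] (C : ℝ) (hC : 1 ≤ C) (ε : ℝ) (hε : 0 < ε) :
    ∃ C' : ℝ, 0 < C' ∧ ∀ (t : 𝓞 M → 𝓞 M) (s : ℝ), 1 ≤ C * s → ∀ T : Finset (𝓞 M × 𝓞 M),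
      (∀ x ∈ T, x.1 ≠ 0 ∧ Bd (C * s) x.1 ∧ (x.2 = t x.1 ∨ x.2 = -t x.1)) →
      ∑ x ∈ T, nm (x.1 : M) ^ (-(3 / 4) : ℝ) ≤
        C' * (C * s) ^ (1 / 4 * (Module.finrank ℚ M : ℝ) + ε) := by
  classical
  obtain ⟨C3, k0, hC3, h3⟩ := norm_sum (K := M) (3 / 4) (by norm_num) (by norm_num)
  set a : ℝ := ε / ((k0 : ℝ) + 1) with ha
  have ha0 : 0 < a := by positivity
  have hak : a * k0 ≤ ε := by
    rw [ha, div_mul_eq_mul_div, div_le_iff₀ (by positivity)]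
    nlinarith
  refine ⟨2 * (C3 * (1 + 1 / a) ^ k0), by positivity, ?_⟩
  intro t s hs T hT
  obtain ⟨H, hH⟩ : ∃ H : ℝ, H = C * s := ⟨_, rfl⟩
  rw [← hH] at hs hT ⊢
  have hH0 : 0 < H := by linarith
  have h4 := h3 H hs (T.image Prod.fst) (by
    intro x hx
    obtain ⟨y, hy, rfl⟩ := Finset.mem_image.1 hx
    exact ⟨(hT y hy).1, (hT y hy).2.1⟩)
  have h5 : ∑ x ∈ T, nm (x.1 : M) ^ (-(3 / 4) : ℝ) ≤
      ∑ p ∈ T.image Prod.fst, 2 * nm (p : M) ^ (-(3 / 4) : ℝ) := by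
    rw [← Finset.sum_fiberwise_of_maps_to (g := Prod.fst) (t := T.image Prod.fst)
      (fun x hx => Finset.mem_image_of_mem _ hx)]
    refine Finset.sum_le_sum fun p _ => ?_
    have h6 : ∑ x ∈ T.filter (fun x => x.1 = p), nm (x.1 : M) ^ (-(3 / 4) : ℝ) =
        ((T.filter (fun x => x.1 = p)).card : ℝ) * nm (p : M) ^ (-(3 / 4) : ℝ) := by
      rw [← nsmul_eq_mul, ← Finset.sum_const]
      refine Finset.sum_congr rfl fun x hx => ?_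
      rw [(Finset.mem_filter.1 hx).2]
    rw [h6]
    have h7 : (T.filter (fun x => x.1 = p)).card ≤ 2 := by
      have h8 : T.filter (fun x => x.1 = p) ⊆ {(p, t p), (p, -t p)} := by
        intro x hx
        obtain ⟨hx1, hx2⟩ := Finset.mem_filter.1 hx
        rw [Finset.mem_insert, Finset.mem_singleton]
        rcases (hT x hx1).2.2 with h | h
        · left
          exact Prod.ext hx2 (by rw [h, hx2])
        · right
          exact Prod.ext hx2 (by rw [h, hx2])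
      exact (Finset.card_le_card h8).trans Finset.card_le_two
    have h9 : 0 ≤ nm (p : M) ^ (-(3 / 4) : ℝ) := Real.rpow_nonneg (by
      unfold nm
      exact Finset.prod_nonneg fun _ _ => norm_nonneg _) _
    exact mul_le_mul_of_nonneg_right (by exact_mod_cast h7) h9
  rw [← Finset.mul_sum] at h5
  have h10 : 1 + Real.log H ≤ (1 + 1 / a) * H ^ a := by
    have h11 := Real.log_le_rpow_div hH0.le ha0
    have h12 : 1 ≤ H ^ a := Real.one_le_rpow hs ha0.le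
    have h13 : H ^ a / a = 1 / a * H ^ a := by ring
    rw [h13] at h11
    linarith
  have h14 : (1 + Real.log H) ^ k0 ≤ (1 + 1 / a) ^ k0 * H ^ ε := by
    have h15 : 0 ≤ 1 + Real.log H := by
      have := Real.log_nonneg hs
      linarith
    calc (1 + Real.log H) ^ k0 ≤ ((1 + 1 / a) * H ^ a) ^ k0 := pow_le_pow_left₀ h15 h10 k0
      _ = (1 + 1 / a) ^ k0 * H ^ (a * k0) := by
          rw [mul_pow, ← Real.rpow_natCast (H ^ a), ← Real.rpow_mul hH0.le]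
      _ ≤ (1 + 1 / a) ^ k0 * H ^ ε := by
          refine mul_le_mul_of_nonneg_left ?_ (by positivity)
          exact Real.rpow_le_rpow_of_exponent_le hs hak
  calc ∑ x ∈ T, nm (x.1 : M) ^ (-(3 / 4) : ℝ)
      ≤ 2 * (C3 * H ^ ((1 - 3 / 4) * (Module.finrank ℚ M : ℝ)) * (1 + Real.log H) ^ k0) :=
        h5.trans (mul_le_mul_of_nonneg_left h4 (by norm_num))
    _ ≤ 2 * (C3 * H ^ ((1 - 3 / 4) * (Module.finrank ℚ M : ℝ)) * ((1 + 1 / a) ^ k0 * H ^ ε)) := by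
        refine mul_le_mul_of_nonneg_left ?_ (by norm_num)
        exact mul_le_mul_of_nonneg_left h14 (by positivity)
    _ = 2 * (C3 * (1 + 1 / a) ^ k0) * (H ^ ((1 - 3 / 4) * (Module.finrank ℚ M : ℝ)) * H ^ ε) := by ring
    _ = 2 * (C3 * (1 + 1 / a) ^ k0) * H ^ (1 / 4 * (Module.finrank ℚ M : ℝ) + ε) := by
        rw [← Real.rpow_add hH0]
        norm_num

theorem ez3 (k M : Type) [Field k] [NumberField k] [Field M] [NumberField M] [Algebra k M] :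
    EZ3Stmt k M := by
  classical
  intro τ hτ m hm C hC ε hε
  obtain ⟨C1, hC1, h1⟩ := n_card3 k M τ hτ m hm C hC (ε / 2) (half_pos hε)
  obtain ⟨C2, hC2, h2⟩ := u_card3 k M τ hτ m hm C hC
  obtain ⟨C3, hC3, h3⟩ := ezf_sum M C hC (ε / 2) (half_pos hε)
  set d : ℕ := Fintype.card (M →+* ℂ) with hd
  have hdf : (Module.finrank ℚ M : ℝ) = (d : ℝ) := by
    rw [hd, NumberField.Embeddings.card]
  have hC0 : 0 < C := by linarith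
  refine ⟨C1 * C2 * ((2 * C) ^ (1 / 4 : ℝ)) ^ d * C3 * C ^ (1 / 4 * (d : ℝ) + ε / 2), by positivity, ?_⟩
  intro s hs S hS
  have hs0 : 0 < s := by
    by_contra h
    push Not at h
    nlinarith
  have hmem : ∀ y ∈ S, Adm m C s s y.1 (tO τ y.1) ∧ PQ2 τ m C s y.1 y.2.1 y.2.2 := hS
  set f : 𝓞 M × (𝓞 M × 𝓞 M) → 𝓞 M := fun y => tO τ y.1 * y.2.1 ^ 3 + y.1 * y.2.2 ^ 3 with hf
  have hqs : ∀ (p q : 𝓞 M), (q = tO τ p ∨ q = -tO τ p) → ∀ φ : M →+* ℂ, sz φ q = sz φ (tO τ p) := by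
    intro p q hq φ
    rcases hq with rfl | rfl
    · rfl
    · rw [sz_neg]
  have hτs : ∀ (x : 𝓞 M) (B : ℝ), Bd B x → Bd B (tO τ x) := fun x B h φ => h (φ.comp (τ : M →+* M))
  -- the size of `n`
  have hn1 : ∀ y ∈ S, ∀ φ, sz φ (f y) ≤ C * s ^ 3 * sz φ y.2.1 ^ 3 + C * s ^ 3 * sz φ (tO τ y.2.1) ^ 3 := by
    intro y hy φ
    obtain ⟨hAd, hPQ⟩ := hmem y hy
    have e1 : sz φ y.1 ≤ C * s ^ 3 := hAd.ule φ
    have e2 : sz φ (tO τ y.1) ≤ C * s ^ 3 := hAd.vle φ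
    have e3 : sz φ (f y) ≤ sz φ (tO τ y.1) * sz φ y.2.1 ^ 3 + sz φ y.1 * sz φ y.2.2 ^ 3 := by
      rw [← sz_pow, ← sz_pow, ← sz_mul, ← sz_mul]
      exact sz_add φ _ _
    rw [hqs _ _ hPQ.2.1 φ] at e3
    have e4 := mul_le_mul_of_nonneg_right e2 (pow_nonneg (sz_nonneg φ y.2.1) 3)
    have e5 := mul_le_mul_of_nonneg_right e1 (pow_nonneg (sz_nonneg φ (tO τ y.2.1)) 3)
    linarith
  have hn2 : ∀ y ∈ S, ∀ φ, sz φ (f y) ≤ 2 * C * s ^ 3 * max (sz φ y.2.1) (sz φ (tO τ y.2.1)) ^ 3 := by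
    intro y hy φ
    have e1 := hn1 y hy φ
    have e2 : sz φ y.2.1 ^ 3 ≤ max (sz φ y.2.1) (sz φ (tO τ y.2.1)) ^ 3 :=
      pow_le_pow_left₀ (sz_nonneg _ _) (le_max_left _ _) 3
    have e3 : sz φ (tO τ y.2.1) ^ 3 ≤ max (sz φ y.2.1) (sz φ (tO τ y.2.1)) ^ 3 :=
      pow_le_pow_left₀ (sz_nonneg _ _) (le_max_right _ _) 3
    have e4 : 0 ≤ C * s ^ 3 := by positivity
    have e5 := mul_le_mul_of_nonneg_left e2 e4
    have e6 := mul_le_mul_of_nonneg_left e3 e4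
    linarith
  have hn3 : ∀ y ∈ S, Bd (2 * C ^ 4 * s ^ 6) (f y) := by
    intro y hy φ
    obtain ⟨hAd, hPQ⟩ := hmem y hy
    have e1 := hn1 y hy φ
    have e2 : sz φ y.2.1 ≤ C * s := hPQ.2.2.1 φ
    have e3 : sz φ (tO τ y.2.1) ≤ C * s := hτs _ _ hPQ.2.2.1 φ
    have e4 : sz φ y.2.1 ^ 3 ≤ (C * s) ^ 3 := pow_le_pow_left₀ (sz_nonneg _ _) e2 3
    have e5 : sz φ (tO τ y.2.1) ^ 3 ≤ (C * s) ^ 3 := pow_le_pow_left₀ (sz_nonneg _ _) e3 3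
    have e6 : 0 ≤ C * s ^ 3 := by positivity
    have e7 := mul_le_mul_of_nonneg_left e4 e6
    have e8 := mul_le_mul_of_nonneg_left e5 e6
    have e9 : sz φ (f y) ≤ 2 * C ^ 4 * s ^ 6 := by
      calc sz φ (f y) ≤ C * s ^ 3 * (C * s) ^ 3 + C * s ^ 3 * (C * s) ^ 3 := by linarith
        _ = _ := by ring
    exact e9
  set W : 𝓞 M → ℝ := fun p => ∏ φ : M →+* ℂ, (2 * C * s ^ 3 * max (sz φ p) (sz φ (tO τ p)) ^ 3) ^ (1 / 4 : ℝ) with hW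
  have hb0 : ∀ (p : 𝓞 M) (φ : M →+* ℂ), 0 ≤ 2 * C * s ^ 3 * max (sz φ p) (sz φ (tO τ p)) ^ 3 := by
    intro p φ
    have : 0 ≤ max (sz φ p) (sz φ (tO τ p)) := (sz_nonneg φ p).trans (le_max_left _ _)
    positivity
  have hW0 : ∀ p, 0 ≤ W p := fun p => Finset.prod_nonneg fun φ _ => Real.rpow_nonneg (hb0 p φ) _
  have hnW : ∀ y ∈ S, nm ((f y : 𝓞 M) : M) ≤ W y.2.1 ^ 4 := by
    intro y hy
    have e1 : W y.2.1 ^ 4 = ∏ φ : M →+* ℂ, (2 * C * s ^ 3 * max (sz φ y.2.1) (sz φ (tO τ y.2.1)) ^ 3) := by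
      rw [hW, ← Finset.prod_pow]
      refine Finset.prod_congr rfl fun φ _ => ?_
      rw [← Real.rpow_natCast, ← Real.rpow_mul (hb0 _ _)]
      norm_num
    rw [e1]
    unfold nm
    exact Finset.prod_le_prod (fun _ _ => norm_nonneg _) fun φ _ => hn2 y hy φ
  have hW1 : ∀ y ∈ S, 1 ≤ W y.2.1 := by
    intro y hy
    obtain ⟨hAd, hPQ⟩ := hmem y hy
    have e1 := hnW y hy
    have e2 : (1 : ℝ) ≤ nm ((f y : 𝓞 M) : M) := by
      have h := one_le_nz (x := f y) hPQ.2.2.2.2.1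
      rwa [nz_def] at h
    by_contra hlt
    rw [not_le] at hlt
    have e4 : W y.2.1 ^ 4 < 1 := pow_lt_one₀ (hW0 _) hlt (by norm_num)
    linarith
  have key := H57.EZ.card_two S f (fun x => C1 * s ^ (ε / 2) * W x.1)
    (fun x => C2 * ∏ φ : M →+* ℂ, mn2 τ s x.1 φ ^ (1 / 2 : ℝ)) ?_ ?_
  · refine key.trans ?_
    have hT : ∀ x ∈ S.image Prod.snd, x.1 ≠ 0 ∧ Bd (C * s) x.1 ∧ (x.2 = tO τ x.1 ∨ x.2 = -tO τ x.1) := by
      intro x hx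
      obtain ⟨y, hy, rfl⟩ := Finset.mem_image.1 hx
      obtain ⟨_, hPQ⟩ := hmem y hy
      exact ⟨hPQ.1, hPQ.2.2.1, hPQ.2.1⟩
    have hsum := h3 (tO τ) s hs (S.image Prod.snd) hT
    have hfac : ∀ x ∈ S.image Prod.snd, (C1 * s ^ (ε / 2) * W x.1) *
        (C2 * ∏ φ : M →+* ℂ, mn2 τ s x.1 φ ^ (1 / 2 : ℝ)) ≤
        (C1 * C2 * s ^ (ε / 2) * ((2 * C) ^ (1 / 4 : ℝ) * s ^ (9 / 4 : ℝ)) ^ d) * nm (x.1 : M) ^ (-(3 / 4) : ℝ) := by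
      intro x hx
      obtain ⟨hx0, -, -⟩ := hT x hx
      have hτx0 : tO τ x.1 ≠ 0 := tO_ne hx0
      have e1 : W x.1 * ∏ φ : M →+* ℂ, mn2 τ s x.1 φ ^ (1 / 2 : ℝ) ≤
          ((2 * C) ^ (1 / 4 : ℝ) * s ^ (9 / 4 : ℝ)) ^ d * nm (x.1 : M) ^ (-(3 / 4) : ℝ) := by
        have e2 : ((2 * C) ^ (1 / 4 : ℝ) * s ^ (9 / 4 : ℝ)) ^ d * nm (x.1 : M) ^ (-(3 / 4) : ℝ) =
            ∏ φ : M →+* ℂ, ((2 * C) ^ (1 / 4 : ℝ) * s ^ (9 / 4 : ℝ)) * sz φ x.1 ^ (-(3 / 4) : ℝ) := by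
          rw [Finset.prod_mul_distrib, Finset.prod_const, Finset.card_univ, ← hd]
          congr 1
          unfold nm
          exact (Real.finset_prod_rpow _ _ (fun φ _ => norm_nonneg _) _).symm
        rw [hW, ← Finset.prod_mul_distrib, e2]
        refine Finset.prod_le_prod (fun φ _ => ?_) fun φ _ => ?_
        · exact mul_nonneg (Real.rpow_nonneg (hb0 _ _) _) (Real.rpow_nonneg (by
            unfold mn2
            exact le_min (div_nonneg (by positivity) (pow_nonneg (sz_nonneg _ _) 3))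
              (div_nonneg (by positivity) (pow_nonneg (sz_nonneg _ _) 3))) _)
        · refine ezf_loc hC hs0 (sz_pos φ hx0) (sz_pos φ hτx0) ?_ (min_le_left _ _) (min_le_right _ _)
          unfold mn2
          exact le_min (div_nonneg (by positivity) (pow_nonneg (sz_nonneg _ _) 3))
            (div_nonneg (by positivity) (pow_nonneg (sz_nonneg _ _) 3))
      calc (C1 * s ^ (ε / 2) * W x.1) * (C2 * ∏ φ : M →+* ℂ, mn2 τ s x.1 φ ^ (1 / 2 : ℝ)) =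
          (C1 * C2 * s ^ (ε / 2)) * (W x.1 * ∏ φ : M →+* ℂ, mn2 τ s x.1 φ ^ (1 / 2 : ℝ)) := by ring
        _ ≤ (C1 * C2 * s ^ (ε / 2)) * (((2 * C) ^ (1 / 4 : ℝ) * s ^ (9 / 4 : ℝ)) ^ d *
            nm (x.1 : M) ^ (-(3 / 4) : ℝ)) := mul_le_mul_of_nonneg_left e1 (by positivity)
        _ = _ := by ring
    refine (Finset.sum_le_sum hfac).trans ?_
    rw [← Finset.mul_sum]
    refine (mul_le_mul_of_nonneg_left hsum (by positivity)).trans (le_of_eq ?_)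
    rw [hdf, Real.mul_rpow hC0.le hs0.le]
    have e3 : ((2 * C) ^ (1 / 4 : ℝ) * s ^ (9 / 4 : ℝ)) ^ d = ((2 * C) ^ (1 / 4 : ℝ)) ^ d * s ^ (9 / 4 * (d : ℝ)) := by
      rw [mul_pow, ← Real.rpow_natCast (s ^ (9 / 4 : ℝ)), ← Real.rpow_mul hs0.le]
    have e4 : s ^ (5 / 2 * (d : ℝ) + ε) = s ^ (ε / 2) * s ^ (9 / 4 * (d : ℝ)) * s ^ (1 / 4 * (d : ℝ) + ε / 2) := by
      rw [← Real.rpow_add hs0, ← Real.rpow_add hs0]
      congr 1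
      ring
    rw [e3, e4]
    ring
  · intro x hx
    obtain ⟨y0, hy0, rfl⟩ := Finset.mem_image.1 hx
    obtain ⟨_, hPQ0⟩ := hmem y0 hy0
    refine h1 s hs y0.2.1 y0.2.2 hPQ0.1 hPQ0.2.1 hPQ0.2.2.1 (W y0.2.1) (hW1 y0 hy0) _ ?_
    intro n hn
    obtain ⟨y, hy, rfl⟩ := Finset.mem_image.1 hn
    rw [Finset.mem_filter] at hy
    obtain ⟨_, hPQ⟩ := hmem y hy.1
    obtain ⟨_, _, _, _, hn0, b0, g1, g2, I, e1, e2, e3, e4⟩ := hPQ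
    refine ⟨hn0, hn3 y hy.1, ?_, ⟨y.1, ?_⟩, b0, g1, g2, I, e1, e2, ?_, ?_⟩
    · rw [← hy.2]
      exact hnW y hy.1
    · rw [← hy.2]
    · rw [← hy.2]
      exact e3
    · rw [← hy.2]
      exact e4
  · intro x hx n
    obtain ⟨y0, hy0, rfl⟩ := Finset.mem_image.1 hx
    obtain ⟨_, hPQ0⟩ := hmem y0 hy0
    have hc : (S.filter fun y => y.2 = y0.2 ∧ f y = n).card =
        ((S.filter fun y => y.2 = y0.2 ∧ f y = n).image Prod.fst).card := by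
      rw [Finset.card_image_of_injOn]
      intro y hy z hz hyz
      simp only [Finset.coe_filter, Set.mem_ofPred_eq] at hy hz
      exact Prod.ext hyz (hy.2.1.trans hz.2.1.symm)
    rw [hc]
    refine h2 s hs y0.2.1 y0.2.2 n hPQ0.1 hPQ0.2.1 hPQ0.2.2.1 hPQ0.2.2.2.1 _ ?_
    intro z hz
    obtain ⟨y, hy, rfl⟩ := Finset.mem_image.1 hz
    rw [Finset.mem_filter] at hy
    obtain ⟨hAd, _⟩ := hmem y hy.1
    refine ⟨hAd.ule, ?_⟩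
    rw [← hy.2.1]
    exact hy.2.2

end H88.AQ
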