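import Pool.Agent.H88.AQ.Loc
import Pool.Agent.H88.AQ.Exb
import Pool.Agent.H88.AQ.Bfb
import Pool.Agent.H88.AQ.Ezf
import Pool.Agent.H32.AW.Com
import Pool.Agent.H32.AW.Cnt
import Pool.Agent.H38.AW.Los
import Pool.Agent.H38.AW.Gen
import Pool.Agent.H38.AW.Bf3
import Pool.Agent.H38.AW.Bs
import Pool.Agent.H38.AW.Mai
import Pool.Agent.H38.AW.All
import Pool.Agent.H67.AQ.Wco
import Pool.Agent.H67.AQ.Wsm
import Pool.Agent.H12.AQ.Avg3
import Pool.Agent.H88.A4.Fin1
import Pool.Agent.H88.A4.R2Fin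
import Pool.Agent.H67.WA.N2M
import Pool.Agent.H77.CO.Fin2
import Pool.Agent.H12.WM.Alg2
import Pool.Agent.H86.WB.Sw
import Pool.Agent.H86.WB.Ol

/-!
# AQ (MP_b39724), chapter (W): assembly of W2# (complete)
-/

open scoped NumberField
open H88.A4 Pool.Agent.H67.WA H88.WS

noncomputable section

namespace H88.AQ

/-- the main case, all shapes, from the classes, the average and the exceptional set -/
theorem all3_chapters (k M : Type) [Field k] [NumberField k] [Field M] [NumberField M] [Algebra k M]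
    (hL : Loc3Stmt k M) (hA : Avg3Stmt k M) (hE : Exb3Stmt k M)
    (hB : Avg3Stmt k M → SwStmt M → Exb3Stmt k M → Bf4Stmt k M) : All3Stmt k M := by
  have c1 := H32.AW.cnt_of k M (H32.AW.com_of k M hL)
  have c2 : Los3Stmt k M := H38.AW.los3_of (H77.CO.completions2Stmt k M)
  exact H38.AW.all3_of (H38.AW.main3_of
    (H38.AW.bs3_of c1 (H38.AW.bf3_of hA (H86.WB.sw M)) (hB hA (H86.WB.sw M) hE))
    (H38.AW.gen3_of c2 (H86.WB.ola M)) (H38.AW.dg3_of c2 (H86.WB.od M)))

/-- the main case, all shapes -/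
theorem all3 (k M : Type) [Field k] [NumberField k] [Field M] [NumberField M] [Algebra k M] :
    All3Stmt k M :=
  all3_chapters k M (loc3 k M) (H12.AQ.avg3 k M) (exb3 k M) (bf4 k M)

open H38.ML H63.MA H38.WM in
/-- THE CORE THEOREM, sharp, over fields which do not contain the cube roots of unity -/
theorem coreSharp2 (K : IntermediateField ℚ QBar) [NumberField K] (M : IntermediateField K QBar)
    [NumberField M] (τ : Gal(M/K)) (ω : M) (H : Om τ ω) : H67.AQ.CoreSharp2 τ :=
  H67.AQ.core_sharp2_of τ ω H (reduction2 K M (Pool.Agent.H67.WA.mink K)) (all3 K M) (ez3 K M)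
    (Pool.Agent.H12.WM.eZeroAlg2 K M)

open H38.ML H63.MA H38.WM H67.AQ in
/-- CHAPTER (W): the sum of the 2-Selmer sizes over the cyclic cubic fields, `K` without the cube roots of unity -/
theorem w1 {K : IntermediateField ℚ QBar} [NumberField K] (hK : No3 K) (S : Finset (Pl K))
    (Q : DP K QBar) : WLog Q S 1 :=
  wlog1 K hK (fun M _ τ ω H => coreSharp2 K M τ ω H) S Q

end H88.AQ
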