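import Pool.Agent.H88.AQ.Tau
import Pool.Agent.H88.WS.Ids

/-!
# [H88 AQ BS] `Bs3Stmt` from `Cnt3Stmt`, `Bf3Stmt`, `Bf4Stmt` (AQ, W2#, MP_b39724), 250-400 lines (a copy). File Pool/Agent/H88/AQ/Bs.lean

Copy `bs_of` (H88/WS/Bs.lean with its private lemmas), `K := M`, `d = [M : ℚ] ≥ 2` (`Invo`: `[M : k] = 2`; only `d ≥ 1` is needed below if the exponents are checked as indicated). PROOF. `L = log (2 + s) ≥ 1`; `m` from `Cnt3Stmt` for `m0`; `ε = 1/40`; `B = 12 d`, `μ = L^(-B)`. For every block `β` occurring in `S` let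
`h(β)` be the ideal of `Cnt3Stmt` (`choose`), `b = tb β`, `β = bk τ b` (`bk_tb`: `β` is determined by `b`). `ni h ≤ ni (cn b) ≤ s^(d/50)` (`Ndg`, `cn_le`), `dt b = D1 ≠ 0`, `E2 τ b = β.E ≠ 0`. `S.card = ∑_β n(β)`, `n(β)` = number of `u` with `(u, β) ∈ S`. Call `β` good if
`μ^2 s^4 ≤ sz φ (E2 τ b)` and `μ^2 s^4 ≤ sz φ (dl2 τ b)` for all `φ`.
GOOD: `n(β) ≤ C1 F2 τ m h b (1 + log (1/μ))^d (2 + ρ2)^(d/20) (ni h Wt (4/5) s b)`. Group by `h`: `Bf3Stmt`: `∑ F2 Wt (4/5) ≤ C2 s^(3d) (ρ1 ρ2)^(7d/5) ni h^(-5/2) L^(3/4 + ε)`. Sum over `h` of `ni h * ni h^(-5/2) = ni h^(-3/2)`: `≤ C3` (`ids_conv M (3/2)`). `(1 + log (1/μ))^d ≤ C4 L^ε` (`bs_log`);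
`(2 + ρ2)^(d/20) ≤ C5 ρ1^(-d/40)` (`2 + ρ2 ≤ C' ρ1^(-1/2)`), `(ρ1 ρ2)^(7d/5) ≤ C ρ1^(7d/10)` (`(ρ1 ρ2)^2 = ρ1 (ρ1 ρ2^2) ≤ C ρ1`), so together `≤ C ρ1^(27 d/40) ≤ C' ρ1^(1/4)` (`ρ1 ≤ C`, `27 d/40 ≥ 1/4`).
BAD (not good): first bound of `Cnt3Stmt`: factor `L^d`, weight `3/4`; `Bf4Stmt` with this `B`, `ε`: `∑_b F2 Wt (3/4) ≤ C8 s^(3d) (ρ1 ρ2)^(3d/2) μ^(1/12) ρ1^(-1/3) ni h^(-5/2) L^(3/4 + ε)`; `L^d μ^(1/12) = L^(d - d) = 1`; `(ρ1 ρ2)^(3d/2) ρ1^(-1/3) ≤ C ρ1^(3d/4 - 1/3) ≤ C' ρ1^(1/4)` (`3/4 - 1/3 = 5/12 ≥ 1/4`).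
Both: `L^(3/4 + 2 ε) ≤ L^(7/8)` (`L ≥ 1`). The good and the bad `β` with the same `h(β)` form two sets of triples; `S.card` = good part + bad part.
-/

open scoped NumberField
open H88.A4 Pool.Agent.H67.WA H88.WS

noncomputable section

namespace H88.AQ

private theorem bs_log (d : ℕ) (B : ℝ) (hB : 0 ≤ B) (ε : ℝ) (hε : 0 < ε) :
    ∃ C : ℝ, 0 < C ∧ ∀ L : ℝ, 1 ≤ L → (1 + B * Real.log L) ^ d ≤ C * L ^ ε := by
  have hd : (0 : ℝ) < (d : ℝ) + 1 := by positivity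
  have hδ : 0 < ε / ((d : ℝ) + 1) := by positivity
  refine ⟨(1 + B / (ε / ((d : ℝ) + 1))) ^ d, by positivity, fun L hL => ?_⟩
  have hL0 : 0 < L := by linarith
  have h1 : Real.log L ≤ L ^ (ε / ((d : ℝ) + 1)) / (ε / ((d : ℝ) + 1)) := Real.log_le_rpow_div hL0.le hδ
  have h2 : 1 ≤ L ^ (ε / ((d : ℝ) + 1)) := Real.one_le_rpow hL hδ.le
  have h3 : 0 ≤ Real.log L := Real.log_nonneg hL
  have h4 : 1 + B * Real.log L ≤ (1 + B / (ε / ((d : ℝ) + 1))) * L ^ (ε / ((d : ℝ) + 1)) := by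
    have h5 : B * Real.log L ≤ B * (L ^ (ε / ((d : ℝ) + 1)) / (ε / ((d : ℝ) + 1))) :=
      mul_le_mul_of_nonneg_left h1 hB
    calc 1 + B * Real.log L ≤ L ^ (ε / ((d : ℝ) + 1)) + B * (L ^ (ε / ((d : ℝ) + 1)) / (ε / ((d : ℝ) + 1))) := by
          linarith
      _ = (1 + B / (ε / ((d : ℝ) + 1))) * L ^ (ε / ((d : ℝ) + 1)) := by ring
  calc (1 + B * Real.log L) ^ d ≤ ((1 + B / (ε / ((d : ℝ) + 1))) * L ^ (ε / ((d : ℝ) + 1))) ^ d :=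
        pow_le_pow_left₀ (by positivity) h4 d
    _ = (1 + B / (ε / ((d : ℝ) + 1))) ^ d * L ^ (ε / ((d : ℝ) + 1) * d) := by
        rw [mul_pow, ← Real.rpow_natCast (L ^ _) d, ← Real.rpow_mul hL0.le]
    _ ≤ (1 + B / (ε / ((d : ℝ) + 1))) ^ d * L ^ ε := by
        refine mul_le_mul_of_nonneg_left (Real.rpow_le_rpow_of_exponent_le hL ?_) (by positivity)
        rw [div_mul_eq_mul_div, div_le_iff₀ hd]
        nlinarith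

private theorem bs_prod {C ρ1 ρ2 : ℝ} (hC : 1 ≤ C) (hr : Rho C ρ1 ρ2) (x : ℝ) (hx : 0 ≤ x) :
    (ρ1 * ρ2) ^ (2 * x) ≤ C ^ x * ρ1 ^ x := by
  obtain ⟨h1, h2, h3, h4⟩ := hr
  have hC0 : 0 < C := by linarith
  have hρ2 : 0 < ρ2 := by linarith
  rw [Real.rpow_mul (by positivity), Real.rpow_two, ← Real.mul_rpow hC0.le h1.le]
  refine Real.rpow_le_rpow (by positivity) ?_ hx
  have e : (ρ1 * ρ2) ^ 2 = ρ1 * (ρ1 * ρ2 ^ 2) := by ring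
  rw [e, mul_comm C]
  exact mul_le_mul_of_nonneg_left h4 h1.le

private theorem bs_pow {C ρ1 ρ2 : ℝ} (hr : Rho C ρ1 ρ2) (x : ℝ) (hx : 1 / 4 ≤ x) :
    ρ1 ^ x ≤ C ^ (x - 1 / 4) * ρ1 ^ (1 / 4 : ℝ) := by
  obtain ⟨h1, h2, h3, h4⟩ := hr
  have e : ρ1 ^ x = ρ1 ^ (x - 1 / 4) * ρ1 ^ (1 / 4 : ℝ) := by
    rw [← Real.rpow_add h1]
    congr 1
    ring
  rw [e]
  exact mul_le_mul_of_nonneg_right (Real.rpow_le_rpow h1.le h3 (by linarith)) (by positivity)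

private theorem bs_good {C ρ1 ρ2 : ℝ} (hC : 1 ≤ C) (hr : Rho C ρ1 ρ2) (d : ℝ) (hd : 1 ≤ d) :
    (2 + ρ2) ^ (d / 20) * (ρ1 * ρ2) ^ (7 / 5 * d) ≤
      ((3 : ℝ) ^ (d / 20) * C ^ (d / 40) * (C ^ (7 / 10 * d) * C ^ (27 / 40 * d - 1 / 4))) *
        ρ1 ^ (1 / 4 : ℝ) := by
  have k1 := bs_prod hC hr (7 / 10 * d) (by linarith)
  have k2 := bs_pow hr (27 / 40 * d) (by linarith)
  obtain ⟨h1, h2, h3, h4⟩ := hr
  have hC0 : 0 < C := by linarith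
  have h5 : 1 ≤ C / ρ1 := by rwa [one_le_div h1]
  have h6 : ρ2 ^ 2 ≤ C / ρ1 := by
    rw [le_div_iff₀ h1]
    linarith
  have hρ2 : 0 < ρ2 := by linarith
  have h7 : 2 + ρ2 ≤ 3 * (C / ρ1) ^ (1 / 2 : ℝ) := by
    have h8 : 1 ≤ (C / ρ1) ^ (1 / 2 : ℝ) := Real.one_le_rpow h5 (by norm_num)
    have h9 : ρ2 ≤ (C / ρ1) ^ (1 / 2 : ℝ) := by
      rw [← Real.sqrt_eq_rpow]
      exact Real.le_sqrt_of_sq_le h6
    linarith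
  have h10 : 0 < C / ρ1 := by linarith
  have h11 : (2 + ρ2) ^ (d / 20) ≤ (3 : ℝ) ^ (d / 20) * C ^ (d / 40) * ρ1 ^ (-(d / 40)) := by
    calc (2 + ρ2) ^ (d / 20) ≤ (3 * (C / ρ1) ^ (1 / 2 : ℝ)) ^ (d / 20) :=
          Real.rpow_le_rpow (by linarith) h7 (by positivity)
      _ = 3 ^ (d / 20) * (C / ρ1) ^ (d / 40) := by
          rw [Real.mul_rpow (by norm_num) (by positivity), ← Real.rpow_mul h10.le]
          congr 2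
          ring
      _ = _ := by
          rw [Real.rpow_neg h1.le, Real.div_rpow hC0.le h1.le, div_eq_mul_inv (C ^ (d / 40)), mul_assoc]
  have e7 : (7 / 5 * d) = 2 * (7 / 10 * d) := by ring
  rw [e7]
  have e8 : ρ1 ^ (-(d / 40)) * ρ1 ^ (7 / 10 * d) = ρ1 ^ (27 / 40 * d) := by
    rw [← Real.rpow_add h1]
    congr 1
    ring
  calc (2 + ρ2) ^ (d / 20) * (ρ1 * ρ2) ^ (2 * (7 / 10 * d))
      ≤ ((3 : ℝ) ^ (d / 20) * C ^ (d / 40) * ρ1 ^ (-(d / 40))) * (C ^ (7 / 10 * d) * ρ1 ^ (7 / 10 * d)) :=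
        mul_le_mul h11 k1 (by positivity) (by positivity)
    _ = ((3 : ℝ) ^ (d / 20) * C ^ (d / 40) * C ^ (7 / 10 * d)) * (ρ1 ^ (-(d / 40)) * ρ1 ^ (7 / 10 * d)) := by
        ring
    _ = ((3 : ℝ) ^ (d / 20) * C ^ (d / 40) * C ^ (7 / 10 * d)) * ρ1 ^ (27 / 40 * d) := by rw [e8]
    _ ≤ ((3 : ℝ) ^ (d / 20) * C ^ (d / 40) * C ^ (7 / 10 * d)) *
        (C ^ (27 / 40 * d - 1 / 4) * ρ1 ^ (1 / 4 : ℝ)) :=
        mul_le_mul_of_nonneg_left k2 (by positivity)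
    _ = _ := by ring

private theorem bs_bad {C ρ1 ρ2 : ℝ} (hC : 1 ≤ C) (hr : Rho C ρ1 ρ2) (d : ℝ) (hd : 1 ≤ d) :
    (ρ1 * ρ2) ^ (3 / 2 * d) * ρ1 ^ (-(1 / 3) : ℝ) ≤
      (C ^ (3 / 4 * d) * C ^ ((3 / 4 * d - 1 / 3) - 1 / 4)) * ρ1 ^ (1 / 4 : ℝ) := by
  have k1 := bs_prod hC hr (3 / 4 * d) (by linarith)
  have k2 := bs_pow hr (3 / 4 * d - 1 / 3) (by linarith)
  obtain ⟨h1, h2, h3, h4⟩ := hr
  have hC0 : 0 < C := by linarith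
  have hρ2 : 0 < ρ2 := by linarith
  have e7 : (3 / 2 * d) = 2 * (3 / 4 * d) := by ring
  rw [e7]
  have e8 : ρ1 ^ (3 / 4 * d) * ρ1 ^ (-(1 / 3) : ℝ) = ρ1 ^ (3 / 4 * d - 1 / 3) := by
    rw [← Real.rpow_add h1]
    congr 1
  calc (ρ1 * ρ2) ^ (2 * (3 / 4 * d)) * ρ1 ^ (-(1 / 3) : ℝ)
      ≤ (C ^ (3 / 4 * d) * ρ1 ^ (3 / 4 * d)) * ρ1 ^ (-(1 / 3) : ℝ) :=
        mul_le_mul_of_nonneg_right k1 (by positivity)
    _ = C ^ (3 / 4 * d) * (ρ1 ^ (3 / 4 * d) * ρ1 ^ (-(1 / 3) : ℝ)) := by ring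
    _ = C ^ (3 / 4 * d) * ρ1 ^ (3 / 4 * d - 1 / 3) := by rw [e8]
    _ ≤ C ^ (3 / 4 * d) * (C ^ ((3 / 4 * d - 1 / 3) - 1 / 4) * ρ1 ^ (1 / 4 : ℝ)) :=
        mul_le_mul_of_nonneg_left k2 (by positivity)
    _ = _ := by ring

private theorem bs_mu (d : ℕ) (L : ℝ) (hL : 1 ≤ L) :
    L ^ d * ((L ^ (12 * d))⁻¹) ^ (1 / 12 : ℝ) = 1 := by
  have hL0 : 0 < L := by linarith
  have e : ((L ^ (12 * d))⁻¹) ^ (1 / 12 : ℝ) = (L ^ d)⁻¹ := by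
    rw [Real.inv_rpow (by positivity), ← Real.rpow_natCast L (12 * d), ← Real.rpow_mul hL0.le,
      ← Real.rpow_natCast L d]
    congr 2
    push_cast
    ring
  rw [e]
  exact mul_inv_cancel₀ (by positivity)

private theorem bs_group {K : Type} [Field K] [NumberField K] {D : ℝ}
    (hD : ∀ G : Finset (Ideal (𝓞 K)), (∀ I ∈ G, I ≠ ⊥) → ∑ I ∈ G, ni I ^ (-(3 / 2) : ℝ) ≤ D)
    {ι : Type} (B : Finset ι) (h : ι → Ideal (𝓞 K)) (F : ι → ℝ) (X : ℝ) (hX : 0 ≤ X) (hh : ∀ β ∈ B, h β ≠ ⊥)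
    (hF : ∀ I : Ideal (𝓞 K), I ≠ ⊥ → ∀ B' : Finset ι, B' ⊆ B → B'.Nonempty → (∀ β ∈ B', h β = I) →
      ∑ β ∈ B', F β ≤ X * ni I ^ (-(5 / 2) : ℝ)) :
    ∑ β ∈ B, ni (h β) * F β ≤ X * D := by
  classical
  have h1 : ∀ β ∈ B, h β ∈ B.image h := fun β hβ => Finset.mem_image_of_mem h hβ
  rw [← Finset.sum_fiberwise_of_maps_to h1]
  have hne : ∀ I ∈ B.image h, I ≠ ⊥ := by
    intro I hI
    obtain ⟨β, hβ, rfl⟩ := Finset.mem_image.1 hI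
    exact hh β hβ
  calc ∑ I ∈ B.image h, ∑ β ∈ B with h β = I, ni (h β) * F β
      ≤ ∑ I ∈ B.image h, X * ni I ^ (-(3 / 2) : ℝ) := by
        refine Finset.sum_le_sum fun I hI => ?_
        have h2 : ∑ β ∈ B with h β = I, ni (h β) * F β = ni I * ∑ β ∈ B with h β = I, F β := by
          rw [Finset.mul_sum]
          refine Finset.sum_congr rfl fun β hβ => ?_
          rw [(Finset.mem_filter.1 hβ).2]
        have h3 : 0 < ni I := lt_of_lt_of_le one_pos (one_le_ni (hne I hI))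
        obtain ⟨β, hβ, hβI⟩ := Finset.mem_image.1 hI
        have h4 := hF I (hne I hI) (B.filter fun β => h β = I) (Finset.filter_subset _ _)
          ⟨β, Finset.mem_filter.2 ⟨hβ, hβI⟩⟩ (fun β hβ => (Finset.mem_filter.1 hβ).2)
        rw [h2]
        calc ni I * ∑ β ∈ B with h β = I, F β ≤ ni I * (X * ni I ^ (-(5 / 2) : ℝ)) :=
              mul_le_mul_of_nonneg_left h4 h3.le
          _ = X * (ni I ^ (1 : ℝ) * ni I ^ (-(5 / 2) : ℝ)) := by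
            rw [Real.rpow_one]
            ring
          _ = X * ni I ^ (-(3 / 2) : ℝ) := by
            rw [← Real.rpow_add h3]
            norm_num
    _ = X * ∑ I ∈ B.image h, ni I ^ (-(3 / 2) : ℝ) := by rw [Finset.mul_sum]
    _ ≤ X * D := mul_le_mul_of_nonneg_left (hD _ hne) hX

theorem bs3 (k M : Type) [Field k] [NumberField k] [Field M] [NumberField M] [Algebra k M]
    (h : Cnt3Stmt k M) (h1 : Bf3Stmt k M) (h2 : Bf4Stmt k M) : Bs3Stmt k M := by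
  classical
  intro τ ω hω m0 hm0
  obtain ⟨m, hm, hm6, h⟩ := h τ ω hω m0 hm0
  intro C hC A
  obtain ⟨C1, hC1, h⟩ := h C hC A
  obtain ⟨C2, s2, hC2, hs2, h1⟩ := h1 τ ω hω m hm hm6 C hC (1 / 40) (by norm_num)
  obtain ⟨C3, s3, hC3, hs3, h2⟩ := h2 τ ω hω m hm hm6 C hC (1 / 40) (by norm_num) (12 * Module.finrank ℚ M)
  obtain ⟨C4, hC4, h4⟩ := ids_conv M (3 / 2) (by norm_num)
  obtain ⟨C5, hC5, h5⟩ := bs_log (Module.finrank ℚ M) ((12 * Module.finrank ℚ M : ℕ) : ℝ) (by positivity) (1 / 40)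
    (by norm_num)
  have hd1 : (1 : ℝ) ≤ (Module.finrank ℚ M : ℝ) := by
    exact_mod_cast Nat.one_le_iff_ne_zero.2 (Module.finrank_pos (R := ℚ) (M := M)).ne'
  have hC0 : 0 < C := by linarith
  obtain ⟨C6, hC6, h6⟩ : ∃ C6 : ℝ, 0 < C6 ∧ ∀ ρ1 ρ2 : ℝ, Rho C ρ1 ρ2 →
      (2 + ρ2) ^ ((Module.finrank ℚ M : ℝ) / 20) * (ρ1 * ρ2) ^ (7 / 5 * (Module.finrank ℚ M : ℝ)) ≤
      C6 * ρ1 ^ (1 / 4 : ℝ) :=
    ⟨_, by positivity, fun ρ1 ρ2 hr => bs_good hC hr _ hd1⟩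
  obtain ⟨C7, hC7, h7⟩ : ∃ C7 : ℝ, 0 < C7 ∧ ∀ ρ1 ρ2 : ℝ, Rho C ρ1 ρ2 →
      (ρ1 * ρ2) ^ (3 / 2 * (Module.finrank ℚ M : ℝ)) * ρ1 ^ (-(1 / 3) : ℝ) ≤ C7 * ρ1 ^ (1 / 4 : ℝ) :=
    ⟨_, by positivity, fun ρ1 ρ2 hr => bs_bad hC hr _ hd1⟩
  refine ⟨C1 * C5 * C6 * C2 * C4 + C1 * C3 * C7 * C4, max s2 s3, by positivity, le_max_of_le_left hs2,
    fun s ρ1 ρ2 hs hr hρ S hS => ?_⟩
  have hs2' : s2 ≤ s := (le_max_left _ _).trans hs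
  have hs3' : s3 ≤ s := (le_max_right _ _).trans hs
  have hs0 : 3 ≤ s := hs2.trans hs2'
  have hρ1 : 0 < ρ1 := hr.1
  have hρ2 : 0 < ρ2 := lt_of_lt_of_le hr.1 hr.2.1
  have hL : 1 ≤ Real.log (2 + s) := by
    rw [Real.le_log_iff_exp_le (by linarith)]
    exact Real.exp_one_lt_d9.le.trans (by norm_num; linarith)
  have hWt : ∀ (θ x : ℝ) (b : T3 M), 0 ≤ Wt θ x b := fun θ x b =>
    Finset.prod_nonneg fun φ _ => Real.rpow_nonneg (div_nonneg (sz_nonneg _ _) (sq_nonneg _)) _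
  have hL0 : 0 < Real.log (2 + s) := by linarith
  have hCs : 1 ≤ C * s := by nlinarith
  -- the blocks
  obtain ⟨Bk, hBkdef⟩ : ∃ Bk : Finset (Blk (𝓞 M)), Bk = S.image fun x => x.2 := ⟨_, rfl⟩
  have hBk : ∀ β ∈ Bk, Main2 τ C s ρ1 ρ2 β ∧ β.All (Bd (Hp C A s)) ∧ Ndg s (tb β) := by
    intro β hβ
    rw [hBkdef] at hβ
    obtain ⟨x, hx, rfl⟩ := Finset.mem_image.1 hβ
    have a1 := hS x hx
    exact ⟨a1.1.2.1, a1.1.2.2.1, a1.2⟩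
  obtain ⟨n, hndef⟩ : ∃ n : Blk (𝓞 M) → Finset (𝓞 M), n = fun β =>
      (S.filter fun x => x.2 = β).image fun x => x.1 := ⟨_, rfl⟩
  have hn : (S.card : ℝ) = ∑ β ∈ Bk, ((n β).card : ℝ) := by
    rw [Finset.card_eq_sum_card_image (fun x : 𝓞 M × Blk (𝓞 M) => x.2) S, Nat.cast_sum, hBkdef]
    refine Finset.sum_congr rfl fun β _ => ?_
    rw [hndef]
    congr 1
    symm
    refine Finset.card_image_of_injOn ?_
    rintro ⟨u, γ⟩ hx ⟨u', γ'⟩ hx' he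
    have a1 : γ = β := (Finset.mem_filter.1 hx).2
    have a2 : γ' = β := (Finset.mem_filter.1 hx').2
    simp only [Prod.mk.injEq] at he ⊢
    exact ⟨he, a1.trans a2.symm⟩
  have hnS : ∀ β ∈ Bk, ∀ u ∈ n β, Adm m0 C s s u (tO τ u) ∧ Rep2 τ (Hp C A s) β u := by
    intro β _ x hx
    rw [hndef] at hx
    obtain ⟨y, hy, rfl⟩ := Finset.mem_image.1 hx
    obtain ⟨hy1, hy2⟩ := Finset.mem_filter.1 hy
    have a1 := hS y hy1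
    rw [← hy2]
    exact ⟨a1.1.1, a1.1.2.2.2⟩
  have hex : ∀ β : Blk (𝓞 M), ∃ g : Ideal (𝓞 M), β ∈ Bk → g ≠ ⊥ ∧ Squarefree g ∧ IsCoprime g (cI τ g) ∧
      T3.All (fun x => x ∈ g) (tb β) ∧
      ((n β).card : ℝ) ≤ C1 * F2 τ m g (tb β) * Real.log (2 + s) ^ Module.finrank ℚ M *
        (ni g * Wt (3 / 4) s (tb β)) ∧
      ∀ μ : ℝ, 0 < μ → μ ≤ 1 →
        (∀ φ : M →+* ℂ, μ ^ 2 * s ^ 4 ≤ sz φ (E2 τ (tb β)) ∧ μ ^ 2 * s ^ 4 ≤ sz φ (dl2 τ (tb β))) →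
        ((n β).card : ℝ) ≤ C1 * F2 τ m g (tb β) * (1 + Real.log (1 / μ)) ^ Module.finrank ℚ M *
          (2 + ρ2) ^ ((Module.finrank ℚ M : ℝ) / 20) * (ni g * Wt (4 / 5) s (tb β)) := by
    intro β
    by_cases hβ : β ∈ Bk
    · obtain ⟨b1, b2, b4⟩ := hBk β hβ
      obtain ⟨g, g1, g1', g2, g3, g4⟩ := h s ρ1 ρ2 hCs hr β b1 b2
      have g5 := g4 (n β) (hnS β hβ)
      exact ⟨g, fun _ => ⟨g1, g1', g2, g3, g5.1, g5.2⟩⟩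
    · exact ⟨⊤, fun h => absurd h hβ⟩
  choose g hh using hex
  have hinj : ∀ β ∈ Bk, ∀ γ ∈ Bk, tb β = tb γ → β = γ := by
    intro β hβ γ hγ he
    rw [← bk_tb (hBk β hβ).1.2.1, ← bk_tb (hBk γ hγ).1.2.1, he]
  have key : ∀ (I : Ideal (𝓞 M)) (B' : Finset (Blk (𝓞 M))), B' ⊆ Bk → (∀ β ∈ B', g β = I) → ∀ θ : ℝ,
      ∑ β ∈ B', (F2 τ m (g β) (tb β) : ℝ) * Wt θ s (tb β) =
        ∑ b ∈ B'.image tb, (F2 τ m I b : ℝ) * Wt θ s b := by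
    intro I B' hB' hI θ
    rw [Finset.sum_image]
    · exact Finset.sum_congr rfl fun β hβ => by rw [hI β hβ]
    · intro β hβ γ hγ he
      exact hinj β (hB' hβ) γ (hB' hγ) he
  have key2 : ∀ (I : Ideal (𝓞 M)) (B' : Finset (Blk (𝓞 M))), B' ⊆ Bk → B'.Nonempty → (∀ β ∈ B', g β = I) →
      Squarefree I ∧ IsCoprime I (cI τ I) ∧ ni I ≤ s ^ ((Module.finrank ℚ M : ℝ) / 50) ∧
      ∀ b ∈ B'.image tb, Bx C s ρ1 ρ2 b ∧ T3.All (fun x => x ∈ I) b ∧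
        (∀ φ : M →+* ℂ, s ^ (2 - 1 / 50 : ℝ) ≤ sz φ (dt b)) ∧ E2 τ b ≠ 0 := by
    intro I B' hB' hne hI
    have hall : ∀ b ∈ B'.image tb, Bx C s ρ1 ρ2 b ∧ T3.All (fun x => x ∈ I) b ∧
        (∀ φ : M →+* ℂ, s ^ (2 - 1 / 50 : ℝ) ≤ sz φ (dt b)) ∧ E2 τ b ≠ 0 := by
      intro b hb
      obtain ⟨β, hβ, rfl⟩ := Finset.mem_image.1 hb
      obtain ⟨b1, b2, b4⟩ := hBk β (hB' hβ)
      obtain ⟨g1, g1', g2, g3, g4⟩ := hh β (hB' hβ)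
      rw [hI β hβ] at g3
      refine ⟨⟨b1.1.sb1, b1.1.sb2, b1.1.sb3⟩, g3, b4.1, ?_⟩
      rw [← bk_E, bk_tb b1.2.1]
      exact b1.2.2.2.2
    obtain ⟨β, hβ⟩ := hne
    obtain ⟨b1, b2, b4⟩ := hBk β (hB' hβ)
    obtain ⟨g1, g1', g2, g3, g4⟩ := hh β (hB' hβ)
    rw [hI β hβ] at g1 g1' g2 g3
    refine ⟨g1', g2, ?_, hall⟩
    have e1 : dt (tb β) ≠ 0 := b1.2.2.2.1
    exact (ni_le_of_le (cn_le g3.1 g3.2.1 g3.2.2) (cn_ne e1)).trans b4.2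
  obtain ⟨μ, hμdef⟩ : ∃ μ : ℝ, μ = (Real.log (2 + s) ^ (12 * Module.finrank ℚ M))⁻¹ := ⟨_, rfl⟩
  have hμ0 : 0 < μ := by rw [hμdef]; positivity
  have hμ1 : μ ≤ 1 := by rw [hμdef]; exact inv_le_one_of_one_le₀ (one_le_pow₀ hL)
  have hlogμ : (1 + Real.log (1 / μ)) ^ Module.finrank ℚ M ≤ C5 * Real.log (2 + s) ^ (1 / 40 : ℝ) := by
    rw [hμdef, one_div, inv_inv, Real.log_pow]
    exact h5 _ hL
  have hlogμ0 : 0 ≤ 1 + Real.log (1 / μ) := by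
    have : 0 ≤ Real.log (1 / μ) := Real.log_nonneg (one_le_one_div hμ0 hμ1)
    linarith
  have hLL : Real.log (2 + s) ^ (1 / 40 : ℝ) * Real.log (2 + s) ^ (3 / 4 + 1 / 40 : ℝ) ≤
      Real.log (2 + s) ^ (7 / 8 : ℝ) := by
    rw [← Real.rpow_add hL0]
    exact Real.rpow_le_rpow_of_exponent_le hL (by norm_num)
  have hLe : Real.log (2 + s) ^ (3 / 4 + 1 / 40 : ℝ) ≤ Real.log (2 + s) ^ (7 / 8 : ℝ) :=
    Real.rpow_le_rpow_of_exponent_le hL (by norm_num)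
  have hdis : ∀ B' : Finset (Blk (𝓞 M)), B' ⊆ Bk → ∀ β ∈ B', g β ≠ ⊥ := fun B' hB' β hβ => (hh β (hB' hβ)).1
  -- good blocks
  have good : ∀ G : Finset (Blk (𝓞 M)), G ⊆ Bk → (∀ β ∈ G, ∀ φ : M →+* ℂ,
      μ ^ 2 * s ^ 4 ≤ sz φ (E2 τ (tb β)) ∧ μ ^ 2 * s ^ 4 ≤ sz φ (dl2 τ (tb β))) →
      ∑ β ∈ G, ((n β).card : ℝ) ≤ C1 * C5 * C6 * C2 * C4 * (s ^ (3 * Module.finrank ℚ M) *
        ρ1 ^ (1 / 4 : ℝ) * Real.log (2 + s) ^ (7 / 8 : ℝ)) := by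
    intro G hG hGood
    have a1 : ∑ β ∈ G, ((n β).card : ℝ) ≤
        (C1 * (1 + Real.log (1 / μ)) ^ Module.finrank ℚ M * (2 + ρ2) ^ ((Module.finrank ℚ M : ℝ) / 20)) *
        ∑ β ∈ G, ni (g β) * ((F2 τ m (g β) (tb β) : ℝ) * Wt (4 / 5) s (tb β)) := by
      rw [Finset.mul_sum]
      refine Finset.sum_le_sum fun β hβ => ?_
      refine ((hh β (hG hβ)).2.2.2.2.2 μ hμ0 hμ1 (hGood β hβ)).trans (le_of_eq ?_)
      ring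
    have a2 : ∑ β ∈ G, ni (g β) * ((F2 τ m (g β) (tb β) : ℝ) * Wt (4 / 5) s (tb β)) ≤
        (C2 * s ^ (3 * Module.finrank ℚ M) * (ρ1 * ρ2) ^ (7 / 5 * (Module.finrank ℚ M : ℝ)) *
          Real.log (2 + s) ^ (3 / 4 + 1 / 40 : ℝ)) * C4 := by
      refine bs_group h4 G g _ _ (by positivity) (hdis G hG) fun I hI B' hB' hne hBI => ?_
      rw [key I B' (hB'.trans hG) hBI]
      obtain ⟨k0, k1, k2, k3⟩ := key2 I B' (hB'.trans hG) hne hBI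
      refine (h1 s ρ1 ρ2 hs2' hr hρ I hI k0 k1 k2 _ k3).trans (le_of_eq ?_)
      ring
    refine a1.trans ?_
    refine (mul_le_mul_of_nonneg_left a2 (by positivity)).trans ?_
    calc C1 * (1 + Real.log (1 / μ)) ^ Module.finrank ℚ M * (2 + ρ2) ^ ((Module.finrank ℚ M : ℝ) / 20) *
        ((C2 * s ^ (3 * Module.finrank ℚ M) * (ρ1 * ρ2) ^ (7 / 5 * (Module.finrank ℚ M : ℝ)) *
          Real.log (2 + s) ^ (3 / 4 + 1 / 40 : ℝ)) * C4)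
        = (C1 * C2 * C4 * s ^ (3 * Module.finrank ℚ M)) *
          (((2 + ρ2) ^ ((Module.finrank ℚ M : ℝ) / 20) * (ρ1 * ρ2) ^ (7 / 5 * (Module.finrank ℚ M : ℝ))) *
          ((1 + Real.log (1 / μ)) ^ Module.finrank ℚ M * Real.log (2 + s) ^ (3 / 4 + 1 / 40 : ℝ))) := by ring
      _ ≤ (C1 * C2 * C4 * s ^ (3 * Module.finrank ℚ M)) *
          ((C6 * ρ1 ^ (1 / 4 : ℝ)) *
          ((C5 * Real.log (2 + s) ^ (1 / 40 : ℝ)) * Real.log (2 + s) ^ (3 / 4 + 1 / 40 : ℝ))) := by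
        refine mul_le_mul_of_nonneg_left ?_ (by positivity)
        refine mul_le_mul (h6 ρ1 ρ2 hr) ?_ (by positivity) (by positivity)
        exact mul_le_mul_of_nonneg_right hlogμ (by positivity)
      _ = (C1 * C5 * C6 * C2 * C4 * (s ^ (3 * Module.finrank ℚ M) * ρ1 ^ (1 / 4 : ℝ))) *
          (Real.log (2 + s) ^ (1 / 40 : ℝ) * Real.log (2 + s) ^ (3 / 4 + 1 / 40 : ℝ)) := by ring
      _ ≤ (C1 * C5 * C6 * C2 * C4 * (s ^ (3 * Module.finrank ℚ M) * ρ1 ^ (1 / 4 : ℝ))) *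
          Real.log (2 + s) ^ (7 / 8 : ℝ) := mul_le_mul_of_nonneg_left hLL (by positivity)
      _ = _ := by ring
  -- bad blocks
  have bad : ∀ G : Finset (Blk (𝓞 M)), G ⊆ Bk → (∀ β ∈ G, ¬ ∀ φ : M →+* ℂ,
      μ ^ 2 * s ^ 4 ≤ sz φ (E2 τ (tb β)) ∧ μ ^ 2 * s ^ 4 ≤ sz φ (dl2 τ (tb β))) →
      ∑ β ∈ G, ((n β).card : ℝ) ≤ C1 * C3 * C7 * C4 * (s ^ (3 * Module.finrank ℚ M) *
        ρ1 ^ (1 / 4 : ℝ) * Real.log (2 + s) ^ (7 / 8 : ℝ)) := by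
    intro G hG hBad
    have a1 : ∑ β ∈ G, ((n β).card : ℝ) ≤
        (C1 * Real.log (2 + s) ^ Module.finrank ℚ M) *
        ∑ β ∈ G, ni (g β) * ((F2 τ m (g β) (tb β) : ℝ) * Wt (3 / 4) s (tb β)) := by
      rw [Finset.mul_sum]
      refine Finset.sum_le_sum fun β hβ => ?_
      refine ((hh β (hG hβ)).2.2.2.2.1).trans (le_of_eq ?_)
      ring
    have a2 : ∑ β ∈ G, ni (g β) * ((F2 τ m (g β) (tb β) : ℝ) * Wt (3 / 4) s (tb β)) ≤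
        (C3 * s ^ (3 * Module.finrank ℚ M) * (ρ1 * ρ2) ^ (3 / 2 * (Module.finrank ℚ M : ℝ)) *
          (μ ^ (1 / 12 : ℝ) * ρ1 ^ (-(1 / 3) : ℝ)) * Real.log (2 + s) ^ (3 / 4 + 1 / 40 : ℝ)) * C4 := by
      refine bs_group h4 G g _ _ (by positivity) (hdis G hG) fun I hI B' hB' hne hBI => ?_
      rw [key I B' (hB'.trans hG) hBI]
      obtain ⟨k0, k1, k2, k3⟩ := key2 I B' (hB'.trans hG) hne hBI
      refine (h2 s ρ1 ρ2 μ hs3' hr hρ hμdef.ge hμ1 I hI k0 k1 k2 _ fun b hb => ?_).trans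
        (le_of_eq ?_)
      · obtain ⟨j1, j2, j3, j4⟩ := k3 b hb
        refine ⟨j1, j2, j3, j4, ?_⟩
        obtain ⟨β, hβ, rfl⟩ := Finset.mem_image.1 hb
        have j5 := hBad β (hB' hβ)
        push Not at j5
        obtain ⟨φ, hφ⟩ := j5
        refine ⟨φ, ?_⟩
        by_cases h7 : μ ^ 2 * s ^ 4 ≤ sz φ (E2 τ (tb β))
        · exact Or.inr (hφ h7)
        · exact Or.inl (not_le.1 h7)
      · ring
    refine a1.trans ?_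
    refine (mul_le_mul_of_nonneg_left a2 (by positivity)).trans ?_
    have e1 : Real.log (2 + s) ^ Module.finrank ℚ M * μ ^ (1 / 12 : ℝ) = 1 := by
      rw [hμdef]
      exact bs_mu _ _ hL
    calc C1 * Real.log (2 + s) ^ Module.finrank ℚ M *
        ((C3 * s ^ (3 * Module.finrank ℚ M) * (ρ1 * ρ2) ^ (3 / 2 * (Module.finrank ℚ M : ℝ)) *
          (μ ^ (1 / 12 : ℝ) * ρ1 ^ (-(1 / 3) : ℝ)) * Real.log (2 + s) ^ (3 / 4 + 1 / 40 : ℝ)) * C4)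
        = (C1 * C3 * C4 * s ^ (3 * Module.finrank ℚ M)) *
          ((Real.log (2 + s) ^ Module.finrank ℚ M * μ ^ (1 / 12 : ℝ)) *
          (((ρ1 * ρ2) ^ (3 / 2 * (Module.finrank ℚ M : ℝ)) * ρ1 ^ (-(1 / 3) : ℝ)) *
          Real.log (2 + s) ^ (3 / 4 + 1 / 40 : ℝ))) := by ring
      _ ≤ (C1 * C3 * C4 * s ^ (3 * Module.finrank ℚ M)) *
          (1 * ((C7 * ρ1 ^ (1 / 4 : ℝ)) * Real.log (2 + s) ^ (7 / 8 : ℝ))) := by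
        refine mul_le_mul_of_nonneg_left ?_ (by positivity)
        rw [e1]
        refine mul_le_mul_of_nonneg_left ?_ (by norm_num)
        exact mul_le_mul (h7 ρ1 ρ2 hr) hLe (by positivity) (by positivity)
      _ = _ := by ring
  rw [hn, ← Finset.sum_filter_add_sum_filter_not Bk (fun β => ∀ φ : M →+* ℂ,
      μ ^ 2 * s ^ 4 ≤ sz φ (E2 τ (tb β)) ∧ μ ^ 2 * s ^ 4 ≤ sz φ (dl2 τ (tb β)))]
  refine (add_le_add (good _ (Finset.filter_subset _ _) fun β hβ => (Finset.mem_filter.1 hβ).2)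
    (bad _ (Finset.filter_subset _ _) fun β hβ => (Finset.mem_filter.1 hβ).2)).trans (le_of_eq ?_)
  ring

end H88.AQ
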