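import Pool.Agent.H88.AQ.Tau
import Pool.Agent.H57.EZ.Nw
import Pool.Agent.H12.WM.N2
import Pool.Agent.H12.AQ.Bas

/-!
# [H88 AQ EZN] number of `n` for given `p`, conjugate case (AQ, W2#, MP_b39724), 80-130 lines (a copy). File Pool/Agent/H88/AQ/Ezn.lean

Copy `n_card2` (H12/WM/N2.lean) with `H57.EZ.n_card_w k D hD (ε/8) ..` (H57/EZ/Nw.lean: free bound `nm ≤ W ^ 2` of the norm over `k`) in the place of `n_card_gen k D hD (ε/8) ..`. NEW: for `n ∈ S` and `n1 : 𝓞 k` with `algebraMap n1 = e n` (`e = 1` or `δ`): `nm_k(n1) ^ 2 = nm_M(e n) = nm_M(e) nm_M(n)`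
(`nm_base` in H12/WM/U2.lean, private: copy; it uses `Algebra.norm_norm`, `[M : k] = 2`), `nm_M(e) ≤ A^d`, `d = [M : ℚ]`, `A ≥ 1` the bound of `e`, and `nm_M(n) ≤ W ^ 4`, so `nm_k(n1) ≤ (A^d W)^2` (`A^d ≥ 1`: `nm_k(n1)^2 ≤ A^d W^4 ≤ ((A^d W)^2)^2`). Use `n_card_w` with `W := A^d W ≥ 1`.
Result: `S.card ≤ C1 (H Y)^(ε/8) A^d W` with `H = (C s)^2`, `Y = 2 A C^6 s^6`, `(H Y)^(ε/8) ≤ C'' s^ε` as in N2.lean.
-/

open scoped NumberField
open H88.A4 Pool.Agent.H67.WA H88.WS Pool.Agent.H12.WM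

noncomputable section

namespace H88.AQ

theorem n_card3 (k M : Type) [Field k] [NumberField k] [Field M] [NumberField M] [Algebra k M]
    (τ : M ≃ₐ[k] M) (hτ : Invo k M τ) (m : ℕ) (hm : m ≠ 0) (C : ℝ) (hC : 1 ≤ C) (ε : ℝ)
    (hε : 0 < ε) :
    ∃ C' : ℝ, 0 < C' ∧ ∀ s : ℝ, 1 ≤ C * s → ∀ p q : 𝓞 M, p ≠ 0 → (q = tO τ p ∨ q = -tO τ p) →
      Bd (C * s) p → ∀ W : ℝ, 1 ≤ W → ∀ S : Finset (𝓞 M),
      (∀ n ∈ S, n ≠ 0 ∧ Bd (2 * C ^ 4 * s ^ 6) n ∧ nm (n : M) ≤ W ^ 4 ∧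
        (∃ u : 𝓞 M, n = tO τ u * p ^ 3 + u * q ^ 3) ∧ ∃ b0 g1 g2 I : Ideal (𝓞 M),
        Ideal.span {n} = b0 * g1 * g2 * I ^ 2 ∧ b0 ∣ Ideal.span {(m : 𝓞 M)} ∧ p ∈ g1 ∧ q ∈ g2) →
      (S.card : ℝ) ≤ C' * s ^ ε * W := by
  classical
  obtain ⟨δ, hδ, hδτ⟩ := exists_delta hτ
  obtain ⟨D, hD, hdesc⟩ := desc_n hτ hδ hδτ m hm
  obtain ⟨A, hA1, hA⟩ := exists_bd δ
  obtain ⟨C1, hC1, hcard⟩ := H57.EZ.n_card_w k D hD (ε / 8) (by positivity)
  have hC0 : 0 < C := by linarith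
  have hA0 : 0 < A := by linarith
  set d : ℕ := Module.finrank ℚ M with hd
  refine ⟨C1 * (C ^ 2 * (2 * A * C ^ 6)) ^ (ε / 8) * A ^ d, by positivity, ?_⟩
  intro s hs p q hp hq hpb W hW S hS
  have hs0 : 0 < s := by
    by_contra h
    push Not at h
    nlinarith
  -- the multiplier
  obtain ⟨e, he, hef, hen⟩ : ∃ e : 𝓞 M, (e = 1 ∨ e = δ) ∧ Bd A e ∧
      ∀ n ∈ S, tO τ (e * n) = e * n := by
    rcases hq with hq | hq
    · refine ⟨1, Or.inl rfl, ?_, ?_⟩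
      · intro φ
        have : ((1 : 𝓞 M) : M) = 1 := rfl
        rw [this, map_one, norm_one]
        exact hA1
      · intro n hn
        obtain ⟨_, _, _, ⟨u, hu⟩, _⟩ := hS n hn
        rw [one_mul, hu, hq, tO_add, tO_mul, tO_mul, tO_pow, tO_pow, tO_tO hτ, tO_tO hτ]
        ring
    · refine ⟨δ, Or.inr rfl, hA, ?_⟩
      intro n hn
      obtain ⟨_, _, _, ⟨u, hu⟩, _⟩ := hS n hn
      rw [hu, hq, tO_mul, hδτ, tO_add, tO_mul, tO_mul, tO_pow, tO_pow, tO_neg, tO_tO hτ, tO_tO hτ]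
      ring
  have he0 : e ≠ 0 := by
    rcases he with rfl | rfl
    · exact one_ne_zero
    · exact hδ
  have hPfix : tO τ (p * tO τ p) = p * tO τ p := by
    rw [tO_mul, tO_tO hτ]
    ring
  obtain ⟨P, hP⟩ := fixed_int hτ hPfix
  have hP0 : P ≠ 0 := by
    rintro rfl
    rw [map_zero] at hP
    exact mul_ne_zero hp (tO_ne hp) hP.symm
  have hτb : Bd (C * s) (tO τ p) := fun φ => hpb (φ.comp (τ : M →+* M))
  have hPb : Bd ((C * s) * (C * s)) P := bd_desc hP (bd_mul (by positivity) hpb hτb)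
  have hnex : ∀ n : 𝓞 M, ∃ n1 : 𝓞 k, n ∈ S → algebraMap (𝓞 k) (𝓞 M) n1 = e * n := by
    intro n
    by_cases hn : n ∈ S
    · obtain ⟨y, hy⟩ := fixed_int hτ (hen n hn)
      exact ⟨y, fun _ => hy⟩
    · exact ⟨0, fun h => absurd h hn⟩
  choose f hf using hnex
  have hinj : Set.InjOn f S := by
    intro x hx y hy hxy
    have h1 := hf x hx
    have h2 := hf y hy
    rw [hxy, h2] at h1
    exact (mul_left_cancel₀ he0 h1).symm
  have hcS : (S.image f).card = S.card := Finset.card_image_of_injOn hinj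
  have hH : 1 ≤ (C * s) * (C * s) := by nlinarith
  have hCs6 : 1 ≤ (C * s) ^ 6 := one_le_pow₀ hs
  have hY : 1 ≤ 2 * A * C ^ 6 * s ^ 6 := by
    have h1 : 2 * A * C ^ 6 * s ^ 6 = 2 * A * (C * s) ^ 6 := by ring
    rw [h1]
    nlinarith
  have hAd : 1 ≤ A ^ d := one_le_pow₀ hA1
  have hAW : 1 ≤ A ^ d * W := by nlinarith
  have key := hcard ((C * s) * (C * s)) (2 * A * C ^ 6 * s ^ 6) (A ^ d * W) hH hY hAW P P hP0 hP0 hPb hPb (S.image f) ?_
  · rw [hcS] at key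
    refine key.trans (le_of_eq ?_)
    have e1 : (C * s) * (C * s) * (2 * A * C ^ 6 * s ^ 6) = (C ^ 2 * (2 * A * C ^ 6)) * s ^ (8 : ℝ) := by
      rw [show (8 : ℝ) = ((8 : ℕ) : ℝ) by norm_num, Real.rpow_natCast]
      ring
    have e4 : ((C * s) * (C * s) * (2 * A * C ^ 6 * s ^ 6)) ^ (ε / 8) =
        (C ^ 2 * (2 * A * C ^ 6)) ^ (ε / 8) * s ^ ε := by
      rw [e1, Real.mul_rpow (by positivity) (by positivity), ← Real.rpow_mul hs0.le]
      congr 2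
      ring
    rw [e4]
    ring
  · intro n1 hn1
    obtain ⟨n, hn, rfl⟩ := Finset.mem_image.1 hn1
    obtain ⟨hn0, hnb, hnW, _, hdec⟩ := hS n hn
    have hfn := hf n hn
    refine ⟨?_, ?_, ?_, hdesc e he p q n (f n) P hn0 hq hP hfn hdec⟩
    · intro h0
      rw [h0, map_zero] at hfn
      exact mul_ne_zero he0 hn0 hfn.symm
    · refine bd_desc hfn (bd_mono ?_ (bd_mul hA0.le hef hnb))
      have h1 : C ^ 4 ≤ C ^ 6 := pow_le_pow_right₀ hC (by norm_num)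
      have h2 : A * (2 * C ^ 4 * s ^ 6) = 2 * A * s ^ 6 * C ^ 4 := by ring
      have h3 : 2 * A * C ^ 6 * s ^ 6 = 2 * A * s ^ 6 * C ^ 6 := by ring
      rw [h2, h3]
      exact mul_le_mul_of_nonneg_left h1 (by positivity)
    · have h1 : nz (algebraMap (𝓞 k) (𝓞 M) (f n)) = nz (f n) ^ 2 := by
        rw [nz_ni, nz_ni]
        have h2 : (Ideal.span {algebraMap (𝓞 k) (𝓞 M) (f n)} : Ideal (𝓞 M)) = H12.AQ.ex M (Ideal.span {f n}) := by
          unfold H12.AQ.ex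
          rw [Ideal.map_span, Set.image_singleton]
        rw [h2]
        unfold ni
        rw [H12.AQ.exN hτ]
        push_cast
        ring
      have h3 : nz (e * n) ≤ A ^ d * W ^ 4 := by
        rw [nz_mul]
        have h4 : nz e ≤ A ^ d := by
          have h5 := nz_le_vol (R := fun _ : M →+* ℂ => A) (x := e) (fun φ => hef φ)
          rwa [vol_const] at h5
        have h6 : nz n ≤ W ^ 4 := hnW
        exact mul_le_mul h4 h6 (nz_nonneg _) (by positivity)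
      rw [← hfn, h1] at h3
      have h7 : nz (f n) ^ 2 ≤ ((A ^ d * W) ^ 2) ^ 2 := by
        refine h3.trans ?_
        have h8 : ((A ^ d * W) ^ 2) ^ 2 = A ^ d * (A ^ d) ^ 3 * W ^ 4 := by ring
        rw [h8]
        have h9 : 1 ≤ (A ^ d) ^ 3 := one_le_pow₀ hAd
        have h10 : 0 ≤ W ^ 4 := by positivity
        have h11 : A ^ d ≤ A ^ d * (A ^ d) ^ 3 := le_mul_of_one_le_right (by positivity) h9
        exact mul_le_mul_of_nonneg_right h11 h10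
      exact (pow_le_pow_iff_left₀ (nz_nonneg _) (by positivity) two_ne_zero).1 h7

end H88.AQ
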