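import Pool.Agent.H88.AQ.Ov
import Pool.Agent.H1.LC.LC2

/-!
# [H88 AQ LOC] `Loc3Stmt`: classes at the finite places of `k` (AQ, W2#, MP_b39724), 100-170 lines. File Pool/Agent/H88/AQ/Loc.lean

Model: `loc2Stmt` in H1/LC/LC2.lean. `m = 6 m0`, `m2 = (6 m0)^48`. Fix `b`, `β = bk τ b` (`β.D1 = dt b ≠ 0`, `β.D3 = tO τ (dt b) ≠ 0`, `β.E = E2 τ b ≠ 0`, `Tau.lean`), `e = ek τ b`.
(1) THE IDEAL. `exists_gg2 β hE ((6 * m0 : ℕ) : 𝓞 M)` gives `gb`, `gc`; take `g = gb`. `T3.All (∈ gb) b`. `g` and `cI τ g` are coprime: `gb` is coprime to `span {c1, c2, c3}`, and `c_i = tO τ b_i ∈ cI τ g` (`mem_cI`, `tO_tO`).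
Let `G = g * cI τ g`. The three conditions `hg1, hg2, hg3` of `H1.LC.loc_all l hM β hE hEl G` hold for every `l : HeightOneSpectrum (𝓞 M)`:
hg1: `G ≤ l` gives `gb ≤ l` or `cI τ gb ≤ l` (`Ideal.IsPrime.mul_le`). In the first case `gb * gc ≤ l` and the clause of `exists_gg2` gives the claim. In the second `gb ≤ cI τ l` (`cI_le`, `cI_cI`); `cI τ l` is a nonzero prime `l'`
(`cI_prime`, `cI_ne`), so `m ∉ l'`, `D1, D3 ∈ l'`, that is `m ∉ l`, `D3 = tO τ D1 ∈ l`, `D1 ∈ l` (`mem_cI`, `tO τ m = m`).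
hg2: `m ∉ l`, `b_i ∈ l`, `D3 ∈ l`, not all `c_i ∈ l`: `exists_gg2` gives `gb * gc ≤ l`; `gc ≤ l` is impossible (`c_i ∈ gc`), so `gb ≤ l` and `G ≤ l`. hg3: `m ∉ l`, `c_i ∈ l`, `D1 ∈ l`, not all `b_i ∈ l`: apply hg2 to `l' = cI τ l`:
`b_i ∈ l'` since `tO τ b_i = c_i ∈ l`; `D3 ∈ l'` since `tO τ D3 = D1 ∈ l`; not all `c_i ∈ l'`. So `gb ≤ l'`, `cI τ gb ≤ l`, `G ≤ l`.
(2) ONE PRIME `w(l)` OVER EACH `l ∈ pf (span {e})`: if `∃ w, Ov l w ∧ Inr m (dt b) w` choose `w(l) = cI τ w` for such a `w`: then `Inr m (tO τ (dt b)) w(l)` = `Inr m β.D3 w(l)` (`inr_cI`); otherwise any `w(l)` over `l` (`ov_ex`). `w(l)` is a nonzero prime containing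
`E2 τ b = algebraMap e` (`ek_spec`). `loc_all` at `w(l)`: a function `cl` with `cl π < lf (6 m0) β.D3 G w(l) n`, `n = od w(l) (span {E2})` (`od_eq` of H1/LC for the two `od`), such that equal values imply `(6 m0)^48 x br ∈ w(l)^n` for `x ∈ G`.
`lf (6 m0) β.D3 G w(l) n ≤ lf2 (6 m0) (dt b) g l (od l (span {e}))`, by cases: if `G ≤ w(l)` then `g ≤ w(l)` or `g ≤ cI τ w(l)`, both are over `l` (`ov_cI`): both sides are 1 (and conversely if `g ≤ w'` for some `w'` over `l`, then `w' = w(l)` or `cI τ w(l)` (`ov_pair`), so `G ≤ w(l)`);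
`m ∈ w(l)` iff `m ∈ l` (`comap`): `(n + 1)^48 ≤ (2 n' + 1)^48 ≤ (n' + 1)^96`, `n' = od l (span {e})` (`od_le`); `m ∉ l`: then `3 ∉ l` (`6 ∣ m`), `n = n'` (`od_eq3`), and if there is an inert prime over `l` then `w(l)` is inert for `β.D3`, both sides are 1; otherwise the right side is `n' + 1 ≥` the left side.
(3) `H1.LC.comb (pf (span {e})) ..` combines the functions of all `l` (as in `loc2Stmt`; the index set is now the set of the primes of `k`, the predicate of a row: `∃ C s u r r', π.Cj τ ∧ Adm m0 C s s u (tO τ u) ∧ Sol β π r r' u (tO τ u)`, which gives `LS` at every prime by `ladm_of`).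
(4) CONCLUSION. Let `cl π = cl π'`, `x ∈ G`, `N = (6 m0)^48 x br`. For every prime `w` of `M` with `E2 ∈ w`, `l = comap w ∈ pf (span {e})` (`pf_ov`), `w = w(l)` or `w = cI τ w(l)` (`ov_pair`). In the first case `N ∈ w^(od w E)` by (2). In the second: (2) for `tO τ x ∈ G`
(`G` is conjugate to itself: `cI τ G = cI τ g * g`; elementary: `tO τ` of a product of elements) gives `(6 m0)^48 (tO τ x) br ∈ w(l)^n`; `br` is fixed by `τ` (`H77.CO.br_fix hτ (bk_cj τ b) hπ hπ'`), so `tO τ N = (6 m0)^48 (tO τ x) br ∈ w(l)^n`,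
that is `N ∈ cI τ (w(l)^n) = (cI τ w(l))^n` (`cI` of a power: `Ideal.comap` of a ring isomorphism; or `tE`, `Ideal.map_pow`) and `od (cI τ w(l)) E = od w(l) E` (both are `n`: `E = tO τ E`; or: `N ∈ (cI w(l))^n` with `n = od w(l)`, and `od (cI w(l)) (span {E})` is the same
because `E ∈ P^j ↔ E = tO τ E ∈ (cI τ P)^j`). `FP.dvd_of_local` as in `loc2Stmt`.
-/

open scoped NumberField
open H88.A4 Pool.Agent.H67.WA H88.WS

noncomputable section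

namespace H88.AQ

open IsDedekindDomain
open Pool.Agent.H12.WM (tO_mul tO_add tO_sub tO_neg tO_pow tO_tO tO_ne tO_inj)

section loc

variable {k M : Type} [Field k] [NumberField k] [Field M] [NumberField M] [Algebra k M]
  {τ : M ≃ₐ[k] M}

private theorem loc_map (hτ : Invo k M τ) (h : Ideal (𝓞 M)) :
    cI τ h = h.map (H77.CO.tE hτ).symm := by
  rw [cI_tE hτ]
  exact (Ideal.map_symm (H77.CO.tE hτ)).symm

private theorem loc_pow (hτ : Invo k M τ) (h : Ideal (𝓞 M)) (n : ℕ) :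
    cI τ (h ^ n) = cI τ h ^ n := by
  rw [loc_map hτ, loc_map hτ, Ideal.map_pow]

private theorem loc_mul (hτ : Invo k M τ) (h h' : Ideal (𝓞 M)) :
    cI τ (h * h') = cI τ h * cI τ h' := by
  rw [loc_map hτ, loc_map hτ, loc_map hτ, Ideal.map_mul]

private theorem loc_G (hτ : Invo k M τ) (g : Ideal (𝓞 M)) :
    cI τ (g * cI τ g) = g * cI τ g := by
  rw [loc_mul hτ, cI_cI hτ, mul_comm]

omit [NumberField k] in
private theorem loc_nat (n : ℕ) : tO τ ((n : ℕ) : 𝓞 M) = (n : 𝓞 M) := map_natCast (tR τ) n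

/-- the conjugate prime -/
private def locC (τ : M ≃ₐ[k] M) (hτ : Invo k M τ) (l : HeightOneSpectrum (𝓞 M)) :
    HeightOneSpectrum (𝓞 M) := ⟨cI τ l.asIdeal, cI_prime l.isPrime, cI_ne hτ l.ne_bot⟩

private theorem loc_le (hτ : Invo k M τ) {g w : Ideal (𝓞 M)} (hw : w.IsPrime)
    (h : g * cI τ g ≤ w) : g ≤ w ∨ g ≤ cI τ w := by
  rcases (Ideal.IsPrime.mul_le hw).1 h with h1 | h1
  · exact Or.inl h1
  · right
    rw [← cI_le hτ, cI_cI hτ]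
    exact h1

private theorem loc_ge (hτ : Invo k M τ) {g w : Ideal (𝓞 M)} (h : g ≤ w ∨ g ≤ cI τ w) :
    g * cI τ g ≤ w := by
  rcases h with h1 | h1
  · exact Ideal.mul_le_left.trans h1
  · refine Ideal.mul_le_right.trans ?_
    rw [← cI_le hτ, cI_cI hτ]
    exact h1

private theorem loc_lf (m0 : ℕ) {ω : M} (H : Omk τ ω) (b : T3 M) (hE : E2 τ b ≠ 0)
    (g : Ideal (𝓞 M)) {l : Ideal (𝓞 k)} (hl : l ≠ ⊥) {w : Ideal (𝓞 M)} (hw : Ov l w)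
    (hI : (∃ w, Ov l w ∧ Inr (6 * m0) (dt b) w) → Inr (6 * m0) (tO τ (dt b)) w) :
    lf (6 * m0) (bk τ b).D3 (g * cI τ g) w (od w (Ideal.span {E2 τ b})) ≤
      lf2 (6 * m0) (dt b) g l (od l (Ideal.span {ek τ b})) := by
  have hτ := H.1
  have he := ek_ne hτ hE
  have hm : ((6 * m0 : ℕ) : 𝓞 M) ∈ w ↔ ((6 * m0 : ℕ) : 𝓞 k) ∈ l := by
    rw [← hw.2, Ideal.mem_comap, map_natCast]
  have hle := od_le hτ hl hw he
  rw [ek_spec hτ] at hle
  unfold lf lf2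
  by_cases hg : g * cI τ g ≤ w
  · rw [if_pos hg]
    split_ifs
    · exact le_rfl
    · exact Nat.one_le_pow _ _ (Nat.succ_pos _)
    · exact le_rfl
    · exact Nat.le_add_left _ _
  rw [if_neg hg]
  have hg2 : ¬ ∃ w : Ideal (𝓞 M), Ov l w ∧ g ≤ w := by
    rintro ⟨w', hw', hgw⟩
    apply hg
    rcases ov_pair hτ hl hw hw' with rfl | rfl
    · exact loc_ge hτ (Or.inl hgw)
    · exact loc_ge hτ (Or.inr hgw)
  rw [if_neg hg2]
  by_cases h6 : ((6 * m0 : ℕ) : 𝓞 k) ∈ l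
  · rw [if_pos (hm.2 h6), if_pos h6]
    calc (od w (Ideal.span {E2 τ b}) + 1) ^ 48
        ≤ ((od l (Ideal.span {ek τ b}) + 1) ^ 2) ^ 48 := by
          apply Nat.pow_le_pow_left
          nlinarith [hle, Nat.zero_le (od l (Ideal.span {ek τ b}))]
      _ = (od l (Ideal.span {ek τ b}) + 1) ^ 96 := by rw [← pow_mul]
  rw [if_neg (fun h => h6 (hm.1 h)), if_neg h6]
  have h3 : (3 : 𝓞 k) ∉ l := by
    intro h3
    apply h6
    have e1 : ((6 * m0 : ℕ) : 𝓞 k) = ((2 * m0 : ℕ) : 𝓞 k) * 3 := by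
      push_cast
      ring
    rw [e1]
    exact Ideal.mul_mem_left _ _ h3
  have heq := od_eq3 H hl h3 hw he
  rw [ek_spec hτ] at heq
  by_cases hi : Inr (6 * m0) (bk τ b).D3 w
  · rw [if_pos hi]
    split_ifs
    · exact le_rfl
    · exact Nat.le_add_left _ _
  · rw [if_neg hi]
    have hi2 : ¬ ∃ w : Ideal (𝓞 M), Ov l w ∧ Inr (6 * m0) (dt b) w := by
      intro h
      apply hi
      rw [bk_D3]
      exact hI h
    rw [if_neg hi2, heq]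

end loc

theorem loc3 (k M : Type) [Field k] [NumberField k] [Field M] [NumberField M] [Algebra k M] :
    Loc3Stmt k M := by
  intro τ ω H m0 hm0
  have hτ := H.1
  refine ⟨6 * m0, (6 * m0) ^ 48, by positivity, by positivity, Dvd.intro _ rfl, ?_⟩
  intro b hD hE
  have hEβ : (bk τ b).E ≠ 0 := hE
  obtain ⟨gb, gc, sqb, sqc, cop, cop2, hb, hc, hg1, hg2, hg3⟩ :=
    H1.LC.exists_gg2 (bk τ b) hEβ ((6 * m0 : ℕ) : 𝓞 M)
  have hcI : IsCoprime gb (cI τ gb) := by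
    rw [Ideal.isCoprime_iff_sup_eq] at cop2 ⊢
    rw [eq_top_iff, ← cop2]
    refine sup_le_sup_left ?_ gb
    rw [Ideal.span_le]
    intro z hz
    rcases hz with rfl | rfl | rfl
    · show tO τ (tO τ b.1) ∈ gb
      rw [tO_tO hτ]
      exact hb.1
    · show tO τ (tO τ b.2.1) ∈ gb
      rw [tO_tO hτ]
      exact hb.2.1
    · show tO τ (tO τ b.2.2) ∈ gb
      rw [tO_tO hτ]
      exact hb.2.2
  refine ⟨gb, sqb, hcI, hb, ?_⟩
  have hnat : tO τ ((6 * m0 : ℕ) : 𝓞 M) = ((6 * m0 : ℕ) : 𝓞 M) := loc_nat _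
  have hD1 : (bk τ b).D1 = dt b := rfl
  have hD3 : (bk τ b).D3 = tO τ (dt b) := bk_D3 τ b
  -- the three conditions
  have k1a : ∀ l : HeightOneSpectrum (𝓞 M), gb ≤ l.asIdeal →
      ((6 * m0 : ℕ) : 𝓞 M) ∉ l.asIdeal ∧ (bk τ b).D1 ∈ l.asIdeal ∧ (bk τ b).D3 ∈ l.asIdeal :=
    fun l h => hg1 l (Ideal.mul_le_left.trans h)
  have k1 : ∀ l : HeightOneSpectrum (𝓞 M), gb * cI τ gb ≤ l.asIdeal →
      ((6 * m0 : ℕ) : 𝓞 M) ∉ l.asIdeal ∧ (bk τ b).D1 ∈ l.asIdeal ∧ (bk τ b).D3 ∈ l.asIdeal := by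
    intro l h
    rcases loc_le hτ l.isPrime h with h1 | h1
    · exact k1a l h1
    · obtain ⟨h2, h3, h4⟩ := k1a (locC τ hτ l) h1
      have h2' : tO τ ((6 * m0 : ℕ) : 𝓞 M) ∉ l.asIdeal := h2
      have h3' : tO τ (bk τ b).D1 ∈ l.asIdeal := h3
      have h4' : tO τ (bk τ b).D3 ∈ l.asIdeal := h4
      rw [hnat] at h2'
      rw [hD1, ← hD3] at h3'
      rw [hD3, tO_tO hτ, ← hD1] at h4'
      exact ⟨h2', h4', h3'⟩
  have k2a : ∀ l : HeightOneSpectrum (𝓞 M), ((6 * m0 : ℕ) : 𝓞 M) ∉ l.asIdeal →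
      ((bk τ b).b1 ∈ l.asIdeal ∧ (bk τ b).b2 ∈ l.asIdeal ∧ (bk τ b).b3 ∈ l.asIdeal) →
      (bk τ b).D3 ∈ l.asIdeal →
      ¬ ((bk τ b).c1 ∈ l.asIdeal ∧ (bk τ b).c2 ∈ l.asIdeal ∧ (bk τ b).c3 ∈ l.asIdeal) →
      gb ≤ l.asIdeal := by
    intro l h1 h2 h3 h4
    rcases (Ideal.IsPrime.mul_le l.isPrime).1 (hg2 l h1 h2 h3 h4) with h5 | h5
    · exact h5
    · exact absurd ⟨h5 hc.1, h5 hc.2.1, h5 hc.2.2.1⟩ h4
  have k2 : ∀ l : HeightOneSpectrum (𝓞 M), ((6 * m0 : ℕ) : 𝓞 M) ∉ l.asIdeal →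
      ((bk τ b).b1 ∈ l.asIdeal ∧ (bk τ b).b2 ∈ l.asIdeal ∧ (bk τ b).b3 ∈ l.asIdeal) →
      (bk τ b).D3 ∈ l.asIdeal →
      ¬ ((bk τ b).c1 ∈ l.asIdeal ∧ (bk τ b).c2 ∈ l.asIdeal ∧ (bk τ b).c3 ∈ l.asIdeal) →
      gb * cI τ gb ≤ l.asIdeal := fun l h1 h2 h3 h4 => loc_ge hτ (Or.inl (k2a l h1 h2 h3 h4))
  have k3 : ∀ l : HeightOneSpectrum (𝓞 M), ((6 * m0 : ℕ) : 𝓞 M) ∉ l.asIdeal →
      ((bk τ b).c1 ∈ l.asIdeal ∧ (bk τ b).c2 ∈ l.asIdeal ∧ (bk τ b).c3 ∈ l.asIdeal) →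
      (bk τ b).D1 ∈ l.asIdeal →
      ¬ ((bk τ b).b1 ∈ l.asIdeal ∧ (bk τ b).b2 ∈ l.asIdeal ∧ (bk τ b).b3 ∈ l.asIdeal) →
      gb * cI τ gb ≤ l.asIdeal := by
    intro l h1 h2 h3 h4
    refine loc_ge hτ (Or.inr (k2a (locC τ hτ l) ?_ ?_ ?_ ?_))
    · show tO τ ((6 * m0 : ℕ) : 𝓞 M) ∉ l.asIdeal
      rw [hnat]
      exact h1
    · exact h2
    · show tO τ (bk τ b).D3 ∈ l.asIdeal
      rw [hD3, tO_tO hτ]
      exact h3
    · intro h
      apply h4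
      obtain ⟨h5, h6, h7⟩ := h
      have h5' : tO τ (tO τ b.1) ∈ l.asIdeal := h5
      have h6' : tO τ (tO τ b.2.1) ∈ l.asIdeal := h6
      have h7' : tO τ (tO τ b.2.2) ∈ l.asIdeal := h7
      rw [tO_tO hτ] at h5' h6' h7'
      exact ⟨h5', h6', h7'⟩
  have he := ek_ne hτ hE
  obtain ⟨cl, hcl, hcl2⟩ := H1.LC.comb (pf (Ideal.span {ek τ b}))
    (fun π : Row (𝓞 M) => π.Cj τ ∧ ∃ (C s : ℝ) (u r r' : 𝓞 M),
      Adm m0 C s s u (tO τ u) ∧ Sol (bk τ b) π r r' u (tO τ u))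
    (fun l π π' => ∀ x ∈ gb * cI τ gb, ∀ w : HeightOneSpectrum (𝓞 M), Ov l w.asIdeal →
      ((((6 * m0) ^ 48 : ℕ)) : 𝓞 M) * x * (bk τ b).br π π' ∈
        w.asIdeal ^ Pool.Agent.H28.FP.od w (bk τ b).E)
    (fun l => lf2 (6 * m0) (dt b) gb l (od l (Ideal.span {ek τ b})))
    (fun l hl => by
      obtain ⟨lh, hlh, hel⟩ := (H1.LC.pf_iff he l).1 hl
      have hlp : l.IsPrime := by
        rw [← hlh]
        exact lh.isPrime
      have hl0 : l ≠ ⊥ := by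
        rw [← hlh]
        exact lh.ne_bot
      obtain ⟨w₀, hw₀, hI⟩ : ∃ w₀ : Ideal (𝓞 M), Ov l w₀ ∧
          ((∃ w, Ov l w ∧ Inr (6 * m0) (dt b) w) → Inr (6 * m0) (tO τ (dt b)) w₀) := by
        by_cases h : ∃ w : Ideal (𝓞 M), Ov l w ∧ Inr (6 * m0) (dt b) w
        · obtain ⟨w, h1, h2⟩ := h
          exact ⟨cI τ w, ov_cI h1, fun _ => inr_cI hτ h2⟩
        · obtain ⟨w, h1⟩ := ov_ex (M := M) hlp
          exact ⟨w, h1, fun h' => absurd h' h⟩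
      have hw0 : w₀ ≠ ⊥ := by
        rintro rfl
        apply hl0
        rw [← hw₀.2]
        exact Ideal.comap_bot_of_injective _ (FaithfulSMul.algebraMap_injective (𝓞 k) (𝓞 M))
      obtain ⟨W, hW⟩ : ∃ W : HeightOneSpectrum (𝓞 M), W.asIdeal = w₀ := ⟨⟨w₀, hw₀.1, hw0⟩, rfl⟩
      subst hW
      have hEW : (bk τ b).E ∈ W.asIdeal := by
        rw [bk_E, ← ek_spec hτ, ← Ideal.mem_comap, hw₀.2]
        exact hel
      obtain ⟨cl, h1, h2⟩ := H1.LC.loc_all W hm0 (bk τ b) hEβ hEW (gb * cI τ gb) (k1 W) (k2 W) (k3 W)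
      refine ⟨cl, fun π => (h1 π).trans_le ?_, ?_⟩
      · rw [← H1.LC.od_eq W hEβ]
        exact loc_lf m0 H b hE gb hl0 hw₀ hI
      · rintro π π' ⟨hπ, C, s, u, r, r', ha, hs⟩ ⟨hπ', C', s', u', ρ, ρ', ha', hs'⟩ hcc x hx w hw
        have key : ∀ y ∈ gb * cI τ gb, ((((6 * m0) ^ 48 : ℕ)) : 𝓞 M) * y * (bk τ b).br π π' ∈
            W.asIdeal ^ Pool.Agent.H28.FP.od W (bk τ b).E :=
          h2 π π' ⟨r, r', u, _, H1.LC.ladm_of hm0 ha W, hs⟩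
            ⟨ρ, ρ', u', _, H1.LC.ladm_of hm0 ha' W, hs'⟩ hcc
        rcases ov_pair hτ hl0 hw₀ hw with h3 | h3
        · have h4 : w = W := HeightOneSpectrum.ext h3
          rw [h4]
          exact key x hx
        · have hx' : tO τ x ∈ gb * cI τ gb := by
            rw [← mem_cI, loc_G hτ]
            exact hx
          have h5 := key _ hx'
          have h6 : tO τ (((((6 * m0) ^ 48 : ℕ)) : 𝓞 M) * x * (bk τ b).br π π') =
              ((((6 * m0) ^ 48 : ℕ)) : 𝓞 M) * tO τ x * (bk τ b).br π π' := by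
            rw [tO_mul, tO_mul, loc_nat, H77.CO.br_fix hτ (bk_cj τ b) hπ hπ']
          rw [← h6, ← mem_cI, loc_pow hτ, ← h3] at h5
          have h7 : Pool.Agent.H28.FP.od w (bk τ b).E ≤ Pool.Agent.H28.FP.od W (bk τ b).E := by
            rw [← Pool.Agent.H28.FP.mem_iff W hEβ]
            have h8 := Pool.Agent.H28.FP.mem_od w (bk τ b).E hEβ
            rw [h3, ← loc_pow hτ, mem_cI, bk_E, E2_fix hτ] at h8
            exact h8
          exact Ideal.pow_le_pow_right h7 h5)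
  refine ⟨cl, hcl, ?_⟩
  intro C s u u' r r' ρ ρ' π π' hπ hπ' ha hs ha' hs' hcc x hx
  refine Pool.Agent.H28.FP.dvd_of_local hEβ fun l => ?_
  by_cases hEl : (bk τ b).E ∈ l.asIdeal
  · have h1 : l.asIdeal ∈ pf (Ideal.span {algebraMap (𝓞 k) (𝓞 M) (ek τ b)}) := by
      rw [ek_spec hτ]
      exact (H1.LC.pf_iff hE _).2 ⟨l, rfl, hEl⟩
    obtain ⟨l', hl', hov⟩ := (pf_ov he l.asIdeal).1 h1
    exact hcl2 π π' ⟨hπ, C, s, u, r, r', ha, hs⟩ ⟨hπ', C, s, u', ρ, ρ', ha', hs'⟩ hcc l' hl' x hx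
      l hov
  · rw [H1.LC.od_zero l hEl, pow_zero, Ideal.one_eq_top]
    trivial

end H88.AQ
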