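import Pool.Agent.H88.AQ.Tau
import Pool.Agent.H88.WS.Los
import Pool.Agent.H77.CO.Fin2

/-!
# [H88 AQ LOS] `Los3Stmt` and `Dg3Stmt` (AQ, W2#, MP_b39724), 130-200 lines. File Pool/Agent/H88/AQ/Los.lean

`los3`. PROOF. From `H77.CO.completions2Stmt k M : Completions2Stmt k M` with `H = Hp C (A + 1) s = (C (1 + s)) ^ (A + 1)` (`1, s ≤ H`; `Hp C A s ≤ H`) and the exponent `ε' = ε / (2 (A + 1))`: for one block `β` with `Blo2`, the number `n(β)` of the `u` with `(u, β) ∈ S` is at most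
`C1 H^ε' (1 + absNorm g ∏ Dt s s β φ^(-3/4))`, with `b_i ∈ g`. `g ≥ cn b` (`cn_le`), so `absNorm g ≤ ni (cn b)` (`ni_le_of_le`, `cn_ne`: `dt b = D1 ≠ 0`); `Dt^(-3/4) ≤ (|D1|/s^2)^(-3/4)`, `|D1|/s^2 ≤ 2 C^4` by `Sz`, `Rho` (see `dt_bd` in H88/WS/Cnt.lean, private: copy), so
`1 ≤ C2 ni (cn b) Wt (3/4) s b` and `n(β) ≤ C3 s^ε ni (cn b) Wt (3/4) s b` (`H^ε' ≤ (C (1 + s))^(ε/2) ≤ C4 s^(ε/2)`-type since `1 ≤ C s`: `1 + s ≤ (C + 1) s`; `s^(ε/2) ≤ C^(ε/2) s^ε`). Sum over the blocks: `β = bk τ (tb β)` is determined by `tb β ∈ T` (`bk_tb`), as in `los_of` (H88/WS/Los.lean) with one factor.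

`dg3`. PROOF. `los3` with `T` = image of `S` under `tb`, `ε = κ0/2`; `OdStmt M` (`θ = 3/4`) for `T`: every `b = tb β ∈ T` satisfies `Bx C s ρ1 ρ2 b`, `b.1 ≠ 0`, `dt b ≠ 0` (`Main2`) and, as `¬ Ndg s b`, one of the two alternatives (`not_le`, `le_of_lt`); `s^(-1/100) ≤ s^(-1/200) ≤ ρ1`. So
`S.card ≤ C1 s^(κ0/2) C2 s^(3 d - κ0)`, `d = [M : ℚ]`; `κ = κ0/2`, `s^(3d - κ0/2) = s^(3 d) s^(-κ)` (`rpow_natCast`). (First take `κ0` from `OdStmt`, then `ε = κ0/2` in `los3`; `1 ≤ s` gives `1 ≤ C s`.)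
-/

open scoped NumberField
open H88.A4 Pool.Agent.H67.WA H88.WS

noncomputable section

namespace H88.AQ

private theorem hp_one {C s : ℝ} (hC : 1 ≤ C) (hs : 0 < s) : 1 ≤ C * (1 + s) := by nlinarith

private theorem hp_mono {C s : ℝ} (hC : 1 ≤ C) (hs : 0 < s) (A : ℕ) : Hp C A s ≤ Hp C (A + 1) s :=
  pow_le_pow_right₀ (hp_one hC hs) (Nat.le_succ A)

private theorem wt_nn {K : Type} [Field K] [NumberField K] (θ s : ℝ) (b : T3 K) : 0 ≤ Wt θ s b :=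
  Finset.prod_nonneg fun φ _ => Real.rpow_nonneg (div_nonneg (sz_nonneg φ _) (sq_nonneg s)) _

private theorem dt_bd {K : Type} [Field K] [NumberField K] {b : T3 K} {C s ρ1 ρ2 : ℝ} (hC : 1 ≤ C)
    (h : Bx C s ρ1 ρ2 b) (hR : Rho C ρ1 ρ2) (hs : 0 < s) (φ : K →+* ℂ) :
    sz φ (dt b) / s ^ 2 ≤ 2 * C ^ 4 := by
  obtain ⟨h1, h2, h3⟩ := h
  obtain ⟨r1, r2, r3, r4⟩ := hR
  have hC0 : 0 < C := by linarith
  have hρ2 : 0 < ρ2 := by linarith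
  have k1 : sz φ b.1 ≤ C * s * ρ1 ^ 2 := h1 φ
  have k2 : sz φ b.2.1 ≤ C * s * (ρ1 * ρ2) := h2 φ
  have k3 : sz φ b.2.2 ≤ C * s * ρ2 ^ 2 := h3 φ
  have k4 : sz φ (dt b) ≤ (C * s * ρ1 ^ 2) * (C * s * ρ2 ^ 2) + (C * s * (ρ1 * ρ2)) ^ 2 := by
    unfold dt
    refine (sz_sub _ _ _).trans ?_
    rw [sz_mul, sz_pow]
    exact add_le_add (mul_le_mul k1 k3 (sz_nonneg _ _) (by positivity))
      (pow_le_pow_left₀ (sz_nonneg _ _) k2 2)
  rw [div_le_iff₀ (by positivity)]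
  refine k4.trans ?_
  have k5 : ρ1 * (ρ1 * ρ2 ^ 2) ≤ C * C := mul_le_mul r3 r4 (by positivity) hC0.le
  have k6 : (C * s * ρ1 ^ 2) * (C * s * ρ2 ^ 2) + (C * s * (ρ1 * ρ2)) ^ 2 =
      2 * (C ^ 2 * s ^ 2) * (ρ1 * (ρ1 * ρ2 ^ 2)) := by ring
  rw [k6]
  have k7 : 2 * (C ^ 2 * s ^ 2) * (ρ1 * (ρ1 * ρ2 ^ 2)) ≤ 2 * (C ^ 2 * s ^ 2) * (C * C) :=
    mul_le_mul_of_nonneg_left k5 (by positivity)
  refine k7.trans (le_of_eq ?_)
  ring

/-- the weight is bounded below -/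
private theorem wt_low {K : Type} [Field K] [NumberField K] {b : T3 K} {C s ρ1 ρ2 : ℝ} (hC : 1 ≤ C)
    (h : Bx C s ρ1 ρ2 b) (hR : Rho C ρ1 ρ2) (hs : 0 < s) (hb : dt b ≠ 0) :
    1 ≤ (2 * C ^ 4) ^ Fintype.card (K →+* ℂ) * Wt (3 / 4) s b := by
  have hC4 : 1 ≤ 2 * C ^ 4 := by
    have : 1 ≤ C ^ 4 := one_le_pow₀ hC
    linarith
  have hC40 : 0 < 2 * C ^ 4 := by linarith
  have h1 : ∀ φ : K →+* ℂ, 1 ≤ (2 * C ^ 4) * (sz φ (dt b) / s ^ 2) ^ (-(3 / 4) : ℝ) := by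
    intro φ
    have h2 : 0 < sz φ (dt b) / s ^ 2 := div_pos (sz_pos φ hb) (by positivity)
    have h3 := dt_bd hC h hR hs φ
    have h4 : (2 * C ^ 4) ^ (-(3 / 4) : ℝ) ≤ (sz φ (dt b) / s ^ 2) ^ (-(3 / 4) : ℝ) :=
      Real.rpow_le_rpow_of_nonpos h2 h3 (by norm_num)
    have h5 : (2 * C ^ 4) ^ (-1 : ℝ) ≤ (2 * C ^ 4) ^ (-(3 / 4) : ℝ) :=
      Real.rpow_le_rpow_of_exponent_le hC4 (by norm_num)
    calc (1 : ℝ) = (2 * C ^ 4) * (2 * C ^ 4) ^ (-1 : ℝ) := by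
          rw [Real.rpow_neg_one, mul_inv_cancel₀ hC40.ne']
      _ ≤ _ := mul_le_mul_of_nonneg_left (h5.trans h4) hC40.le
  unfold Wt
  rw [← Finset.card_univ, ← Finset.prod_const, ← Finset.prod_mul_distrib]
  calc (1 : ℝ) = ∏ _φ : K →+* ℂ, (1 : ℝ) := by simp
    _ ≤ _ := Finset.prod_le_prod (fun _ _ => zero_le_one) fun φ _ => h1 φ

/-- one block -/
private theorem los_one (k M : Type) [Field k] [NumberField k] [Field M] [NumberField M] [Algebra k M]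
    (τ : M ≃ₐ[k] M) (hτ : Invo k M τ) (m0 : ℕ) (hm0 : m0 ≠ 0) (C : ℝ) (hC : 1 ≤ C) (A : ℕ)
    (ε : ℝ) (hε : 0 < ε) :
    ∃ C' : ℝ, 0 < C' ∧ ∀ s ρ1 ρ2 : ℝ, 1 ≤ C * s → Rho C ρ1 ρ2 → ∀ β : Blk (𝓞 M),
      Main2 τ C s ρ1 ρ2 β → β.All (Bd (Hp C A s)) → ∀ S : Finset (𝓞 M),
        (∀ u ∈ S, Adm m0 C s s u (tO τ u) ∧ Rep2 τ (Hp C A s) β u) →
        (S.card : ℝ) ≤ C' * s ^ ε * (ni (cn (tb β)) * Wt (3 / 4) s (tb β)) := by
  have hC0 : 0 < C := by linarith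
  obtain ⟨C1, hC1, h1⟩ := H77.CO.completions2Stmt k M τ hτ m0 hm0 C hC (ε / (2 * ((A : ℝ) + 1)))
    (by positivity)
  obtain ⟨K2, hK2⟩ : ∃ K2 : ℝ, K2 = (2 * C ^ 4) ^ Fintype.card (M →+* ℂ) := ⟨_, rfl⟩
  have hK20 : 0 < K2 := by rw [hK2]; positivity
  refine ⟨C1 * ((C * (C + 1)) ^ (ε / 2) * C ^ (ε / 2)) * (K2 + 1), by positivity, ?_⟩
  intro s ρ1 ρ2 hCs hRho β hMain hAll S hS
  have hs0 : 0 < s := by
    by_contra hcon
    push Not at hcon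
    nlinarith
  obtain ⟨hSz, hCj, -, hD1, hE⟩ := hMain
  have hH := hp_one hC hs0
  have hmono := hp_mono hC hs0 A
  have hbd : ∀ x : 𝓞 M, Bd (Hp C A s) x → Bd (Hp C (A + 1) s) x :=
    fun x hx φ => (hx φ).trans hmono
  have h1H : 1 ≤ Hp C (A + 1) s := one_le_pow₀ hH
  have hsH : s ≤ Hp C (A + 1) s := by
    have h2 : C * (1 + s) ≤ Hp C (A + 1) s := le_self_pow₀ hH (Nat.succ_ne_zero A)
    nlinarith
  obtain ⟨g, hg, hgb, h2⟩ := h1 s (Hp C (A + 1) s) hs0 hsH h1H β hCj hE hD1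
    ⟨hbd _ hAll.1, hbd _ hAll.2.1, hbd _ hAll.2.2.1, hbd _ hAll.2.2.2.1, hbd _ hAll.2.2.2.2.1,
      hbd _ hAll.2.2.2.2.2⟩
  have h3 := h2 S fun u hu => by
    obtain ⟨h4, π, r, r', h5, h6, h7⟩ := hS u hu
    exact ⟨h4, π, r, r', h5, ⟨hbd _ h6.1, hbd _ h6.2.1, hbd _ h6.2.2.1, hbd _ h6.2.2.2⟩, h7⟩
  have hBx : Bx C s ρ1 ρ2 (tb β) := ⟨hSz.sb1, hSz.sb2, hSz.sb3⟩
  have hb0 : dt (tb β) ≠ 0 := by rw [dt_tb]; exact hD1
  have hni : (Ideal.absNorm g : ℝ) ≤ ni (cn (tb β)) :=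
    ni_le_of_le (cn_le hgb.1 hgb.2.1 hgb.2.2) (cn_ne hb0)
  have hlow := wt_low hC hBx hRho hs0 hb0
  rw [← hK2] at hlow
  have hcn1 : 1 ≤ ni (cn (tb β)) := one_le_ni (cn_ne hb0)
  have hW := wt_nn (3 / 4) s (tb β)
  have hD : ∏ φ : M →+* ℂ, Dt s s β φ ^ (-(3 / 4) : ℝ) ≤ Wt (3 / 4) s (tb β) := by
    unfold Wt
    refine Finset.prod_le_prod (fun φ _ => Real.rpow_nonneg ?_ _) fun φ _ => ?_
    · exact (div_nonneg (norm_nonneg _) (sq_nonneg s)).trans (le_max_left _ _)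
    · refine Real.rpow_le_rpow_of_nonpos (div_pos (sz_pos φ hb0) (by positivity)) ?_ (by norm_num)
      rw [dt_tb]
      exact le_max_left _ _
  have hD0 : 0 ≤ ∏ φ : M →+* ℂ, Dt s s β φ ^ (-(3 / 4) : ℝ) :=
    Finset.prod_nonneg fun φ _ => Real.rpow_nonneg
      ((div_nonneg (norm_nonneg _) (sq_nonneg s)).trans (le_max_left _ _)) _
  have hbase : 1 + (Ideal.absNorm g : ℝ) * ∏ φ : M →+* ℂ, Dt s s β φ ^ (-(3 / 4) : ℝ) ≤
      (K2 + 1) * (ni (cn (tb β)) * Wt (3 / 4) s (tb β)) := by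
    have e1 : (Ideal.absNorm g : ℝ) * ∏ φ : M →+* ℂ, Dt s s β φ ^ (-(3 / 4) : ℝ) ≤
        ni (cn (tb β)) * Wt (3 / 4) s (tb β) := mul_le_mul hni hD hD0 (by linarith)
    have e2 : 1 ≤ K2 * (ni (cn (tb β)) * Wt (3 / 4) s (tb β)) := by
      calc (1 : ℝ) ≤ K2 * Wt (3 / 4) s (tb β) := hlow
        _ ≤ K2 * (ni (cn (tb β)) * Wt (3 / 4) s (tb β)) :=
          mul_le_mul_of_nonneg_left (le_mul_of_one_le_left hW hcn1) hK20.le
    linarith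
  have hbase0 : 0 ≤ (K2 + 1) * (ni (cn (tb β)) * Wt (3 / 4) s (tb β)) :=
    mul_nonneg (by linarith) (mul_nonneg (by linarith) hW)
  -- the power of `H`
  have hpow : Hp C (A + 1) s ^ (ε / (2 * ((A : ℝ) + 1))) ≤
      (C * (C + 1)) ^ (ε / 2) * C ^ (ε / 2) * s ^ ε := by
    have e1 : Hp C (A + 1) s ^ (ε / (2 * ((A : ℝ) + 1))) = (C * (1 + s)) ^ (ε / 2) := by
      unfold Hp
      rw [← Real.rpow_natCast, ← Real.rpow_mul (by linarith)]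
      congr 1
      push_cast
      field_simp
    rw [e1]
    have e2 : C * (1 + s) ≤ C * (C + 1) * s := by nlinarith
    have e3 : (C * (1 + s)) ^ (ε / 2) ≤ (C * (C + 1)) ^ (ε / 2) * s ^ (ε / 2) := by
      rw [← Real.mul_rpow (by positivity) hs0.le]
      exact Real.rpow_le_rpow (by linarith) e2 (by positivity)
    have e4 : s ^ (ε / 2) ≤ C ^ (ε / 2) * s ^ ε := by
      have e5 : 1 ≤ C ^ (ε / 2) * s ^ (ε / 2) := by
        rw [← Real.mul_rpow hC0.le hs0.le]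
        exact Real.one_le_rpow hCs (by positivity)
      have e6 : s ^ ε = s ^ (ε / 2) * s ^ (ε / 2) := by
        rw [← Real.rpow_add hs0]
        congr 1
        ring
      rw [e6, ← mul_assoc]
      exact le_mul_of_one_le_left (Real.rpow_nonneg hs0.le _) e5
    calc (C * (1 + s)) ^ (ε / 2) ≤ (C * (C + 1)) ^ (ε / 2) * s ^ (ε / 2) := e3
      _ ≤ (C * (C + 1)) ^ (ε / 2) * (C ^ (ε / 2) * s ^ ε) :=
          mul_le_mul_of_nonneg_left e4 (by positivity)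
      _ = _ := by ring
  have hHp0 : 0 ≤ Hp C (A + 1) s := by linarith
  calc (S.card : ℝ) ≤ C1 * Hp C (A + 1) s ^ (ε / (2 * ((A : ℝ) + 1))) *
        (1 + (Ideal.absNorm g : ℝ) * ∏ φ : M →+* ℂ, Dt s s β φ ^ (-(3 / 4) : ℝ)) := h3
    _ ≤ C1 * ((C * (C + 1)) ^ (ε / 2) * C ^ (ε / 2) * s ^ ε) *
        ((K2 + 1) * (ni (cn (tb β)) * Wt (3 / 4) s (tb β))) := by
        refine mul_le_mul (mul_le_mul_of_nonneg_left hpow hC1.le) hbase ?_ (by positivity)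
        have := mul_nonneg (Nat.cast_nonneg (α := ℝ) (Ideal.absNorm g)) hD0
        linarith
    _ = _ := by ring

theorem los3 (k M : Type) [Field k] [NumberField k] [Field M] [NumberField M] [Algebra k M] :
    Los3Stmt k M := by
  classical
  intro τ hτ m0 hm0 C hC A ε hε
  obtain ⟨C', hC', h1⟩ := los_one k M τ hτ m0 hm0 C hC A ε hε
  refine ⟨C', hC', ?_⟩
  intro s ρ1 ρ2 hCs hRho S T hS
  have hs0 : 0 < s := by
    by_contra hcon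
    push Not at hcon
    nlinarith
  have hsε : 0 < s ^ ε := Real.rpow_pos_of_pos hs0 _
  have h2 : (S.card : ℝ) = ∑ p ∈ T, ((S.filter fun x => tb x.2 = p).card : ℝ) := by
    have := Finset.card_eq_sum_card_fiberwise (s := S) (f := fun x : 𝓞 M × Blk (𝓞 M) => tb x.2)
      (t := T) (fun x hx => (hS x (Finset.mem_coe.1 hx)).2)
    exact_mod_cast this
  have h3 : ∀ p ∈ T, ((S.filter fun x => tb x.2 = p).card : ℝ) ≤
      C' * s ^ ε * (ni (cn p) * Wt (3 / 4) s p) := by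
    intro p _
    rcases (S.filter fun x => tb x.2 = p).eq_empty_or_nonempty with h4 | ⟨x0, hx0⟩
    · rw [h4]
      have h5 := ni_nonneg (cn p)
      have h7 := wt_nn (3 / 4) s p
      simp only [Finset.card_empty, Nat.cast_zero]
      positivity
    · obtain ⟨hx0S, hx0p⟩ := Finset.mem_filter.1 hx0
      have hcj : ∀ x ∈ S, x.2.Cj τ := fun x hx => (hS x hx).1.2.1.2.1
      have hsame : ∀ x ∈ S.filter (fun x => tb x.2 = p), x.2 = x0.2 := by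
        intro x hx
        obtain ⟨hxS, h5⟩ := Finset.mem_filter.1 hx
        rw [← bk_tb (hcj x hxS), ← bk_tb (hcj x0 hx0S), h5, hx0p]
      have hinj : Set.InjOn (fun x : 𝓞 M × Blk (𝓞 M) => x.1)
          (S.filter (fun x => tb x.2 = p) : Set (𝓞 M × Blk (𝓞 M))) := by
        intro x hx y hy hxy
        have h5 := hsame x (Finset.mem_coe.1 hx)
        have h6 := hsame y (Finset.mem_coe.1 hy)
        exact Prod.ext hxy (h5.trans h6.symm)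
      have h5 := Finset.card_image_of_injOn hinj
      rw [← h5, ← hx0p]
      obtain ⟨⟨-, hMain, hAll, -⟩, -⟩ := hS x0 hx0S
      refine h1 s ρ1 ρ2 hCs hRho x0.2 hMain hAll _ ?_
      intro y hy
      obtain ⟨x, hx, rfl⟩ := Finset.mem_image.1 hy
      obtain ⟨⟨hAdm, -, -, hRep⟩, -⟩ := hS x (Finset.mem_filter.1 hx).1
      have h6 := hsame x (Finset.mem_filter.2 ⟨(Finset.mem_filter.1 hx).1,
        (Finset.mem_filter.1 hx).2.trans hx0p⟩)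
      rw [h6] at hRep
      exact ⟨hAdm, hRep⟩
  rw [h2]
  refine (Finset.sum_le_sum h3).trans (le_of_eq ?_)
  rw [← Finset.mul_sum]

theorem dg3 (k M : Type) [Field k] [NumberField k] [Field M] [NumberField M] [Algebra k M]
    (h : Los3Stmt k M) (h1 : OdStmt M) : Dg3Stmt k M := by
  classical
  intro τ hτ m0 hm0 C hC A
  obtain ⟨C2, κ0, hC2, hκ0, h2⟩ := h1 (3 / 4) (by norm_num) (by norm_num) C hC
  obtain ⟨C1, hC1, h3⟩ := h τ hτ m0 hm0 C hC A (κ0 / 2) (by positivity)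
  refine ⟨C1 * C2, κ0 / 2, by positivity, by positivity, ?_⟩
  intro s ρ1 ρ2 hs hRho hρ S hS
  have hs0 : 0 < s := by linarith
  have hCs : 1 ≤ C * s := one_le_mul_of_one_le_of_one_le hC hs
  have h4 := h3 s ρ1 ρ2 hCs hRho S (S.image fun x => tb x.2)
    (fun x hx => ⟨(hS x hx).1, Finset.mem_image_of_mem _ hx⟩)
  have h5 := h2 s ρ1 ρ2 hs hRho
    ((Real.rpow_le_rpow_of_exponent_le hs (by norm_num)).trans hρ) (S.image fun x => tb x.2)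
    (by
      intro b hb
      obtain ⟨x, hx, rfl⟩ := Finset.mem_image.1 hb
      obtain ⟨⟨-, ⟨hSz, -, hb1, hD1, -⟩, -⟩, hN⟩ := hS x hx
      refine ⟨⟨hSz.sb1, hSz.sb2, hSz.sb3⟩, hb1, by rw [dt_tb]; exact hD1, ?_⟩
      unfold Ndg at hN
      rw [not_and_or] at hN
      rcases hN with h6 | h6
      · left
        push Not at h6
        obtain ⟨φ, hφ⟩ := h6
        exact ⟨φ, hφ.le⟩
      · right
        exact (not_le.1 h6).le)
  refine h4.trans ?_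
  calc C1 * s ^ (κ0 / 2) * ∑ b ∈ S.image fun x => tb x.2, ni (cn b) * Wt (3 / 4) s b
      ≤ C1 * s ^ (κ0 / 2) * (C2 * s ^ (3 * (Module.finrank ℚ M : ℝ) - κ0)) :=
        mul_le_mul_of_nonneg_left h5 (by positivity)
    _ = C1 * C2 * (s ^ (κ0 / 2) * s ^ (3 * (Module.finrank ℚ M : ℝ) - κ0)) := by ring
    _ = C1 * C2 * s ^ (3 * Module.finrank ℚ M) * s ^ (-(κ0 / 2)) := by
        rw [mul_assoc (C1 * C2), ← Real.rpow_add hs0, ← Real.rpow_natCast s (3 * Module.finrank ℚ M),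
          ← Real.rpow_add hs0]
        congr 2
        push_cast
        ring

end H88.AQ
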