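import Pool.Agent.H88.AQ.Tau

/-!
# [H88 AQ MAI] `Main3Stmt` from `Gen3Stmt`, `Dg3Stmt`, `Bs3Stmt` (AQ, W2#, MP_b39724), 80-130 lines. File Pool/Agent/H88/AQ/Mai.lean

PROOF. `d = [M : ℚ]`, `L = log (2 + s) ≥ log 2`. `C1, s1` from `Bs3Stmt`, `C2, κ0` from `Dg3Stmt`, `C3` from `Gen3Stmt` with `ε = 1/1600`. `κ = min (1/4) (min (200 κ0) (1/8))`. `0 < s` (`1 ≤ C s`), `ρ1 ≤ C`: `ρ1^a ≤ C^(a - κ) ρ1^κ` for `a ≥ κ` (`Real.rpow_add`, `rpow_le_rpow`).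
(Z1) `s1 ≤ s` and `s^(-1/200) ≤ ρ1`: split `S` by `Ndg s (tb x.2)` (`Finset.filter`): `Bs3Stmt`: `C1 s^(3d) ρ1^(1/4) L^(7/8)`; `Dg3Stmt` (`1 ≤ s`): `C2 s^(3d) s^(-κ0)` and `s^(-κ0) = (s^(-1/200))^(200 κ0) ≤ ρ1^(200 κ0) ≤ C' ρ1^κ`, `1 ≤ (log 2)^(-7/8) L^(7/8)`.
(Z2) `s1 ≤ s` and `ρ1 < s^(-1/200)`: `Gen3Stmt`: `C3 s^ε s^(3d) ρ1^(3d/4)`, `ρ1^(1/8) ≤ s^(-1/1600)`, so `s^ε ρ1^(3d/4) ≤ ρ1^(3d/4 - 1/8) ≤ C' ρ1^κ` (`3d/4 - 1/8 ≥ 5/8 ≥ κ`, `d ≥ 1`). (Z3) `s < s1`: `Gen3Stmt`, `s^ε ≤ s1^ε`, `ρ1^(3d/4) ≤ C' ρ1^κ`.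
The hypotheses: `Blo2 τ m0 C A s ρ1 ρ2 x` is exactly the hypothesis of the three statements.
-/

open scoped NumberField
open H88.A4 Pool.Agent.H67.WA H88.WS

noncomputable section

namespace H88.AQ

private theorem mai_rp {C ρ a κ : ℝ} (hρ : 0 < ρ) (hρC : ρ ≤ C) (h : κ ≤ a) : ρ ^ a ≤ C ^ (a - κ) * ρ ^ κ := by
  have h1 : ρ ^ a = ρ ^ (a - κ) * ρ ^ κ := by
    rw [← Real.rpow_add hρ]
    congr 1
    ring
  rw [h1]
  exact mul_le_mul_of_nonneg_right (Real.rpow_le_rpow hρ.le hρC (by linarith)) (Real.rpow_nonneg hρ.le _)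

theorem main3 (k M : Type) [Field k] [NumberField k] [Field M] [NumberField M] [Algebra k M]
    (h : Gen3Stmt k M) (h1 : Dg3Stmt k M) (h2 : Bs3Stmt k M) : Main3Stmt k M := by
  classical
  intro τ ω hτ m0 hm0 C hC A
  obtain ⟨C1, s1, hC1, hs1, hb⟩ := h2 τ ω hτ m0 hm0 C hC A
  obtain ⟨C2, κ0, hC2, hκ0, hd⟩ := h1 τ hτ.1 m0 hm0 C hC A
  obtain ⟨C3, hC3, hg⟩ := h τ hτ.1 m0 hm0 C hC A (1 / 1600) (by norm_num)
  obtain ⟨n, hn⟩ : ∃ n, n = Module.finrank ℚ M := ⟨_, rfl⟩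
  have hn1 : 1 ≤ n := by
    rw [hn]
    exact Module.finrank_pos
  have hn1' : (1 : ℝ) ≤ n := by exact_mod_cast hn1
  rw [← hn] at hb hd hg ⊢
  obtain ⟨κ, hκ⟩ : ∃ κ, κ = min (1 / 8) (200 * κ0) := ⟨_, rfl⟩
  have hκp : 0 < κ := by
    rw [hκ]
    positivity
  have hκ1 : κ ≤ 1 / 8 := by
    rw [hκ]
    exact min_le_left _ _
  have hκ2 : κ ≤ 200 * κ0 := by
    rw [hκ]
    exact min_le_right _ _
  have hC0 : 0 < C := by linarith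
  have hl2 : 0 < Real.log 2 := Real.log_pos (by norm_num)
  obtain ⟨c0, hc0⟩ : ∃ c0, c0 = (Real.log 2 ^ (7 / 8 : ℝ))⁻¹ := ⟨_, rfl⟩
  have hc0p : 0 < c0 := by
    rw [hc0]
    positivity
  have hs1p : 0 < s1 := by linarith
  obtain ⟨K1, hK1⟩ : ∃ K1, K1 = C1 * C ^ (1 / 4 - κ) := ⟨_, rfl⟩
  obtain ⟨K2, hK2⟩ : ∃ K2, K2 = C2 * C ^ (200 * κ0 - κ) * c0 := ⟨_, rfl⟩
  obtain ⟨K3, hK3⟩ : ∃ K3, K3 = C3 * C ^ (3 / 4 * (n : ℝ) - 1 / 8 - κ) * c0 := ⟨_, rfl⟩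
  obtain ⟨K4, hK4⟩ : ∃ K4, K4 = C3 * s1 ^ (1 / 1600 : ℝ) * C ^ (3 / 4 * (n : ℝ) - κ) * c0 := ⟨_, rfl⟩
  have hK1p : 0 < K1 := by rw [hK1]; positivity
  have hK2p : 0 < K2 := by rw [hK2]; positivity
  have hK3p : 0 < K3 := by rw [hK3]; positivity
  have hK4p : 0 < K4 := by rw [hK4]; positivity
  refine ⟨K1 + K2 + K3 + K4, κ, by positivity, hκp, fun s ρ1 ρ2 hCs hR S hS => ?_⟩
  have hs : 0 < s := by
    by_contra hneg
    push Not at hneg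
    have := mul_nonpos_of_nonneg_of_nonpos hC0.le hneg
    linarith
  have hρ : 0 < ρ1 := hR.1
  have hρC : ρ1 ≤ C := hR.2.2.1
  obtain ⟨L, hL⟩ : ∃ L, L = Real.log (2 + s) ^ (7 / 8 : ℝ) := ⟨_, rfl⟩
  have hlog : Real.log 2 ≤ Real.log (2 + s) := Real.log_le_log (by norm_num) (by linarith)
  have hLp : 0 < L := by
    rw [hL]
    have : 0 < Real.log (2 + s) := by linarith
    positivity
  have hL1 : 1 ≤ c0 * L := by
    have h3 : Real.log 2 ^ (7 / 8 : ℝ) ≤ L := by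
      rw [hL]
      exact Real.rpow_le_rpow hl2.le hlog (by norm_num)
    have h4 : 0 < Real.log 2 ^ (7 / 8 : ℝ) := by positivity
    rw [hc0, inv_mul_eq_div, one_le_div h4]
    exact h3
  rw [← hL]
  obtain ⟨R, hRd⟩ : ∃ R, R = s ^ (3 * n) := ⟨_, rfl⟩
  have hRp : 0 < R := by rw [hRd]; positivity
  rw [← hRd]
  have hρκ : 0 < ρ1 ^ κ := Real.rpow_pos_of_pos hρ _
  have hfin : ∀ X : ℝ, X ≤ K1 + K2 + K3 + K4 → X * R * ρ1 ^ κ * L ≤ (K1 + K2 + K3 + K4) * R * ρ1 ^ κ * L := by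
    intro X hX
    gcongr
  by_cases hz1 : s1 ≤ s
  · by_cases hz2 : s ^ (-(1 / 200) : ℝ) ≤ ρ1
    · -- fat shapes
      have hsplit : S.card = (S.filter fun x => Ndg s (tb x.2)).card + (S.filter fun x => ¬ Ndg s (tb x.2)).card :=
        (Finset.card_filter_add_card_filter_not _).symm
      have e1 := hb s ρ1 ρ2 hz1 hR hz2 (S.filter fun x => Ndg s (tb x.2)) fun x hx => by
        obtain ⟨h3, h4⟩ := Finset.mem_filter.1 hx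
        exact ⟨hS x h3, h4⟩
      have e2 := hd s ρ1 ρ2 (by linarith) hR hz2 (S.filter fun x => ¬ Ndg s (tb x.2)) fun x hx => by
        obtain ⟨h3, h4⟩ := Finset.mem_filter.1 hx
        exact ⟨hS x h3, h4⟩
      rw [← hRd, ← hL] at e1
      rw [← hRd] at e2
      have e3 : C1 * R * ρ1 ^ (1 / 4 : ℝ) * L ≤ K1 * R * ρ1 ^ κ * L := by
        have h3 := mai_rp (a := 1 / 4) (κ := κ) hρ hρC (by linarith)
        calc C1 * R * ρ1 ^ (1 / 4 : ℝ) * L ≤ C1 * R * (C ^ (1 / 4 - κ) * ρ1 ^ κ) * L := by gcongr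
          _ = K1 * R * ρ1 ^ κ * L := by
            rw [hK1]
            ring
      have e4 : C2 * R * s ^ (-κ0) ≤ K2 * R * ρ1 ^ κ * L := by
        have h3 : s ^ (-κ0) ≤ ρ1 ^ (200 * κ0) := by
          have h4 : s ^ (-κ0) = (s ^ (-(1 / 200) : ℝ)) ^ (200 * κ0) := by
            rw [← Real.rpow_mul hs.le]
            congr 1
            ring
          rw [h4]
          exact Real.rpow_le_rpow (Real.rpow_nonneg hs.le _) hz2 (by positivity)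
        have h5 := mai_rp (a := 200 * κ0) hρ hρC hκ2
        have h6 : s ^ (-κ0) ≤ C ^ (200 * κ0 - κ) * ρ1 ^ κ := h3.trans h5
        calc C2 * R * s ^ (-κ0) ≤ C2 * R * (C ^ (200 * κ0 - κ) * ρ1 ^ κ) := by gcongr
          _ = C2 * R * (C ^ (200 * κ0 - κ) * ρ1 ^ κ) * 1 := (mul_one _).symm
          _ ≤ C2 * R * (C ^ (200 * κ0 - κ) * ρ1 ^ κ) * (c0 * L) := by gcongr
          _ = K2 * R * ρ1 ^ κ * L := by
            rw [hK2]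
            ring
      have e5 := hfin (K1 + K2) (by linarith)
      rw [hsplit]
      push_cast
      calc ((S.filter fun x => Ndg s (tb x.2)).card : ℝ) + ((S.filter fun x => ¬ Ndg s (tb x.2)).card : ℝ)
          ≤ K1 * R * ρ1 ^ κ * L + K2 * R * ρ1 ^ κ * L := add_le_add (e1.trans e3) (e2.trans e4)
        _ = (K1 + K2) * R * ρ1 ^ κ * L := by ring
        _ ≤ _ := e5
    · -- thin shapes
      push Not at hz2
      have e1 := hg s ρ1 ρ2 hCs hR S hS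
      rw [← hRd] at e1
      refine e1.trans (le_trans ?_ (hfin K3 (by linarith)))
      have h3 : s ^ (1 / 1600 : ℝ) * ρ1 ^ (3 / 4 * (n : ℝ)) ≤ C ^ (3 / 4 * (n : ℝ) - 1 / 8 - κ) * ρ1 ^ κ := by
        have h4 : ρ1 ^ (3 / 4 * (n : ℝ)) = ρ1 ^ (1 / 8 : ℝ) * ρ1 ^ (3 / 4 * (n : ℝ) - 1 / 8) := by
          rw [← Real.rpow_add hρ]
          congr 1
          ring
        have h5 : s ^ (1 / 1600 : ℝ) * ρ1 ^ (1 / 8 : ℝ) ≤ 1 := by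
          have h6 : ρ1 ^ (1 / 8 : ℝ) ≤ s ^ (-(1 / 1600) : ℝ) := by
            have h7 : s ^ (-(1 / 1600) : ℝ) = (s ^ (-(1 / 200) : ℝ)) ^ (1 / 8 : ℝ) := by
              rw [← Real.rpow_mul hs.le]
              norm_num
            rw [h7]
            exact Real.rpow_le_rpow hρ.le hz2.le (by norm_num)
          calc s ^ (1 / 1600 : ℝ) * ρ1 ^ (1 / 8 : ℝ) ≤ s ^ (1 / 1600 : ℝ) * s ^ (-(1 / 1600) : ℝ) := by gcongr
            _ = 1 := by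
              rw [← Real.rpow_add hs]
              norm_num
        have h6 := mai_rp (a := 3 / 4 * (n : ℝ) - 1 / 8) hρ hρC (κ := κ) (by linarith)
        have h7 : 0 ≤ ρ1 ^ (3 / 4 * (n : ℝ) - 1 / 8) := Real.rpow_nonneg hρ.le _
        calc s ^ (1 / 1600 : ℝ) * ρ1 ^ (3 / 4 * (n : ℝ))
            = (s ^ (1 / 1600 : ℝ) * ρ1 ^ (1 / 8 : ℝ)) * ρ1 ^ (3 / 4 * (n : ℝ) - 1 / 8) := by
              rw [h4]
              ring
          _ ≤ 1 * ρ1 ^ (3 / 4 * (n : ℝ) - 1 / 8) := mul_le_mul_of_nonneg_right h5 h7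
          _ = ρ1 ^ (3 / 4 * (n : ℝ) - 1 / 8) := one_mul _
          _ ≤ _ := h6
      calc C3 * s ^ (1 / 1600 : ℝ) * R * ρ1 ^ (3 / 4 * (n : ℝ))
          = C3 * R * (s ^ (1 / 1600 : ℝ) * ρ1 ^ (3 / 4 * (n : ℝ))) := by ring
        _ ≤ C3 * R * (C ^ (3 / 4 * (n : ℝ) - 1 / 8 - κ) * ρ1 ^ κ) := by gcongr
        _ = C3 * R * (C ^ (3 / 4 * (n : ℝ) - 1 / 8 - κ) * ρ1 ^ κ) * 1 := (mul_one _).symm
        _ ≤ C3 * R * (C ^ (3 / 4 * (n : ℝ) - 1 / 8 - κ) * ρ1 ^ κ) * (c0 * L) := by gcongr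
        _ = K3 * R * ρ1 ^ κ * L := by
          rw [hK3]
          ring
  · -- small sizes
    push Not at hz1
    have e1 := hg s ρ1 ρ2 hCs hR S hS
    rw [← hRd] at e1
    refine e1.trans (le_trans ?_ (hfin K4 (by linarith)))
    have h3 : s ^ (1 / 1600 : ℝ) ≤ s1 ^ (1 / 1600 : ℝ) := Real.rpow_le_rpow hs.le hz1.le (by norm_num)
    have h4 := mai_rp (a := 3 / 4 * (n : ℝ)) hρ hρC (κ := κ) (by linarith)
    calc C3 * s ^ (1 / 1600 : ℝ) * R * ρ1 ^ (3 / 4 * (n : ℝ))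
        ≤ C3 * s1 ^ (1 / 1600 : ℝ) * R * (C ^ (3 / 4 * (n : ℝ) - κ) * ρ1 ^ κ) := by gcongr
      _ = C3 * s1 ^ (1 / 1600 : ℝ) * R * (C ^ (3 / 4 * (n : ℝ) - κ) * ρ1 ^ κ) * 1 := (mul_one _).symm
      _ ≤ C3 * s1 ^ (1 / 1600 : ℝ) * R * (C ^ (3 / 4 * (n : ℝ) - κ) * ρ1 ^ κ) * (c0 * L) := by gcongr
      _ = K4 * R * ρ1 ^ κ * L := by
        rw [hK4]
        ring

end H88.AQ
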