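import Pool.Agent.H88.AQ.Tau
import Pool.Agent.H1.LC.Bri

/-!
# [H88 AQ OV] primes of `M` over primes of `k`, exponents (AQ, W2#, MP_b39724), 60-120 lines. File Pool/Agent/H88/AQ/Ov.lean

`od P I` (H88/WS/Defs.lean) is the exponent of `P` in `I` (`count` in `normalizedFactors`), `pf I` the set of the primes dividing `I`. Tools: H1/LC (`pf_iff`,
`od_eq`: relation to `FP.od` for a `HeightOneSpectrum`, `FP.mem_iff`, `FP.mem_od`), `Pool.Agent.H12.WM.fixed_int`, `Tau.lean` (`ov_pair`, `cI`, ..), Mathlib: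
`Ideal.comap`, `Ideal.map`, `Ideal.count_normalizedFactors_eq`, `Ideal.IsDedekindDomain.ramificationIdx`-API (optional), `Ideal.sum_ramification_inertia`.

PROOF. Let `J = l 𝓞 M = Ideal.map`. `w` contains `J`. `od_le`, `od_eq3`: write `span {e} = l^n a`, `n = od l (span {e})`, `a` not contained in `l` (so `a 𝓞 M` is not contained
in `w`: `comap w = l`). `span {algebraMap e} = J^n (a 𝓞 M)`, so `od w (span {algebraMap e}) = n * od w J`. It remains: `od w J ≤ 2`, and `od w J = 1` if `3 ∉ l`.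
(1) `od w J ≤ 2`: if `w^3 ∣ J`, the norm: `N J = N(l)^2` (`Ideal.absNorm` of the extended ideal, `[M : k] = 2`; or `Ideal.sum_ramification_inertia`: `e f ≤ 2`), `N w ≥ N l` (`𝓞 k / l → 𝓞 M / w` injective).
(2) `3 ∉ l`, suppose `w^2 ∣ J`. Then `N(w)^2 ≤ N(J) = N(l)^2` and `N w ≥ N l`, so `N w = N l` and `J = w^2` (or: `sum_ramification_inertia`: `e = 2`, `f = 1`, one prime): `𝓞 k → 𝓞 M / w` is surjective. `w` is the only
prime over `l`, so `cI τ w = w` (`ov_cI`). For the integer `ω : 𝓞 M` take `a : 𝓞 k` with `ω - a ∈ w`; then `τ ω - a ∈ cI τ w = w`, so `ω - ω^2 ∈ w`, and `(ω - ω^2)^2 = -3` (`ω^2 + ω + 1 = 0`): `3 ∈ w`,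
`3 ∈ l`, a contradiction. (`ω ∈ 𝓞 M`: `IsPrimitiveRoot.toInteger` or `⟨ω, isIntegral⟩`.)
`ov_ex`: `Ideal.exists_ideal_over_prime_of_isIntegral` or `Ideal.exists_ideal_liesOver..` (`𝓞 k → 𝓞 M` integral, injective). `pf_ov`: `w ∈ pf (span {x})` iff `w` is prime, `≠ ⊥` and `x ∈ w`
(`pf_iff`); `comap w` is a prime `≠ ⊥` (`Ideal.comap_ne_bot_of_integral..`).
-/

open scoped NumberField
open H88.A4 Pool.Agent.H67.WA H88.WS

noncomputable section

namespace H88.AQ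

variable {k M : Type} [Field k] [NumberField k] [Field M] [NumberField M] [Algebra k M]

open Pool.Agent.H12.WM (tO_mul tO_add tO_sub tO_neg tO_pow tO_tO tO_ne tO_inj fixed_int)
open UniqueFactorizationMonoid

theorem ov_ex {l : Ideal (𝓞 k)} (hl : l.IsPrime) : ∃ w : Ideal (𝓞 M), Ov l w := by
  have hinj := FaithfulSMul.algebraMap_injective (𝓞 k) (𝓞 M)
  have hker : RingHom.ker (algebraMap (𝓞 k) (𝓞 M)) ≤ l := by
    rw [(RingHom.injective_iff_ker_eq_bot _).1 hinj]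
    exact bot_le
  obtain ⟨Q, hQ, hQ2⟩ := Ideal.exists_ideal_over_prime_of_isIntegral_of_isDomain l hker
  exact ⟨Q, hQ, hQ2⟩

private theorem ov_ne {l : Ideal (𝓞 k)} (hl : l ≠ ⊥) {w : Ideal (𝓞 M)} (h : Ov l w) : w ≠ ⊥ := by
  rintro rfl
  apply hl
  rw [← h.2]
  exact Ideal.comap_bot_of_injective _ (FaithfulSMul.algebraMap_injective (𝓞 k) (𝓞 M))

/-- a uniformizer -/
private theorem ov_unif {τ : M ≃ₐ[k] M} {w : Ideal (𝓞 M)} (hw : w.IsPrime) (hw0 : w ≠ ⊥) :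
    ∃ z ∈ w, z ∉ w ^ 2 ∧ (z ∈ cI τ w → cI τ w = w) := by
  obtain ⟨x, hx1, hx2⟩ := Ideal.exists_mem_pow_notMem_pow_succ w hw0 hw.ne_top 1
  rw [pow_one] at hx1
  by_cases hc : cI τ w = w
  · exact ⟨x, hx1, hx2, fun _ => hc⟩
  by_cases hxc : x ∈ cI τ w
  · have hy : ∃ y ∈ w ^ 2, y ∉ cI τ w := by
      by_contra hcon
      push Not at hcon
      have h1 : w ^ 2 ≤ cI τ w := fun y hy => hcon y hy
      have hp := cI_prime (τ := τ) hw
      have h2 : w ≤ cI τ w := hp.le_of_pow_le h1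
      have hm := Ring.DimensionLEOne.maximalOfPrime hw0 hw
      exact hc (hm.eq_of_le hp.ne_top h2).symm
    obtain ⟨y, hy1, hy2⟩ := hy
    have hyw : y ∈ w := Ideal.pow_le_self two_ne_zero hy1
    refine ⟨x + y, w.add_mem hx1 hyw, fun hh => hx2 ((Submodule.add_mem_iff_left _ hy1).1 hh),
      fun hh => absurd ((Submodule.add_mem_iff_right _ hxc).1 hh) hy2⟩
  · exact ⟨x, hx1, hx2, fun hh => absurd hh hxc⟩

private theorem wod_mul (P : Ideal (𝓞 M)) {I J : Ideal (𝓞 M)} (hI : I ≠ ⊥) (hJ : J ≠ ⊥) :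
    od P (I * J) = od P I + od P J := by
  classical
  unfold od
  rw [normalizedFactors_mul hI hJ, Multiset.count_add]

private theorem wod_pow (P : Ideal (𝓞 M)) (I : Ideal (𝓞 M)) (n : ℕ) :
    od P (I ^ n) = n * od P I := by
  classical
  unfold od
  rw [normalizedFactors_pow, Multiset.count_nsmul]

private theorem wod_zero {P J : Ideal (𝓞 M)} (h : ¬ J ≤ P) : od P J = 0 := by
  classical
  unfold od
  refine Multiset.count_eq_zero.2 fun hh => h ?_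
  exact Ideal.dvd_iff_le.1 (dvd_of_mem_normalizedFactors hh)

private theorem wod_eq {P J : Ideal (𝓞 M)} (hP : P.IsPrime) {n : ℕ} (h : J ≤ P ^ n)
    (h' : ¬ J ≤ P ^ (n + 1)) : od P J = n := by
  classical
  haveI := hP
  unfold od
  exact Ideal.count_normalizedFactors_eq h h'

private theorem tO_pw {τ : M ≃ₐ[k] M} {w : Ideal (𝓞 M)} (hc : cI τ w = w) {x : 𝓞 M} {n : ℕ}
    (hx : x ∈ w ^ n) : tO τ x ∈ w ^ n := by
  have h1 : Ideal.map (tR τ) w ≤ w := by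
    rw [Ideal.map_le_iff_le_comap]
    exact le_of_eq hc.symm
  have h2 : tR τ x ∈ Ideal.map (tR τ) (w ^ n) := Ideal.mem_map_of_mem _ hx
  rw [Ideal.map_pow] at h2
  exact Ideal.pow_right_mono h1 n h2

private theorem nm_fix {τ : M ≃ₐ[k] M} (hτ : Invo k M τ) (z : 𝓞 M) :
    ∃ n : 𝓞 k, algebraMap (𝓞 k) (𝓞 M) n = z * tO τ z := by
  apply fixed_int hτ
  rw [tO_mul, tO_tO hτ, mul_comm]

private theorem ov_n3 {τ : M ≃ₐ[k] M} (hτ : Invo k M τ) {l : Ideal (𝓞 k)} (hl : l ≠ ⊥)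
    {w : Ideal (𝓞 M)} (h : Ov l w) : ∃ n ∈ l, algebraMap (𝓞 k) (𝓞 M) n ∉ w ^ 3 := by
  have hw0 := ov_ne hl h
  haveI hwp := h.1
  obtain ⟨z, hz1, hz2, hz3⟩ := ov_unif (τ := τ) h.1 hw0
  obtain ⟨n, hn⟩ := nm_fix hτ z
  refine ⟨n, ?_, ?_⟩
  · rw [← h.2, Ideal.mem_comap, hn]
    exact Ideal.mul_mem_right _ _ hz1
  rw [hn]
  intro hmem
  have hz0 : z ≠ 0 := fun h0 => hz2 (h0 ▸ (w ^ 2).zero_mem)
  have hs0 : ∀ y : 𝓞 M, y ≠ 0 → Ideal.span {y} ≠ ⊥ := fun y hy => by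
    rw [Ne, Ideal.span_singleton_eq_bot]
    exact hy
  have ht0 : tO τ z ≠ 0 := tO_ne hz0
  by_cases hc : cI τ w = w
  · have ht1 : tO τ z ∈ w := by
      have h1 := tO_pw (n := 1) hc (by rw [pow_one]; exact hz1)
      rwa [pow_one] at h1
    have ht2 : tO τ z ∉ w ^ 2 := by
      intro hh
      have h1 := tO_pw hc hh
      rw [tO_tO hτ] at h1
      exact hz2 h1
    have e1 : od w (Ideal.span {z}) = 1 := wod_eq h.1
      (by rw [pow_one, Ideal.span_singleton_le_iff_mem]; exact hz1)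
      (by rw [Ideal.span_singleton_le_iff_mem]; exact hz2)
    have e2 : od w (Ideal.span {tO τ z}) = 1 := wod_eq h.1
      (by rw [pow_one, Ideal.span_singleton_le_iff_mem]; exact ht1)
      (by rw [Ideal.span_singleton_le_iff_mem]; exact ht2)
    have e3 : od w (Ideal.span {z * tO τ z}) = 2 := by
      rw [← Ideal.span_singleton_mul_span_singleton, wod_mul w (hs0 _ hz0) (hs0 _ ht0), e1, e2]
    have e4 := H1.LC.od_eq (⟨w, h.1, hw0⟩ : IsDedekindDomain.HeightOneSpectrum (𝓞 M))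
      (mul_ne_zero hz0 ht0)
    have e5 := (Pool.Agent.H28.FP.mem_iff (⟨w, h.1, hw0⟩ : IsDedekindDomain.HeightOneSpectrum (𝓞 M))
      (mul_ne_zero hz0 ht0) 3).1 hmem
    rw [← e4] at e5
    have e6 : od w (Ideal.span {z * tO τ z}) = od w (Ideal.span {z * tO τ z}) := rfl
    change 3 ≤ od w (Ideal.span {z * tO τ z}) at e5
    omega
  · have ht1 : tO τ z ∉ w := fun hh => hc (hz3 (mem_cI.2 hh))
    have h1 : tO τ z * z ∈ w ^ 2 := by
      rw [mul_comm]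
      exact Ideal.pow_le_pow_right (by norm_num) hmem
    rcases Ideal.IsPrime.mul_mem_pow w h1 with h2 | h2
    · exact ht1 h2
    · exact hz2 h2

private theorem ov_n2 {τ : M ≃ₐ[k] M} {ω : M} (H : Omk τ ω) {l : Ideal (𝓞 k)} (hl : l ≠ ⊥)
    (h3 : (3 : 𝓞 k) ∉ l) {w : Ideal (𝓞 M)} (h : Ov l w) :
    ∃ n ∈ l, algebraMap (𝓞 k) (𝓞 M) n ∉ w ^ 2 := by
  obtain ⟨hτ, hω, hτω⟩ := H
  have hw0 := ov_ne hl h
  haveI hwp := h.1
  obtain ⟨z, hz1, hz2, hz3⟩ := ov_unif (τ := τ) h.1 hw0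
  have hdesc : ∀ x : 𝓞 M, tO τ x = x → x ∈ w → ∃ n ∈ l, algebraMap (𝓞 k) (𝓞 M) n = x := by
    intro x hx hxw
    obtain ⟨n, hn⟩ := fixed_int hτ hx
    refine ⟨n, ?_, hn⟩
    rw [← h.2, Ideal.mem_comap, hn]
    exact hxw
  by_cases hc : cI τ w = w
  · by_contra hcon
    push Not at hcon
    have hin : ∀ x : 𝓞 M, tO τ x = x → x ∈ w → x ∈ w ^ 2 := by
      intro x hx hxw
      obtain ⟨n, hn, hn2⟩ := hdesc x hx hxw
      rw [← hn2]
      exact hcon n hn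
    have ht1 : tO τ z ∈ w := by
      have h1 := tO_pw (n := 1) hc (by rw [pow_one]; exact hz1)
      rwa [pow_one] at h1
    set om : 𝓞 M := hω.toInteger with hom
    have hom1 : om ^ 2 + om + 1 = 0 := by
      have h1 : IsPrimitiveRoot om 3 := hω.toInteger_isPrimitiveRoot
      have h2 := h1.geom_sum_eq_zero (by norm_num)
      rw [Finset.sum_range_succ, Finset.sum_range_succ, Finset.sum_range_one] at h2
      linear_combination h2
    have hom2 : tO τ om = om ^ 2 := by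
      apply NumberField.RingOfIntegers.coe_injective
      exact hτω
    have hom4 : tO τ (om ^ 2) = om := by
      rw [tO_pow, hom2]
      linear_combination (om ^ 2 - om) * hom1
    have hb : tO τ ((om - om ^ 2) * (z - tO τ z)) = (om - om ^ 2) * (z - tO τ z) := by
      rw [tO_mul, tO_sub, tO_sub, tO_tO hτ, hom4, hom2]
      ring
    set b := (om - om ^ 2) * (z - tO τ z) with hbd
    have hbw : b ∈ w := Ideal.mul_mem_left _ _ (w.sub_mem hz1 ht1)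
    have hb2 := hin b hb hbw
    have h3O : tO τ (3 : 𝓞 M) = 3 := map_ofNat (tR τ) 3
    have ha : tO τ (-(3 * z) - b * om) = -(3 * z) - b * om := by
      rw [tO_sub, tO_neg, tO_mul, tO_mul, h3O, hb, hom2, hbd]
      linear_combination (z - tO τ z) * (om ^ 2 - 3 * om + 3) * hom1
    have haw : -(3 * z) - b * om ∈ w :=
      w.sub_mem (w.neg_mem (Ideal.mul_mem_left _ _ hz1)) (Ideal.mul_mem_right _ _ hbw)
    have ha2 := hin _ ha haw
    have h5 : 3 * z ∈ w ^ 2 := by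
      have h6 : 3 * z = -((-(3 * z) - b * om) + b * om) := by ring
      rw [h6]
      exact (w ^ 2).neg_mem ((w ^ 2).add_mem ha2 (Ideal.mul_mem_right _ _ hb2))
    rcases Ideal.IsPrime.mul_mem_pow w h5 with h7 | h7
    · apply h3
      rw [← h.2, Ideal.mem_comap, map_ofNat]
      exact h7
    · exact hz2 h7
  · obtain ⟨n, hn⟩ := nm_fix hτ z
    refine ⟨n, ?_, ?_⟩
    · rw [← h.2, Ideal.mem_comap, hn]
      exact Ideal.mul_mem_right _ _ hz1
    rw [hn]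
    intro hmem
    have ht1 : tO τ z ∉ w := fun hh => hc (hz3 (mem_cI.2 hh))
    rw [mul_comm] at hmem
    rcases Ideal.IsPrime.mul_mem_pow w hmem with h2 | h2
    · exact ht1 h2
    · exact hz2 h2

private theorem od_map {l : Ideal (𝓞 k)} (hl : l ≠ ⊥) {w : Ideal (𝓞 M)} (h : Ov l w) {e : 𝓞 k}
    (he : e ≠ 0) : od w (Ideal.span {algebraMap (𝓞 k) (𝓞 M) e}) =
      od l (Ideal.span {e}) * od w (Ideal.map (algebraMap (𝓞 k) (𝓞 M)) l) := by
  classical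
  have hinj := FaithfulSMul.algebraMap_injective (𝓞 k) (𝓞 M)
  haveI hwp := h.1
  haveI hlp : l.IsPrime := by
    rw [← h.2]
    exact Ideal.comap_isPrime _ _
  have hpr : Prime l := Ideal.prime_of_isPrime hl hlp
  have hI : Ideal.span {e} ≠ ⊥ := by
    rw [Ne, Ideal.span_singleton_eq_bot]
    exact he
  have hfin : FiniteMultiplicity l (Ideal.span {e}) :=
    FiniteMultiplicity.of_not_isUnit hpr.not_isUnit hI
  obtain ⟨a, ha, hna⟩ := hfin.exists_eq_pow_mul_and_not_dvd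
  set n := multiplicity l (Ideal.span {e}) with hn
  have ha0 : a ≠ ⊥ := by
    rintro rfl
    exact hI (by rw [ha]; exact Ideal.mul_bot _)
  have e1 : od l (Ideal.span {e}) = n := by
    unfold od
    refine Ideal.count_normalizedFactors_eq ?_ ?_
    · rw [← Ideal.dvd_iff_le]
      exact ⟨a, ha⟩
    · rw [← Ideal.dvd_iff_le]
      exact hfin.not_pow_dvd_of_multiplicity_lt (Nat.lt_succ_self _)
  have hml : Ideal.map (algebraMap (𝓞 k) (𝓞 M)) l ≠ ⊥ := by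
    rw [Ne, Ideal.map_eq_bot_iff_of_injective hinj]
    exact hl
  have hma : Ideal.map (algebraMap (𝓞 k) (𝓞 M)) a ≠ ⊥ := by
    rw [Ne, Ideal.map_eq_bot_iff_of_injective hinj]
    exact ha0
  have e2 : Ideal.span {algebraMap (𝓞 k) (𝓞 M) e} =
      Ideal.map (algebraMap (𝓞 k) (𝓞 M)) l ^ n * Ideal.map (algebraMap (𝓞 k) (𝓞 M)) a := by
    rw [← Ideal.map_pow, ← Ideal.map_mul, ← ha, Ideal.map_span, Set.image_singleton]
  rw [e1, e2, wod_mul w (pow_ne_zero n hml) hma, wod_pow, wod_zero (J := Ideal.map _ a), add_zero]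
  intro hle
  apply hna
  rw [Ideal.dvd_iff_le, ← h.2]
  exact Ideal.map_le_iff_le_comap.1 hle

private theorem map_le {l : Ideal (𝓞 k)} {w : Ideal (𝓞 M)} (h : Ov l w) :
    Ideal.map (algebraMap (𝓞 k) (𝓞 M)) l ≤ w ^ 1 := by
  rw [pow_one, Ideal.map_le_iff_le_comap, h.2]

theorem od_le {τ : M ≃ₐ[k] M} (hτ : Invo k M τ) {l : Ideal (𝓞 k)} (hl : l ≠ ⊥) {w : Ideal (𝓞 M)}
    (h : Ov l w) {e : 𝓞 k} (he : e ≠ 0) :
    od w (Ideal.span {algebraMap (𝓞 k) (𝓞 M) e}) ≤ 2 * od l (Ideal.span {e}) := by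
  rw [od_map hl h he, mul_comm]
  apply Nat.mul_le_mul_right
  obtain ⟨n, hn, hn3⟩ := ov_n3 hτ hl h
  by_cases h2 : Ideal.map (algebraMap (𝓞 k) (𝓞 M)) l ≤ w ^ 2
  · rw [wod_eq h.1 h2 fun hh => hn3 (hh (Ideal.mem_map_of_mem _ hn))]
  · rw [wod_eq h.1 (map_le h) h2]
    norm_num

theorem od_eq3 {τ : M ≃ₐ[k] M} {ω : M} (H : Omk τ ω) {l : Ideal (𝓞 k)} (hl : l ≠ ⊥)
    (h3 : (3 : 𝓞 k) ∉ l) {w : Ideal (𝓞 M)} (h : Ov l w) {e : 𝓞 k} (he : e ≠ 0) :
    od w (Ideal.span {algebraMap (𝓞 k) (𝓞 M) e}) = od l (Ideal.span {e}) := by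
  obtain ⟨n, hn, hn2⟩ := ov_n2 H hl h3 h
  rw [od_map hl h he, wod_eq h.1 (map_le h) fun hh => hn2 (hh (Ideal.mem_map_of_mem _ hn)), mul_one]

theorem pf_ov {e : 𝓞 k} (he : e ≠ 0) (w : Ideal (𝓞 M)) :
    w ∈ pf (Ideal.span {algebraMap (𝓞 k) (𝓞 M) e}) ↔ ∃ l ∈ pf (Ideal.span {e}), Ov l w := by
  have hinj := FaithfulSMul.algebraMap_injective (𝓞 k) (𝓞 M)
  have he' : algebraMap (𝓞 k) (𝓞 M) e ≠ 0 := by
    rw [Ne, map_eq_zero_iff _ hinj]
    exact he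
  rw [H1.LC.pf_iff he']
  constructor
  · rintro ⟨v, rfl, hv⟩
    haveI := v.isPrime
    have hl0 : v.asIdeal.comap (algebraMap (𝓞 k) (𝓞 M)) ≠ ⊥ := by
      intro h0
      have h1 : e ∈ v.asIdeal.comap (algebraMap (𝓞 k) (𝓞 M)) := hv
      rw [h0, Ideal.mem_bot] at h1
      exact he h1
    refine ⟨v.asIdeal.comap (algebraMap (𝓞 k) (𝓞 M)), ?_, v.isPrime, rfl⟩
    rw [H1.LC.pf_iff he]
    exact ⟨⟨_, Ideal.comap_isPrime _ _, hl0⟩, rfl, hv⟩
  · rintro ⟨l, hl, h⟩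
    rw [H1.LC.pf_iff he] at hl
    obtain ⟨v, rfl, hv⟩ := hl
    refine ⟨⟨w, h.1, ov_ne v.ne_bot h⟩, rfl, ?_⟩
    have h1 : e ∈ w.comap (algebraMap (𝓞 k) (𝓞 M)) := by
      rw [h.2]
      exact hv
    exact h1

end H88.AQ
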