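import Pool.Agent.H88.AQ.Tau
import Pool.Agent.H88.WS.Rho
import Pool.Agent.H88.A4.C2Rho

/-!
# [H88 AQ RHO] `All3Stmt` from `Main3Stmt`: all shapes (AQ, W2#, MP_b39724), 100-200 lines (a copy). File Pool/Agent/H88/AQ/Rho.lean

Merge `main2_all` (H88/A4/C2Rho.lean: the dyadic shapes for conjugate blocks, its private lemmas may be copied) with `all_of` (H88/WS/Rho.lean: the sum of the bounds `ρ1^κ`, number of the `ρ2` for one `ρ1` at most `C (1 + |log ρ1|)`). PROOF. `Main3Stmt` with `8 C` (or the constant used in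
C2Rho.lean): `C0, κ`. Every `x ∈ S` has dyadic `ρ1 = 2^i`, `ρ2 = 2^j` with `Main2 τ (8 C) s (2^i) (2^j)`, `Rho (8 C) (2^i) (2^j)`; for fixed `i` the number of the possible `j` is at most `C5 (1 + |i|)` (`2^i ≤ 2^j`, `2^i 4^j ≤ 8 C`), `i ≤ log_2 (8 C)`, and `∑_i (1 + |i|) 2^(i κ) ≤ C6` over any finite set of such `i`
(as in WS/Rho.lean). Each class: `C0 s^(3d) (2^i)^κ L^(7/8)`. The hypotheses `All (Bd (Hp C A s))`, `Rep2 τ (Hp C A s)`, `Adm m0 C` are monotone in the constant.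
-/

open scoped NumberField
open H88.A4 Pool.Agent.H67.WA H88.WS

noncomputable section

namespace H88.AQ

private lemma c2r_bd {M : Type} [Field M] [NumberField M] {H H' : ℝ} (h : H ≤ H') {x : 𝓞 M} (hx : Bd H x) : Bd H' x :=
  fun φ => (hx φ).trans h

/-- dyadic scale of a positive number -/
private lemma c2r_dy (ρ : ℝ) (h : 0 < ρ) : ∃ i : ℤ, ρ ≤ (2 : ℝ) ^ i ∧ (2 : ℝ) ^ i < 2 * ρ := by
  obtain ⟨n, hn1, hn2⟩ := exists_mem_Ioc_zpow (x := ρ) (y := 2) h (by norm_num)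
  refine ⟨n + 1, hn2, ?_⟩
  rw [zpow_add₀ (by norm_num), zpow_one]
  linarith

private lemma c2r_main (k M : Type) [Field k] [NumberField k] [Field M] [NumberField M] [Algebra k M]
    {C s ρ1 ρ2 : ℝ} (τ : M ≃ₐ[k] M) (hC : 1 ≤ C) (hs : 0 < s)
    (hR : Rho C ρ1 ρ2) (β : Blk (𝓞 M)) (hM : Main2 τ C s ρ1 ρ2 β) (i j : ℤ)
    (hi1 : ρ1 ≤ (2 : ℝ) ^ i) (hi2 : (2 : ℝ) ^ i < 2 * ρ1) (hj1 : ρ2 ≤ (2 : ℝ) ^ j)
    (hj2 : (2 : ℝ) ^ j < 2 * ρ2) :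
    Rho (8 * C) ((2 : ℝ) ^ i) ((2 : ℝ) ^ j) ∧ Main2 τ (8 * C) s ((2 : ℝ) ^ i) ((2 : ℝ) ^ j) β := by
  obtain ⟨h0, h12, h1C, h122⟩ := hR
  have hρ2 : 0 < ρ2 := h0.trans_le h12
  have hij : i ≤ j := by
    have h1 : (2 : ℝ) ^ i < 2 * (2 : ℝ) ^ j := by linarith
    have h2 : (2 : ℝ) ^ i < (2 : ℝ) ^ (j + 1) := by
      rw [zpow_add₀ (by norm_num), zpow_one]
      linarith
    have h3 := (zpow_lt_zpow_iff_right₀ (by norm_num : (1 : ℝ) < 2)).1 h2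
    omega
  have p1 : 0 < (2 : ℝ) ^ i := by positivity
  have p2 : 0 < (2 : ℝ) ^ j := by positivity
  constructor
  · refine ⟨p1, (zpow_le_zpow_iff_right₀ (by norm_num : (1 : ℝ) < 2)).2 hij, by linarith, ?_⟩
    calc (2 : ℝ) ^ i * ((2 : ℝ) ^ j) ^ 2 ≤ (2 * ρ1) * (2 * ρ2) ^ 2 := by gcongr
      _ = 8 * (ρ1 * ρ2 ^ 2) := by ring
      _ ≤ 8 * C := by linarith
  · obtain ⟨hS, hr⟩ := hM
    have q1 : ρ1 ^ 2 ≤ ((2 : ℝ) ^ i) ^ 2 := by gcongr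
    have q2 : ρ1 * ρ2 ≤ (2 : ℝ) ^ i * (2 : ℝ) ^ j := by gcongr
    have q3 : ρ2 ^ 2 ≤ ((2 : ℝ) ^ j) ^ 2 := by gcongr
    have c1 : C * s ≤ 8 * C * s := by nlinarith
    refine ⟨⟨c2r_bd ?_ hS.sb1, c2r_bd ?_ hS.sb2, c2r_bd ?_ hS.sb3, c2r_bd ?_ hS.sc1,
      c2r_bd ?_ hS.sc2, c2r_bd ?_ hS.sc3⟩, hr⟩ <;>
      exact mul_le_mul (by assumption) (by assumption) (by positivity) (by positivity)

private lemma crho_sum (κ : ℝ) (hκ : 0 < κ) (C : ℝ) : ∃ Z : ℝ, 0 < Z ∧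
    ∀ T : Finset (ℤ × ℤ), (∀ b ∈ T, Rho C ((2 : ℝ) ^ b.1) ((2 : ℝ) ^ b.2)) →
    ∑ b ∈ T, ((2 : ℝ) ^ b.1) ^ κ ≤ Z := by
  obtain ⟨R, hR⟩ : ∃ R : ℝ, R = (2 : ℝ) ^ (-(κ / 2)) := ⟨_, rfl⟩
  have hR0 : 0 < R := by
    rw [hR]
    positivity
  have hR1 : R < 1 := by
    rw [hR]
    exact Real.rpow_lt_one_of_one_lt_of_neg (by norm_num) (by linarith)
  obtain ⟨a, ha⟩ := pow_unbounded_of_one_lt C (by norm_num : (1 : ℝ) < 2)
  have hg := summable_geometric_of_lt_one hR0.le hR1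
  have hs1 : Summable (fun i : ℤ => R ^ i.natAbs) := by
    refine Summable.of_nat_of_neg ?_ ?_
    · simpa only [Int.natAbs_natCast] using hg
    · simpa only [Int.natAbs_neg, Int.natAbs_natCast] using hg
  have hs2 : Summable (fun b : ℤ × ℤ => R ^ b.1.natAbs * R ^ b.2.natAbs) :=
    hs1.mul_of_nonneg hs1 (fun i => pow_nonneg hR0.le _) (fun i => pow_nonneg hR0.le _)
  have hn : ∀ b : ℤ × ℤ, 0 ≤ R ^ b.1.natAbs * R ^ b.2.natAbs := fun b =>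
    mul_nonneg (pow_nonneg hR0.le _) (pow_nonneg hR0.le _)
  have h2a : 0 < (2 : ℝ) ^ (2 * (a : ℝ) * κ) := by positivity
  refine ⟨(2 : ℝ) ^ (2 * (a : ℝ) * κ) *
    (1 + ∑' b : ℤ × ℤ, R ^ b.1.natAbs * R ^ b.2.natAbs), ?_, fun T hT => ?_⟩
  · have h1 : 0 ≤ ∑' b : ℤ × ℤ, R ^ b.1.natAbs * R ^ b.2.natAbs := tsum_nonneg hn
    refine mul_pos h2a ?_
    linarith
  have h1 : ∀ b ∈ T, ((2 : ℝ) ^ b.1) ^ κ ≤
      (2 : ℝ) ^ (2 * (a : ℝ) * κ) * (R ^ b.1.natAbs * R ^ b.2.natAbs) := by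
    rintro ⟨i, j⟩ hb
    obtain ⟨-, h2, h3, h4⟩ := hT _ hb
    simp only at h2 h3 h4 ⊢
    have one2 : (1 : ℝ) < 2 := by norm_num
    have e2 : (2 : ℝ) ^ (a : ℤ) = (2 : ℝ) ^ a := zpow_natCast _ _
    have h5 : i ≤ j := (zpow_le_zpow_iff_right₀ one2).1 h2
    have h6 : i ≤ a := (zpow_le_zpow_iff_right₀ one2).1 (by
      rw [e2]
      exact h3.trans ha.le)
    have h7 : i + j * 2 ≤ a := by
      refine (zpow_le_zpow_iff_right₀ one2).1 ?_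
      rw [e2, zpow_add₀ (by norm_num), zpow_mul, zpow_ofNat]
      exact h4.trans ha.le
    have h8 : 2 * i + (i.natAbs : ℤ) + (j.natAbs : ℤ) ≤ 4 * a := by omega
    have h9 : 2 * (i : ℝ) + ((i.natAbs : ℤ) : ℝ) + ((j.natAbs : ℤ) : ℝ) ≤ 4 * a := by
      exact_mod_cast h8
    rw [Int.cast_natCast, Int.cast_natCast] at h9
    have h10 := mul_nonneg hκ.le (sub_nonneg.2 h9)
    rw [← Real.rpow_intCast, ← Real.rpow_mul (by norm_num), ← Real.rpow_natCast R,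
      ← Real.rpow_natCast R, hR, ← Real.rpow_mul (by norm_num), ← Real.rpow_mul (by norm_num),
      ← Real.rpow_add (by norm_num), ← Real.rpow_add (by norm_num)]
    refine Real.rpow_le_rpow_of_exponent_le (by norm_num) ?_
    nlinarith
  calc ∑ b ∈ T, ((2 : ℝ) ^ b.1) ^ κ ≤
      ∑ b ∈ T, (2 : ℝ) ^ (2 * (a : ℝ) * κ) * (R ^ b.1.natAbs * R ^ b.2.natAbs) :=
        Finset.sum_le_sum h1
    _ = (2 : ℝ) ^ (2 * (a : ℝ) * κ) * ∑ b ∈ T, (R ^ b.1.natAbs * R ^ b.2.natAbs) :=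
        (Finset.mul_sum _ _ _).symm
    _ ≤ _ := by
        refine mul_le_mul_of_nonneg_left ?_ h2a.le
        have h2 := hs2.sum_le_tsum T (fun b _ => hn b)
        linarith

theorem all3 (k M : Type) [Field k] [NumberField k] [Field M] [NumberField M] [Algebra k M]
    (h : Main3Stmt k M) : All3Stmt k M := by
  classical
  intro τ ω hτ m0 hm0 C hC A
  have hC0 : 0 < C := by linarith
  obtain ⟨C0, κ, hC0', hκ, hmain⟩ := h τ ω hτ m0 hm0 (8 * C) (by linarith) A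
  obtain ⟨Z, hZ, hsumZ⟩ := crho_sum κ hκ (8 * C)
  refine ⟨C0 * Z, by positivity, fun s hR S hS => ?_⟩
  have hs : 0 < s := by
    by_contra h
    push Not at h
    nlinarith
  have hL : 0 ≤ Real.log (2 + s) := Real.log_nonneg (by linarith)
  have hcls : ∀ x ∈ S, ∃ ij : ℤ × ℤ, Rho (8 * C) ((2 : ℝ) ^ ij.1) ((2 : ℝ) ^ ij.2) ∧
      Main2 τ (8 * C) s ((2 : ℝ) ^ ij.1) ((2 : ℝ) ^ ij.2) x.2 := by
    intro x hx
    obtain ⟨-, ⟨ρ1, ρ2, hρ, hM⟩, -, -⟩ := hS x hx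
    obtain ⟨i, hi1, hi2⟩ := c2r_dy ρ1 hρ.1
    obtain ⟨j, hj1, hj2⟩ := c2r_dy ρ2 (hρ.1.trans_le hρ.2.1)
    exact ⟨(i, j), c2r_main k M τ hC hs hρ x.2 hM i j hi1 hi2 hj1 hj2⟩
  choose! f hf2 hf3 using hcls
  obtain ⟨T, hT⟩ : ∃ T : Finset (ℤ × ℤ), T = S.image f := ⟨_, rfl⟩
  have hrho : ∀ b ∈ T, Rho (8 * C) ((2 : ℝ) ^ b.1) ((2 : ℝ) ^ b.2) := by
    intro b hb
    rw [hT] at hb
    obtain ⟨x, hx, rfl⟩ := Finset.mem_image.1 hb
    exact hf2 x hx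
  have hsum : (S.card : ℝ) = ∑ b ∈ T, ((S.filter fun x => f x = b).card : ℝ) := by
    rw [Finset.card_eq_sum_card_fiberwise (f := f) (t := T)
      (fun x hx => by rw [hT]; exact Finset.mem_image_of_mem f hx)]
    push_cast
    rfl
  have hone : ∀ b ∈ T, ((S.filter fun x => f x = b).card : ℝ) ≤
      C0 * s ^ (3 * Module.finrank ℚ M) * ((2 : ℝ) ^ b.1) ^ κ *
        Real.log (2 + s) ^ (7 / 8 : ℝ) := by
    intro b hb
    refine hmain s ((2 : ℝ) ^ b.1) ((2 : ℝ) ^ b.2) (by linarith) (hrho b hb) _ fun x hx => ?_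
    rw [Finset.mem_filter] at hx
    obtain ⟨hA, -, hAll, hRep⟩ := hS x hx.1
    have hMn := hf3 x hx.1
    rw [hx.2] at hMn
    have hH : Hp C A s ≤ Hp (8 * C) A s := by
      unfold Hp
      gcongr
      linarith
    refine ⟨⟨hA.u0, hA.v0, fun φ => (hA.ule φ).trans ?_, fun φ => (hA.uge φ).trans ?_,
      fun φ => (hA.vle φ).trans ?_, fun φ => (hA.vge φ).trans ?_, hA.squ, hA.sqv, hA.cop⟩, hMn, ?_, ?_⟩
    · gcongr
      linarith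
    · gcongr
      linarith
    · gcongr
      linarith
    · gcongr
      linarith
    · obtain ⟨g1, g2, g3, g4, g5, g6⟩ := hAll
      exact ⟨c2r_bd hH g1, c2r_bd hH g2, c2r_bd hH g3, c2r_bd hH g4, c2r_bd hH g5,
        c2r_bd hH g6⟩
    · obtain ⟨π, r, r', hcj, ⟨g1, g2, g3, g4⟩, hsol⟩ := hRep
      exact ⟨π, r, r', hcj, ⟨c2r_bd hH g1, c2r_bd hH g2, c2r_bd hH g3, c2r_bd hH g4⟩, hsol⟩
  rw [hsum]
  calc ∑ b ∈ T, ((S.filter fun x => f x = b).card : ℝ) ≤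
      ∑ b ∈ T, C0 * s ^ (3 * Module.finrank ℚ M) * ((2 : ℝ) ^ b.1) ^ κ *
        Real.log (2 + s) ^ (7 / 8 : ℝ) := Finset.sum_le_sum hone
    _ = C0 * s ^ (3 * Module.finrank ℚ M) * Real.log (2 + s) ^ (7 / 8 : ℝ) *
          ∑ b ∈ T, ((2 : ℝ) ^ b.1) ^ κ := by
        rw [Finset.mul_sum]
        refine Finset.sum_congr rfl fun b _ => ?_
        ring
    _ ≤ C0 * s ^ (3 * Module.finrank ℚ M) * Real.log (2 + s) ^ (7 / 8 : ℝ) * Z :=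
        mul_le_mul_of_nonneg_left (hsumZ T hrho) (by positivity)
    _ = _ := by ring

end H88.AQ
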