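import Pool.Agent.H88.AQ.Tau
import Pool.Agent.H88.A4.C2St

/-!
# [H88 AQ ST] the number of the pairs `(u, a)` for a fixed size `s`, sharp (AQ, W2#, MP_b39724), 500-700 lines (a copy). File Pool/Agent/H88/AQ/St.lean

Copy `fixed_size2` (H88/A4/C2St.lean; its public definitions and lemmas `Pk`, `pkf`, `Sqz`, `sqz_inj`, `Rd2`, .. can be used from there, the private ones copied) with `All3Stmt K M` in the place of `main2_all (h2)`, `EZ3Stmt K M` (with `ε = 1/2`) in the place of `EZero2Stmt`. `d = [M : ℚ] = 2 [K : ℚ] ≥ 2`, `L = log (2 + s)`,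
`V = s^(3 d)`. All parts: trivial `a`: `≤ C' V`; `s ≤ s0`: `≤ C' ≤ C'' V` (`1 ≤ C s`); `EZ2`: `C' s^(5 d/2 + 1/2) ≤ C'' V` (`5 d/2 + 1/2 ≤ 3 d`, `1 ≤ C s`); `Main2`: `C' V L^(7/8)`. `1 ≤ (log 2)^(-7/8) L^(7/8)`. `Omk τ ω` for `All3Stmt`: `⟨br_invo τ ω H, H.prim, H.act⟩`.
-/

set_option linter.unusedSectionVars false

open scoped NumberField
open H88.A4 Pool.Agent.H67.WA H88.WS

noncomputable section

namespace H88.AQ

open H38.ML H63.MA H38.WM

section gen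

variable (L : Type) [Field L] [NumberField L]

/-- the number of integers in a box -/
private theorem bd_card : ∃ C0 : ℝ, 0 < C0 ∧ ∀ R : ℝ, 0 < R →
    ∀ S : Finset (𝓞 L), (∀ x ∈ S, Bd R x) →
    (S.card : ℝ) ≤ C0 * (1 + R ^ Module.finrank ℚ L) := by
  classical
  obtain ⟨C, hC, h⟩ := box_card L
  refine ⟨C * 2 ^ Module.finrank ℚ L, by positivity, fun R hR S hS => ?_⟩
  have hinj : Function.Injective (fun x : 𝓞 L => (x : L)) := NumberField.RingOfIntegers.coe_injective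
  have h1 := h 1 one_pos (fun _ => 2 * R) (fun _ => by positivity)
    (S.image (fun x : 𝓞 L => (x : L))) (by
      intro x hx y hy hxy
      obtain ⟨x0, hx0, rfl⟩ := Finset.mem_image.1 hx
      obtain ⟨y0, hy0, rfl⟩ := Finset.mem_image.1 hy
      have h2 : x0 - y0 ≠ 0 := fun h0 => hxy (by rw [sub_eq_zero.1 h0])
      have h3 := one_le_nm L (x0 - y0) h2
      simpa using h3) (by
      intro x hx y hy φ
      obtain ⟨x0, hx0, rfl⟩ := Finset.mem_image.1 hx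
      obtain ⟨y0, hy0, rfl⟩ := Finset.mem_image.1 hy
      have h3 := hS x0 hx0 φ
      have h4 := hS y0 hy0 φ
      rw [map_sub]
      calc _ ≤ ‖φ (x0 : L)‖ + ‖φ (y0 : L)‖ := norm_sub_le _ _
        _ ≤ 2 * R := by linarith)
  rw [Finset.card_image_of_injective _ hinj, Finset.prod_const, Finset.card_univ,
    NumberField.Embeddings.card, div_one, mul_pow] at h1
  refine h1.trans ?_
  rw [mul_assoc]
  refine mul_le_mul_of_nonneg_left ?_ hC.le
  have h5 : (1 : ℝ) ≤ 2 ^ Module.finrank ℚ L := one_le_pow₀ (by norm_num)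
  have h6 : 0 < R ^ Module.finrank ℚ L := pow_pos hR _
  nlinarith

/-- the number of vectors of integers in a box -/
private theorem pi_card : ∃ C0 : ℝ, 0 < C0 ∧
    ∀ (α : Type) (S : Finset α) (n : ℕ) (g : α → Fin n → 𝓞 L) (R : Fin n → ℝ), (∀ i, 0 < R i) →
    (∀ x ∈ S, ∀ y ∈ S, g x = g y → x = y) → (∀ x ∈ S, ∀ i, Bd (R i) (g x i)) →
    (S.card : ℝ) ≤ ∏ i, (C0 * (1 + R i ^ Module.finrank ℚ L)) := by
  classical
  obtain ⟨C0, h0, h⟩ := bd_card L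
  refine ⟨C0, h0, fun α S n g R hR hinj hb => ?_⟩
  have h1 : S.card ≤ (Fintype.piFinset (fun i => S.image (fun x => g x i))).card := by
    rw [← Finset.card_image_of_injOn (s := S) (f := g) (fun x hx y hy => hinj x hx y hy)]
    apply Finset.card_le_card
    intro y hy
    obtain ⟨x, hx, rfl⟩ := Finset.mem_image.1 hy
    exact Fintype.mem_piFinset.2 (fun i => Finset.mem_image_of_mem _ hx)
  rw [Fintype.card_piFinset] at h1
  calc (S.card : ℝ) ≤ ((∏ i, (S.image (fun x => g x i)).card : ℕ) : ℝ) := by exact_mod_cast h1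
    _ = ∏ i, ((S.image (fun x => g x i)).card : ℝ) := by push_cast; rfl
    _ ≤ _ := by
      refine Finset.prod_le_prod (fun i _ => by positivity) (fun i _ => h (R i) (hR i) _ ?_)
      intro y hy
      obtain ⟨x, hx, rfl⟩ := Finset.mem_image.1 hy
      exact hb x hx i

/-- counting over the classes of `(k, m)` -/
private theorem cls {X Y : Type} (C0 C2 : ℝ) (hC2 : 0 < C2)
    (hpi : ∀ (α : Type) (S : Finset α) (n : ℕ) (g : α → Fin n → 𝓞 L) (R : Fin n → ℝ),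
      (∀ i, 0 < R i) → (∀ x ∈ S, ∀ y ∈ S, g x = g y → x = y) →
      (∀ x ∈ S, ∀ i, Bd (R i) (g x i)) →
      (S.card : ℝ) ≤ ∏ i, (C0 * (1 + R i ^ Module.finrank ℚ L)))
    (T : Finset X) (f : X → (𝓞 L × 𝓞 L) × Y)
    (hf : ∀ x ∈ T, ∀ y ∈ T, f x = f y → x = y)
    (hk : ∀ x ∈ T, Bd C2 (f x).1.1 ∧ Bd C2 (f x).1.2) (Q : Y → Prop) (B : ℝ)
    (hB : ∀ S' : Finset Y, (∀ y ∈ S', Q y) → (S'.card : ℝ) ≤ B) (hQ : ∀ x ∈ T, Q (f x).2) :
    (T.card : ℝ) ≤ (∏ _i : Fin 2, (C0 * (1 + C2 ^ Module.finrank ℚ L))) * B := by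
  classical
  have hB0 : 0 ≤ B := by simpa using hB ∅ (by simp)
  have h1 := Finset.card_eq_sum_card_image (fun x => (f x).1) T
  rw [h1]
  push_cast
  have h2 : ∀ b ∈ T.image (fun x => (f x).1),
      (((T.filter (fun a => (f a).1 = b)).card : ℕ) : ℝ) ≤ B := by
    intro b _
    rw [← Finset.card_image_of_injOn (s := T.filter (fun a => (f a).1 = b)) (f := fun x => (f x).2)]
    · refine hB _ ?_
      intro y hy
      obtain ⟨x, hx, rfl⟩ := Finset.mem_image.1 hy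
      exact hQ x (Finset.mem_filter.1 hx).1
    · intro x hx y hy hxy
      have hx' := Finset.mem_filter.1 hx
      have hy' := Finset.mem_filter.1 hy
      exact hf x hx'.1 y hy'.1 (Prod.ext (hx'.2.trans hy'.2.symm) hxy)
  refine (Finset.sum_le_sum h2).trans ?_
  rw [Finset.sum_const, nsmul_eq_mul]
  refine mul_le_mul_of_nonneg_right ?_ hB0
  refine hpi _ (T.image (fun x => (f x).1)) 2 (fun x => ![x.1, x.2]) (fun _ => C2)
    (fun _ => hC2) ?_ ?_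
  · intro x _ y _ hxy
    have h3 := congrFun hxy 0
    have h4 := congrFun hxy 1
    exact Prod.ext h3 h4
  · intro x hx i
    obtain ⟨z, hz, rfl⟩ := Finset.mem_image.1 hx
    fin_cases i
    · exact (hk z hz).1
    · exact (hk z hz).2

end gen

section mono

variable {L : Type} [Field L] [NumberField L]

private theorem bd_mono {H H' : ℝ} (h : H ≤ H') {x : 𝓞 L} (hx : Bd H x) : Bd H' x :=
  fun φ => (hx φ).trans h

private theorem ball_mono {H H' : ℝ} (h : H ≤ H') {β : Blk (𝓞 L)} (hx : β.All (Bd H)) :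
    β.All (Bd H') :=
  ⟨bd_mono h hx.1, bd_mono h hx.2.1, bd_mono h hx.2.2.1, bd_mono h hx.2.2.2.1,
    bd_mono h hx.2.2.2.2.1, bd_mono h hx.2.2.2.2.2⟩

private theorem hp_mono {C C' s : ℝ} (hC : 0 ≤ C) (h : C ≤ C') (hs : 0 ≤ s) (A : ℕ) :
    Hp C A s ≤ Hp C' A s := by
  unfold Hp
  exact pow_le_pow_left₀ (by positivity) (mul_le_mul_of_nonneg_right h (by positivity)) A

private theorem adm_mono {M : ℕ} {C C' s t : ℝ} (h : C ≤ C') (hs : 0 ≤ s) (ht : 0 ≤ t)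
    {u v : 𝓞 L} (hx : Adm M C s t u v) : Adm M C' s t u v where
  u0 := hx.u0
  v0 := hx.v0
  ule φ := (hx.ule φ).trans (mul_le_mul_of_nonneg_right h (by positivity))
  uge φ := (hx.uge φ).trans (mul_le_mul_of_nonneg_right h (norm_nonneg _))
  vle φ := (hx.vle φ).trans (mul_le_mul_of_nonneg_right h (by positivity))
  vge φ := (hx.vge φ).trans (mul_le_mul_of_nonneg_right h (norm_nonneg _))
  squ := hx.squ
  sqv := hx.sqv
  cop := hx.cop

private theorem span_dvd (M N : ℕ) {I : Ideal (𝓞 L)} (h : I ∣ Ideal.span {(M : 𝓞 L)}) :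
    I ∣ Ideal.span {((M * N : ℕ) : 𝓞 L)} := by
  refine h.trans ?_
  rw [Ideal.dvd_span_singleton]
  push_cast
  exact Ideal.mul_mem_right _ _ (Ideal.mem_span_singleton_self _)

private theorem adm_monoM {M : ℕ} (N : ℕ) {C s t : ℝ}
    {u v : 𝓞 L} (hx : Adm M C s t u v) : Adm (M * N) C s t u v where
  u0 := hx.u0
  v0 := hx.v0
  ule := hx.ule
  uge := hx.uge
  vle := hx.vle
  vge := hx.vge
  squ I hI := span_dvd M N (hx.squ I hI)
  sqv I hI := span_dvd M N (hx.sqv I hI)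
  cop := by
    push_cast
    exact Ideal.mul_mem_right _ _ hx.cop

private theorem rho_mono {C C' ρ1 ρ2 : ℝ} (h : C ≤ C') (hx : Rho C ρ1 ρ2) : Rho C' ρ1 ρ2 :=
  ⟨hx.1, hx.2.1, hx.2.2.1.trans h, hx.2.2.2.trans h⟩

variable {k : Type} [Field k] [NumberField k] [Algebra k L]

private theorem rep_mono (τ : L ≃ₐ[k] L) {H H' : ℝ} (h : H ≤ H') {β : Blk (𝓞 L)} {u : 𝓞 L}
    (hx : Rep2 τ H β u) : Rep2 τ H' β u := by
  obtain ⟨π, r, r', h0, h1, h2⟩ := hx
  exact ⟨π, r, r', h0, ⟨bd_mono h h1.1, bd_mono h h1.2.1, bd_mono h h1.2.2.1,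
    bd_mono h h1.2.2.2⟩, h2⟩

private theorem pq_mono (τ : L ≃ₐ[k] L) {M : ℕ} (N : ℕ) {C C' s : ℝ} (h : C ≤ C') (hs : 0 ≤ s)
    {u p q : 𝓞 L} (hx : PQ2 τ M C s u p q) : PQ2 τ (N * M) C' s u p q := by
  obtain ⟨h1, h2, h3, h5, h6, b0, g1, g2, m, h7, h8, h9⟩ := hx
  refine ⟨h1, h2, bd_mono (mul_le_mul_of_nonneg_right h hs) h3, ?_, h6, b0, g1, g2, m, h7, ?_, h9⟩
  · push_cast
    exact Ideal.mul_mem_left _ _ h5
  · rw [mul_comm]
    exact span_dvd M N h8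

private theorem main_mono (τ : L ≃ₐ[k] L) {C C' s ρ1 ρ2 : ℝ} (h : C ≤ C') (hs : 0 ≤ s)
    (h1 : 0 < ρ1) (h2 : 0 < ρ2) {β : Blk (𝓞 L)} (hx : Main2 τ C s ρ1 ρ2 β) :
    Main2 τ C' s ρ1 ρ2 β := by
  obtain ⟨⟨a1, a2, a3, a4, a5, a6⟩, hx⟩ := hx
  refine ⟨⟨bd_mono ?_ a1, bd_mono ?_ a2, bd_mono ?_ a3, bd_mono ?_ a4, bd_mono ?_ a5,
    bd_mono ?_ a6⟩, hx⟩ <;> gcongr

private theorem ez_mono (τ : L ≃ₐ[k] L) {C C' s : ℝ} (h : C ≤ C')
    {β : Blk (𝓞 L)} (hx : EZ2 τ C s β) : EZ2 τ C' s β := by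
  obtain ⟨h1, h2, h3, h4⟩ := hx
  exact ⟨h1, h2, h3, bd_mono (by gcongr) h4⟩

end mono

private theorem eta_ne {L F : Type} [Field L] [NumberField L] [Field F]
    [Algebra L F] {u v p q : 𝓞 L} {t1 t2 : F} (hu : u ≠ 0) (hv : v ≠ 0)
    (hc : t1 ^ 3 = algebraMap L F ((u : L) * (v : L) ^ 2))
    (hp : t1 * t2 = algebraMap L F ((u : L) * (v : L)))
    (hn : v * p ^ 3 + u * q ^ 3 ≠ 0) :
    algebraMap L F ((u * v * (v * p ^ 3 + u * q ^ 3) : 𝓞 L) : L) *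
      (algebraMap L F (p : L) * t1 + algebraMap L F (q : L) * t2) ≠ 0 := by
  have hinj : ∀ x : 𝓞 L, algebraMap L F (x : L) = 0 → x = 0 := by
    intro x hx
    have h1 := (map_eq_zero (algebraMap L F)).1 hx
    exact_mod_cast h1
  refine mul_ne_zero (fun h0 => mul_ne_zero (mul_ne_zero hu hv) hn (hinj _ h0)) (fun h0 => ?_)
  refine mul_ne_zero (mul_ne_zero hu hv) hn (hinj _ ?_)
  push_cast
  simp only [map_mul, map_pow] at hc hp ⊢
  set U := algebraMap L F (u : L)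
  set V := algebraMap L F (v : L)
  set P := algebraMap L F (p : L)
  set Q := algebraMap L F (q : L)
  have h1 : P * t1 = -(Q * t2) := by linear_combination h0
  have hU : U ≠ 0 := fun h2 => hu (hinj _ h2)
  have hV : V ≠ 0 := fun h2 => hv (hinj _ h2)
  have h2 : (P * t1) ^ 3 = -(Q * t2) ^ 3 := by rw [h1]; ring
  have h3 : t2 ^ 3 = U ^ 2 * V := by
    have h4 : t1 ^ 3 * t2 ^ 3 = (U * V) ^ 3 := by rw [← mul_pow, hp]
    rw [hc] at h4
    have h5 : U * V ^ 2 ≠ 0 := mul_ne_zero hU (pow_ne_zero _ hV)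
    refine mul_left_cancel₀ h5 ?_
    rw [h4]; ring
  rw [mul_pow, mul_pow, hc, h3] at h2
  linear_combination h2

variable {K : IntermediateField ℚ QBar} [NumberField K] {M : IntermediateField K QBar}
  [NumberField M]

private theorem sq_of_mul {F : IntermediateField K QBar} {a b : Fˣ}
    (h : IsSquare ((a : F) * b)) : ∃ c ∈ F, ((a : F) : QBar) = ((b : F) : QBar) * c ^ 2 := by
  obtain ⟨c, hc⟩ := h
  refine ⟨((c / (b : F) : F) : QBar), (c / (b : F)).2, ?_⟩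
  have hb : (b : F) ≠ 0 := b.ne_zero
  have h1 : (a : F) = (b : F) * (c / b) ^ 2 := by
    field_simp
    linear_combination hc
  calc ((a : F) : QBar) = (((b : F) * (c / b) ^ 2 : F) : QBar) := by rw [← h1]
    _ = _ := by push_cast; rfl

private theorem sel_one {F : IntermediateField K QBar} [NumberField F] : Sel K F (1 : Fˣ) := by
  refine ⟨⟨1, ?_⟩, fun P => ?_⟩
  · rw [Units.val_one, map_one, mul_one]
  · rw [ord_one]
    exact ⟨0, rfl⟩

private theorem triv_of {τ : Gal(M/K)} {u : 𝓞 M} (P : Pk τ u) {a' : (Fl2 τ u)ˣ}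
    (ha : Sel K (Fl2 τ u) a') (h : IsSquare (algebraMap (Fl2 τ u) P.F' (a' : Fl2 τ u))) :
    ∃ c ∈ Fl2 τ u, ((a' : Fl2 τ u) : QBar) = c ^ 2 := by
  have h1 := P.sqq a' 1 ha sel_one (by rwa [Units.val_one, mul_one])
  obtain ⟨c, hc, h2⟩ := sq_of_mul h1
  refine ⟨c, hc, ?_⟩
  rw [h2]
  push_cast
  rw [one_mul]

private theorem rd_inj {τ : Gal(M/K)} {ω : M} {H : Om τ ω} {M' A : ℕ} {C s : ℝ}
    {x x' : 𝓞 M × QBar}
    {y : (𝓞 M × 𝓞 M) × (𝓞 M × Blk (𝓞 M))} (h : Rd2 τ ω H M' A C s x y)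
    (h' : Rd2 τ ω H M' A C s x' y)
    (hsq : x.1 = x'.1 → (∃ c ∈ Fl2 τ x.1, x.2 = x'.2 * c ^ 2) → x.2 = x'.2) : x = x' := by
  obtain ⟨u, a⟩ := x
  obtain ⟨u', b⟩ := x'
  have e1 : u = u' := mul_left_cancel₀ h.k0 (h.eu.symm.trans h'.eu)
  subst e1
  obtain ⟨w, h3⟩ := h.sq
  obtain ⟨w', h3'⟩ := h'.sq
  have h6 : a = b := hsq rfl (sqz_inj h3 h3')
  rw [h6]

theorem fixed3 (τ : Gal(M/K)) (ω : M) (H : Om τ ω)
    (h1 : Reduction2Stmt K M) (h2 : All3Stmt K M) (h4 : EZ3Stmt K M)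
    (h5 : EZeroAlg2Stmt K M) (m : ℕ) (hm : m ≠ 0) (C : ℝ) (hC : 1 ≤ C) :
    ∃ C' : ℝ, 0 < C' ∧ ∀ s : ℝ, 1 ≤ C * s → ∀ S : Finset (𝓞 M × QBar),
      (∀ x ∈ S, H88.A4.Adm m C s s x.1 (tO τ x.1) ∧ Cf τ (Fl2 τ x.1) x.1 ∧
        ∃ a' : (Fl2 τ x.1)ˣ, ((a' : Fl2 τ x.1) : QBar) = x.2 ∧ Sel K (Fl2 τ x.1) a') →
      (∀ u a b, (u, a) ∈ S → (u, b) ∈ S → (∃ c ∈ Fl2 τ u, a = b * c ^ 2) → a = b) →
      (S.card : ℝ) ≤ C' * s ^ (3 * Module.finrank ℚ M) * Real.log (2 + s) ^ (7 / 8 : ℝ) := by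
  classical
  have hτ : Invo K M τ := br_invo τ ω H
  obtain ⟨C0, hC0, hpi⟩ := pi_card M
  obtain ⟨M', A, C1, s0, hM', hC1, hred⟩ := h1 τ hτ m hm C hC
  obtain ⟨C2, hC2d⟩ : ∃ C2 : ℝ, C2 = max C C1 := ⟨_, rfl⟩
  have hCC2 : C ≤ C2 := hC2d ▸ le_max_left _ _
  have hC1C2 : C1 ≤ C2 := hC2d ▸ le_max_right _ _
  have hC2 : 1 ≤ C2 := hC.trans hCC2
  obtain ⟨Cm, hCm, hmn⟩ := h2 τ ω ⟨hτ, H.prim, H.act⟩ M' hM' C2 hC2 A
  obtain ⟨M'', C'', hM'', hC'', halg⟩ := h5 τ hτ m M' hm hM' C2 hC2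
  obtain ⟨C3, hC3d⟩ : ∃ C3 : ℝ, C3 = max C2 C'' := ⟨_, rfl⟩
  have hC2C3 : C2 ≤ C3 := hC3d ▸ le_max_left _ _
  have hC''C3 : C'' ≤ C3 := hC3d ▸ le_max_right _ _
  have hC3 : 1 ≤ C3 := hC2.trans hC2C3
  obtain ⟨Ce, hCe, he⟩ := h4 τ hτ (m * M'') (mul_ne_zero hm hM'') C3 hC3 (1 / 2) one_half_pos
  obtain ⟨D, hD⟩ : ∃ D : ℕ, D = Module.finrank ℚ M := ⟨_, rfl⟩
  have hD1 : 1 ≤ D := by
    rw [hD]
    exact Module.finrank_pos
  obtain ⟨c0, hc0d⟩ : ∃ c0 : ℝ, c0 = Real.log 2 ^ (7 / 8 : ℝ) := ⟨_, rfl⟩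
  have hc0 : 0 < c0 := by
    rw [hc0d]
    exact Real.rpow_pos_of_pos (Real.log_pos (by norm_num)) _
  obtain ⟨N, hN⟩ : ∃ N : ℝ, N = ∏ _i : Fin 2, (C0 * (1 + C2 ^ Module.finrank ℚ M)) := ⟨_, rfl⟩
  have hN0 : 0 < N := by rw [hN]; positivity
  obtain ⟨s1, hs1⟩ : ∃ s1 : ℝ, s1 = max s0 1 := ⟨_, rfl⟩
  have hs1' : 1 ≤ s1 := hs1 ▸ le_max_right _ _
  have hs01 : s0 ≤ s1 := hs1 ▸ le_max_left _ _
  obtain ⟨R8, hR8⟩ : ∃ R8 : ℝ, R8 = max (C2 * s1 ^ 3) ((C2 * (1 + s1)) ^ A) := ⟨_, rfl⟩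
  have hR80 : 0 < R8 := by rw [hR8]; exact lt_max_of_lt_left (by positivity)
  obtain ⟨N8, hN8⟩ : ∃ N8 : ℝ, N8 = ∏ _i : Fin 7, (C0 * (1 + R8 ^ Module.finrank ℚ M)) := ⟨_, rfl⟩
  have hN80 : 0 < N8 := by rw [hN8]; positivity
  have hC0' : 0 < C := by linarith
  refine ⟨2 * C0 * C ^ (3 * D) * c0⁻¹ + N * N8 * (C ^ (3 * D) * c0⁻¹) + N * Cm + Ce * (C ^ (3 * D) * c0⁻¹),
    by positivity, fun s hst S hS hsq => ?_⟩
  have hs0 : 0 < s := by
    by_contra h0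
    nlinarith [not_lt.1 h0]
  obtain ⟨B, hB⟩ : ∃ B : ℝ, B = s ^ (3 * D) * Real.log (2 + s) ^ (7 / 8 : ℝ) := ⟨_, rfl⟩
  have hlog : Real.log 2 ≤ Real.log (2 + s) := Real.log_le_log (by norm_num) (by linarith)
  have hlog0 : 0 < Real.log 2 := Real.log_pos (by norm_num)
  have hLc : c0 ≤ Real.log (2 + s) ^ (7 / 8 : ℝ) := by
    rw [hc0d]
    exact Real.rpow_le_rpow hlog0.le hlog (by norm_num)
  have hV : s ^ (3 * D) ≤ c0⁻¹ * B := by
    rw [hB, le_inv_mul_iff₀ hc0, mul_comm]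
    exact mul_le_mul_of_nonneg_left hLc (by positivity)
  have hB0 : 0 < B := by
    rw [hB]
    exact mul_pos (by positivity) (hc0.trans_le hLc)
  rw [mul_assoc _ (s ^ (3 * Module.finrank ℚ M)), ← hD, ← hB]
  -- the trivial classes
  let triv : 𝓞 M × QBar → Prop := fun x => ∃ c ∈ Fl2 τ x.1, x.2 = c ^ 2
  have hst2 : 1 ≤ C2 * s := hst.trans (mul_le_mul_of_nonneg_right hCC2 hs0.le)
  have hBge : 1 ≤ C ^ (3 * D) * c0⁻¹ * B := by
    have h6 : 1 ≤ C ^ (3 * D) * s ^ (3 * D) := by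
      rw [← mul_pow]
      exact one_le_pow₀ hst
    refine h6.trans ?_
    rw [mul_assoc]
    exact mul_le_mul_of_nonneg_left hV (by positivity)
  have ha0 : ∀ x ∈ S, x.2 ≠ 0 := by
    intro x hx h0
    obtain ⟨_, _, a', h7, -⟩ := hS x hx
    refine a'.ne_zero (Subtype.ext ?_)
    rw [h7, h0]
    rfl
  have hS0 : ((S.filter triv).card : ℝ) ≤ 2 * C0 * C ^ (3 * D) * c0⁻¹ * B := by
    have h6 := hpi _ (S.filter triv) 1 (fun x => ![x.1]) ![C * s ^ 3] (by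
        intro i
        fin_cases i
        simpa using (by positivity : 0 < C * s ^ 3)) (by
        intro x hx y hy hxy
        have e1 : x.1 = y.1 := congrFun hxy 0
        obtain ⟨hxS, c, hc, hxc⟩ := Finset.mem_filter.1 hx
        obtain ⟨hyS, c', hc', hyc⟩ := Finset.mem_filter.1 hy
        obtain ⟨u, a⟩ := x
        obtain ⟨u', b⟩ := y
        simp only at e1 hxc hyc hc hc'
        subst e1
        have h7 : c' ≠ 0 := by
          rintro rfl
          exact ha0 _ hyS (by simpa using hyc)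
        have h8 := hsq u a b hxS hyS ⟨c / c', div_mem hc hc', by
          rw [hxc, hyc]
          field_simp⟩
        rw [h8]) (by
        intro x hx i
        have h7 := (hS x (Finset.mem_filter.1 hx).1).1
        fin_cases i
        exact fun φ => h7.ule φ)
    rw [Fin.prod_univ_one, ← hD] at h6
    simp only [Matrix.cons_val_zero] at h6
    have h9 : 1 + (C * s ^ 3) ^ D ≤ 2 * C ^ (3 * D) * s ^ (3 * D) := by
      have e1 : (C * s ^ 3) ^ D ≤ C ^ (3 * D) * s ^ (3 * D) := by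
        have e3 : C ^ (3 * D) * s ^ (3 * D) = (C ^ 3 * s ^ 3) ^ D := by
          rw [mul_pow, ← pow_mul, ← pow_mul]
        rw [e3]
        refine pow_le_pow_left₀ (by positivity) ?_ _
        refine mul_le_mul_of_nonneg_right ?_ (by positivity)
        calc C = C * 1 := by ring
          _ ≤ C * C ^ 2 := mul_le_mul_of_nonneg_left (one_le_pow₀ hC) hC0'.le
          _ = C ^ 3 := by ring
      have e2 : (1 : ℝ) ≤ C ^ (3 * D) * s ^ (3 * D) := by
        rw [← mul_pow]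
        exact one_le_pow₀ hst
      linarith
    have h10 : ((S.filter triv).card : ℝ) ≤ 2 * C0 * C ^ (3 * D) * s ^ (3 * D) := by
      refine h6.trans ?_
      calc _ ≤ C0 * (2 * C ^ (3 * D) * s ^ (3 * D)) := mul_le_mul_of_nonneg_left h9 hC0.le
        _ = _ := by ring
    refine h10.trans ?_
    rw [mul_assoc (2 * C0 * C ^ (3 * D)) c0⁻¹ B]
    exact mul_le_mul_of_nonneg_left hV (by positivity)
  have hS1 : ((S.filter (fun x => ¬ triv x)).card : ℝ) ≤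
      N * N8 * (C ^ (3 * D) * c0⁻¹) * B + N * Cm * B + Ce * (C ^ (3 * D) * c0⁻¹) * B := by
    obtain ⟨T, hT⟩ : ∃ T, T = S.filter (fun x => ¬ triv x) := ⟨_, rfl⟩
    rw [← hT]
    have hTS : ∀ x ∈ T, x ∈ S ∧ ¬ triv x := fun x hx => Finset.mem_filter.1 (hT ▸ hx)
    have : Nonempty ((𝓞 M × 𝓞 M) × (𝓞 M × Blk (𝓞 M))) :=
      ⟨((0, 0), (0, ⟨0, 0, 0, 0, 0, 0⟩))⟩
    have key : ∀ x ∈ T, ∃ y, Rd2 τ ω H M' A C2 s x y ∧
        ((∃ ρ1 ρ2 : ℝ, Rho C2 ρ1 ρ2 ∧ Main2 τ C2 s ρ1 ρ2 y.2.2) ∨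
          EZ2 τ C2 s y.2.2 ∨ s ≤ s0) := by
      intro x hx
      obtain ⟨hxS, hxt⟩ := hTS x hx
      obtain ⟨hadm, hcf, a', e1, hsel⟩ := hS x hxS
      have hP : x.1 ≠ 0 ∧ Cf τ (Fl2 τ x.1) x.1 := ⟨hadm.u0, hcf⟩
      have hns : ¬ IsSquare (algebraMap (Fl2 τ x.1) (pkf τ ω H x.1 hP).F' (a' : Fl2 τ x.1)) := by
        intro hsq'
        obtain ⟨c, hc, h7⟩ := triv_of _ hsel hsq'
        exact hxt ⟨c, hc, by rw [← e1, h7]⟩
      obtain ⟨κ, l, u', β, r1, r2, r3, r4, r5, r6, r7, r8, r9, r10, r11, r12, r13⟩ :=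
        hred s hst x.1 hadm (Fl2 τ x.1) (pkf τ ω H x.1 hP).F' (pkf τ ω H x.1 hP).t1
          (pkf τ ω H x.1 hP).t2 (a' : Fl2 τ x.1) ((pkf τ ω H x.1 hP).dat a' hsel) hns
      have hhp : Hp C1 A s ≤ Hp C2 A s := hp_mono (by linarith) hC1C2 hs0.le A
      refine ⟨((κ, l), (u', β)), ⟨r1, r2, bd_mono hC1C2 r3, bd_mono hC1C2 r4, r5, r6,
        adm_mono hC1C2 hs0.le hs0.le r7, ball_mono hhp r9, rep_mono τ hhp r10,
        ⟨hP, a', e1, hsel, r11, r12⟩⟩, ?_⟩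
      rcases r13 with ⟨ρ1, ρ2, w1, w2⟩ | w | w
      · exact Or.inl ⟨ρ1, ρ2, rho_mono hC1C2 w1,
          main_mono τ hC1C2 hs0.le w1.1 (w1.1.trans_le w1.2.1) w2⟩
      · exact Or.inr (Or.inl (ez_mono τ hC1C2 w))
      · exact Or.inr (Or.inr w)
    choose! f hf using key
    have hsq' : ∀ x ∈ S, ∀ x' ∈ S, x.1 = x'.1 →
        (∃ c ∈ Fl2 τ x.1, x.2 = x'.2 * c ^ 2) → x.2 = x'.2 := by
      intro x hx x' hx' e1 e3
      obtain ⟨u, a⟩ := x
      obtain ⟨u', b⟩ := x'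
      simp only at e1 e3 ⊢
      subst e1
      exact hsq u a b hx hx' e3
    have hfi : ∀ x ∈ T, ∀ y ∈ T, f x = f y → x = y := by
      intro x hx y hy hxy
      refine rd_inj (hf x hx).1 (hxy ▸ (hf y hy).1) ?_
      exact hsq' x (hTS x hx).1 y (hTS y hy).1
    have hfk : ∀ x ∈ T, Bd C2 (f x).1.1 ∧ Bd C2 (f x).1.2 :=
      fun x hx => ⟨(hf x hx).1.bk, (hf x hx).1.bm⟩
    -- the general bound for one class
    have gen : ∀ (P : 𝓞 M × QBar → Prop) (Q : 𝓞 M × Blk (𝓞 M) → Prop) (B' : ℝ),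
        (∀ S' : Finset (𝓞 M × Blk (𝓞 M)), (∀ y ∈ S', Q y) → (S'.card : ℝ) ≤ B') →
        (∀ x ∈ T, P x → Q (f x).2) → ((T.filter P).card : ℝ) ≤ N * B' := by
      intro P Q B' hB' hQ
      rw [hN]
      refine cls M C0 C2 (by linarith) hpi (T.filter P) f ?_ ?_ Q B' hB' ?_
      · exact fun x hx y hy => hfi x (Finset.mem_filter.1 hx).1 y (Finset.mem_filter.1 hy).1
      · exact fun x hx => hfk x (Finset.mem_filter.1 hx).1
      · exact fun x hx => hQ x (Finset.mem_filter.1 hx).1 (Finset.mem_filter.1 hx).2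
    have ga : ((T.filter (fun _ => s ≤ s0)).card : ℝ) ≤
        N * N8 * (C ^ (3 * D) * c0⁻¹) * B := by
      have h6 := gen (fun _ => s ≤ s0)
        (fun y => Bd R8 y.1 ∧ y.2.All (Bd R8)) N8 (by
          intro S' hS'
          rw [hN8]
          refine hpi _ S' 7 (fun y => ![y.1, y.2.b1, y.2.b2, y.2.b3, y.2.c1,
            y.2.c2, y.2.c3]) (fun _ => R8) (fun _ => hR80) ?_ ?_
          · intro x _ y _ hxy
            have e0 : x.1 = y.1 := congrFun hxy 0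
            have e2 : x.2.b1 = y.2.b1 := congrFun hxy 1
            have e3 : x.2.b2 = y.2.b2 := congrFun hxy 2
            have e4 : x.2.b3 = y.2.b3 := congrFun hxy 3
            have e5 : x.2.c1 = y.2.c1 := congrFun hxy 4
            have e6 : x.2.c2 = y.2.c2 := congrFun hxy 5
            have e7 : x.2.c3 = y.2.c3 := congrFun hxy 6
            exact Prod.ext e0 (Blk.ext e2 e3 e4 e5 e6 e7)
          · intro x hx i
            obtain ⟨w0, w2, w3, w4, w5, w6, w7⟩ := hS' x hx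
            fin_cases i
            · exact w0
            · exact w2
            · exact w3
            · exact w4
            · exact w5
            · exact w6
            · exact w7) (by
          intro x hx hss
          have h7 := (hf x hx).1
          have hs1s : s ≤ s1 := hss.trans hs01
          have b1 : C2 * s ^ 3 ≤ R8 := by
            rw [hR8]
            exact le_max_of_le_left (by gcongr)
          have b3 : Hp C2 A s ≤ R8 := by
            rw [hR8]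
            unfold Hp
            exact le_max_of_le_right (by gcongr)
          exact ⟨fun φ => (h7.adm.ule φ).trans b1, ball_mono b3 h7.al⟩)
      refine h6.trans ?_
      rw [mul_assoc (N * N8)]
      exact le_mul_of_one_le_right (by positivity) hBge
    have gb : ((T.filter (fun x => ∃ ρ1 ρ2 : ℝ, Rho C2 ρ1 ρ2 ∧
        Main2 τ C2 s ρ1 ρ2 (f x).2.2)).card : ℝ) ≤ N * Cm * B := by
      rw [mul_assoc]
      refine gen _ (fun y => Adm M' C2 s s y.1 (tO τ y.1) ∧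
        (∃ ρ1 ρ2 : ℝ, Rho C2 ρ1 ρ2 ∧ Main2 τ C2 s ρ1 ρ2 y.2) ∧ y.2.All (Bd (Hp C2 A s)) ∧
        Rep2 τ (Hp C2 A s) y.2 y.1) (Cm * B) ?_ ?_
      · intro S' hS'
        rw [hB, hD, ← mul_assoc]
        exact hmn s hst2 S' hS'
      · intro x hx hP
        have h7 := (hf x hx).1
        exact ⟨h7.adm, hP, h7.al, h7.rep⟩
    have ge : ((T.filter (fun x => EZ2 τ C2 s (f x).2.2)).card : ℝ) ≤ Ce * (C ^ (3 * D) * c0⁻¹) * B := by
      have key2 : ∀ x ∈ T.filter (fun x => EZ2 τ C2 s (f x).2.2), ∃ z : 𝓞 M × 𝓞 M,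
          PQ2 τ M'' C'' s x.1 z.1 z.2 ∧ ∃ h : x.1 ≠ 0 ∧ Cf τ (Fl2 τ x.1) x.1,
            Sqz (pkf τ ω H x.1 h) x.2 (algebraMap M (pkf τ ω H x.1 h).F'
              ((x.1 * tO τ x.1 * (tO τ x.1 * z.1 ^ 3 + x.1 * z.2 ^ 3) : 𝓞 M) : M) *
              (algebraMap M (pkf τ ω H x.1 h).F' (z.1 : M) * (pkf τ ω H x.1 h).t1 +
                algebraMap M (pkf τ ω H x.1 h).F' (z.2 : M) * (pkf τ ω H x.1 h).t2)) := by
        intro x hx
        obtain ⟨hxT, hEZ⟩ := Finset.mem_filter.1 hx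
        have h7 := (hf x hxT).1
        obtain ⟨h, a', e1, e2, -, hsqz⟩ := h7.sq
        have hadm := (hS x (hTS x hxT).1).1
        have hdat := (pkf τ ω H x.1 h).dat a' e2
        obtain ⟨p, q, w1, w2⟩ := halg s hst2 x.1
          (adm_mono hCC2 hs0.le hs0.le hadm) (Fl2 τ x.1)
          (pkf τ ω H x.1 h).F' (pkf τ ω H x.1 h).t1 (pkf τ ω H x.1 h).t2 (a' : Fl2 τ x.1) hdat
          (f x).2.1 (f x).1.1 (f x).1.2 (f x).2.2 h7.k0 h7.m0 h7.bk h7.bm h7.eu h7.ev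
          h7.adm ⟨_, h7.rep⟩ hsqz hEZ
        refine ⟨(p, q), w1, h, a', e1, e2, ?_, ?_⟩
        · exact eta_ne hadm.u0 hadm.v0 hdat.cub hdat.prd w1.2.2.2.2.1
        · rw [← mul_assoc]
          exact w2
      choose! g hg using key2
      have hinj : Set.InjOn (fun x : 𝓞 M × QBar => (x.1, (g x).1, (g x).2))
          (T.filter (fun x => EZ2 τ C2 s (f x).2.2)) := by
        intro x hx y hy hxy
        have e1 : x.1 = y.1 := congrArg (fun z => z.1) hxy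
        have e3 : (g x).1 = (g y).1 := congrArg (fun z => z.2.1) hxy
        have e4 : (g x).2 = (g y).2 := congrArg (fun z => z.2.2) hxy
        have hx1 := hg x hx
        have hy1 := hg y hy
        have hxS := (hTS x (Finset.mem_filter.1 hx).1).1
        have hyS := (hTS y (Finset.mem_filter.1 hy).1).1
        rw [← e3, ← e4] at hy1
        obtain ⟨p, hp⟩ : ∃ p, p = (g x).1 := ⟨_, rfl⟩
        obtain ⟨q, hq⟩ : ∃ q, q = (g x).2 := ⟨_, rfl⟩
        rw [← hp, ← hq] at hx1 hy1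
        obtain ⟨u, a⟩ := x
        obtain ⟨u', b⟩ := y
        simp only at e1 hx1 hy1
        subst e1
        obtain ⟨-, w, h3⟩ := hx1
        obtain ⟨-, w', h3'⟩ := hy1
        have h6 := hsq u a b hxS hyS (sqz_inj h3 h3')
        rw [h6]
      have h30 : s ^ (5 / 2 * (Module.finrank ℚ M : ℝ) + 1 / 2) ≤ C ^ (3 * D) * c0⁻¹ * B := by
        rw [← hD]
        have hDr : (1 : ℝ) ≤ (D : ℝ) := by exact_mod_cast hD1
        calc s ^ (5 / 2 * (D : ℝ) + 1 / 2) ≤ (C * s) ^ (5 / 2 * (D : ℝ) + 1 / 2) :=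
              Real.rpow_le_rpow hs0.le (le_mul_of_one_le_left hs0.le hC) (by positivity)
          _ ≤ (C * s) ^ (3 * (D : ℝ)) := Real.rpow_le_rpow_of_exponent_le hst (by linarith)
          _ = C ^ (3 * D) * s ^ (3 * D) := by
              rw [← mul_pow, ← Real.rpow_natCast]
              push_cast
              rfl
          _ ≤ C ^ (3 * D) * (c0⁻¹ * B) := mul_le_mul_of_nonneg_left hV (by positivity)
          _ = _ := by ring
      rw [← Finset.card_image_of_injOn hinj, mul_assoc Ce]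
      refine le_trans ?_ (mul_le_mul_of_nonneg_left h30 hCe.le)
      refine he s (hst2.trans (mul_le_mul_of_nonneg_right hC2C3 hs0.le)) _ ?_
      intro z hz
      obtain ⟨x, hx, rfl⟩ := Finset.mem_image.1 hz
      have hxS := (hTS x (Finset.mem_filter.1 hx).1).1
      exact ⟨adm_monoM M'' (adm_mono (hCC2.trans hC2C3) hs0.le hs0.le (hS x hxS).1),
        pq_mono τ m hC''C3 hs0.le (hg x hx).1⟩
    have hcov : T ⊆ T.filter (fun _ => s ≤ s0) ∪ T.filter (fun x => ∃ ρ1 ρ2 : ℝ, Rho C2 ρ1 ρ2 ∧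
        Main2 τ C2 s ρ1 ρ2 (f x).2.2) ∪ T.filter (fun x => EZ2 τ C2 s (f x).2.2) := by
      intro x hx
      simp only [Finset.mem_union, Finset.mem_filter]
      rcases (hf x hx).2 with w | w | w
      · exact Or.inl (Or.inr ⟨hx, w⟩)
      · exact Or.inr ⟨hx, w⟩
      · exact Or.inl (Or.inl ⟨hx, w⟩)
    have hcard : (T.card : ℝ) ≤ (T.filter (fun _ => s ≤ s0)).card +
        (T.filter (fun x => ∃ ρ1 ρ2 : ℝ, Rho C2 ρ1 ρ2 ∧
        Main2 τ C2 s ρ1 ρ2 (f x).2.2)).card + (T.filter (fun x => EZ2 τ C2 s (f x).2.2)).card := by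
      have h6 := (Finset.card_le_card hcov).trans ((Finset.card_union_le _ _).trans
        (Nat.add_le_add_right (Finset.card_union_le _ _) _))
      exact_mod_cast h6
    linarith
  have hsum : (S.card : ℝ) = (S.filter triv).card + (S.filter (fun x => ¬ triv x)).card := by
    rw [← Finset.card_filter_add_card_filter_not (s := S) triv]
    push_cast
    rfl
  rw [hsum]
  calc _ ≤ _ := add_le_add hS0 hS1
    _ = _ := by ring

end H88.AQ
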