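import Pool.Agent.H88.AQ.Iface
import Pool.Agent.H12.WM.Tau
import Pool.Agent.H77.CO.Fin2

/-!
# [H88 AQ TAU] the involution: identities for `c = τ b`, sizes, conjugate ideals (AQ, W2#, MP_b39724)
-/

open scoped NumberField
open H88.A4 Pool.Agent.H67.WA H88.WS

noncomputable section

namespace H88.AQ

variable {k M : Type} [Field k] [NumberField k] [Field M] [NumberField M] [Algebra k M]

open Pool.Agent.H12.WM (tO_mul tO_add tO_sub tO_neg tO_pow tO_tO tO_ne tO_inj fixed_int)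

theorem tR_eq (τ : M ≃ₐ[k] M) (x : 𝓞 M) : tR τ x = tO τ x := rfl

theorem bk_D1 (τ : M ≃ₐ[k] M) (b : T3 M) : (bk τ b).D1 = dt b := rfl

theorem dt_cj (τ : M ≃ₐ[k] M) (b : T3 M) : dt (cj τ b) = tO τ (dt b) := by
  unfold dt cj
  rw [tO_sub, tO_mul, tO_pow]

theorem bk_D3 (τ : M ≃ₐ[k] M) (b : T3 M) : (bk τ b).D3 = tO τ (dt b) := by
  rw [← dt_cj]
  rfl

theorem bk_D2 (τ : M ≃ₐ[k] M) (b : T3 M) : (bk τ b).D2 = mx b (cj τ b) := rfl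

theorem bk_E (τ : M ≃ₐ[k] M) (b : T3 M) : (bk τ b).E = E2 τ b := rfl

theorem bk_dl (τ : M ≃ₐ[k] M) (b : T3 M) :
    (bk τ b).D2 ^ 2 - 4 * ((bk τ b).D1 * (bk τ b).D3) = dl2 τ b := rfl

theorem bk_cj (τ : M ≃ₐ[k] M) (b : T3 M) : (bk τ b).Cj τ := ⟨rfl, rfl, rfl⟩

theorem tb_bk (τ : M ≃ₐ[k] M) (b : T3 M) : tb (bk τ b) = b := rfl

theorem tc_bk (τ : M ≃ₐ[k] M) (b : T3 M) : tc (bk τ b) = cj τ b := rfl

theorem bk_tb {τ : M ≃ₐ[k] M} {β : Blk (𝓞 M)} (h : β.Cj τ) : bk τ (tb β) = β := by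
  obtain ⟨h1, h2, h3⟩ := h
  unfold bk tb
  ext1
  · rfl
  · rfl
  · rfl
  · exact h1.symm
  · exact h2.symm
  · exact h3.symm

theorem tO_two (τ : M ≃ₐ[k] M) : tO τ (2 : 𝓞 M) = 2 := by
  have h1 : (2 : 𝓞 M) = 1 + 1 := by norm_num
  have h2 : tO τ (1 : 𝓞 M) = 1 := Pool.Agent.H12.WM.tO_one τ
  rw [h1, tO_add, h2]

theorem mx_fix {τ : M ≃ₐ[k] M} (hτ : Invo k M τ) (b : T3 M) :
    tO τ (mx b (cj τ b)) = mx b (cj τ b) := by
  unfold mx cj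
  rw [tO_sub, tO_add, tO_mul, tO_mul, tO_mul, tO_mul, tO_tO hτ, tO_tO hτ, tO_tO hτ, tO_two]
  ring

theorem E2_eq (τ : M ≃ₐ[k] M) (b : T3 M) :
    E2 τ b = dt b * tO τ (dt b) - mx b (cj τ b) ^ 2 := by
  unfold E2 Ec
  rw [dt_cj]

theorem dl2_eq (τ : M ≃ₐ[k] M) (b : T3 M) :
    dl2 τ b = mx b (cj τ b) ^ 2 - 4 * (dt b * tO τ (dt b)) := by
  unfold dl2 dl
  rw [dt_cj]

theorem E2_fix {τ : M ≃ₐ[k] M} (hτ : Invo k M τ) (b : T3 M) : tO τ (E2 τ b) = E2 τ b := by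
  rw [E2_eq, tO_sub, tO_mul, tO_pow, tO_tO hτ, mx_fix hτ, mul_comm (tO τ (dt b))]

theorem ek_spec {τ : M ≃ₐ[k] M} (hτ : Invo k M τ) (b : T3 M) :
    algebraMap (𝓞 k) (𝓞 M) (ek τ b) = E2 τ b := by
  have h := fixed_int hτ (E2_fix hτ b)
  unfold ek
  rw [dif_pos h]
  exact h.choose_spec

theorem ek_ne {τ : M ≃ₐ[k] M} (hτ : Invo k M τ) {b : T3 M} (h : E2 τ b ≠ 0) : ek τ b ≠ 0 := by
  intro h0
  apply h
  rw [← ek_spec hτ, h0, map_zero]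

/-! ### sizes -/

theorem sz_tO (τ : M ≃ₐ[k] M) (φ : M →+* ℂ) (x : 𝓞 M) :
    sz φ (tO τ x) = sz (φ.comp (τ : M →+* M)) x := rfl

theorem bd_tO (τ : M ≃ₐ[k] M) {R : ℝ} {x : 𝓞 M} (h : Bd R x) : Bd R (tO τ x) :=
  fun φ => h (φ.comp (τ : M →+* M))

/-- the product over the embeddings does not change under `τ` -/
theorem prod_tO {τ : M ≃ₐ[k] M} (hτ : Invo k M τ) (f : (M →+* ℂ) → ℝ) :
    ∏ φ : M →+* ℂ, f (φ.comp (τ : M →+* M)) = ∏ φ : M →+* ℂ, f φ := by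
  have hinv : ∀ φ : M →+* ℂ, (φ.comp (τ : M →+* M)).comp (τ : M →+* M) = φ := by
    intro φ
    ext x
    show φ (τ (τ x)) = φ x
    rw [hτ.inv]
  refine Finset.prod_bij' (fun φ _ => φ.comp (τ : M →+* M)) (fun φ _ => φ.comp (τ : M →+* M))
    (fun _ _ => Finset.mem_univ _) (fun _ _ => Finset.mem_univ _) (fun φ _ => hinv φ)
    (fun φ _ => hinv φ) fun φ _ => rfl

theorem nz_tO {τ : M ≃ₐ[k] M} (hτ : Invo k M τ) (x : 𝓞 M) : nz (tO τ x) = nz x :=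
  prod_tO hτ fun φ => sz φ x

/-! ### conjugate ideals -/

theorem mem_cI {τ : M ≃ₐ[k] M} {h : Ideal (𝓞 M)} {x : 𝓞 M} : x ∈ cI τ h ↔ tO τ x ∈ h := Iff.rfl

theorem cI_cI {τ : M ≃ₐ[k] M} (hτ : Invo k M τ) (h : Ideal (𝓞 M)) : cI τ (cI τ h) = h := by
  ext x
  rw [mem_cI, mem_cI, tO_tO hτ]

theorem cI_mono {τ : M ≃ₐ[k] M} {h h' : Ideal (𝓞 M)} (hh : h ≤ h') : cI τ h ≤ cI τ h' :=
  fun x hx => hh hx

theorem cI_le {τ : M ≃ₐ[k] M} (hτ : Invo k M τ) {h h' : Ideal (𝓞 M)} : cI τ h ≤ cI τ h' ↔ h ≤ h' := by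
  refine ⟨fun hh => ?_, cI_mono⟩
  rw [← cI_cI hτ h, ← cI_cI hτ h']
  exact cI_mono hh

theorem cI_prime {τ : M ≃ₐ[k] M} {w : Ideal (𝓞 M)} (h : w.IsPrime) : (cI τ w).IsPrime :=
  Ideal.comap_isPrime (tR τ) w

theorem cI_ne {τ : M ≃ₐ[k] M} (hτ : Invo k M τ) {h : Ideal (𝓞 M)} (hh : h ≠ ⊥) : cI τ h ≠ ⊥ := by
  intro h0
  apply hh
  rw [eq_bot_iff]
  intro x hx
  have h1 : tO τ x ∈ cI τ h := by
    rw [mem_cI, tO_tO hτ]
    exact hx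
  rw [h0, Ideal.mem_bot] at h1
  rw [Ideal.mem_bot]
  by_contra hx0
  exact tO_ne hx0 h1

/-- `cI` is the ideal of `conj_ideal` -/
theorem cI_tE {τ : M ≃ₐ[k] M} (hτ : Invo k M τ) (h : Ideal (𝓞 M)) :
    cI τ h = h.comap (H77.CO.tE hτ) := by
  ext x
  rfl

theorem ni_cI {τ : M ≃ₐ[k] M} (hτ : Invo k M τ) (h : Ideal (𝓞 M)) : ni (cI τ h) = ni h := by
  unfold ni
  rw [cI_tE hτ, Ideal.absNorm_apply, Ideal.absNorm_apply]
  unfold Submodule.cardQuot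
  congr 1
  refine Nat.card_congr ?_
  refine (Ideal.quotientEquiv (h.comap (H77.CO.tE hτ)) h (H77.CO.tE hτ) ?_).toEquiv
  exact (Ideal.map_comap_of_surjective _ (H77.CO.tE hτ).surjective h).symm

theorem tO_alg {τ : M ≃ₐ[k] M} (x : 𝓞 k) :
    tO τ (algebraMap (𝓞 k) (𝓞 M) x) = algebraMap (𝓞 k) (𝓞 M) x := by
  apply NumberField.RingOfIntegers.coe_injective
  exact τ.commutes (x : k)

theorem ov_cI {τ : M ≃ₐ[k] M} {l : Ideal (𝓞 k)} {w : Ideal (𝓞 M)} (h : Ov l w) : Ov l (cI τ w) := by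
  refine ⟨cI_prime h.1, ?_⟩
  rw [← h.2]
  ext x
  rw [Ideal.mem_comap, Ideal.mem_comap, mem_cI, tO_alg]

theorem inr_cI {τ : M ≃ₐ[k] M} (hτ : Invo k M τ) {m : ℕ} {D : 𝓞 M} {w : Ideal (𝓞 M)}
    (h : Inr m D w) : Inr m (tO τ D) (cI τ w) := by
  have hn : tO τ ((m : ℕ) : 𝓞 M) = (m : 𝓞 M) := map_natCast (tR τ) m
  obtain ⟨h1, h2, h3⟩ := h
  refine ⟨?_, ?_, fun x hx => ?_⟩
  · rw [mem_cI, hn]
    exact h1
  · rw [mem_cI, tO_tO hτ]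
    exact h2
  · rw [mem_cI, tO_add, tO_pow, tO_tO hτ] at hx
    exact h3 _ hx

/-- the primes over `l` are `w` and its conjugate -/
theorem ov_pair {τ : M ≃ₐ[k] M} (hτ : Invo k M τ) {l : Ideal (𝓞 k)} (hl : l ≠ ⊥) {w w' : Ideal (𝓞 M)}
    (h : Ov l w) (h' : Ov l w') : w' = w ∨ w' = cI τ w := by
  have hw0 : w ≠ ⊥ := by
    rintro rfl
    apply hl
    rw [← h.2]
    exact Ideal.comap_bot_of_injective _ (FaithfulSMul.algebraMap_injective (𝓞 k) (𝓞 M))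
  have hw0' : w' ≠ ⊥ := by
    rintro rfl
    apply hl
    rw [← h'.2]
    exact Ideal.comap_bot_of_injective _ (FaithfulSMul.algebraMap_injective (𝓞 k) (𝓞 M))
  haveI := h.1
  haveI := h'.1
  haveI := cI_prime (τ := τ) h.1
  have hm := Ring.DimensionLEOne.maximalOfPrime hw0' h'.1
  have hle : w' ≤ w ∨ w' ≤ cI τ w := by
    by_contra hcon
    push Not at hcon
    obtain ⟨h1, h2⟩ := hcon
    obtain ⟨x, hx, hx1⟩ := Set.not_subset.1 h1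
    obtain ⟨y, hy, hy1⟩ := Set.not_subset.1 h2
    -- an element of `w'` which is not in `w` and not in `cI w`
    obtain ⟨z, hz, hz1, hz2⟩ : ∃ z ∈ w', z ∉ w ∧ z ∉ cI τ w := by
      by_cases hxc : x ∈ cI τ w
      · by_cases hyw : y ∈ w
        · exact ⟨x + y, w'.add_mem hx hy, fun hh => hx1 ((Submodule.add_mem_iff_left _ hyw).1 hh),
            fun hh => hy1 ((Submodule.add_mem_iff_right _ hxc).1 hh)⟩
        · exact ⟨y, hy, hyw, hy1⟩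
      · exact ⟨x, hx, hx1, hxc⟩
    have hfix : tO τ (z * tO τ z) = z * tO τ z := by
      rw [tO_mul, tO_tO hτ, mul_comm]
    obtain ⟨n, hn⟩ := fixed_int hτ hfix
    have h3 : n ∈ l := by
      rw [← h'.2, Ideal.mem_comap, hn]
      exact Ideal.mul_mem_right _ _ hz
    rw [← h.2, Ideal.mem_comap, hn] at h3
    rcases h.1.mem_or_mem h3 with h4 | h4
    · exact hz1 h4
    · exact hz2 h4
  rcases hle with h1 | h1
  · exact Or.inl (hm.eq_of_le h.1.ne_top h1)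
  · exact Or.inr (hm.eq_of_le (cI_prime (τ := τ) h.1).ne_top h1)

end H88.AQ
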